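import Pool.Agent.Lib.MP_bd65ca_an.Scale
import Pool.Agent.Lib.MP_bd65ca_an.Dense

/-!
# The Turán problem for zonotopes: linear invariance

PROOF. Let `A : E d ≃L[ℝ] E d`, `N` the adjoint of `A⁻¹`, `F ∈ cls (A '' K)` and
`G x = F (N x)`.  `G` is continuous, integrable (`N` is a linear equivalence; `|det N| = |det A|⁻¹`),
`≥ 0`, `G 0 = F 0 ≥ 1`, `∫ G = |det N|⁻¹ ∫ F = |det A| ∫ F`
(`MeasureTheory.Measure.integral_comp_linear`-type lemma:
`integral_image_eq_integral_abs_det_fderiv_smul`, or `map_linearMap_addHaar_eq_smul_addHaar`), and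
`𝓕 G ξ = |det A| 𝓕 F (A ξ)`, because `⟪x, ξ⟫ = ⟪N x, A ξ⟫`.  So the support of `𝓕 G` is in
`A⁻¹ (A '' K) = K` (see `cls_isometry` in Scale.lean).  Hence `turan K ≤ |det A| ∫ F` for all
`F ∈ cls (A '' K)`, `turan K ≤ |det A| * turan (A '' K)` (`le_csInf`, the class is nonempty:
`cls_trivial` in Dense.lean; or if the class is empty both sides ... it is not empty), and
`volume.real (A '' K) = |det A| * volume.real K` (`addHaar_image_linearMap`).
`body_lin`: images of compact convex symmetric sets with interior points under a linear homeomorphism.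
-/

open MeasureTheory FourierTransform Pointwise Set Filter Topology
open scoped RealInnerProductSpace

namespace Pool.Agent.MPbd65ca.Zo

variable {d : ℕ}

/-- The inverse adjoint and the change of variables. -/
private theorem Inv_adj (A : E d ≃L[ℝ] E d) : ∃ (a : ℝ) (N : E d ≃L[ℝ] E d), 0 < a ∧
    (∀ x ξ, ⟪N x, A ξ⟫ = ⟪x, ξ⟫) ∧
    (∀ {W : Type} [NormedAddCommGroup W] [NormedSpace ℝ W] (f : E d → W),
      ∫ x, f (N x) = a • ∫ x, f x) ∧
    (∀ f : E d → ℝ, Integrable f → Integrable fun x => f (N x)) ∧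
    ∀ K : Set (E d), volume.real (A '' K) = a * volume.real K := by
  have hadj : ∀ f : E d →ₗ[ℝ] E d, LinearMap.det (LinearMap.adjoint f) = LinearMap.det f := by
    intro f
    have b := EuclideanSpace.basisFun (Fin d) ℝ
    rw [← LinearMap.det_toMatrix b.toBasis, LinearMap.toMatrix_adjoint b b,
      Matrix.det_conjTranspose, LinearMap.det_toMatrix]
    simp
  let N : E d ≃L[ℝ] E d := ContinuousLinearEquiv.equivOfInverse
    (ContinuousLinearMap.adjoint (A.symm : E d →L[ℝ] E d))
    (ContinuousLinearMap.adjoint (A : E d →L[ℝ] E d))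
    (fun x => by
      refine ext_inner_right ℝ fun y => ?_
      rw [ContinuousLinearMap.adjoint_inner_left, ContinuousLinearMap.adjoint_inner_left]
      simp)
    (fun x => by
      refine ext_inner_right ℝ fun y => ?_
      rw [ContinuousLinearMap.adjoint_inner_left, ContinuousLinearMap.adjoint_inner_left]
      simp)
  have hNx : ∀ x ξ, ⟪N x, A ξ⟫ = ⟪x, ξ⟫ := by
    intro x ξ
    change ⟪ContinuousLinearMap.adjoint (A.symm : E d →L[ℝ] E d) x, A ξ⟫ = _
    rw [ContinuousLinearMap.adjoint_inner_left]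
    simp
  have hdA : LinearMap.det (A : E d →ₗ[ℝ] E d) ≠ 0 :=
    (LinearEquiv.isUnit_det' A.toLinearEquiv).ne_zero
  have hdN : LinearMap.det (N : E d →ₗ[ℝ] E d) = (LinearMap.det (A : E d →ₗ[ℝ] E d))⁻¹ := by
    have e1 : (N : E d →ₗ[ℝ] E d) = LinearMap.adjoint (A.symm : E d →ₗ[ℝ] E d) := by
      refine LinearMap.ext fun x => ?_
      refine ext_inner_right ℝ fun y => ?_
      rw [LinearMap.adjoint_inner_left]
      change ⟪ContinuousLinearMap.adjoint (A.symm : E d →L[ℝ] E d) x, y⟫ = _
      rw [ContinuousLinearMap.adjoint_inner_left]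
      rfl
    rw [e1, hadj]
    have e2 : LinearMap.det (A.symm : E d →ₗ[ℝ] E d) * LinearMap.det (A : E d →ₗ[ℝ] E d) = 1 := by
      rw [← LinearMap.det_comp]
      have : (A.symm : E d →ₗ[ℝ] E d) ∘ₗ (A : E d →ₗ[ℝ] E d) = LinearMap.id := by
        ext1 x
        simp
      rw [this, LinearMap.det_id]
    exact eq_inv_of_mul_eq_one_left e2
  have hmap : Measure.map N (volume : Measure (E d)) =
      ENNReal.ofReal |LinearMap.det (A : E d →ₗ[ℝ] E d)| • volume := by
    have := Measure.map_linearMap_addHaar_eq_smul_addHaar (volume : Measure (E d))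
      (f := (N : E d →ₗ[ℝ] E d)) (by rw [hdN]; exact inv_ne_zero hdA)
    rw [hdN, inv_inv] at this
    exact this
  have hme : MeasurableEmbedding N := N.toHomeomorph.measurableEmbedding
  refine ⟨|LinearMap.det (A : E d →ₗ[ℝ] E d)|, N, abs_pos.2 hdA, hNx, ?_, ?_, ?_⟩
  · intro W _ _ f
    rw [← hme.integral_map f, hmap, integral_smul_measure, ENNReal.toReal_ofReal (abs_nonneg _)]
  · intro f hf
    have := hf.smul_measure (c := ENNReal.ofReal |LinearMap.det (A : E d →ₗ[ℝ] E d)|)
      ENNReal.ofReal_ne_top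
    rw [← hmap, hme.integrable_map_iff] at this
    exact this
  · intro K
    rw [measureReal_def, measureReal_def]
    have := Measure.addHaar_image_continuousLinearEquiv (volume : Measure (E d)) A K
    rw [this, ENNReal.toReal_mul, ENNReal.toReal_ofReal (abs_nonneg _)]

theorem body_lin (A : E d ≃L[ℝ] E d) {K : Set (E d)} (hK : IsBody K) : IsBody (A '' K) := by
  refine ⟨hK.isCompact.image A.continuous, hK.convex.is_linear_image A.toLinearEquiv.isLinear,
    ?_, ?_⟩
  · have := A.toHomeomorph.image_interior K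
    have h2 : interior (A '' K) = A '' interior K := this.symm
    rw [h2]
    exact hK.nonempty_interior.image _
  · rintro _ ⟨x, hx, rfl⟩
    exact ⟨-x, hK.neg_mem x hx, by simp⟩

theorem turan_lin (A : E d ≃L[ℝ] E d) {K : Set (E d)} (hK : IsBody K)
    (h : turan (A '' K) < 2 ^ d / volume.real (A '' K)) : turan K < 2 ^ d / volume.real K := by
  obtain ⟨a, N, ha, hN, hint, hinb, hvol⟩ := Inv_adj A
  have hb := body_lin A hK
  have hv := ScaleAux.vol_pos hK
  have hle : turan K ≤ a * turan (A '' K) := by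
    rw [← div_le_iff₀' ha]
    obtain ⟨F0, hF0, _⟩ := cls_trivial hb
    refine le_csInf (Set.Nonempty.image _ ⟨F0, hF0⟩) ?_
    rintro _ ⟨F, hF, rfl⟩
    rw [div_le_iff₀' ha]
    obtain ⟨h1, h2, h3, h4, h5⟩ := hF
    have hG : (fun x => F (N x)) ∈ cls K := by
      refine ⟨h1.comp N.continuous, hinb F h2, fun x => h3 _, ?_, ?_⟩
      · show 1 ≤ F (N 0)
        rw [map_zero]
        exact h4
      · have e : ∀ ξ : E d, 𝓕 (fun x => ((F (N x) : ℝ) : ℂ)) ξ =
            a • 𝓕 (fun x => (F x : ℂ)) (A ξ) := by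
          intro ξ
          rw [Real.fourier_eq, Real.fourier_eq]
          rw [← hint fun v : E d => Real.fourierChar (-⟪v, A ξ⟫) • (F v : ℂ)]
          congr 1
          funext x
          rw [hN]
        refine (ScaleAux.tsupport_sub (g := 𝓕 (fun x => (F x : ℂ))) (T := A)
          A.continuous (fun x hx => ?_)).trans ?_
        · rw [e, hx, smul_zero]
        · intro x hx
          obtain ⟨y, hy, hyx⟩ := h5 hx
          rw [← A.injective hyx]
          exact hy
    have h6 : ∫ x, F (N x) = a * ∫ x, F x := by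
      have := hint F
      rw [smul_eq_mul] at this
      exact this
    show turan K ≤ a * ∫ x, F x
    rw [← h6]
    exact csInf_le (ScaleAux.turan_bdd K) ⟨_, hG, rfl⟩
  calc turan K ≤ a * turan (A '' K) := hle
    _ < a * (2 ^ d / volume.real (A '' K)) := by
        exact mul_lt_mul_of_pos_left h ha
    _ = 2 ^ d / volume.real K := by
        rw [hvol K]
        field_simp

end Pool.Agent.MPbd65ca.Zo
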