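import Pool.Agent.Lib.MP_bd65ca_an_Z.Defs
import Pool.Agent.Lib.MP_bd65ca_an.Gen.Avoid

/-!
# The Turán problem for zonotopes: heights in general position

PROOF. `exists_avoid_fun`: for finitely many nonzero vectors `w i : Fin n → ℝ` there is `c` with
`∑ l, w i l * c l ≠ 0` for all `i` (this is `exists_avoid` of Gen/Avoid.lean in `E n`, with
`⟪c, w⟫ = ∑ c l * w l`).
`exists_gp`: for every dependent `S : Finset (Fin n)` choose a nonzero relation `α^S` with
support in
`S` (`Fintype.not_linearIndependent_iff`, extended by `0`); take `w` = these vectors.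
`exists_hgt`: let `g : Fin (p + q) → E (2 + m)`.  Three finite families of nonzero vectors in
`Fin (p + q) → ℝ`: the relations `α^S` of the dependent subsets `S` of `Fin (p + q)` for `g`; the
relations of the dependent subsets of `Fin p` for `gP g`, extended by `0` (`Fin.append α 0`); the
relations of the dependent subsets of `Fin q` for `gI g` (`Fin.append 0 α`).  Let `c` avoid all
of them
and `c0 h = c (castAdd h)`, `c1 i = c (natAdd i)`.  Then `Gp (gP g) c0` and `Gp (gI g) c1`.  For a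
dependent `S` and its `α = α^S` put `u = ∑_h α (castAdd h) * c0 h`, `w = ∑_i α (natAdd i) * c1 i`
(`Fin.sum_univ_add`); `u + w ≠ 0`, and `∑ α * hgt c0 c1 N = N u + w`.  If `u = 0` this is `w ≠ 0`;
otherwise it is `≠ 0` as soon as `N > |w| / |u|`.  Let `N₀` be larger than these finitely many
numbers
(e.g. the sum of all of them plus `1`).
-/

open MeasureTheory FourierTransform Pointwise Set
open scoped RealInnerProductSpace

namespace Pool.Agent.MPbd65ca.Zo

/-- A dependent subfamily has a nonzero relation with support in it. -/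
private theorem hts_rel {d n : ℕ} (g : Fin n → E d) (S : Finset (Fin n))
    (h : ¬ LinearIndependent ℝ (fun i : S => g i)) :
    ∃ α : Fin n → ℝ, α ≠ 0 ∧ (∀ i, i ∉ S → α i = 0) ∧ ∑ i, α i • g i = 0 := by
  classical
  obtain ⟨a, ha, i, hi⟩ := Fintype.not_linearIndependent_iff.mp h
  refine ⟨fun j => if hj : j ∈ S then a ⟨j, hj⟩ else 0, ?_, ?_, ?_⟩
  · intro h0
    have h1 := congrFun h0 i
    simp only [Finset.coe_mem, dif_pos, Pi.zero_apply] at h1
    exact hi h1
  · intro j hj
    simp only [dif_neg hj]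
  · have h1 : ∑ j, (if hj : j ∈ S then a ⟨j, hj⟩ else 0) • g j =
        ∑ j ∈ S, (if hj : j ∈ S then a ⟨j, hj⟩ else 0) • g j := by
      refine (Finset.sum_subset (Finset.subset_univ S) fun j _ hj => ?_).symm
      rw [dif_neg hj, zero_smul]
    rw [h1, ← Finset.sum_coe_sort S, ← ha]
    refine Finset.sum_congr rfl fun j _ => ?_
    rw [dif_pos j.2]

/-- Finitely many nonzero relations which serve all dependent subfamilies. -/
private theorem hts_fin {d n : ℕ} (g : Fin n → E d) :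
    ∃ F : Finset (Fin n → ℝ), (∀ α ∈ F, α ≠ 0) ∧
      ∀ S : Finset (Fin n), ¬ LinearIndependent ℝ (fun i : S => g i) →
        ∃ α ∈ F, (∀ i, i ∉ S → α i = 0) ∧ ∑ i, α i • g i = 0 := by
  classical
  have h : ∀ S : {S : Finset (Fin n) // ¬ LinearIndependent ℝ (fun i : S => g i)},
      ∃ α : Fin n → ℝ, α ≠ 0 ∧ (∀ i, i ∉ S.1 → α i = 0) ∧ ∑ i, α i • g i = 0 :=
    fun S => hts_rel g S.1 S.2
  choose A hA0 hA1 hA2 using h
  refine ⟨Finset.univ.image A, ?_, ?_⟩
  · intro α hα
    obtain ⟨S, -, rfl⟩ := Finset.mem_image.mp hα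
    exact hA0 S
  · intro S hS
    exact ⟨A ⟨S, hS⟩, Finset.mem_image_of_mem _ (Finset.mem_univ _), hA1 ⟨S, hS⟩, hA2 ⟨S, hS⟩⟩

theorem exists_avoid_fun {ι : Type*} {n : ℕ} (s : Finset ι) (w : ι → Fin n → ℝ)
    (hw : ∀ i ∈ s, w i ≠ 0) : ∃ c : Fin n → ℝ, ∀ i ∈ s, ∑ l, w i l * c l ≠ 0 := by
  have hw' : ∀ i ∈ s, (WithLp.toLp 2 (w i) : E n) ≠ 0 := by
    intro i hi h0
    apply hw i hi
    funext l
    exact congrArg (fun v : E n => v l) h0
  obtain ⟨v, -, hv⟩ := exists_avoid s (fun i => (WithLp.toLp 2 (w i) : E n)) hw' 0 one_pos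
  refine ⟨fun l => v l, fun i hi h0 => hv i hi ?_⟩
  rw [← h0, PiLp.inner_apply]
  refine Finset.sum_congr rfl fun l _ => ?_
  simp

theorem exists_gp {d n : ℕ} (g : Fin n → E d) : ∃ c : Fin n → ℝ, Gp g c := by
  obtain ⟨F, hF0, hF⟩ := hts_fin g
  obtain ⟨c, hc⟩ := exists_avoid_fun F (fun α => α) hF0
  refine ⟨c, fun S hS => ?_⟩
  obtain ⟨α, hα, h1, h2⟩ := hF S hS
  exact ⟨α, h1, h2, hc α hα⟩

theorem exists_hgt {m p q : ℕ} (g : Fin (p + q) → E (2 + m)) :
    ∃ (c0 : Fin p → ℝ) (c1 : Fin q → ℝ) (N₀ : ℝ), Gp (gP g) c0 ∧ Gp (gI g) c1 ∧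
      ∀ N : ℝ, N₀ ≤ N → Gp g (hgt c0 c1 N) := by
  classical
  obtain ⟨F, hF0, hF⟩ := hts_fin g
  obtain ⟨G, hG0, hG⟩ := hts_fin (gP g)
  obtain ⟨H, hH0, hH⟩ := hts_fin (gI g)
  obtain ⟨c, hc⟩ := exists_avoid_fun
    (F ∪ (G.image (fun α => Fin.append α (0 : Fin q → ℝ)) ∪
      H.image (fun α => Fin.append (0 : Fin p → ℝ) α))) (fun α => α) (by
      intro α hα
      rcases Finset.mem_union.mp hα with h1 | h1
      · exact hF0 α h1
      rcases Finset.mem_union.mp h1 with h2 | h2
      · obtain ⟨β, hβ, rfl⟩ := Finset.mem_image.mp h2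
        intro h0
        apply hG0 β hβ
        funext l
        have h3 := congrFun h0 (Fin.castAdd q l)
        rwa [Fin.append_left] at h3
      · obtain ⟨β, hβ, rfl⟩ := Finset.mem_image.mp h2
        intro h0
        apply hH0 β hβ
        funext l
        have h3 := congrFun h0 (Fin.natAdd p l)
        rwa [Fin.append_right] at h3)
  refine ⟨fun h => c (Fin.castAdd q h), fun i => c (Fin.natAdd p i),
    1 + ∑ α ∈ F, |∑ i, α (Fin.natAdd p i) * c (Fin.natAdd p i)| /
      |∑ h, α (Fin.castAdd q h) * c (Fin.castAdd q h)|, ?_, ?_, ?_⟩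
  · intro S hS
    obtain ⟨α, hα, h1, h2⟩ := hG S hS
    refine ⟨α, h1, h2, ?_⟩
    have h3 := hc (Fin.append α (0 : Fin q → ℝ)) (Finset.mem_union_right _
      (Finset.mem_union_left _ (Finset.mem_image_of_mem _ hα)))
    rw [Fin.sum_univ_add] at h3
    simpa only [Fin.append_left, Fin.append_right, Pi.zero_apply, zero_mul,
      Finset.sum_const_zero, add_zero] using h3
  · intro S hS
    obtain ⟨α, hα, h1, h2⟩ := hH S hS
    refine ⟨α, h1, h2, ?_⟩
    have h3 := hc (Fin.append (0 : Fin p → ℝ) α) (Finset.mem_union_right _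
      (Finset.mem_union_right _ (Finset.mem_image_of_mem _ hα)))
    rw [Fin.sum_univ_add] at h3
    simpa only [Fin.append_left, Fin.append_right, Pi.zero_apply, zero_mul,
      Finset.sum_const_zero, zero_add] using h3
  · intro N hN S hS
    obtain ⟨α, hα, h1, h2⟩ := hF S hS
    refine ⟨α, h1, h2, ?_⟩
    have h3 := hc α (Finset.mem_union_left _ hα)
    rw [Fin.sum_univ_add] at h3
    rw [Fin.sum_univ_add]
    simp only [hgt, Fin.append_left, Fin.append_right]
    have h4 : |∑ i, α (Fin.natAdd p i) * c (Fin.natAdd p i)| /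
        |∑ h, α (Fin.castAdd q h) * c (Fin.castAdd q h)| ≤
        ∑ α ∈ F, |∑ i, α (Fin.natAdd p i) * c (Fin.natAdd p i)| /
      |∑ h, α (Fin.castAdd q h) * c (Fin.castAdd q h)| :=
      Finset.single_le_sum (f := fun α : Fin (p + q) → ℝ =>
        |∑ i, α (Fin.natAdd p i) * c (Fin.natAdd p i)| /
          |∑ h, α (Fin.castAdd q h) * c (Fin.castAdd q h)|)
        (fun β _ => div_nonneg (abs_nonneg _) (abs_nonneg _)) hα
    have h5 : ∑ h, α (Fin.castAdd q h) * (N * c (Fin.castAdd q h)) =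
        N * ∑ h, α (Fin.castAdd q h) * c (Fin.castAdd q h) := by
      rw [Finset.mul_sum]
      exact Finset.sum_congr rfl fun h _ => by ring
    rw [h5]
    generalize (∑ i, α (Fin.natAdd p i) * c (Fin.natAdd p i)) = w at h3 h4 ⊢
    generalize (∑ h, α (Fin.castAdd q h) * c (Fin.castAdd q h)) = u at h3 h4 ⊢
    rcases eq_or_ne u 0 with hu | hu
    · rw [hu, zero_add] at h3
      rw [hu, mul_zero, zero_add]
      exact h3
    · have hu' : 0 < |u| := abs_pos.mpr hu
      have h6 : |w| / |u| < N := by linarith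
      have h7 : 0 < N := lt_of_le_of_lt (div_nonneg (abs_nonneg _) (abs_nonneg _)) h6
      intro h8
      have h9 : w = -(N * u) := by linarith
      rw [div_lt_iff₀ hu', h9, abs_neg, abs_mul, abs_of_pos h7] at h6
      exact lt_irrefl _ h6

end Pool.Agent.MPbd65ca.Zo
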