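import Pool.Agent.Lib.MP_bd65ca_an_Z.Join

/-!
# The Turán problem for zonotopes: the signs for large outer heights

PROOF. Let `a ∈ bas (gP g)`, `B ∈ bas (gI g)`, `b = jn a B`, heights `hgt c0 c1 N`.  Write `ζ` for
`zeta g (hgt c0 c1 N) b`, `ζP = fstE ζ`, `ζI = sndE ζ`.  By `zeta_spec` at `natAdd 2 i` and
`inner_split` (Prod.lean) `⟪gI g (B i), ζI⟫ = c1 (B i)` (the planar part of `g (natAdd ..)` is `0`),
so
`ζI = zeta (gI g) c1 B` (`zeta_unique`).  Hence for every inner index `i`: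
`rr g (hgt c0 c1 N) b (natAdd i) = rr (gI g) c1 B i`; and `natAdd i ∈ range b ↔ i ∈ range B`.  So
the
signs agree (`sg_jn_inner`, for every `N`).
Outer indices: by `zeta_spec` at `castAdd i`, `⟪gP g (a i), ζP⟫ = N * c0 (a i) - e (a i)` with
`e h = ⟪sndE (g (castAdd h)), ζI⟫`, which does not depend on `N`.  Hence
`ζP = N • zeta (gP g) c0 a - ξ`, where `ξ` is the vector with `⟪gP g (a i), ξ⟫ = e (a i)`
(`ξ = zeta (gP g) e a`; use `zeta_unique`), and
`rr g (hgt c0 c1 N) b (castAdd h) = N * rr (gP g) c0 a h - (e h - ⟪gP g h, ξ⟫)`.  For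
`h ∉ range a` we have `rr (gP g) c0 a h ≠ 0` (`rr_ne`), so for
`N > |e h - ⟪gP g h, ξ⟫| / |rr (gP g) c0 a h|` the signs agree.  Take `N₀` larger than these
finitely
many numbers, `a ∈ bas (gP g)`, `B ∈ bas (gI g)`, `h`; for `h ∈ range a` both `sg` are `0`.
`cen_jn`: `∑` over `Fin (p + q)` splits by `Fin.sum_univ_add`.
-/

open MeasureTheory FourierTransform Pointwise Set
open scoped RealInnerProductSpace

namespace Pool.Agent.MPbd65ca.Zo

variable {m p q : ℕ} {g : Fin (p + q) → E (2 + m)}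

private lemma li_of {d n : ℕ} {g : Fin n → E d} {b : Fin d → Fin n} (hb : b ∈ bas g) :
    LinearIndependent ℝ (fun j => g (b j)) := (mem_bas.1 hb).2

private lemma inner_nat (hg : Inn g) (i : Fin q) (ζ : E (2 + m)) :
    ⟪g (Fin.natAdd p i), ζ⟫ = ⟪gI g i, sndE ζ⟫ := by
  rw [ProdAux.inner_split, hg i, inner_zero_left, zero_add]
  rfl

private lemma inner_cast (h : Fin p) (ζ : E (2 + m)) :
    ⟪g (Fin.castAdd q h), ζ⟫ =
      ⟪gP g h, fstE ζ⟫ + ⟪sndE (g (Fin.castAdd q h)), sndE ζ⟫ := by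
  rw [ProdAux.inner_split]
  rfl

private lemma hgt_nat (c0 : Fin p → ℝ) (c1 : Fin q → ℝ) (N : ℝ) (i : Fin q) :
    hgt c0 c1 N (Fin.natAdd p i) = c1 i := by
  simp [hgt]

private lemma hgt_cast (c0 : Fin p → ℝ) (c1 : Fin q → ℝ) (N : ℝ) (h : Fin p) :
    hgt c0 c1 N (Fin.castAdd q h) = N * c0 h := by
  simp [hgt]

private lemma snd_zeta (hg : Inn g) (c0 : Fin p → ℝ) (c1 : Fin q → ℝ) (N : ℝ)
    {a : Fin 2 → Fin p} {B : Fin m → Fin q} (ha : a ∈ bas (gP g)) (hB : B ∈ bas (gI g)) :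
    sndE (zeta g (hgt c0 c1 N) (jn a B)) = zeta (gI g) c1 B := by
  apply zeta_unique (li_of hB)
  intro j
  have h1 := zeta_spec (c := hgt c0 c1 N) (li_of (jn_mem hg ha hB)) (Fin.natAdd 2 j)
  rw [jn_right, inner_nat hg, hgt_nat] at h1
  exact h1

private lemma rr_nat (hg : Inn g) (c0 : Fin p → ℝ) (c1 : Fin q → ℝ) (N : ℝ)
    {a : Fin 2 → Fin p} {B : Fin m → Fin q} (ha : a ∈ bas (gP g)) (hB : B ∈ bas (gI g))
    (i : Fin q) :
    rr g (hgt c0 c1 N) (jn a B) (Fin.natAdd p i) = rr (gI g) c1 B i := by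
  unfold rr
  rw [inner_nat hg, hgt_nat, snd_zeta hg c0 c1 N ha hB]

private lemma nat_range (a : Fin 2 → Fin p) (B : Fin m → Fin q) (i : Fin q) :
    Fin.natAdd p i ∈ range (jn a B) ↔ i ∈ range B := by
  constructor
  · rintro ⟨j, hj⟩
    induction j using Fin.addCases with
    | left j =>
      rw [jn_left] at hj
      exfalso
      have h1 := congrArg Fin.val hj
      simp only [Fin.val_castAdd, Fin.val_natAdd] at h1
      have := (a j).isLt
      omega
    | right j =>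
      rw [jn_right] at hj
      exact ⟨j, Fin.natAdd_injective _ _ hj⟩
  · rintro ⟨j, rfl⟩
    exact ⟨Fin.natAdd 2 j, jn_right a B j⟩

private lemma cast_range (a : Fin 2 → Fin p) (B : Fin m → Fin q) (h : Fin p) :
    Fin.castAdd q h ∈ range (jn a B) ↔ h ∈ range a := by
  constructor
  · rintro ⟨j, hj⟩
    induction j using Fin.addCases with
    | left j =>
      rw [jn_left] at hj
      exact ⟨j, Fin.castAdd_injective _ _ hj⟩
    | right j =>
      rw [jn_right] at hj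
      exfalso
      have h1 := congrArg Fin.val hj
      simp only [Fin.val_castAdd, Fin.val_natAdd] at h1
      have := h.isLt
      omega
  · rintro ⟨j, rfl⟩
    exact ⟨Fin.castAdd m j, jn_left a B j⟩

/-- The heights of the outer generators which come from the inner ones. -/
private noncomputable def eh (g : Fin (p + q) → E (2 + m)) (c1 : Fin q → ℝ) (B : Fin m → Fin q)
    (h : Fin p) : ℝ := ⟪sndE (g (Fin.castAdd q h)), zeta (gI g) c1 B⟫

private lemma fst_zeta (hg : Inn g) (c0 : Fin p → ℝ) (c1 : Fin q → ℝ) (N : ℝ)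
    {a : Fin 2 → Fin p} {B : Fin m → Fin q} (ha : a ∈ bas (gP g)) (hB : B ∈ bas (gI g)) :
    fstE (zeta g (hgt c0 c1 N) (jn a B)) =
      N • zeta (gP g) c0 a - zeta (gP g) (eh g c1 B) a := by
  have hl := li_of ha
  have h1 : fstE (zeta g (hgt c0 c1 N) (jn a B)) =
      zeta (gP g) (fun h => N * c0 h - eh g c1 B h) a := by
    apply zeta_unique hl
    intro j
    have h2 := zeta_spec (c := hgt c0 c1 N) (li_of (jn_mem hg ha hB)) (Fin.castAdd m j)
    rw [jn_left, inner_cast, hgt_cast, snd_zeta hg c0 c1 N ha hB] at h2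
    unfold eh
    linarith
  have h3 : N • zeta (gP g) c0 a - zeta (gP g) (eh g c1 B) a =
      zeta (gP g) (fun h => N * c0 h - eh g c1 B h) a := by
    apply zeta_unique hl
    intro j
    rw [inner_sub_right, real_inner_smul_right, zeta_spec hl, zeta_spec hl]
  rw [h1, h3]

private lemma rr_cast (hg : Inn g) (c0 : Fin p → ℝ) (c1 : Fin q → ℝ) (N : ℝ)
    {a : Fin 2 → Fin p} {B : Fin m → Fin q} (ha : a ∈ bas (gP g)) (hB : B ∈ bas (gI g))
    (h : Fin p) :
    rr g (hgt c0 c1 N) (jn a B) (Fin.castAdd q h) =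
      N * rr (gP g) c0 a h - rr (gP g) (eh g c1 B) a h := by
  unfold rr
  rw [inner_cast, hgt_cast, snd_zeta hg c0 c1 N ha hB, fst_zeta hg c0 c1 N ha hB,
    inner_sub_right, real_inner_smul_right]
  have h1 : ⟪sndE (g (Fin.castAdd q h)), zeta (gI g) c1 B⟫ = eh g c1 B h := rfl
  rw [h1]
  ring

theorem sg_jn_inner (hg : Inn g) (c0 : Fin p → ℝ) (c1 : Fin q → ℝ) (N : ℝ) {a : Fin 2 → Fin p}
    {B : Fin m → Fin q} (ha : a ∈ bas (gP g)) (hB : B ∈ bas (gI g)) (i : Fin q) :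
    sg g (hgt c0 c1 N) (jn a B) (Fin.natAdd p i) = sg (gI g) c1 B i := by
  unfold sg
  rw [rr_nat hg c0 c1 N ha hB]
  by_cases h : i ∈ range B
  · rw [if_pos ((nat_range a B i).2 h), if_pos h]
  · rw [if_neg (fun h' => h ((nat_range a B i).1 h')), if_neg h]

theorem sg_jn_outer (hg : Inn g) {c0 : Fin p → ℝ} (hc0 : Gp (gP g) c0) (c1 : Fin q → ℝ) :
    ∃ N₀ : ℝ, ∀ N : ℝ, N₀ ≤ N → ∀ a ∈ bas (gP g), ∀ B ∈ bas (gI g), ∀ h : Fin p,
      sg g (hgt c0 c1 N) (jn a B) (Fin.castAdd q h) = sg (gP g) c0 a h := by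
  classical
  let f : (Fin 2 → Fin p) × (Fin m → Fin q) × Fin p → ℝ := fun u =>
    |rr (gP g) (eh g c1 u.2.1) u.1 u.2.2| / |rr (gP g) c0 u.1 u.2.2|
  obtain ⟨M, hM⟩ := ((bas (gP g) ×ˢ bas (gI g) ×ˢ Finset.univ).image f).exists_le
  refine ⟨M + 1, fun N hN a ha B hB h => ?_⟩
  have h1 : f (a, B, h) ≤ M := by
    apply hM
    rw [Finset.mem_image]
    exact ⟨(a, B, h), by simp [ha, hB], rfl⟩
  unfold sg
  rw [rr_cast hg c0 c1 N ha hB]
  by_cases hh : h ∈ range a
  · rw [if_pos ((cast_range a B h).2 hh), if_pos hh]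
  · rw [if_neg (fun h' => hh ((cast_range a B h).1 h')), if_neg hh]
    have h2 : rr (gP g) c0 a h ≠ 0 := rr_ne hc0 (li_of ha) hh
    have h3 : 0 < |rr (gP g) c0 a h| := abs_pos.2 h2
    have h4 : |rr (gP g) (eh g c1 B) a h| < N * |rr (gP g) c0 a h| := by
      rw [← div_lt_iff₀ h3]
      have h5 : |rr (gP g) (eh g c1 B) a h| / |rr (gP g) c0 a h| ≤ M := h1
      linarith
    have h6 := abs_lt.1 h4
    by_cases h7 : 0 < rr (gP g) c0 a h
    · rw [abs_of_pos h7] at h6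
      rw [if_pos h7, if_pos (by linarith [h6.2])]
    · have h8 : rr (gP g) c0 a h < 0 := lt_of_le_of_ne (not_lt.1 h7) h2
      rw [abs_of_neg h8] at h6
      rw [if_neg h7, if_neg (by
        intro h9
        linarith [h6.1])]

end Pool.Agent.MPbd65ca.Zo
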