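import Pool.Agent.Lib.MP_bd65ca_an_Z.Trans
import Pool.Agent.Lib.MP_bd65ca_an_Z.Signs
import Pool.Agent.Lib.MP_bd65ca_an_Z.Hts

/-!
# The Turán problem for zonotopes: the terms with two outer generators together

PROOF. Let `c0`, `c1`, `N₀` be from `exists_hgt`, `N₀'` from `sg_jn_outer`, `N` the maximum.  Apply
`cosT_zono` for `g` with the heights `hgt c0 c1 N`, and split the sum by `sum_bas`.  The term of
`jn a B`: `vdet_jn`; the product over `Fin (2 + m)` splits (`Fin.prod_univ_add`), and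
`⟪t, g (natAdd i)⟫ = ⟪sndE t, gI g i⟫` (`inner_split`, `Inn`); the exponential: by `sg_jn_inner`,
`sg_jn_outer` `⟪t, cen⟫ = ∑_h sg (gP g) c0 a h * ⟪t, g (castAdd h)⟫ + ⟪sndE t, cen (gI g) c1 B⟫`
(`Fin.sum_univ_add`), so the term is the product of the term of `a` in `Mn` and of the term of `B` in
`cosT_zono` for `gI g` with the heights `c1` at `sndE t`.  Summation gives
`cosT (zono (gI g)) (sndE t) * Mn g c0 t`.  The terms of `rst g` are estimated by the triangle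
inequality (`‖fourierChar‖ = 1`).
-/

open MeasureTheory FourierTransform Pointwise Set
open scoped RealInnerProductSpace

namespace Pool.Agent.MPbd65ca.Zo

variable {m p q : ℕ} {g : Fin (p + q) → E (2 + m)}

private theorem Asm_inner (hg : Inn g) (t : E (2 + m)) (i : Fin q) :
    ⟪t, g (Fin.natAdd p i)⟫ = ⟪sndE t, gI g i⟫ := by
  rw [ProdAux.inner_split, hg i, inner_zero_right, zero_add]
  rfl

private theorem Asm_char (x y : ℝ) : (Real.fourierChar (-(x + y)) : ℂ) =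
    (Real.fourierChar (-x) : ℂ) * (Real.fourierChar (-y) : ℂ) := by
  rw [neg_add, AddChar.map_add_eq_mul, Circle.coe_mul]

theorem asm (hg : Inn g) : ∃ c0 : Fin p → ℝ, Gp (gP g) c0 ∧ ∀ t : E (2 + m),
    ‖(cosT (zono g) t : ℂ) - (cosT (zono (gI g)) (sndE t) : ℂ) * Mn g c0 t‖ ≤
      ∑ b ∈ rst g, vdet (fun j => g (b j)) * ∏ j, |Real.sinc (Real.pi * ⟪t, g (b j)⟫)| := by
  obtain ⟨c0, c1, N₀, h0, h1, hN⟩ := exists_hgt g
  obtain ⟨N₀', hN'⟩ := sg_jn_outer hg h0 c1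
  refine ⟨c0, h0, fun t => ?_⟩
  have hc := hN (max N₀ N₀') (le_max_left _ _)
  have ho := hN' (max N₀ N₀') (le_max_right _ _)
  set N : ℝ := max N₀ N₀'
  have hcen : ∀ a ∈ bas (gP g), ∀ B ∈ bas (gI g), ⟪t, cen g (hgt c0 c1 N) (jn a B)⟫ =
      ∑ h, sg (gP g) c0 a h * ⟪t, g (Fin.castAdd q h)⟫ + ⟪sndE t, cen (gI g) c1 B⟫ := by
    intro a ha B hB
    unfold cen
    rw [inner_sum, Fin.sum_univ_add, inner_sum]
    congr 1
    · refine Finset.sum_congr rfl fun h _ => ?_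
      rw [inner_smul_right, ho a ha B hB h]
    · refine Finset.sum_congr rfl fun i _ => ?_
      rw [inner_smul_right, inner_smul_right, sg_jn_inner hg c0 c1 N ha hB i, Asm_inner hg t i]
  have hterm : ∀ a ∈ bas (gP g), ∀ B ∈ bas (gI g),
      ((vdet (fun j => g (jn a B j)) *
        ∏ j, Real.sinc (Real.pi * ⟪t, g (jn a B j)⟫) : ℝ) : ℂ) *
          (Real.fourierChar (-⟪t, cen g (hgt c0 c1 N) (jn a B)⟫) : ℂ) =
      (((vdet (fun j => gP g (a j)) *
        ∏ j, Real.sinc (Real.pi * ⟪t, g (Fin.castAdd q (a j))⟫) : ℝ) : ℂ) *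
        (Real.fourierChar (-∑ h, sg (gP g) c0 a h * ⟪t, g (Fin.castAdd q h)⟫) : ℂ)) *
      (((vdet (fun j => gI g (B j)) *
        ∏ j, Real.sinc (Real.pi * ⟪sndE t, gI g (B j)⟫) : ℝ) : ℂ) *
          (Real.fourierChar (-⟪sndE t, cen (gI g) c1 B⟫) : ℂ)) := by
    intro a ha B hB
    rw [hcen a ha B hB, Asm_char, vdet_jn hg, Fin.prod_univ_add]
    have e1 : ∀ i : Fin 2, g (jn a B (Fin.castAdd m i)) = g (Fin.castAdd q (a i)) := fun i => by
      rw [jn_left]
    have e2 : ∀ i : Fin m, ⟪t, g (jn a B (Fin.natAdd 2 i))⟫ = ⟪sndE t, gI g (B i)⟫ := fun i => by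
      rw [jn_right, Asm_inner hg]
    simp only [e1, e2]
    push_cast
    ring
  have key : (cosT (zono g) t : ℂ) - (cosT (zono (gI g)) (sndE t) : ℂ) * Mn g c0 t =
      ∑ b ∈ rst g, ((vdet (fun j => g (b j)) *
        ∏ j, Real.sinc (Real.pi * ⟪t, g (b j)⟫) : ℝ) : ℂ) *
          (Real.fourierChar (-⟪t, cen g (hgt c0 c1 N) b⟫) : ℂ) := by
    rw [cosT_zono hc t, sum_bas hg, cosT_zono h1 (sndE t), Mn, mul_comm (∑ _ ∈ bas (gI g), _),
      Finset.sum_mul_sum, add_sub_right_comm]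
    rw [Finset.sum_congr rfl fun a ha => Finset.sum_congr rfl fun B hB => hterm a ha B hB]
    rw [sub_self, zero_add]
  rw [key]
  refine (norm_sum_le _ _).trans (Finset.sum_le_sum fun b _ => ?_)
  rw [norm_mul, Circle.norm_coe, mul_one, Complex.norm_real, Real.norm_eq_abs, abs_mul,
    Finset.abs_prod, vdet, abs_abs]

end Pool.Agent.MPbd65ca.Zo
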