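import Pool.Agent.Lib.MP_bd65ca_an_Z.Trans

/-!
# The Turán problem for zonotopes: planar zonotopes with rescaled generators

PROOF. Let `u h = r h • v h`, heights `r h * c0 h`.  (1) `Gp u (r * c0)`: a set `S` is dependent for
`u` iff for `v` (units: `r h ≠ 0`; `LinearIndependent.units_smul` or directly), and a relation `α` for
`v` gives the relation `α h / r h` for `u`, with
`∑ (α h / r h) * (r h * c0 h) = ∑ α h * c0 h`.  (2) `bas u = bas v` for the same reason.  (3) For
`a ∈ bas v`: `zeta u (r * c0) a = zeta v c0 a` (`zeta_unique`: `⟪r h • v h, ζ⟫ = r h * c0 h`), so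
`rr u (r * c0) a h = r h * rr v c0 a h` has the sign of `rr v c0 a h` and `sg` is the same.
(4) `vdet (fun j => u (a j)) = r (a 0) * r (a 1) * vdet (fun j => v (a j))` (rows are multiplied:
`Matrix.det_mul_column`-type lemma or `Matrix.det_fin_two`).  (5) Insert in `cosT_zono`:
`⟪s, u h⟫ = r h * ⟪s, v h⟫`.
-/

open MeasureTheory FourierTransform Pointwise Set
open scoped RealInnerProductSpace

namespace Pool.Agent.MPbd65ca.Zo

private theorem Plan_li {ι : Type} {p : ℕ} (v : Fin p → E 2) {r : Fin p → ℝ} (hr : ∀ h, 0 < r h)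
    (f : ι → Fin p) : LinearIndependent ℝ (fun i => r (f i) • v (f i)) ↔
      LinearIndependent ℝ (fun i => v (f i)) :=
  LinearIndependent.units_smul_iff (R := ℝ) (fun i => v (f i))
    (fun i => Units.mk0 (r (f i)) (hr (f i)).ne')

private theorem Plan_gp {p : ℕ} {v : Fin p → E 2} {c0 : Fin p → ℝ} (hc : Gp v c0)
    {r : Fin p → ℝ} (hr : ∀ h, 0 < r h) : Gp (fun h => r h • v h) (fun h => r h * c0 h) := by
  intro S hS
  have hS' : ¬ LinearIndependent ℝ (fun i : S => v i) := fun h =>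
    hS ((Plan_li v hr (fun i : S => (i : Fin p))).2 h)
  obtain ⟨α, h1, h2, h3⟩ := hc S hS'
  refine ⟨fun i => α i / r i, fun i hi => ?_, ?_, ?_⟩
  · change α i / r i = 0
    rw [h1 i hi, zero_div]
  · rw [← h2]
    refine Finset.sum_congr rfl fun i _ => ?_
    rw [smul_smul, div_mul_cancel₀ _ (hr i).ne']
  · have h4 : ∑ i, α i / r i * (r i * c0 i) = ∑ i, α i * c0 i :=
      Finset.sum_congr rfl fun i _ => by rw [← mul_assoc, div_mul_cancel₀ _ (hr i).ne']
    rw [h4]
    exact h3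

private theorem Plan_bas {p : ℕ} (v : Fin p → E 2) {r : Fin p → ℝ} (hr : ∀ h, 0 < r h) :
    bas (fun h => r h • v h) = bas v := by
  ext a
  rw [mem_bas, mem_bas, Plan_li v hr a]

private theorem Plan_zeta {p : ℕ} {v : Fin p → E 2} (c0 : Fin p → ℝ) {r : Fin p → ℝ}
    (hr : ∀ h, 0 < r h) {a : Fin 2 → Fin p} (ha : LinearIndependent ℝ (fun j => v (a j))) :
    zeta (fun h => r h • v h) (fun h => r h * c0 h) a = zeta v c0 a := by
  refine (zeta_unique (g := fun h => r h • v h) (c := fun h => r h * c0 h) (b := a)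
    ((Plan_li v hr a).2 ha) (fun j => ?_)).symm
  rw [real_inner_smul_left, zeta_spec ha]

private theorem Plan_rr {p : ℕ} {v : Fin p → E 2} (c0 : Fin p → ℝ) {r : Fin p → ℝ}
    (hr : ∀ h, 0 < r h) {a : Fin 2 → Fin p} (ha : LinearIndependent ℝ (fun j => v (a j)))
    (h : Fin p) : rr (fun h => r h • v h) (fun h => r h * c0 h) a h = r h * rr v c0 a h := by
  unfold rr
  rw [Plan_zeta c0 hr ha]
  change r h * c0 h - ⟪r h • v h, zeta v c0 a⟫ = _
  rw [real_inner_smul_left]
  ring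

private theorem Plan_sg {p : ℕ} {v : Fin p → E 2} (c0 : Fin p → ℝ) {r : Fin p → ℝ}
    (hr : ∀ h, 0 < r h) {a : Fin 2 → Fin p} (ha : LinearIndependent ℝ (fun j => v (a j)))
    (h : Fin p) : sg (fun h => r h • v h) (fun h => r h * c0 h) a h = sg v c0 a h := by
  unfold sg
  rw [Plan_rr c0 hr ha h]
  have h1 : (0 < r h * rr v c0 a h) = (0 < rr v c0 a h) :=
    propext (mul_pos_iff_of_pos_left (hr h))
  simp only [h1]

private theorem Plan_det {p : ℕ} (v : Fin p → E 2) {r : Fin p → ℝ} (hr : ∀ h, 0 < r h)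
    (a : Fin 2 → Fin p) : vdet (fun j => r (a j) • v (a j)) =
      r (a 0) * r (a 1) * vdet (fun j => v (a j)) := by
  unfold vdet
  rw [← abs_of_pos (mul_pos (hr (a 0)) (hr (a 1))), ← abs_mul]
  congr 1
  rw [Matrix.det_fin_two, Matrix.det_fin_two]
  simp only [Matrix.of_apply, PiLp.smul_apply, smul_eq_mul]
  ring

theorem plan {p : ℕ} {v : Fin p → E 2} {c0 : Fin p → ℝ} (hc : Gp v c0) {r : Fin p → ℝ}
    (hr : ∀ h, 0 < r h) (s : E 2) : (cosT (zono fun h => r h • v h) s : ℂ) =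
    ∑ a ∈ bas v, ((r (a 0) * r (a 1) * (vdet (fun j => v (a j)) *
      ∏ j, Real.sinc (Real.pi * (r (a j) * ⟪s, v (a j)⟫))) : ℝ) : ℂ) *
        (Real.fourierChar (-∑ h, sg v c0 a h * (r h * ⟪s, v h⟫)) : ℂ) := by
  rw [cosT_zono (Plan_gp hc hr) s, Plan_bas v hr]
  refine Finset.sum_congr rfl fun a ha => ?_
  have ha' := (mem_bas.1 ha).2
  have h1 : vdet (fun j => r (a j) • v (a j)) *
      ∏ j, Real.sinc (Real.pi * ⟪s, r (a j) • v (a j)⟫) =
      r (a 0) * r (a 1) * (vdet (fun j => v (a j)) *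
        ∏ j, Real.sinc (Real.pi * (r (a j) * ⟪s, v (a j)⟫))) := by
    rw [Plan_det v hr a, mul_assoc]
    congr 2
    refine Finset.prod_congr rfl fun j _ => ?_
    rw [real_inner_smul_right]
  have h2 : ⟪s, cen (fun h => r h • v h) (fun h => r h * c0 h) a⟫ =
      ∑ h, sg v c0 a h * (r h * ⟪s, v h⟫) := by
    unfold cen
    rw [inner_sum]
    refine Finset.sum_congr rfl fun h _ => ?_
    rw [Plan_sg c0 hr ha' h, real_inner_smul_right, real_inner_smul_right]
  rw [h2]
  congr 2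

end Pool.Agent.MPbd65ca.Zo
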