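import Pool.Agent.Lib.MP_bd65ca_an_Z.AsyA
import Pool.Agent.Lib.MP_bd65ca_an_Z.Plan

/-!
# The Turán problem for zonotopes: the main term

PROOF. For `a ∈ bas (gP g)` the vectors `gP g (a 0)`, `gP g (a 1)` are independent, so
`cl (a 0) ≠ cl (a 1)` (`D.cl_ne`).  By `rh_mul` the term of `a` in `plan` (with `v = gP g`, `r = rh`,
positive by `rh_bound`) is `rh (a 0) * rh (a 1)` times the term of `a` in `Mn g c0 t`.
`|rh (a 0) rh (a 1) - 1| ≤ |rh (a 0) - 1| rh (a 1) + |rh (a 1) - 1| ≤ 3 C / A`, and the term of `a` in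
`Mn` has absolute value `≤ vdet * C² / (|Y (cl (a 0))| |Y (cl (a 1))|)`.  Multiply by the product of all
`|Y l|` and use `prod_two`; sum over `a ∈ bas (gP g)`.
-/

open MeasureTheory FourierTransform Pointwise Set
open scoped RealInnerProductSpace

namespace Pool.Agent.MPbd65ca.Zo

open Pool.Agent.MPbd65ca.Pg Pool.Agent.MPbd65ca.ProdAux

variable {k m p q : ℕ} {gh : ℤ → E 2} {cl : Fin p → ℕ} {rho : Fin p → ℝ}
  {g : Fin (p + q) → E (2 + m)}

theorem ZD.main_term (D : ZD k m p q gh cl rho g) {c0 : Fin p → ℝ} (hc : Gp (gP g) c0) (V : ℝ) :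
    ∃ C A₀ : ℝ, 0 < C ∧ 0 < A₀ ∧ ∀ A : ℝ, A₀ ≤ A → ∀ t : E (2 + m), ‖sndE t‖ ≤ V →
      (∀ l, l < k → A ≤ |Yf gh (l : ℕ) (fstE t)|) →
      (∀ h, 0 < rh gh cl rho g t h) ∧
      ‖Mn g c0 t - (cosT (zono fun h => rh gh cl rho g t h • gP g h) (fstE t) : ℂ)‖ *
        (∏ l ∈ Finset.range k, |Yf gh (l : ℕ) (fstE t)|) ≤ C / A * ‖fstE t‖ ^ (k - 2) := by
  obtain ⟨C₁, A₀, hC₁, hA₀, hb⟩ := D.rh_bound V
  obtain ⟨L, hL, hprod⟩ := D.prod_two
  have hS : 0 ≤ ∑ a ∈ bas (gP g), vdet (fun j => gP g (a j)) :=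
    Finset.sum_nonneg fun a _ => abs_nonneg _
  refine ⟨3 * C₁ ^ 3 * L * (∑ a ∈ bas (gP g), vdet (fun j => gP g (a j))) + 1, A₀, by positivity,
    hA₀, ?_⟩
  intro A hA t ht hY
  have hApos : 0 < A := hA₀.trans_le hA
  have hb' := hb A hA t ht hY
  have hrpos : ∀ h, 0 < rh gh cl rho g t h := fun h => by linarith [(hb' h).2.1]
  refine ⟨hrpos, ?_⟩
  have hYne : ∀ l, l < k → Yf gh (l : ℕ) (fstE t) ≠ 0 := by
    intro l hl h0
    have := hY l hl
    rw [h0, abs_zero] at this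
    linarith
  have hmul : ∀ h, rh gh cl rho g t h * ⟪fstE t, gP g h⟫ = ⟪t, g (Fin.castAdd q h)⟫ :=
    fun h => D.rh_mul (hYne _ (D.cl_lt h))
  rw [plan hc hrpos (fstE t), Mn, ← Finset.sum_sub_distrib]
  have hterm : ∀ a ∈ bas (gP g),
      ‖((vdet (fun j => gP g (a j)) *
        ∏ j, Real.sinc (Real.pi * ⟪t, g (Fin.castAdd q (a j))⟫) : ℝ) : ℂ) *
        (Real.fourierChar (-∑ h, sg (gP g) c0 a h * ⟪t, g (Fin.castAdd q h)⟫) : ℂ) -
      ((rh gh cl rho g t (a 0) * rh gh cl rho g t (a 1) * (vdet (fun j => gP g (a j)) *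
        ∏ j, Real.sinc (Real.pi * (rh gh cl rho g t (a j) * ⟪fstE t, gP g (a j)⟫))) : ℝ) : ℂ) *
        (Real.fourierChar (-∑ h, sg (gP g) c0 a h *
          (rh gh cl rho g t h * ⟪fstE t, gP g h⟫)) : ℂ)‖ *
        (∏ l ∈ Finset.range k, |Yf gh (l : ℕ) (fstE t)|) ≤
      3 * C₁ ^ 3 * L * vdet (fun j => gP g (a j)) / A * ‖fstE t‖ ^ (k - 2) := by
    intro a ha
    have hli : LinearIndependent ℝ ![gP g (a 0), gP g (a 1)] := by
      have h1 : LinearIndependent ℝ (fun j => gP g (a j)) := by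
        classical
        have := ha
        unfold bas at this
        exact (Finset.mem_filter.1 this).2.2
      have h2 : (fun j => gP g (a j)) = ![gP g (a 0), gP g (a 1)] := by
        funext j
        fin_cases j <;> rfl
      rwa [h2] at h1
    have hne := D.cl_ne hli
    have h0 := hb' (a 0)
    have h1 := hb' (a 1)
    have hp := hprod (fstE t) hYne (cl (a 0)) (cl (a 1)) (D.cl_lt _) (D.cl_lt _) hne
    have hY0 : 0 < |Yf gh (cl (a 0) : ℕ) (fstE t)| := abs_pos.2 (hYne _ (D.cl_lt _))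
    have hY1 : 0 < |Yf gh (cl (a 1) : ℕ) (fstE t)| := abs_pos.2 (hYne _ (D.cl_lt _))
    have hv : 0 ≤ vdet (fun j => gP g (a j)) := abs_nonneg _
    simp only [hmul]
    set r0 := rh gh cl rho g t (a 0) with hr0
    set r1 := rh gh cl rho g t (a 1) with hr1
    set P := ∏ l ∈ Finset.range k, |Yf gh (l : ℕ) (fstE t)| with hP
    have hP0 : 0 ≤ P := Finset.prod_nonneg fun l _ => abs_nonneg _
    set v := vdet (fun j => gP g (a j)) with hvd
    rw [Fin.prod_univ_two]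
    set s0 := Real.sinc (Real.pi * ⟪t, g (Fin.castAdd q (a 0))⟫) with hs0
    set s1 := Real.sinc (Real.pi * ⟪t, g (Fin.castAdd q (a 1))⟫) with hs1
    set e := (Real.fourierChar (-∑ h, sg (gP g) c0 a h * ⟪t, g (Fin.castAdd q h)⟫) : ℂ) with he
    have hne1 : ‖e‖ = 1 := by rw [he]; exact Circle.norm_coe _
    have heq : ((v * (s0 * s1) : ℝ) : ℂ) * e - ((r0 * r1 * (v * (s0 * s1)) : ℝ) : ℂ) * e =
        (((1 - r0 * r1) * (v * (s0 * s1)) : ℝ) : ℂ) * e := by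
      push_cast
      ring
    rw [heq, norm_mul, hne1, mul_one, Complex.norm_real, Real.norm_eq_abs, abs_mul, abs_mul,
      abs_mul s0 s1, abs_of_nonneg hv]
    have hr : |1 - r0 * r1| ≤ 3 * C₁ / A := by
      have e1 : 1 - r0 * r1 = -(r0 - 1) * r1 - (r1 - 1) := by ring
      have hr1abs : |r1| ≤ 2 := by
        rw [abs_of_pos (hrpos _)]
        exact h1.2.2.1
      calc |1 - r0 * r1| = |-(r0 - 1) * r1 - (r1 - 1)| := by rw [e1]
        _ ≤ |-(r0 - 1) * r1| + |r1 - 1| := abs_sub _ _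
        _ = |r0 - 1| * |r1| + |r1 - 1| := by rw [abs_mul, abs_neg]
        _ ≤ C₁ / A * 2 + C₁ / A := by
            gcongr
            · exact h0.1
            · exact h1.1
        _ = 3 * C₁ / A := by ring
    have hs : |s0| * |s1| * P ≤ C₁ ^ 2 * (L * ‖fstE t‖ ^ (k - 2)) := by
      calc |s0| * |s1| * P ≤ C₁ / |Yf gh (cl (a 0) : ℕ) (fstE t)| *
            (C₁ / |Yf gh (cl (a 1) : ℕ) (fstE t)|) * P := by
            gcongr
            · exact h0.2.2.2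
            · exact h1.2.2.2
        _ = C₁ ^ 2 * (P / (|Yf gh (cl (a 0) : ℕ) (fstE t)| *
              |Yf gh (cl (a 1) : ℕ) (fstE t)|)) := by
            field_simp
        _ ≤ C₁ ^ 2 * (L * ‖fstE t‖ ^ (k - 2)) := by gcongr
    calc |1 - r0 * r1| * (v * (|s0| * |s1|)) * P = |1 - r0 * r1| * (v * (|s0| * |s1| * P)) := by
          ring
      _ ≤ 3 * C₁ / A * (v * (C₁ ^ 2 * (L * ‖fstE t‖ ^ (k - 2)))) := by gcongr
      _ = 3 * C₁ ^ 3 * L * v / A * ‖fstE t‖ ^ (k - 2) := by ring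
  have hPn : 0 ≤ ∏ l ∈ Finset.range k, |Yf gh (l : ℕ) (fstE t)| :=
    Finset.prod_nonneg fun l _ => abs_nonneg _
  calc _ ≤ (∑ a ∈ bas (gP g), _) * (∏ l ∈ Finset.range k, |Yf gh (l : ℕ) (fstE t)|) :=
        mul_le_mul_of_nonneg_right (norm_sum_le _ _) hPn
    _ = ∑ a ∈ bas (gP g), _ := Finset.sum_mul _ _ _
    _ ≤ ∑ a ∈ bas (gP g), 3 * C₁ ^ 3 * L * vdet (fun j => gP g (a j)) / A *
          ‖fstE t‖ ^ (k - 2) := Finset.sum_le_sum hterm
    _ = 3 * C₁ ^ 3 * L * (∑ a ∈ bas (gP g), vdet (fun j => gP g (a j))) / A *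
          ‖fstE t‖ ^ (k - 2) := by
        rw [Finset.mul_sum, Finset.sum_div, Finset.sum_mul]
    _ ≤ _ := by
        gcongr
        linarith

end Pool.Agent.MPbd65ca.Zo
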