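import Pool.Agent.Lib.MP_bd65ca_an_Z.Vert

/-!
# The Turán problem for zonotopes: the bases with two outer generators

PROOF. Let the inner generators have planar part `0` (`Inn g`).
`li_jn`: a relation between the vectors `g (jn a B j)`: the planar part gives a relation between
the `gP g (a i)`, so these coefficients vanish, then the other part gives a relation between the
`gI g (B i)`; the coefficients are split by `Fin.sum_univ_add`, `Fin.append_left`,
`Fin.append_right`.
`jn_mem`: moreover `jn a B` is strictly monotone since `a`, `B` are, and `castAdd _ < natAdd _`.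
`vdet_jn`: the matrix with the rows `g (jn a B i)` is `[[P, *], [0, I]]` after `finSumFinEquiv`
(`Matrix.det_reindex_self`, `Matrix.fromBlocks`, `Matrix.det_fromBlocks_zero₂₁`), `P` = the rows
`gP g (a i)`, `I` = the rows `gI g (B i)`; `abs_mul`.
`bas_cases`: let `b ∈ bas g`. The planar parts of the vectors `g (b j)` span `E 2` (the `g (b j)`
span `E (2 + m)` and `fstE` is a surjective linear map), and inner generators have planar part
`0`, so at least two of the `b j` are outer; by monotonicity `b 0` and `b 1` are outer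
(`castAdd`). If all `b (natAdd 2 i)` are inner then `b = jn a B` with strictly monotone `a`, `B`;
the vectors `gP g (a i)` span `E 2` and the vectors `gI g (B i)` are independent (a relation
between them is a relation between the inner `g (b j)`, because `fstE (g (natAdd i)) = 0`), so `a
∈ bas (gP g)`, `B ∈ bas (gI g)`.
`sum_bas`: the map `(a, B) ↦ jn a B` is injective from `bas (gP g) ×ˢ bas (gI g)` onto the bases
that are not in `rst g` (`Finset.sum_filter_add_sum_filter_not`, `Finset.sum_bij` or `sum_image`,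
`Finset.sum_product`).
`rst_three`: `b ∈ rst g`: `b 0 < b 1 < b (natAdd 2 i) < p` for some `i`, so at least three of the
`b j` are outer (strict monotonicity: `b 0, b 1 ≤ b (natAdd 2 i)`, note `b j` for `j < 2`). The
planar parts of the outer `g (b j)` span `E 2`, so there are `j0`, `j1` with `gP` parts linearly
independent; let `j2` be a third index with outer `b j2`.
-/

open MeasureTheory FourierTransform Pointwise Set
open scoped RealInnerProductSpace

namespace Pool.Agent.MPbd65ca.Zo

variable {m p q : ℕ} {g : Fin (p + q) → E (2 + m)}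

theorem jn_left (a : Fin 2 → Fin p) (B : Fin m → Fin q) (i : Fin 2) :
    jn a B (Fin.castAdd m i) = Fin.castAdd q (a i) := by
  simp [jn]

theorem jn_right (a : Fin 2 → Fin p) (B : Fin m → Fin q) (i : Fin m) :
    jn a B (Fin.natAdd 2 i) = Fin.natAdd p (B i) := by
  simp [jn]

/-- the planar part as a linear map -/
private def lf (k m : ℕ) : E (k + m) →ₗ[ℝ] E k where
  toFun := fstE
  map_add' := ProdAux.fst_add
  map_smul' c x := by simpa using ProdAux.fst_smul c x

/-- the other part as a linear map -/
private def ls (k m : ℕ) : E (k + m) →ₗ[ℝ] E m where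
  toFun := sndE
  map_add' := ProdAux.snd_add
  map_smul' c x := by simpa using ProdAux.snd_smul c x

private theorem lf_apply {k m : ℕ} (x : E (k + m)) : lf k m x = fstE x := rfl

private theorem ls_apply {k m : ℕ} (x : E (k + m)) : ls k m x = sndE x := rfl

private theorem lf_surj (k m : ℕ) : Function.Surjective (lf k m) := fun x =>
  ⟨ProdAux.pairE (x, 0), ProdAux.fst_pair (x, (0 : E m))⟩

private theorem li_jn (hg : Inn g) {a : Fin 2 → Fin p} {B : Fin m → Fin q}
    (ha : LinearIndependent ℝ (fun i => gP g (a i)))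
    (hB : LinearIndependent ℝ (fun i => gI g (B i))) :
    LinearIndependent ℝ (fun j => g (jn a B j)) := by
  rw [Fintype.linearIndependent_iff] at ha hB ⊢
  intro c hc
  have h1 : ∑ i : Fin 2, c (Fin.castAdd m i) • gP g (a i) = 0 := by
    have h2 := congrArg (lf 2 m) hc
    rw [map_sum, map_zero, Fin.sum_univ_add] at h2
    simp only [map_smul, jn_left, jn_right, lf_apply, hg _, smul_zero, Finset.sum_const_zero,
      add_zero] at h2
    exact h2
  have h3 : ∀ i : Fin 2, c (Fin.castAdd m i) = 0 := ha _ h1
  have h4 : ∑ i : Fin m, c (Fin.natAdd 2 i) • gI g (B i) = 0 := by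
    have h2 := congrArg (ls 2 m) hc
    rw [map_sum, map_zero, Fin.sum_univ_add] at h2
    simp only [map_smul, jn_left, jn_right, ls_apply, h3, zero_smul, ProdAux.snd_zero,
      Finset.sum_const_zero, zero_add] at h2
    exact h2
  have h5 : ∀ i : Fin m, c (Fin.natAdd 2 i) = 0 := hB _ h4
  intro j
  exact Fin.addCases h3 h5 j

private theorem mono_jn {a : Fin 2 → Fin p} {B : Fin m → Fin q} (ha : StrictMono a)
    (hB : StrictMono B) : StrictMono (jn a B) := by
  intro i j
  refine Fin.addCases (fun i => ?_) (fun i => ?_) i <;>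
    refine Fin.addCases (fun j => ?_) (fun j => ?_) j <;> intro hij
  · rw [jn_left, jn_left]
    exact ha hij
  · rw [jn_left, jn_right]
    rw [Fin.lt_def]
    simp only [Fin.val_castAdd, Fin.val_natAdd]
    have := (a i).2
    omega
  · exfalso
    rw [Fin.lt_def] at hij
    simp only [Fin.val_castAdd, Fin.val_natAdd] at hij
    have := j.2
    omega
  · rw [jn_right, jn_right]
    have h := hB (show i < j from by simpa using hij)
    simpa using h

theorem jn_mem (hg : Inn g) {a : Fin 2 → Fin p} {B : Fin m → Fin q} (ha : a ∈ bas (gP g))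
    (hB : B ∈ bas (gI g)) : jn a B ∈ bas g := by
  rw [mem_bas] at ha hB ⊢
  exact ⟨mono_jn ha.1 hB.1, li_jn hg ha.2 hB.2⟩

theorem vdet_jn (hg : Inn g) (a : Fin 2 → Fin p) (B : Fin m → Fin q) :
    vdet (fun j => g (jn a B j)) = vdet (fun j => gP g (a j)) * vdet (fun j => gI g (B j)) := by
  rw [vdet, vdet, vdet, ← abs_mul]
  congr 1
  rw [← Matrix.det_submatrix_equiv_self (finSumFinEquiv (m := 2) (n := m)),
    ← Matrix.det_fromBlocks_zero₂₁ _ (Matrix.of fun i j => sndE (g (Fin.castAdd q (a i))) j)]
  congr 1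
  ext i j
  rcases i with i | i <;> rcases j with j | j
  · simp only [Matrix.submatrix_apply, finSumFinEquiv_apply_left, Matrix.of_apply, jn_left,
      Matrix.fromBlocks_apply₁₁]
    rfl
  · simp only [Matrix.submatrix_apply, finSumFinEquiv_apply_left, finSumFinEquiv_apply_right,
      Matrix.of_apply, jn_left, Matrix.fromBlocks_apply₁₂]
    rfl
  · simp only [Matrix.submatrix_apply, finSumFinEquiv_apply_left, finSumFinEquiv_apply_right,
      Matrix.of_apply, jn_right, Matrix.fromBlocks_apply₂₁, Matrix.zero_apply]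
    have h := congrArg (fun x : E 2 => x j) (hg (B i))
    exact h
  · simp only [Matrix.submatrix_apply, finSumFinEquiv_apply_right,
      Matrix.of_apply, jn_right, Matrix.fromBlocks_apply₂₂]
    rfl

private theorem fst_inner (hg : Inn g) {k : Fin (p + q)} (hk : p ≤ (k : ℕ)) : fstE (g k) = 0 := by
  have h1 : k = Fin.natAdd p ⟨(k : ℕ) - p, by have := k.2; omega⟩ := by
    apply Fin.ext
    simp only [Fin.val_natAdd]
    omega
  rw [h1]
  exact hg _

private theorem span_fst {b : Fin (2 + m) → Fin (p + q)}
    (hb : LinearIndependent ℝ (fun j => g (b j))) :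
    Submodule.span ℝ (range fun j => fstE (g (b j))) = ⊤ := by
  have h1 : Submodule.span ℝ (range fun j => g (b j)) = ⊤ := by
    apply LinearIndependent.span_eq_top_of_card_eq_finrank' hb
    simp
  have h2 : (range fun j => fstE (g (b j))) = lf 2 m '' (range fun j => g (b j)) := by
    rw [← range_comp]
    rfl
  rw [h2, ← Submodule.map_span, h1, Submodule.map_top]
  exact LinearMap.range_eq_top.2 (lf_surj 2 m)

private theorem not_line {u : E 2} {s : Set (E 2)} (hs : Submodule.span ℝ s = ⊤)
    (h : ∀ x ∈ s, x ∈ Submodule.span ℝ {u}) : False := by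
  have h1 : Submodule.span ℝ s ≤ Submodule.span ℝ {u} := Submodule.span_le.2 h
  rw [hs] at h1
  have h2 : Module.finrank ℝ (⊤ : Submodule ℝ (E 2)) ≤
      Module.finrank ℝ (Submodule.span ℝ ({u} : Set (E 2))) := Submodule.finrank_mono h1
  have h3 : Module.finrank ℝ (Submodule.span ℝ ({u} : Set (E 2))) ≤ 1 := by
    have := finrank_span_le_card (R := ℝ) ({u} : Set (E 2))
    simpa using this
  rw [finrank_top, finrank_euclideanSpace_fin] at h2
  omega

private theorem outer_two (hg : Inn g) {b : Fin (2 + m) → Fin (p + q)} (hb : b ∈ bas g)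
    (i : Fin 2) : (b (Fin.castAdd m i) : ℕ) < p := by
  rw [mem_bas] at hb
  have h1 : (b (Fin.castAdd m 1) : ℕ) < p := by
    by_contra hcon
    refine not_line (span_fst hb.2) (u := fstE (g (b (Fin.castAdd m 0)))) ?_
    rintro x ⟨j, rfl⟩
    by_cases hj : j = Fin.castAdd m 0
    · rw [hj]
      exact Submodule.mem_span_singleton_self _
    · have h2 : (Fin.castAdd m 1 : Fin (2 + m)) ≤ j := by
        rw [Fin.le_def]
        have h3 : (j : ℕ) ≠ 0 := by
          intro h4
          apply hj
          apply Fin.ext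
          simpa using h4
        simp only [Fin.val_castAdd]
        simp
        omega
      have h3 := hb.1.monotone h2
      rw [Fin.le_def] at h3
      have h4 : fstE (g (b j)) = 0 := fst_inner hg (by omega)
      change fstE (g (b j)) ∈ _
      rw [h4]
      exact Submodule.zero_mem _
  have h2 : (Fin.castAdd m i : Fin (2 + m)) ≤ Fin.castAdd m 1 := by
    rw [Fin.le_def]
    simp only [Fin.val_castAdd]
    have := i.2
    simp
    omega
  have h3 := hb.1.monotone h2
  rw [Fin.le_def] at h3
  omega

theorem bas_cases (hg : Inn g) {b : Fin (2 + m) → Fin (p + q)} (hb : b ∈ bas g) :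
    (∃ a ∈ bas (gP g), ∃ B ∈ bas (gI g), b = jn a B) ∨ b ∈ rst g := by
  classical
  by_cases hex : ∃ i : Fin m, (b (Fin.natAdd 2 i) : ℕ) < p
  · right
    rw [rst, Finset.mem_filter]
    exact ⟨hb, hex⟩
  left
  have hin : ∀ i : Fin m, p ≤ (b (Fin.natAdd 2 i) : ℕ) := fun i => by
    by_contra h
    exact hex ⟨i, by omega⟩
  have hou := outer_two hg hb
  rw [mem_bas] at hb
  let a : Fin 2 → Fin p := fun i => ⟨b (Fin.castAdd m i), hou i⟩
  let B : Fin m → Fin q := fun i => ⟨(b (Fin.natAdd 2 i) : ℕ) - p, by
    have := (b (Fin.natAdd 2 i)).2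
    have := hin i
    omega⟩
  have hba : ∀ i, b (Fin.castAdd m i) = Fin.castAdd q (a i) := fun i => Fin.ext rfl
  have hbB : ∀ i, b (Fin.natAdd 2 i) = Fin.natAdd p (B i) := fun i => by
    apply Fin.ext
    simp only [Fin.val_natAdd, B]
    have := hin i
    omega
  refine ⟨a, ?_, B, ?_, ?_⟩
  · rw [mem_bas]
    refine ⟨?_, ?_⟩
    · intro i j hij
      have h1 : b (Fin.castAdd m i) < b (Fin.castAdd m j) := hb.1 hij
      rw [hba, hba] at h1
      exact h1
    · refine linearIndependent_of_top_le_span_of_card_eq_finrank ?_ ?_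
      · rw [← span_fst hb.2, Submodule.span_le]
        rintro x ⟨j, rfl⟩
        refine Fin.addCases (fun i => ?_) (fun i => ?_) j
        · simp only [hba]
          exact Submodule.subset_span ⟨i, rfl⟩
        · simp only [hbB, hg _]
          exact Submodule.zero_mem _
      · simp
  · rw [mem_bas]
    refine ⟨?_, ?_⟩
    · intro i j hij
      have h1 : b (Fin.natAdd 2 i) < b (Fin.natAdd 2 j) := hb.1 (by simpa using hij)
      rw [hbB, hbB] at h1
      simpa using h1
    · have h1 : LinearIndependent ℝ (fun i => g (b (Fin.natAdd 2 i))) :=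
        hb.2.comp (Fin.natAdd 2) (Fin.natAdd_injective m 2)
      rw [Fintype.linearIndependent_iff] at h1 ⊢
      intro c hc
      apply h1
      have h2 : lf 2 m (∑ i, c i • g (b (Fin.natAdd 2 i))) = 0 := by
        rw [map_sum]
        refine Finset.sum_eq_zero fun i _ => ?_
        rw [map_smul, lf_apply, hbB, hg, smul_zero]
      have h3 : ls 2 m (∑ i, c i • g (b (Fin.natAdd 2 i))) = 0 := by
        rw [map_sum, ← hc]
        refine Finset.sum_congr rfl fun i _ => ?_
        rw [map_smul, ls_apply, hbB]
        rfl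
      rw [← ProdAux.pair_eta (∑ i, c i • g (b (Fin.natAdd 2 i))), ← lf_apply, ← ls_apply, h2, h3]
      ext j
      refine Fin.addCases (fun j => ?_) (fun j => ?_) j <;> simp [ProdAux.pairE]
  · funext j
    refine Fin.addCases (fun i => ?_) (fun i => ?_) j
    · rw [hba, jn_left]
    · rw [hbB, jn_right]

theorem jn_not_rst (a : Fin 2 → Fin p) (B : Fin m → Fin q) : jn a B ∉ rst g := by
  classical
  rw [rst, Finset.mem_filter]
  rintro ⟨-, i, hi⟩
  rw [jn_right, Fin.val_natAdd] at hi
  omega

theorem sum_bas {M : Type*} [AddCommMonoid M] (hg : Inn g)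
    (f : (Fin (2 + m) → Fin (p + q)) → M) : ∑ b ∈ bas g, f b =
      ∑ a ∈ bas (gP g), ∑ B ∈ bas (gI g), f (jn a B) + ∑ b ∈ rst g, f b := by
  classical
  have h0 : rst g ⊆ bas g := fun b hb => by
    rw [rst, Finset.mem_filter] at hb
    exact hb.1
  rw [← Finset.sum_sdiff h0]
  congr 1
  rw [← Finset.sum_product']
  symm
  refine Finset.sum_bij (fun x _ => jn x.1 x.2) ?_ ?_ ?_ ?_
  · intro x hx
    rw [Finset.mem_product] at hx
    rw [Finset.mem_sdiff]
    exact ⟨jn_mem hg hx.1 hx.2, jn_not_rst x.1 x.2⟩
  · intro x _ y _ hxy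
    refine Prod.ext ?_ ?_
    · funext i
      have h1 := congrFun hxy (Fin.castAdd m i)
      simp only [jn_left] at h1
      simpa using h1
    · funext i
      have h1 := congrFun hxy (Fin.natAdd 2 i)
      simp only [jn_right] at h1
      simpa using h1
  · intro b hb
    rw [Finset.mem_sdiff] at hb
    rcases bas_cases hg hb.1 with ⟨a, ha, B, hB, rfl⟩ | h
    · exact ⟨(a, B), Finset.mem_product.2 ⟨ha, hB⟩, rfl⟩
    · exact absurd h hb.2
  · intro x _
    rfl

theorem rst_three (hg : Inn g) {b : Fin (2 + m) → Fin (p + q)} (hb : b ∈ rst g) :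
    ∃ (j0 j1 j2 : Fin (2 + m)) (h0 h1 h2 : Fin p), j0 ≠ j1 ∧ j0 ≠ j2 ∧ j1 ≠ j2 ∧
      b j0 = Fin.castAdd q h0 ∧ b j1 = Fin.castAdd q h1 ∧ b j2 = Fin.castAdd q h2 ∧
      LinearIndependent ℝ ![gP g h0, gP g h1] := by
  classical
  rw [rst, Finset.mem_filter] at hb
  obtain ⟨hb, i, hi⟩ := hb
  have hou := outer_two hg hb
  rw [mem_bas] at hb
  have hsp := span_fst hb.2
  -- two independent planar parts
  have hj0 : ∃ j0, fstE (g (b j0)) ≠ 0 := by
    by_contra hcon
    push Not at hcon
    refine not_line hsp (u := 0) ?_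
    rintro x ⟨j, rfl⟩
    change fstE (g (b j)) ∈ _
    rw [hcon j]
    exact Submodule.zero_mem _
  obtain ⟨j0, hj0⟩ := hj0
  have hj1 : ∃ j1, fstE (g (b j1)) ∉ Submodule.span ℝ {fstE (g (b j0))} := by
    by_contra hcon
    push Not at hcon
    refine not_line hsp (u := fstE (g (b j0))) ?_
    rintro x ⟨j, rfl⟩
    exact hcon j
  obtain ⟨j1, hj1⟩ := hj1
  have hout : ∀ j, fstE (g (b j)) ≠ 0 → (b j : ℕ) < p := fun j hj => by
    by_contra h
    exact hj (fst_inner hg (by omega))
  have ho0 := hout j0 hj0
  have ho1 : (b j1 : ℕ) < p := hout j1 (fun h => hj1 (by rw [h]; exact Submodule.zero_mem _))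
  have h01 : j0 ≠ j1 := by
    rintro rfl
    exact hj1 (Submodule.mem_span_singleton_self _)
  -- a third outer index
  have hj2 : ∃ j2, j0 ≠ j2 ∧ j1 ≠ j2 ∧ (b j2 : ℕ) < p := by
    let s : Finset (Fin (2 + m)) := {Fin.castAdd m 0, Fin.castAdd m 1, Fin.natAdd 2 i}
    have hs : s.card = 3 := by
      rw [Finset.card_eq_three]
      refine ⟨_, _, _, ?_, ?_, ?_, rfl⟩
      · intro h
        have := congrArg Fin.val h
        simp at this
      · intro h
        have := congrArg Fin.val h
        simp only [Fin.val_castAdd, Fin.val_natAdd] at this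
        simp at this
        omega
      · intro h
        have := congrArg Fin.val h
        simp only [Fin.val_castAdd, Fin.val_natAdd] at this
        simp at this
        omega
    have ht : (({j0, j1} : Finset (Fin (2 + m)))).card < s.card := by
      rw [hs]
      exact lt_of_le_of_lt (Finset.card_le_two) (by norm_num)
    obtain ⟨j2, h2s, h2t⟩ := Finset.exists_mem_notMem_of_card_lt_card ht
    refine ⟨j2, ?_, ?_, ?_⟩
    · rintro rfl
      exact h2t (by simp)
    · rintro rfl
      exact h2t (by simp)
    · simp only [s, Finset.mem_insert, Finset.mem_singleton] at h2s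
      rcases h2s with rfl | rfl | rfl
      · exact hou 0
      · exact hou 1
      · exact hi
  obtain ⟨j2, h02, h12, ho2⟩ := hj2
  refine ⟨j0, j1, j2, ⟨b j0, ho0⟩, ⟨b j1, ho1⟩, ⟨b j2, ho2⟩, h01, h02, h12,
    Fin.ext rfl, Fin.ext rfl, Fin.ext rfl, ?_⟩
  have e0 : gP g ⟨b j0, ho0⟩ = fstE (g (b j0)) := rfl
  have e1 : gP g ⟨b j1, ho1⟩ = fstE (g (b j1)) := rfl
  rw [e0, e1, LinearIndependent.pair_iff' hj0]
  intro c hc
  exact hj1 (Submodule.mem_span_singleton.2 ⟨c, hc⟩)

end Pool.Agent.MPbd65ca.Zo
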