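import Pool.Agent.Lib.MP_bd65ca_an_Z.AsyA
import Pool.Agent.Lib.MP_bd65ca_an_Z.Join

/-!
# The Turán problem for zonotopes: the terms with three outer generators

PROOF. `b ∈ rst g`: `rst_three` gives different indices `j0, j1, j2` and outer generators
`h0, h1, h2` with
`cl h0 ≠ cl h1` (`D.cl_ne`).  All factors `|sinc|` are `≤ 1` (`Real.abs_sinc_le_one`), the three are
`≤ C / |Y (cl h0)|`, `≤ C / |Y (cl h1)|`, `≤ C / |Y (cl h2)| ≤ C / A` (`rh_bound`).  So the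
product over
all `j` is `≤ C³ / (A |Y (cl h0)| |Y (cl h1)|)` (`Finset.prod_le_...` after removing the three
indices:
`Finset.mul_prod_erase`, or compare with the function which is `C / |Y ..|` at `j0, j1, j2` and `1`
otherwise).  Multiply by the product of all `|Y l|` and use `prod_two`; sum over `b ∈ rst g`.
-/

open MeasureTheory FourierTransform Pointwise Set
open scoped RealInnerProductSpace

namespace Pool.Agent.MPbd65ca.Zo

open Pool.Agent.MPbd65ca.Pg Pool.Agent.MPbd65ca.ProdAux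

variable {k m p q : ℕ} {gh : ℤ → E 2} {cl : Fin p → ℕ} {rho : Fin p → ℝ}
  {g : Fin (p + q) → E (2 + m)}

private theorem AsyC_prod {n : ℕ} (f : Fin n → ℝ) (h0 : ∀ j, 0 ≤ f j) (h1 : ∀ j, f j ≤ 1)
    {i j l : Fin n} (hij : i ≠ j) (hil : i ≠ l) (hjl : j ≠ l) {a b c : ℝ} (ha : f i ≤ a)
    (hb : f j ≤ b) (hc : f l ≤ c) : ∏ x, f x ≤ a * b * c := by
  have e : ∏ x ∈ ({i, j, l} : Finset (Fin n)), f x = f i * (f j * f l) := by
    rw [Finset.prod_insert (by simp [hij, hil]), Finset.prod_insert (by simp [hjl]),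
      Finset.prod_singleton]
  rw [← Finset.prod_mul_prod_compl ({i, j, l} : Finset (Fin n)) f, e]
  have h2 : ∏ x ∈ ({i, j, l} : Finset (Fin n))ᶜ, f x ≤ 1 :=
    Finset.prod_le_one (fun x _ => h0 x) (fun x _ => h1 x)
  have h3 : 0 ≤ ∏ x ∈ ({i, j, l} : Finset (Fin n))ᶜ, f x :=
    Finset.prod_nonneg fun x _ => h0 x
  have h4 : f i * (f j * f l) ≤ a * (b * c) :=
    mul_le_mul ha (mul_le_mul hb hc (h0 l) ((h0 j).trans hb))
      (mul_nonneg (h0 j) (h0 l)) ((h0 i).trans ha)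
  have h5 : 0 ≤ f i * (f j * f l) := mul_nonneg (h0 i) (mul_nonneg (h0 j) (h0 l))
  calc f i * (f j * f l) * ∏ x ∈ ({i, j, l} : Finset (Fin n))ᶜ, f x
      ≤ f i * (f j * f l) * 1 := mul_le_mul_of_nonneg_left h2 h5
    _ = f i * (f j * f l) := mul_one _
    _ ≤ a * (b * c) := h4
    _ = a * b * c := (mul_assoc _ _ _).symm

theorem ZD.rest_term (D : ZD k m p q gh cl rho g) (V : ℝ) :
    ∃ C A₀ : ℝ, 0 < C ∧ 0 < A₀ ∧ ∀ A : ℝ, A₀ ≤ A → ∀ t : E (2 + m), ‖sndE t‖ ≤ V →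
      (∀ l, l < k → A ≤ |Yf gh (l : ℕ) (fstE t)|) →
      (∑ b ∈ rst g, vdet (fun j => g (b j)) * ∏ j, |Real.sinc (Real.pi * ⟪t, g (b j)⟫)|) *
        (∏ l ∈ Finset.range k, |Yf gh (l : ℕ) (fstE t)|) ≤ C / A * ‖fstE t‖ ^ (k - 2) := by
  obtain ⟨C1, A1, hC1, hA1, hb⟩ := D.rh_bound V
  obtain ⟨L, hL, hp⟩ := D.prod_two
  have hvd : ∀ b : Fin (2 + m) → Fin (p + q), 0 ≤ vdet (fun j => g (b j)) := fun b => abs_nonneg _
  have hS : 0 ≤ ∑ b ∈ rst g, vdet (fun j => g (b j)) := Finset.sum_nonneg fun b _ => hvd b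
  refine ⟨(∑ b ∈ rst g, vdet (fun j => g (b j))) * (C1 ^ 3 * L) + 1, A1, by positivity, hA1, ?_⟩
  intro A hA t ht hY
  have hA0 : 0 < A := hA1.trans_le hA
  have hY0 : ∀ l, l < k → Yf gh (l : ℕ) (fstE t) ≠ 0 := by
    intro l hl h
    have := hY l hl
    rw [h, abs_zero] at this
    linarith
  have hbt := hb A hA t ht hY
  have hP : 0 ≤ ∏ l ∈ Finset.range k, |Yf gh (l : ℕ) (fstE t)| :=
    Finset.prod_nonneg fun l _ => abs_nonneg _
  have hterm : ∀ b ∈ rst g, vdet (fun j => g (b j)) *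
      (∏ j, |Real.sinc (Real.pi * ⟪t, g (b j)⟫)|) *
        (∏ l ∈ Finset.range k, |Yf gh (l : ℕ) (fstE t)|) ≤
      vdet (fun j => g (b j)) * (C1 ^ 3 * L / A * ‖fstE t‖ ^ (k - 2)) := by
    intro b hbr
    obtain ⟨j0, j1, j2, h0, h1, h2, n01, n02, n12, e0, e1, e2, hli⟩ := rst_three D.inn hbr
    rw [mul_assoc]
    refine mul_le_mul_of_nonneg_left ?_ (hvd b)
    have c01 := D.cl_ne hli
    have hy0 : 0 < |Yf gh (cl h0 : ℕ) (fstE t)| := hA0.trans_le (hY _ (D.cl_lt h0))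
    have hy1 : 0 < |Yf gh (cl h1 : ℕ) (fstE t)| := hA0.trans_le (hY _ (D.cl_lt h1))
    have hprod : ∏ j, |Real.sinc (Real.pi * ⟪t, g (b j)⟫)| ≤
        C1 / |Yf gh (cl h0) (fstE t)| * (C1 / |Yf gh (cl h1) (fstE t)|) * (C1 / A) := by
      refine AsyC_prod (fun j => |Real.sinc (Real.pi * ⟪t, g (b j)⟫)|)
        (fun j => abs_nonneg _) (fun j => Real.abs_sinc_le_one _) n01 n02 n12 ?_ ?_ ?_
      · simp only [e0]
        exact (hbt h0).2.2.2
      · simp only [e1]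
        exact (hbt h1).2.2.2
      · simp only [e2]
        refine (hbt h2).2.2.2.trans ?_
        exact div_le_div_of_nonneg_left hC1.le hA0 (hY _ (D.cl_lt h2))
    calc (∏ j, |Real.sinc (Real.pi * ⟪t, g (b j)⟫)|) *
          (∏ l ∈ Finset.range k, |Yf gh (l : ℕ) (fstE t)|)
        ≤ (C1 / |Yf gh (cl h0) (fstE t)| * (C1 / |Yf gh (cl h1) (fstE t)|) * (C1 / A)) *
          (∏ l ∈ Finset.range k, |Yf gh (l : ℕ) (fstE t)|) :=
          mul_le_mul_of_nonneg_right hprod hP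
      _ = C1 ^ 3 / A * ((∏ l ∈ Finset.range k, |Yf gh (l : ℕ) (fstE t)|) /
          (|Yf gh (cl h0 : ℕ) (fstE t)| * |Yf gh (cl h1 : ℕ) (fstE t)|)) := by
          field_simp
      _ ≤ C1 ^ 3 / A * (L * ‖fstE t‖ ^ (k - 2)) :=
          mul_le_mul_of_nonneg_left
            (hp (fstE t) hY0 _ _ (D.cl_lt h0) (D.cl_lt h1) c01) (by positivity)
      _ = C1 ^ 3 * L / A * ‖fstE t‖ ^ (k - 2) := by ring
  rw [Finset.sum_mul]
  refine (Finset.sum_le_sum hterm).trans ?_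
  rw [← Finset.sum_mul]
  have hn : 0 ≤ ‖fstE t‖ ^ (k - 2) := by positivity
  calc (∑ b ∈ rst g, vdet (fun j => g (b j))) * (C1 ^ 3 * L / A * ‖fstE t‖ ^ (k - 2))
      = ((∑ b ∈ rst g, vdet (fun j => g (b j))) * (C1 ^ 3 * L)) / A * ‖fstE t‖ ^ (k - 2) := by
        ring
    _ ≤ _ := by
        refine mul_le_mul_of_nonneg_right ?_ hn
        exact div_le_div_of_nonneg_right (by linarith) hA0.le

end Pool.Agent.MPbd65ca.Zo
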