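import Pool.Agent.Lib.MP_bd65ca_an_Z.Lift
import Pool.Agent.Lib.MP_bd65ca_an.Pg.CosZ

/-!
# The Turán problem for zonotopes: the rescaled planar zonogon

For positive numbers `r h` the planar zonotope with the generators `r h • gP g h` is the zonogon with
the sides `RR j • gh j`, `RR j = ∑ h with cl h = j % k, r h * rho h`.

PROOF. `RR_pos`: the class of `j % k` is not empty because its sum of the `rho h` is `1 ≠ 0`
(`0 ≤ j % k < k`), all terms are positive.  `RR_per`: `(j + k) % k = j % k`.  `zon_RR`: antiperiodic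
since `RR` is periodic, `dt (R • a) (R' • b) = R R' dt a b > 0`.
`zono_RR`: if `x = ∑_h lam h • (r h • gP g h)` then, grouping the `h` by `cl h`
(`Finset.sum_fiberwise_of_maps_to`), `x = ∑_{l<k} lam' l • (RR l • gh l)` with
`lam' l = (∑ h with cl h = l, lam h * r h * rho h) / RR l`, of absolute value `≤ 1/2` (and
`lam' l = 0`, say, for `l ≥ k`).  Conversely take `lam h = lam' (cl h)`.
`Zt_RR`: `tau` of the new sides at `j` is `RR (j-1) * RR j * tau gh j` and
`Yf` is multiplied by `RR (j+1+l)`; the product of `RR (j-1)`, `RR j` and the `RR (j+1+l)`,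
`l < k-2`, is the product of `RR` over a full period `j-1, ..., j+k-2`, equal to
`∏_{l<k} RR l` (`sum_window` in multiplicative form: apply it to `Real.log` or to the additive monoid
`Additive ℝ`, or prove it by the same induction).
`cosT_RR`: `Zon.cosT_zg` (file Pg/CosZ.lean) for the new sides:
`cosT * ∏ (RR l * Y l) = -(1/(2π²)) Zt' `, divide by `∏ RR l > 0`.
-/

open MeasureTheory FourierTransform Pointwise Set
open scoped RealInnerProductSpace

namespace Pool.Agent.MPbd65ca.Zo

open Pool.Agent.MPbd65ca.Pg Pool.Agent.MPbd65ca.ProdAux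

variable {k m p q : ℕ} {gh : ℤ → E 2} {cl : Fin p → ℕ} {rho : Fin p → ℝ}
  {g : Fin (p + q) → E (2 + m)}

/-- The factors of the sides. -/
noncomputable def RR (k : ℕ) (cl : Fin p → ℕ) (rho r : Fin p → ℝ) (j : ℤ) : ℝ :=
  ∑ h with (cl h : ℤ) = j % (k : ℤ), r h * rho h

private theorem Cls_shift (h : Zon k gh) (j n : ℤ) :
    gh (j + n * k) = ((-1 : ℝ) ^ n) • gh j := by
  induction n using Int.induction_on with
  | zero => simp
  | succ n ih =>
    have e : j + ((n : ℤ) + 1) * k = j + n * k + k := by ring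
    rw [e, h.anti, ih, zpow_add_one₀ (by norm_num), mul_neg_one, neg_smul]
  | pred n ih =>
    have h1 := h.anti (j + (-(n : ℤ) - 1) * k)
    have e : j + (-(n : ℤ) - 1) * k + k = j + -(n : ℤ) * k := by ring
    rw [e, ih] at h1
    rw [zpow_sub_one₀ (by norm_num)]
    have e2 : ((-1 : ℝ) ^ (-(n : ℤ)) * (-1 : ℝ)⁻¹) = -((-1 : ℝ) ^ (-(n : ℤ))) := by
      rw [inv_neg, inv_one, mul_neg_one]
    rw [e2, neg_smul, h1, neg_neg]

private theorem Cls_mod (h : Zon k gh) (j : ℤ) :
    gh j = ((-1 : ℝ) ^ (j / (k : ℤ))) • gh (j % (k : ℤ)) := by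
  rw [← Cls_shift h]
  congr 1
  have := Int.emod_add_mul_ediv j k
  linarith [mul_comm (j / (k : ℤ)) (k : ℤ)]

private theorem Cls_filter (_D : ZD k m p q gh cl rho g) (l : ℕ) (hl : l < k) (r : Fin p → ℝ) :
    RR k cl rho r l = ∑ h with cl h = l, r h * rho h := by
  unfold RR
  refine Finset.sum_congr ?_ fun _ _ => rfl
  ext h
  simp only [Finset.mem_filter, Finset.mem_univ, true_and]
  rw [Int.emod_eq_of_lt (by positivity) (by exact_mod_cast hl)]
  exact_mod_cast Iff.rfl

theorem ZD.RR_pos (D : ZD k m p q gh cl rho g) {r : Fin p → ℝ} (hr : ∀ h, 0 < r h) (j : ℤ) :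
    0 < RR k cl rho r j := by
  have hk : 0 < k := by have := D.zon.hk; omega
  have hk' : (0 : ℤ) < k := by exact_mod_cast hk
  have h0 := Int.emod_nonneg j hk'.ne'
  have h1 := Int.emod_lt_of_pos j hk'
  obtain ⟨l, hl⟩ := Int.eq_ofNat_of_zero_le h0
  have hlk : l < k := by
    rw [hl] at h1
    exact_mod_cast h1
  have h2 := D.one l hlk
  unfold RR
  have h3 : (Finset.univ.filter fun h => (cl h : ℤ) = j % (k : ℤ)) =
      Finset.univ.filter fun h => cl h = l := by
    ext h
    simp only [Finset.mem_filter, Finset.mem_univ, true_and]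
    rw [hl]
    exact_mod_cast Iff.rfl
  rw [h3]
  refine Finset.sum_pos (fun h _ => mul_pos (hr h) (D.rho_pos h)) ?_
  by_contra hne
  rw [Finset.not_nonempty_iff_eq_empty] at hne
  rw [hne, Finset.sum_empty] at h2
  exact zero_ne_one h2

theorem RR_per (k : ℕ) (cl : Fin p → ℕ) (rho r : Fin p → ℝ) (j : ℤ) :
    RR k cl rho r (j + k) = RR k cl rho r j := by
  unfold RR
  rw [Int.add_emod_right]

theorem ZD.zon_RR (D : ZD k m p q gh cl rho g) {r : Fin p → ℝ} (hr : ∀ h, 0 < r h) :
    Zon k (fun j => RR k cl rho r j • gh j) where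
  hk := D.zon.hk
  anti j := by
    show RR k cl rho r (j + k) • gh (j + k) = -(RR k cl rho r j • gh j)
    rw [RR_per, D.zon.anti, smul_neg]
  pos i l h1 h2 := by
    show 0 < dt (RR k cl rho r i • gh i) (RR k cl rho r l • gh l)
    rw [dt_smul_left, dt_smul_right]
    exact mul_pos (D.RR_pos hr i) (mul_pos (D.RR_pos hr l) (D.zon.pos i l h1 h2))

private theorem Cls_gP (D : ZD k m p q gh cl rho g) (h : Fin p) : gP g h = rho h • gh (cl h) :=
  D.out h

private theorem Cls_group (D : ZD k m p q gh cl rho g) (r lam : Fin p → ℝ) :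
    ∑ h, lam h • (r h • gP g h) =
      ∑ l ∈ Finset.range k, (∑ h with cl h = l, lam h * (r h * rho h)) • gh l := by
  have h1 := Finset.sum_fiberwise_of_maps_to (s := (Finset.univ : Finset (Fin p)))
    (t := Finset.range k) (g := cl) (fun h _ => Finset.mem_range.2 (D.cl_lt h))
    (fun h => lam h • (r h • gP g h))
  rw [← h1]
  refine Finset.sum_congr rfl fun l _ => ?_
  rw [Finset.sum_smul]
  refine Finset.sum_congr rfl fun h hh => ?_
  rw [Finset.mem_filter] at hh
  rw [Cls_gP D, hh.2, smul_smul, smul_smul]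
  congr 1
  ring

theorem ZD.zono_RR (D : ZD k m p q gh cl rho g) {r : Fin p → ℝ} (hr : ∀ h, 0 < r h) :
    zono (fun h => r h • gP g h) = zg k (fun j => RR k cl rho r j • gh j) := by
  have hw : ∀ h, 0 < r h * rho h := fun h => mul_pos (hr h) (D.rho_pos h)
  ext x
  constructor
  · rintro ⟨lam, hlam, rfl⟩
    refine ⟨fun l => (∑ h with cl h = l, lam h * (r h * rho h)) /
      (∑ h with cl h = l, r h * rho h), fun l => ?_, ?_⟩
    · have h1 : |∑ h with cl h = l, lam h * (r h * rho h)| ≤
          1 / 2 * ∑ h with cl h = l, r h * rho h := by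
        rw [Finset.mul_sum]
        refine (Finset.abs_sum_le_sum_abs _ _).trans (Finset.sum_le_sum fun h _ => ?_)
        rw [abs_mul, abs_of_pos (hw h)]
        exact mul_le_mul_of_nonneg_right (hlam h) (hw h).le
      have h2 : 0 ≤ ∑ h with cl h = l, r h * rho h := Finset.sum_nonneg fun h _ => (hw h).le
      show |(∑ h with cl h = l, lam h * (r h * rho h)) / ∑ h with cl h = l, r h * rho h| ≤ 1 / 2
      rcases h2.eq_or_lt with h3 | h3
      · rw [← h3, div_zero, abs_zero]
        norm_num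
      · rw [abs_div, abs_of_pos h3, div_le_iff₀ h3]
        exact h1
    · rw [Cls_group D]
      refine Finset.sum_congr rfl fun l hl => ?_
      rw [Finset.mem_range] at hl
      show _ = (_ / _) • (RR k cl rho r l • gh l)
      have h3 := D.RR_pos hr l
      rw [Cls_filter D l hl] at h3 ⊢
      rw [smul_smul, div_mul_cancel₀ _ h3.ne']
  · rintro ⟨lam, hlam, rfl⟩
    refine ⟨fun h => lam (cl h), fun h => hlam _, ?_⟩
    rw [Cls_group D]
    refine Finset.sum_congr rfl fun l hl => ?_
    rw [Finset.mem_range] at hl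
    show lam l • (RR k cl rho r l • gh l) = _
    rw [Cls_filter D l hl, smul_smul, Finset.mul_sum]
    congr 1
    refine Finset.sum_congr rfl fun h hh => ?_
    rw [Finset.mem_filter] at hh
    rw [hh.2]

private theorem Cls_window (k : ℕ) (f : ℤ → ℝ) (hf : ∀ j, f (j + k) = f j) (i : ℤ) :
    ∏ l ∈ Finset.range k, f (i + l) = ∏ l ∈ Finset.range k, f l := by
  have h := sum_window (M := Additive ℝ) k (fun j => Additive.ofMul (f j))
    (fun j => congrArg Additive.ofMul (hf j)) i
  exact h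

private theorem Cls_split {k : ℕ} (hk : 2 ≤ k) (f : ℤ → ℝ) (hf : ∀ j, f (j + k) = f j) (j : ℤ) :
    f (j - 1) * f j * ∏ l ∈ Finset.range (k - 2), f (j + 1 + l) =
      ∏ l ∈ Finset.range k, f l := by
  rw [← Cls_window k f hf (j - 1)]
  obtain ⟨n, rfl⟩ : ∃ n, k = n + 2 := ⟨k - 2, by omega⟩
  rw [Finset.prod_range_succ', Finset.prod_range_succ']
  have e1 : ∀ l : ℕ, j - 1 + ((l + 1 + 1 : ℕ) : ℤ) = j + 1 + l := by
    intro l
    push_cast
    ring
  have e2 : j - 1 + ((0 + 1 : ℕ) : ℤ) = j := by push_cast; ring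
  have e3 : j - 1 + ((0 : ℕ) : ℤ) = j - 1 := by push_cast; ring
  rw [e2, e3]
  simp only [e1, Nat.add_sub_cancel]
  ring

private theorem Cls_Yf (f : ℤ → ℝ) (j : ℤ) (s : E 2) :
    Yf (fun j => f j • gh j) j s = f j * Yf gh j s := by
  unfold Yf
  rw [real_inner_smul_left]

theorem ZD.Zt_RR (D : ZD k m p q gh cl rho g) {r : Fin p → ℝ} (hr : ∀ h, 0 < r h)
    (z : ℤ → Circle) (s : E 2) : Zt k (fun j => RR k cl rho r j • gh j) z s =
      (∏ l ∈ Finset.range k, RR k cl rho r l) * Zt k gh z s := by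
  have hk := D.zon.hk
  unfold Zt
  rw [Finset.mul_sum]
  refine Finset.sum_congr rfl fun j _ => ?_
  rw [← Cls_split (by omega) (RR k cl rho r) (RR_per k cl rho r) j]
  have e1 : tau (fun j => RR k cl rho r j • gh j) j =
      RR k cl rho r (j - 1) * RR k cl rho r j * tau gh j := by
    unfold tau
    rw [dt_smul_left, dt_smul_right]
    ring
  have e2 : ∏ l ∈ Finset.range (k - 2), Yf (fun j => RR k cl rho r j • gh j) (j + 1 + l) s =
      (∏ l ∈ Finset.range (k - 2), RR k cl rho r (j + 1 + l)) *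
        ∏ l ∈ Finset.range (k - 2), Yf gh (j + 1 + l) s := by
    rw [← Finset.prod_mul_distrib]
    exact Finset.prod_congr rfl fun l _ => Cls_Yf _ _ _
  rw [e1, e2]
  ring

theorem ZD.cosT_RR (D : ZD k m p q gh cl rho g) {r : Fin p → ℝ} (hr : ∀ h, 0 < r h)
    (s : E 2) : cosT (zono fun h => r h • gP g h) s * ∏ l ∈ Finset.range k, Yf gh l s =
      -(1 / (2 * Real.pi ^ 2)) * Zt k gh (zc k (fun j => RR k cl rho r j • gh j) s) s := by
  have h1 := (D.zon_RR hr).cosT_zg s
  rw [D.Zt_RR hr, ← D.zono_RR hr] at h1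
  have e2 : ∏ l ∈ Finset.range k, Yf (fun j => RR k cl rho r j • gh j) l s =
      (∏ l ∈ Finset.range k, RR k cl rho r l) * ∏ l ∈ Finset.range k, Yf gh l s := by
    rw [← Finset.prod_mul_distrib]
    exact Finset.prod_congr rfl fun l _ => Cls_Yf _ _ _
  rw [e2] at h1
  have h2 : 0 < ∏ l ∈ Finset.range k, RR k cl rho r l :=
    Finset.prod_pos fun l _ => D.RR_pos hr l
  refine mul_left_cancel₀ h2.ne' ?_
  linear_combination h1

/-- The phases of the rescaled zonogon are the phases of the lifted vertices. -/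
theorem ZD.zc_RR (D : ZD k m p q gh cl rho g) {t : E (2 + m)}
    (hY : ∀ h, Yf gh (cl h) (fstE t) ≠ 0) (j : ℤ) :
    zc k (fun j => RR k cl rho (fun h => ⟪t, g (Fin.castAdd q h)⟫ /
      (rho h * Yf gh (cl h) (fstE t))) j • gh j) (fstE t) j = zt k cl g t j := by
  have key : ∀ i : ℤ, ⟪fstE t, RR k cl rho (fun h => ⟪t, g (Fin.castAdd q h)⟫ /
      (rho h * Yf gh (cl h) (fstE t))) i • gh i⟫ = ⟪t, gt k cl g i⟫ := by
    intro i
    rw [real_inner_smul_right, Cls_mod D.zon i, real_inner_smul_right]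
    unfold gt RR
    rw [real_inner_smul_right, inner_sum, Finset.sum_mul, Finset.mul_sum]
    refine Finset.sum_congr rfl fun h hh => ?_
    rw [Finset.mem_filter] at hh
    have h1 := hY h
    have h2 := (D.rho_pos h).ne'
    have h3 : ⟪fstE t, gh (i % (k : ℤ))⟫ = Yf gh (cl h) (fstE t) := by
      rw [← hh.2, Yf, real_inner_comm]
    rw [h3]
    field_simp
  unfold zc zt vx vt
  congr 1
  rw [real_inner_smul_right, real_inner_smul_right, inner_sum, inner_sum]
  congr 1
  exact Finset.sum_congr rfl fun l _ => key _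

end Pool.Agent.MPbd65ca.Zo
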