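import Pool.Agent.Lib.MP_bd65ca_an_Z.Asm
import Pool.Agent.Lib.MP_bd65ca_an_Z.AsyB
import Pool.Agent.Lib.MP_bd65ca_an_Z.AsyC
import Pool.Agent.Lib.MP_bd65ca_an_Z.Cls

/-!
# The Turán problem for zonotopes: the asymptotics of the Fourier transform

PROOF. Let `c0` be from `asm`, `s = fstE t`, `v = sndE t`, `Y j = Yf gh j s`, `r = rh gh cl rho g t`,
`P = ∏_{l<k} Y l`, `W' = zono fun h => r h • gP g h`.  By `asm`, `rest_term` and `main_term`
`|cosT (zono g) t - cosT (zono (gI g)) v * cosT W' s| * |P| ≤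
(C/A) ‖s‖^(k-2) + |cosT (zono (gI g)) v| * (C'/A) ‖s‖^(k-2)`, and
`|cosT (zono (gI g)) v| ≤ volume.real (zono (gI g))` (`CosTAux.abs_cosT_le` in CosT.lean,
`isCompact_zono`).  By `cosT_RR` and `zc_RR` (`Y (cl h) ≠ 0`; `funext`)
`cosT W' s * P = -(1/(2π²)) * Zt k gh (zt k cl g t) s`.  The constants `A₀`: the maximum.
-/

open MeasureTheory FourierTransform Pointwise Set
open scoped RealInnerProductSpace

namespace Pool.Agent.MPbd65ca.Zo

open Pool.Agent.MPbd65ca.Pg Pool.Agent.MPbd65ca.ProdAux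

variable {k m p q : ℕ} {gh : ℤ → E 2} {cl : Fin p → ℕ} {rho : Fin p → ℝ}
  {g : Fin (p + q) → E (2 + m)}

theorem ZD.asy (D : ZD k m p q gh cl rho g) (V : ℝ) : ∃ C A₀ : ℝ, 0 < C ∧ 0 < A₀ ∧
    ∀ A : ℝ, A₀ ≤ A → ∀ t : E (2 + m), ‖sndE t‖ ≤ V → (∀ l, l < k → A ≤ |Yf gh (l : ℕ) (fstE t)|) →
      |cosT (zono g) t * ∏ l ∈ Finset.range k, Yf gh l (fstE t) +
        1 / (2 * Real.pi ^ 2) * cosT (zono (gI g)) (sndE t) * Zt k gh (zt k cl g t) (fstE t)| ≤
      C / A * ‖fstE t‖ ^ (k - 2) := by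
  obtain ⟨c0, hc, hasm⟩ := asm (g := g) D.inn
  obtain ⟨C1, A1, hC1, hA1, hm⟩ := D.main_term hc V
  obtain ⟨C2, A2, hC2, hA2, hr⟩ := D.rest_term V
  have hVI0 : 0 ≤ volume.real (zono (gI g)) := measureReal_nonneg
  refine ⟨C2 + volume.real (zono (gI g)) * C1, max A1 A2, by positivity,
    lt_max_of_lt_left hA1, ?_⟩
  intro A hA t ht hY
  obtain ⟨hpos, hmt⟩ := hm A (le_trans (le_max_left _ _) hA) t ht hY
  have hrt := hr A (le_trans (le_max_right _ _) hA) t ht hY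
  have hA0 : 0 < A := lt_of_lt_of_le hA1 (le_trans (le_max_left _ _) hA)
  have hYne : ∀ l, l < k → Yf gh (l : ℕ) (fstE t) ≠ 0 := by
    intro l hl h0
    have h := hY l hl
    rw [h0, abs_zero] at h
    linarith
  have hzt : zc k (fun j => RR k cl rho (rh gh cl rho g t) j • gh j) (fstE t) = zt k cl g t := by
    funext j
    exact D.zc_RR (fun h => hYne (cl h) (D.cl_lt h)) j
  have hcos := D.cosT_RR hpos (fstE t)
  have hcos' : cosT (zono fun h => rh gh cl rho g t h • gP g h) (fstE t) *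
      ∏ l ∈ Finset.range k, Yf gh l (fstE t) =
      -(1 / (2 * Real.pi ^ 2)) * Zt k gh (zt k cl g t) (fstE t) := by
    rw [hcos]
    exact congrArg (fun z => -(1 / (2 * Real.pi ^ 2)) * Zt k gh z (fstE t)) hzt
  have hasmt := hasm t
  have hI := CosTAux.abs_cosT_le (isCompact_zono (gI g)) (sndE t)
  have hPabs : |∏ l ∈ Finset.range k, Yf gh l (fstE t)| =
      ∏ l ∈ Finset.range k, |Yf gh (l : ℕ) (fstE t)| := Finset.abs_prod _ _
  generalize cosT (zono fun h => rh gh cl rho g t h • gP g h) (fstE t) = cW at hcos' hmt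
  generalize cosT (zono (gI g)) (sndE t) = cI at hasmt hI ⊢
  generalize cosT (zono g) t = cg at hasmt ⊢
  generalize ∑ b ∈ rst g, vdet (fun j => g (b j)) *
    ∏ j, |Real.sinc (Real.pi * ⟪t, g (b j)⟫)| = S at hasmt hrt
  have hP0 : 0 ≤ ∏ l ∈ Finset.range k, |Yf gh (l : ℕ) (fstE t)| :=
    Finset.prod_nonneg fun _ _ => abs_nonneg _
  have e1 : cg * ∏ l ∈ Finset.range k, Yf gh l (fstE t) +
      1 / (2 * Real.pi ^ 2) * cI * Zt k gh (zt k cl g t) (fstE t) =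
      (cg - cI * cW) * ∏ l ∈ Finset.range k, Yf gh l (fstE t) := by
    linear_combination cI * hcos'
  rw [e1, abs_mul, hPabs]
  have h1 : |cg - cI * cW| ≤ S + volume.real (zono (gI g)) * ‖Mn g c0 t - (cW : ℂ)‖ := by
    have h2 : |cg - cI * cW| = ‖((cg : ℂ) - (cI : ℂ) * Mn g c0 t) +
        (cI : ℂ) * (Mn g c0 t - (cW : ℂ))‖ := by
      rw [← Real.norm_eq_abs, ← Complex.norm_real]
      congr 1
      push_cast
      ring
    rw [h2]
    refine (norm_add_le _ _).trans (add_le_add hasmt ?_)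
    rw [norm_mul, Complex.norm_real, Real.norm_eq_abs]
    exact mul_le_mul_of_nonneg_right hI (norm_nonneg _)
  calc |cg - cI * cW| * ∏ l ∈ Finset.range k, |Yf gh (l : ℕ) (fstE t)|
      ≤ (S + volume.real (zono (gI g)) * ‖Mn g c0 t - (cW : ℂ)‖) *
        ∏ l ∈ Finset.range k, |Yf gh (l : ℕ) (fstE t)| := mul_le_mul_of_nonneg_right h1 hP0
    _ = S * (∏ l ∈ Finset.range k, |Yf gh (l : ℕ) (fstE t)|) + volume.real (zono (gI g)) *
        (‖Mn g c0 t - (cW : ℂ)‖ * ∏ l ∈ Finset.range k, |Yf gh (l : ℕ) (fstE t)|) := by ring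
    _ ≤ C2 / A * ‖fstE t‖ ^ (k - 2) + volume.real (zono (gI g)) *
        (C1 / A * ‖fstE t‖ ^ (k - 2)) :=
        add_le_add hrt (mul_le_mul_of_nonneg_left hmt hVI0)
    _ = (C2 + volume.real (zono (gI g)) * C1) / A * ‖fstE t‖ ^ (k - 2) := by ring

end Pool.Agent.MPbd65ca.Zo
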