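import Pool.Agent.Lib.MP_bd65ca_an_Z.Lift

/-!
# The Turán problem for zonotopes: the factors of the outer generators

PROOF. `s = fstE t`, `v = sndE t`, `Y j = Yf gh j s`, `x h = ⟪t, g (castAdd q h)⟫`,
`ℓ h = sndE (g (castAdd q h))`.  By `inner_split` and `D.out`: `x h = rho h * Y (cl h) + ⟪v, ℓ h⟫`.
`rh_mul`: definition.  `rh_bound`: `|rh - 1| = |⟪v, ℓ h⟫| / (rho h |Y (cl h)|) ≤ ‖ℓ h‖ |V| / (rho h A)`;
`C₁ = ∑_h (‖ℓ h‖ |V| / rho h) + 1`, `A₀ = 2 C₁`, so `1/2 ≤ rh ≤ 2`.  Then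
`|x h| = rho h |Y (cl h)| rh ≥ rho h |Y (cl h)| / 2 > 0` and
`|sinc (π x)| = |sin (π x)| / |π x| ≤ 1 / |x| ≤ (2 / rho h) / |Y (cl h)|`; `C = C₁ + ∑_h 2 / rho h`.
-/

open MeasureTheory FourierTransform Pointwise Set
open scoped RealInnerProductSpace

namespace Pool.Agent.MPbd65ca.Zo

open Pool.Agent.MPbd65ca.Pg Pool.Agent.MPbd65ca.ProdAux

variable {k m p q : ℕ} {gh : ℤ → E 2} {cl : Fin p → ℕ} {rho : Fin p → ℝ}
  {g : Fin (p + q) → E (2 + m)}

/-- The factors of the outer generators. -/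
noncomputable def rh (gh : ℤ → E 2) (cl : Fin p → ℕ) (rho : Fin p → ℝ)
    (g : Fin (p + q) → E (2 + m)) (t : E (2 + m)) (h : Fin p) : ℝ :=
  ⟪t, g (Fin.castAdd q h)⟫ / (rho h * Yf gh (cl h) (fstE t))

private theorem inner_gP (D : ZD k m p q gh cl rho g) (s : E 2) (h : Fin p) :
    ⟪s, gP g h⟫ = rho h * Yf gh (cl h) s := by
  unfold gP Yf
  rw [D.out h, real_inner_smul_right, real_inner_comm]

private theorem inner_out (D : ZD k m p q gh cl rho g) (t : E (2 + m)) (h : Fin p) :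
    ⟪t, g (Fin.castAdd q h)⟫ =
      rho h * Yf gh (cl h) (fstE t) + ⟪sndE t, sndE (g (Fin.castAdd q h))⟫ := by
  rw [inner_split, ← inner_gP D (fstE t) h]
  rfl

theorem ZD.rh_mul (D : ZD k m p q gh cl rho g) {t : E (2 + m)} {h : Fin p}
    (hY : Yf gh (cl h) (fstE t) ≠ 0) :
    rh gh cl rho g t h * ⟪fstE t, gP g h⟫ = ⟪t, g (Fin.castAdd q h)⟫ := by
  unfold rh
  rw [inner_gP D]
  exact div_mul_cancel₀ _ (mul_ne_zero (D.rho_pos h).ne' hY)

theorem ZD.rh_bound (D : ZD k m p q gh cl rho g) (V : ℝ) : ∃ C A₀ : ℝ, 0 < C ∧ 0 < A₀ ∧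
    ∀ A : ℝ, A₀ ≤ A → ∀ t : E (2 + m), ‖sndE t‖ ≤ V → (∀ l, l < k → A ≤ |Yf gh (l : ℕ) (fstE t)|) →
      ∀ h, |rh gh cl rho g t h - 1| ≤ C / A ∧ 1 / 2 ≤ rh gh cl rho g t h ∧
        rh gh cl rho g t h ≤ 2 ∧
        |Real.sinc (Real.pi * ⟪t, g (Fin.castAdd q h)⟫)| ≤ C / |Yf gh (cl h) (fstE t)| := by
  have hr := D.rho_pos
  set S1 : ℝ := ∑ h : Fin p, ‖sndE (g (Fin.castAdd q h))‖ * |V| / rho h with hS1
  set S2 : ℝ := ∑ h : Fin p, 2 / rho h with hS2
  have h10 : ∀ h : Fin p, 0 ≤ ‖sndE (g (Fin.castAdd q h))‖ * |V| / rho h := fun h =>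
    div_nonneg (mul_nonneg (norm_nonneg _) (abs_nonneg _)) (hr h).le
  have h20 : ∀ h : Fin p, 0 ≤ 2 / rho h := fun h => div_nonneg zero_le_two (hr h).le
  have hS1n : 0 ≤ S1 := Finset.sum_nonneg fun h _ => h10 h
  have hS2n : 0 ≤ S2 := Finset.sum_nonneg fun h _ => h20 h
  refine ⟨S1 + 1 + S2, 2 * (S1 + 1), by linarith, by linarith, ?_⟩
  intro A hA t ht hYA h
  have hA0 : 0 < A := by linarith
  have hrh := hr h
  have hYh : A ≤ |Yf gh (cl h) (fstE t)| := hYA (cl h) (D.cl_lt h)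
  set Y : ℝ := Yf gh (cl h) (fstE t) with hY
  have hYp : 0 < |Y| := lt_of_lt_of_le hA0 hYh
  have hY0 : Y ≠ 0 := abs_pos.1 hYp
  have hin := inner_out D t h
  rw [← hY] at hin
  set x : ℝ := ⟪t, g (Fin.castAdd q h)⟫ with hx
  set w : ℝ := ⟪sndE t, sndE (g (Fin.castAdd q h))⟫ with hw
  have hden : rho h * Y ≠ 0 := mul_ne_zero hrh.ne' hY0
  have hrhx : rh gh cl rho g t h = x / (rho h * Y) := rfl
  have hwb : |w| ≤ ‖sndE (g (Fin.castAdd q h))‖ * |V| := by
    refine (abs_real_inner_le_norm _ _).trans ?_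
    rw [mul_comm]
    exact mul_le_mul_of_nonneg_left (ht.trans (le_abs_self V)) (norm_nonneg _)
  have h1 : rh gh cl rho g t h - 1 = w / (rho h * Y) := by
    rw [hrhx, hin]
    field_simp
    ring
  have h2 : |rh gh cl rho g t h - 1| ≤ (S1 + 1) / A := by
    rw [h1, abs_div, abs_mul, abs_of_pos hrh]
    have e1 : |w| / (rho h * |Y|) ≤
        ‖sndE (g (Fin.castAdd q h))‖ * |V| / (rho h * A) := by
      refine div_le_div₀ (mul_nonneg (norm_nonneg _) (abs_nonneg _)) hwb (mul_pos hrh hA0)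
        (mul_le_mul_of_nonneg_left hYh hrh.le)
    have e2 : ‖sndE (g (Fin.castAdd q h))‖ * |V| / (rho h * A) =
        (‖sndE (g (Fin.castAdd q h))‖ * |V| / rho h) / A := by
      rw [div_div]
    have e3 : ‖sndE (g (Fin.castAdd q h))‖ * |V| / rho h ≤ S1 :=
      Finset.single_le_sum (f := fun h : Fin p => ‖sndE (g (Fin.castAdd q h))‖ * |V| / rho h)
        (fun h _ => h10 h) (Finset.mem_univ h)
    refine e1.trans ?_
    rw [e2]
    exact div_le_div_of_nonneg_right (by linarith) hA0.le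
  have h3 : (S1 + 1) / A ≤ 1 / 2 := by
    rw [div_le_div_iff₀ hA0 zero_lt_two]
    linarith
  have h4 := abs_le.1 (h2.trans h3)
  have h5 : 1 / 2 ≤ rh gh cl rho g t h := by linarith [h4.1]
  have h6 : rh gh cl rho g t h ≤ 2 := by linarith [h4.2]
  refine ⟨h2.trans (div_le_div_of_nonneg_right (by linarith) hA0.le), h5, h6, ?_⟩
  have hxe : x = rh gh cl rho g t h * (rho h * Y) := by
    rw [hrhx, div_mul_cancel₀ _ hden]
  have hxb : rho h * |Y| / 2 ≤ |x| := by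
    rw [hxe, abs_mul, abs_mul, abs_of_pos hrh, abs_of_pos (by linarith : 0 < rh gh cl rho g t h)]
    have := mul_le_mul_of_nonneg_right h5 (mul_nonneg hrh.le hYp.le)
    linarith
  have hxp : 0 < |x| := lt_of_lt_of_le (by positivity) hxb
  have hx0 : x ≠ 0 := abs_pos.1 hxp
  have hpx : Real.pi * x ≠ 0 := mul_ne_zero Real.pi_ne_zero hx0
  rw [Real.sinc_of_ne_zero hpx, abs_div]
  have h7 : |Real.sin (Real.pi * x)| / |Real.pi * x| ≤ 1 / |x| := by
    refine div_le_div₀ zero_le_one (Real.abs_sin_le_one _) hxp ?_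
    rw [abs_mul, abs_of_pos Real.pi_pos]
    have : 1 ≤ Real.pi := by linarith [Real.pi_gt_three]
    nlinarith
  have h8 : 1 / |x| ≤ (2 / rho h) / |Y| := by
    rw [div_div, div_le_div_iff₀ hxp (mul_pos hrh hYp)]
    linarith
  have h9 : 2 / rho h ≤ S2 :=
    Finset.single_le_sum (f := fun h : Fin p => 2 / rho h) (fun h _ => h20 h) (Finset.mem_univ h)
  exact (h7.trans h8).trans (div_le_div_of_nonneg_right (by linarith) hYp.le)

/-- Products of the linear forms with two factors left out. -/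
theorem ZD.prod_two (D : ZD k m p q gh cl rho g) : ∃ L : ℝ, 0 < L ∧ ∀ s : E 2,
    (∀ l, l < k → Yf gh (l : ℕ) s ≠ 0) → ∀ i j : ℕ, i < k → j < k → i ≠ j →
      (∏ l ∈ Finset.range k, |Yf gh (l : ℕ) s|) / (|Yf gh (i : ℕ) s| * |Yf gh (j : ℕ) s|) ≤
        L * ‖s‖ ^ (k - 2) := by
  set B : ℝ := 1 + ∑ l ∈ Finset.range k, ‖gh (l : ℕ)‖ with hB
  have hB0 : 0 < B := by
    have : 0 ≤ ∑ l ∈ Finset.range k, ‖gh (l : ℕ)‖ := Finset.sum_nonneg fun _ _ => norm_nonneg _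
    linarith
  refine ⟨B ^ (k - 2), pow_pos hB0 _, ?_⟩
  intro s hY i j hi hj hij
  have hjm : j ∈ (Finset.range k).erase i :=
    Finset.mem_erase.2 ⟨fun h => hij h.symm, Finset.mem_range.2 hj⟩
  have hi0 : |Yf gh (i : ℕ) s| ≠ 0 := abs_ne_zero.2 (hY i hi)
  have hj0 : |Yf gh (j : ℕ) s| ≠ 0 := abs_ne_zero.2 (hY j hj)
  rw [← Finset.mul_prod_erase _ _ (Finset.mem_range.2 hi), ← Finset.mul_prod_erase _ _ hjm,
    ← mul_assoc, mul_div_cancel_left₀ _ (mul_ne_zero hi0 hj0)]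
  have hcard : (((Finset.range k).erase i).erase j).card = k - 2 := by
    rw [Finset.card_erase_of_mem hjm, Finset.card_erase_of_mem (Finset.mem_range.2 hi),
      Finset.card_range]
    omega
  rw [← mul_pow, ← hcard, ← Finset.prod_const]
  refine Finset.prod_le_prod (fun _ _ => abs_nonneg _) ?_
  intro l hl
  have hl' : l ∈ Finset.range k := Finset.mem_of_mem_erase (Finset.mem_of_mem_erase hl)
  refine (abs_real_inner_le_norm _ _).trans (mul_le_mul_of_nonneg_right ?_ (norm_nonneg _))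
  have := Finset.single_le_sum (f := fun l : ℕ => ‖gh (l : ℕ)‖) (fun _ _ => norm_nonneg _) hl'
  linarith

/-- Outer generators with independent planar parts belong to different classes. -/
theorem ZD.cl_ne (D : ZD k m p q gh cl rho g) {h h' : Fin p}
    (hi : LinearIndependent ℝ ![gP g h, gP g h']) : cl h ≠ cl h' := by
  intro he
  have h1 : gP g h = rho h • gh (cl h) := D.out h
  have h2 : gP g h' = rho h' • gh (cl h) := by
    rw [he]
    exact D.out h'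
  have h3 := LinearIndependent.pair_iff.1 hi (rho h') (-rho h) (by
    rw [h1, h2, smul_smul, smul_smul, ← add_smul]
    have : rho h' * rho h + -rho h * rho h' = 0 := by ring
    rw [this, zero_smul])
  exact (D.rho_pos h').ne' h3.1

end Pool.Agent.MPbd65ca.Zo
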