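import Pool.Agent.Lib.MP_bd65ca_an.Pg.Basic
import Pool.Agent.Lib.MP_bd65ca_an.Gen.Avoid

/-!
# The Turán problem for zonotopes: classes of parallel planar vectors in angular order

PROOF (compare Pg/EdgeA.lean).  Choose `n : E 2` with `⟪n, v h⟫ ≠ 0` for all `h`
(`exists_avoid`), let `Jn = !₂[-n 1, n 0]`, `ep h = 1` or `-1` according to the sign of
`⟪n, v h⟫`, `w h = ep h • v h`, `a h = ⟪n, w h⟫ > 0`, `r h = ⟪Jn, w h⟫ / a h`.  For `s : ℝ` put
`e s = (‖n‖^2)⁻¹ • (n + s • Jn)`; then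
`w h = a h • e (r h)` (components with respect to the orthogonal basis `n`, `Jn`) and
`dt (e s) (e s') = (s' - s) / ‖n‖^2`.  Let `T` be the finset of all `r h`, `k` its cardinality, and
`s 0 < ... < s (k-1)` its elements (`Finset.orderEmbOfFin`).  `cl h` is the index with
`s (cl h) = r h`.  `A l = ∑ h with cl h = l, a h > 0` for `l < k` (the class is not empty).
`gh l = A l • e (s l)` for `0 ≤ l < k`, extended by `gh j = (-1)^(j / k) • gh (j % k)`, and
`rho h = a h / A (cl h)`.  `Zon.anti`: as in `gt_anti`.  `Zon.pos`: let `i < l < i + k`; write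
`i = i' + M k`, `0 ≤ i' < k`, `l = l' + M k`, `i' < l' < i' + k`; if `l' < k` then
`dt (gh i) (gh l) = dt (gh i') (gh l') = A A (s l' - s i') / ‖n‖^2 > 0`; if `l' ≥ k` then
`gh l' = -gh (l' - k)` and `l' - k < i'`, so the sign is again positive.  `4 ≤ k`: the four vectors
`v (i a)` are pairwise not parallel (`dt ≠ 0`), so their `r` are different.
-/

open MeasureTheory FourierTransform Pointwise Set Filter Topology
open scoped RealInnerProductSpace

namespace Pool.Agent.MPbd65ca.Zo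

open Pool.Agent.MPbd65ca.Pg

/-- the extension of the sides to all integers -/
private noncomputable def NBg (k : ℕ) (g0 : ℕ → E 2) (j : ℤ) : E 2 :=
  ((-1 : ℝ) ^ (j / (k : ℤ))) • g0 (j % (k : ℤ)).toNat

private theorem NBg_anti {k : ℕ} (hk : 0 < k) (g0 : ℕ → E 2) (j : ℤ) :
    NBg k g0 (j + k) = -NBg k g0 j := by
  unfold NBg
  have hk' : (k : ℤ) ≠ 0 := by exact_mod_cast hk.ne'
  rw [Int.add_ediv_of_dvd_right (dvd_refl _), Int.ediv_self hk', Int.add_emod_right,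
    zpow_add_one₀ (by norm_num), mul_neg_one, neg_smul]

private theorem NBg_nat {k : ℕ} (g0 : ℕ → E 2) {j : ℕ} (hj : j < k) :
    NBg k g0 (j : ℤ) = g0 j := by
  unfold NBg
  have h1 : (0 : ℤ) ≤ (j : ℤ) := by positivity
  have h2 : (j : ℤ) < (k : ℤ) := by exact_mod_cast hj
  rw [Int.ediv_eq_zero_of_lt h1 h2, zpow_zero, one_smul, Int.emod_eq_of_lt h1 h2,
    Int.toNat_natCast]

private theorem NBg_pos {k : ℕ} (hk : 0 < k) {g0 : ℕ → E 2}
    (h0 : ∀ i l : ℕ, i < l → l < k → 0 < dt (g0 i) (g0 l)) {i l : ℤ} (hil : i < l)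
    (hlk : l < i + k) : 0 < dt (NBg k g0 i) (NBg k g0 l) := by
  have hk' : (0 : ℤ) < k := by exact_mod_cast hk
  unfold NBg
  rw [dt_smul_left, dt_smul_right, ← mul_assoc]
  have hi1 := Int.emod_add_mul_ediv i k
  have hi2 := Int.emod_nonneg i hk'.ne'
  have hi3 := Int.emod_lt_of_pos i hk'
  have hl1 := Int.emod_add_mul_ediv l k
  have hl2 := Int.emod_nonneg l hk'.ne'
  have hl3 := Int.emod_lt_of_pos l hk'
  have hM1 : i / k ≤ l / k := Int.ediv_le_ediv hk' hil.le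
  have hM2 : l / k ≤ i / k + 1 := by
    have h := Int.ediv_le_ediv hk' hlk.le
    rwa [Int.add_ediv_of_dvd_right (dvd_refl _), Int.ediv_self hk'.ne'] at h
  have hc : l / k = i / k ∨ l / k = i / k + 1 := by omega
  rcases hc with h | h
  · rw [h] at hl1 ⊢
    have h1 : i % k < l % k := by linarith
    have h2 : (i % (k : ℤ)).toNat < (l % (k : ℤ)).toNat := by omega
    have h3 := h0 _ _ h2 (by omega)
    rw [← zpow_add₀ (by norm_num), Even.neg_one_zpow ⟨_, rfl⟩, one_mul]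
    exact h3
  · rw [h] at hl1 ⊢
    have h1 : l % k < i % k := by linarith
    have h2 : (l % (k : ℤ)).toNat < (i % (k : ℤ)).toNat := by omega
    have h3 := h0 _ _ h2 (by omega)
    rw [zpow_add_one₀ (by norm_num), ← mul_assoc, ← zpow_add₀ (by norm_num),
      Even.neg_one_zpow ⟨_, rfl⟩, dt_swap]
    linarith

/-- the direction with the slope `s` -/
private noncomputable def NBe (n : E 2) (s : ℝ) : E 2 :=
  (n 0 ^ 2 + n 1 ^ 2)⁻¹ • (n + s • (!₂[-n 1, n 0] : E 2))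

private theorem NBe_dt {n : E 2} (hn : 0 < n 0 ^ 2 + n 1 ^ 2) (s s' : ℝ) :
    dt (NBe n s) (NBe n s') = (s' - s) / (n 0 ^ 2 + n 1 ^ 2) := by
  have h1 : dt (n + s • (!₂[-n 1, n 0] : E 2)) (n + s' • (!₂[-n 1, n 0] : E 2)) =
      (s' - s) * (n 0 ^ 2 + n 1 ^ 2) := by
    simp [dt]
    ring
  unfold NBe
  rw [dt_smul_left, dt_smul_right, h1]
  field_simp

private theorem NBe_rep {n : E 2} (hn : 0 < n 0 ^ 2 + n 1 ^ 2) {w : E 2}
    (hw : n 0 * w 0 + n 1 * w 1 ≠ 0) :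
    w = (n 0 * w 0 + n 1 * w 1) •
      NBe n ((n 0 * w 1 - n 1 * w 0) / (n 0 * w 0 + n 1 * w 1)) := by
  obtain ⟨D, hD⟩ : ∃ D : ℝ, D = n 0 * w 0 + n 1 * w 1 := ⟨_, rfl⟩
  rw [← hD] at hw ⊢
  unfold NBe
  ext i
  fin_cases i
  · simp
    field_simp
    rw [hD]
    ring
  · simp
    field_simp
    rw [hD]
    ring

/-- distinct values in increasing order -/
private theorem NB_order {p : ℕ} (r : Fin p → ℝ) : ∃ (k : ℕ) (s : ℕ → ℝ) (cl : Fin p → ℕ),
    (∀ i l : ℕ, i < l → l < k → s i < s l) ∧ (∀ h, cl h < k) ∧ (∀ h, s (cl h) = r h) ∧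
    (∀ l, l < k → ∃ h, cl h = l) ∧
    ∀ i : Fin 4 → Fin p, (∀ a b, a ≠ b → r (i a) ≠ r (i b)) → 4 ≤ k := by
  classical
  obtain ⟨T, hT⟩ : ∃ T : Finset ℝ, T = Finset.univ.image r := ⟨_, rfl⟩
  have hmem : ∀ h, r h ∈ T := fun h => by
    rw [hT]
    exact Finset.mem_image_of_mem _ (Finset.mem_univ _)
  have hT' : ∀ x ∈ T, ∃ h, r h = x := by
    intro x hx
    rw [hT, Finset.mem_image] at hx
    obtain ⟨h, -, hh⟩ := hx
    exact ⟨h, hh⟩
  have hrange : ∀ x ∈ T, ∃ c : Fin T.card, T.orderEmbOfFin rfl c = x := by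
    intro x hx
    have h1 : x ∈ Set.range (T.orderEmbOfFin rfl) := by
      rw [Finset.range_orderEmbOfFin]
      exact hx
    exact h1
  choose c hc using fun h => hrange (r h) (hmem h)
  refine ⟨T.card, fun l => if hl : l < T.card then T.orderEmbOfFin rfl ⟨l, hl⟩ else 0,
    fun h => (c h : ℕ), ?_, fun h => (c h).2, ?_, ?_, ?_⟩
  · intro i l hil hl
    simp only [dif_pos hl, dif_pos (hil.trans hl)]
    exact (T.orderEmbOfFin rfl).strictMono (by exact hil)
  · intro h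
    simp only [dif_pos (c h).2]
    exact hc h
  · intro l hl
    obtain ⟨h, hh⟩ := hT' _ (Finset.orderEmbOfFin_mem T rfl ⟨l, hl⟩)
    refine ⟨h, ?_⟩
    have h2 : T.orderEmbOfFin rfl (c h) = T.orderEmbOfFin rfl ⟨l, hl⟩ := (hc h).trans hh
    exact congrArg Fin.val ((T.orderEmbOfFin rfl).injective h2)
  · intro i hi
    have h1 : (Finset.univ : Finset (Fin 4)).card ≤ T.card := by
      refine Finset.card_le_card_of_injOn (fun a => r (i a)) (fun a _ => hmem _) ?_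
      intro a _ b _ hab
      by_contra hne
      exact hi a b hne hab
    simpa using h1

theorem exists_classes {p : ℕ} (v : Fin p → E 2) (hv : ∀ h, v h ≠ 0) (i : Fin 4 → Fin p)
    (hi : ∀ a b, a ≠ b → dt (v (i a)) (v (i b)) ≠ 0) :
    ∃ (k : ℕ) (gh : ℤ → E 2) (cl : Fin p → ℕ) (rho ep : Fin p → ℝ), Zon k gh ∧
      (∀ h, cl h < k) ∧ (∀ h, 0 < rho h) ∧ (∀ h, ep h = 1 ∨ ep h = -1) ∧
      (∀ h, ep h • v h = rho h • gh (cl h)) ∧ ∀ j, j < k → ∑ h with cl h = j, rho h = 1 := by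
  classical
  obtain ⟨n, -, hn⟩ := exists_avoid (Finset.univ : Finset (Fin p)) v (fun h _ => hv h) 0
    (ε := 1) one_pos
  have hin : ∀ x : E 2, ⟪n, x⟫ = n 0 * x 0 + n 1 * x 1 := by
    intro x
    rw [PiLp.inner_apply, Fin.sum_univ_two]
    simp [mul_comm]
  have hN : 0 < n 0 ^ 2 + n 1 ^ 2 := by
    by_contra hcon
    have h0 : n 0 = 0 := by nlinarith [sq_nonneg (n 0), sq_nonneg (n 1)]
    have h1 : n 1 = 0 := by nlinarith [sq_nonneg (n 0), sq_nonneg (n 1)]
    refine hn (i 0) (Finset.mem_univ _) ?_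
    rw [hin, h0, h1]
    ring
  -- signs
  have hep : ∀ h, ∃ ep : ℝ, (ep = 1 ∨ ep = -1) ∧ 0 < ep * (n 0 * v h 0 + n 1 * v h 1) := by
    intro h
    have h1 := hn h (Finset.mem_univ _)
    rw [hin] at h1
    rcases h1.lt_or_gt with h2 | h2
    · exact ⟨-1, Or.inr rfl, by linarith⟩
    · exact ⟨1, Or.inl rfl, by linarith⟩
  choose ep hep1 hep2 using hep
  obtain ⟨a, ha⟩ : ∃ a : Fin p → ℝ, ∀ h, a h = ep h * (n 0 * v h 0 + n 1 * v h 1) :=
    ⟨_, fun h => rfl⟩
  have ha0 : ∀ h, 0 < a h := fun h => by rw [ha]; exact hep2 h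
  obtain ⟨r, hr⟩ : ∃ r : Fin p → ℝ, ∀ h, ep h • v h = a h • NBe n (r h) := by
    refine ⟨fun h => (n 0 * (ep h • v h) 1 - n 1 * (ep h • v h) 0) /
      (n 0 * (ep h • v h) 0 + n 1 * (ep h • v h) 1), fun h => ?_⟩
    have h1 : n 0 * (ep h • v h) 0 + n 1 * (ep h • v h) 1 = a h := by
      rw [ha]
      simp only [PiLp.smul_apply, smul_eq_mul]
      ring
    have h2 := NBe_rep hN (w := ep h • v h) (by rw [h1]; exact (ha0 h).ne')
    rw [h1] at h2
    refine Eq.trans h2 ?_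
    beta_reduce
    rw [h1]
  obtain ⟨k, s, cl, hs, hcl, hscl, hne, h4⟩ := NB_order r
  have hk : 4 ≤ k := by
    refine h4 i fun b c hbc heq => hi b c hbc ?_
    have h1 : dt (ep (i b) • v (i b)) (ep (i c) • v (i c)) = 0 := by
      rw [hr, hr, dt_smul_left, dt_smul_right, NBe_dt hN, heq]
      ring
    rw [dt_smul_left, dt_smul_right] at h1
    have h2 : ∀ h, ep h ≠ 0 := fun h => by
      rcases hep1 h with h3 | h3 <;> rw [h3] <;> norm_num
    rcases mul_eq_zero.1 h1 with h3 | h3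
    · exact absurd h3 (h2 _)
    · rcases mul_eq_zero.1 h3 with h5 | h5
      · exact absurd h5 (h2 _)
      · exact h5
  obtain ⟨A, hA⟩ : ∃ A : ℕ → ℝ, ∀ l, A l = ∑ h with cl h = l, a h := ⟨_, fun l => rfl⟩
  have hA0 : ∀ l, l < k → 0 < A l := by
    intro l hl
    rw [hA]
    refine Finset.sum_pos (fun h _ => ha0 h) ?_
    obtain ⟨h, hh⟩ := hne l hl
    exact ⟨h, by simp [hh]⟩
  have hg : ∀ i l : ℕ, i < l → l < k →
      0 < dt (A i • NBe n (s i)) (A l • NBe n (s l)) := by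
    intro i l hil hl
    rw [dt_smul_left, dt_smul_right, NBe_dt hN]
    have h1 := hA0 i (hil.trans hl)
    have h2 := hA0 l hl
    have h3 : 0 < s l - s i := sub_pos.2 (hs i l hil hl)
    positivity
  refine ⟨k, NBg k (fun l => A l • NBe n (s l)), cl, fun h => a h / A (cl h), ep, ?_, hcl, ?_,
    hep1, ?_, ?_⟩
  · exact ⟨hk, NBg_anti (by omega) _, fun i l => NBg_pos (by omega) hg⟩
  · exact fun h => div_pos (ha0 h) (hA0 _ (hcl h))
  · intro h
    rw [NBg_nat _ (hcl h), smul_smul, div_mul_cancel₀ _ (hA0 _ (hcl h)).ne', hscl, hr]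
  · intro j hj
    have h1 : ∑ h with cl h = j, a h / A (cl h) = ∑ h with cl h = j, a h / A j := by
      refine Finset.sum_congr rfl fun h hh => ?_
      rw [(Finset.mem_filter.1 hh).2]
    rw [h1, ← Finset.sum_div, ← hA, div_self (hA0 j hj).ne']

end Pool.Agent.MPbd65ca.Zo
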