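import Pool.Agent.Lib.MP_bd65ca_an_Z.Defs
import Pool.Agent.Lib.MP_bd65ca_an.Dense
import Pool.Agent.Lib.MP_bd65ca_an.CosT

/-!
# The Turán problem for zonotopes: elementary properties of zonotopes

PROOF. `isCompact_zono`: image of the compact box `Set.pi univ (fun _ => Icc (-1/2) (1/2))` in
`Fin n → ℝ` under a continuous map.  `convex_zono`, `neg_mem_zono`: coefficients.
`isBody_zono`: if the `g i` span `E d` then `zono g` has interior points: the linear map
`Φ : (Fin n → ℝ) → E d`, `lam ↦ ∑ lam i • g i` is surjective, hence open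
(`LinearMap.isOpenMap_of_finiteDimensional` or the open mapping theorem), and the image of the open
cube is a nonempty open subset.
`cosT_exp`: for a symmetric compact set `W` the integral of `exp (-2 π i ⟪t, x⟫)` over `W` is
`cosT W t`: real part `∫ cos`, imaginary part `-∫ sin = 0` by the symmetry (`neg_setIntegral` in
CosT.lean).
-/

open MeasureTheory FourierTransform Pointwise Set
open scoped RealInnerProductSpace

namespace Pool.Agent.MPbd65ca.Zo

variable {d n : ℕ} {g : Fin n → E d}

/-- The linear map of the coefficients. -/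
private noncomputable def phiL (g : Fin n → E d) : (Fin n → ℝ) →ₗ[ℝ] E d :=
  Fintype.linearCombination ℝ g

private theorem phiL_apply (g : Fin n → E d) (lam : Fin n → ℝ) :
    phiL g lam = ∑ i, lam i • g i := by
  simp [phiL, Fintype.linearCombination_apply]

private theorem continuous_phiL (g : Fin n → E d) : Continuous (phiL g) :=
  LinearMap.continuous_of_finiteDimensional _

private theorem zono_eq (g : Fin n → E d) :
    zono g = phiL g '' (Set.pi univ (fun _ => Icc (-(1 / 2 : ℝ)) (1 / 2))) := by
  ext x
  constructor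
  · rintro ⟨lam, h, rfl⟩
    exact ⟨lam, fun i _ => abs_le.1 (h i), phiL_apply g lam⟩
  · rintro ⟨lam, h, rfl⟩
    exact ⟨lam, fun i => abs_le.2 (h i (mem_univ i)), phiL_apply g lam⟩

theorem isCompact_zono (g : Fin n → E d) : IsCompact (zono g) := by
  rw [zono_eq]
  exact (isCompact_univ_pi fun _ => isCompact_Icc).image (continuous_phiL g)

theorem convex_zono (g : Fin n → E d) : Convex ℝ (zono g) := by
  rw [zono_eq]
  exact (convex_pi fun _ _ => convex_Icc _ _).linear_image (phiL g)

theorem neg_mem_zono (g : Fin n → E d) : ∀ x ∈ zono g, -x ∈ zono g := by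
  rintro x ⟨lam, h, rfl⟩
  refine ⟨fun i => -lam i, fun i => by rw [abs_neg]; exact h i, ?_⟩
  rw [← Finset.sum_neg_distrib]
  exact Finset.sum_congr rfl fun i _ => (neg_smul _ _).symm

theorem isBody_zono (hg : Submodule.span ℝ (range g) = ⊤) : IsBody (zono g) := by
  refine ⟨isCompact_zono g, convex_zono g, ?_, neg_mem_zono g⟩
  have hsurj : Function.Surjective (phiL g) := by
    rw [← LinearMap.range_eq_top, phiL, Fintype.range_linearCombination, hg]
  have hopen : IsOpenMap (phiL g) := (phiL g).isOpenMap_of_finiteDimensional hsurj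
  have h1 : IsOpen (phiL g '' (Set.pi univ (fun _ => Ioo (-(1 / 2 : ℝ)) (1 / 2)))) :=
    hopen _ (isOpen_set_pi finite_univ fun _ _ => isOpen_Ioo)
  have h2 : phiL g '' (Set.pi univ (fun _ => Ioo (-(1 / 2 : ℝ)) (1 / 2))) ⊆ zono g := by
    rw [zono_eq]
    exact image_mono (Set.pi_mono fun _ _ => Ioo_subset_Icc_self)
  refine ⟨phiL g 0, interior_maximal h2 h1 ⟨0, fun i _ => ?_, rfl⟩⟩
  simp

theorem cosT_exp {W : Set (E d)} (hW : IsCompact W) (hs : ∀ x ∈ W, -x ∈ W) (t : E d) :
    (cosT W t : ℂ) = ∫ x in W, (Real.fourierChar (-⟪t, x⟫) : ℂ) := by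
  have h1 : cosT W t = cosT W (-t) := by
    unfold cosT
    refine integral_congr_ae (Filter.Eventually.of_forall fun x => ?_)
    simp only [inner_neg_left, mul_neg, Real.cos_neg]
  rw [h1, CosTAux.cosT_eq hW hs, charFun_apply]
  refine integral_congr_ae (Filter.Eventually.of_forall fun x => ?_)
  simp only
  rw [Real.fourierChar_apply, real_inner_smul_right, real_inner_comm, inner_neg_left]

end Pool.Agent.MPbd65ca.Zo
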