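import Pool.Agent.Lib.MP_bd65ca_an_Z.NormA
import Pool.Agent.Lib.MP_bd65ca_an_Z.NormB
import Pool.Agent.Lib.MP_bd65ca_an_Z.TransA

/-!
# The Turán problem for zonotopes: the normal form

PROOF. `zono_reindex`: the generators may be permuted and multiplied by signs: change the
coefficients.  `zono_image`: a linear map sends `zono g` to the zonotope of the images.
`exists_zd`: `A` from `exists_coord`, `g₁ i = A (g i)`.  The set `O = {i | g i ∉ L}` of outer indices has
`p` elements, its complement `q`, `p + q = n`; let `e : Fin (p + q) ≃ Fin n` map `castAdd q h`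
into `O` and `natAdd p i` into the complement (`finSumFinEquiv`, `Fintype.equivFin`, or
`Finset.equivFin`-type maps).  The planar vectors `v h = fstE (g₁ (e (castAdd q h)))` are not `0`
(`exists_coord`).  The four given indices `i a` are in `O`: `L ⊔ span {g (i a), g (i b)} = ⊤` has dimension
`m + 2`, so `g (i a) ∉ L`; and `dt (v ..) (v ..) ≠ 0`: otherwise the planar parts of
`g₁ (i a)`, `g₁ (i b)` are dependent, and `A '' (L ⊔ span ..)` is not everything.  `exists_classes`
gives `k, gh, cl, rho, ep`; let `g' (castAdd q h) = ep h • g₁ (e (castAdd q h))`,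
`g' (natAdd p i) = g₁ (e (natAdd p i))`.  `out`: `fstE` commutes with `ep h •`.  `inn`: `exists_coord`.
`span`: `L` is spanned by the generators in it, so `A '' L = {x | fstE x = 0}` is spanned by the
`g' (natAdd p i)` (which are exactly the generators in it), and `sndE` maps this subspace onto `E m`.
`zono g' = zono (fun i => A (g i)) = A '' zono g` by `zono_reindex`, `zono_image`.
-/

open MeasureTheory FourierTransform Pointwise Set Filter Topology
open scoped RealInnerProductSpace

namespace Pool.Agent.MPbd65ca.Zo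

open Pool.Agent.MPbd65ca.Pg Pool.Agent.MPbd65ca.ProdAux

theorem zono_reindex {d n n' : ℕ} (g : Fin n → E d) (e : Fin n' ≃ Fin n) (s : Fin n' → ℝ)
    (hs : ∀ i, s i = 1 ∨ s i = -1) : zono (fun i => s i • g (e i)) = zono g := by
  have hab : ∀ i, |s i| = 1 := by
    intro i
    rcases hs i with h | h <;> simp [h]
  have hsq : ∀ i, s i * s i = 1 := by
    intro i
    rcases hs i with h | h <;> simp [h]
  ext x
  constructor
  · rintro ⟨lam, hl, rfl⟩
    refine ⟨fun i => lam (e.symm i) * s (e.symm i), fun i => ?_, ?_⟩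
    · rw [abs_mul, hab, mul_one]
      exact hl _
    · rw [← Equiv.sum_comp e]
      refine Finset.sum_congr rfl fun j _ => ?_
      simp only [Equiv.symm_apply_apply]
      rw [smul_smul]
  · rintro ⟨lam, hl, rfl⟩
    refine ⟨fun j => lam (e j) * s j, fun j => ?_, ?_⟩
    · rw [abs_mul, hab, mul_one]
      exact hl _
    · rw [← Equiv.sum_comp e]
      refine Finset.sum_congr rfl fun j _ => ?_
      simp only []
      rw [smul_smul, mul_assoc, hsq, mul_one]

theorem zono_image {d n : ℕ} (g : Fin n → E d) (A : E d ≃L[ℝ] E d) :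
    A '' zono g = zono (fun i => A (g i)) := by
  ext x
  constructor
  · rintro ⟨y, ⟨lam, hl, rfl⟩, rfl⟩
    exact ⟨lam, hl, by rw [map_sum]; exact Finset.sum_congr rfl fun i _ => map_smul A _ _⟩
  · rintro ⟨lam, hl, rfl⟩
    exact ⟨∑ i, lam i • g i, ⟨lam, hl, rfl⟩, by
      rw [map_sum]; exact Finset.sum_congr rfl fun i _ => map_smul A _ _⟩

private theorem func_kill {m : ℕ} (A : E (2 + m) ≃L[ℝ] E (2 + m)) (L : Submodule ℝ (E (2 + m)))
    (hA : ∀ x, x ∈ L ↔ fstE (A x) = 0) (x y : E (2 + m))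
    (h : L ⊔ Submodule.span ℝ {x, y} = ⊤) (c : E 2 →ₗ[ℝ] ℝ) (hx : c (fstE (A x)) = 0)
    (hy : c (fstE (A y)) = 0) (u : E 2) : c u = 0 := by
  let f : E (2 + m) →ₗ[ℝ] ℝ :=
    { toFun := fun z => c (fstE (A z))
      map_add' := fun a b => by simp only [map_add, fst_add]
      map_smul' := fun a b => by simp only [map_smul, fst_smul, RingHom.id_apply] }
  have h1 : L ⊔ Submodule.span ℝ {x, y} ≤ LinearMap.ker f := by
    refine sup_le ?_ (Submodule.span_le.2 ?_)
    · intro z hz
      rw [LinearMap.mem_ker]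
      show c (fstE (A z)) = 0
      rw [(hA z).1 hz, map_zero]
    · rintro z (rfl | rfl)
      · exact hx
      · exact hy
  rw [h] at h1
  have h2 : A.symm (pairE (u, (0 : E m))) ∈ LinearMap.ker f := h1 Submodule.mem_top
  have h3 : c (fstE (A (A.symm (pairE (u, (0 : E m)))))) = 0 := h2
  rw [ContinuousLinearEquiv.apply_symm_apply, fst_pair] at h3
  exact h3

/-- The linear form `dt a`. -/
private noncomputable def dtl (a : E 2) : E 2 →ₗ[ℝ] ℝ where
  toFun b := dt a b
  map_add' b c := by simp only [dt, PiLp.add_apply]; ring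
  map_smul' r b := by simp only [dt, PiLp.smul_apply, smul_eq_mul, RingHom.id_apply]; ring

private theorem dt_self' (a : E 2) : dt a a = 0 := by simp only [dt]; ring

private theorem dt_swap' (a b : E 2) : dt a b = -dt b a := by simp only [dt]; ring

private theorem eq_zero_of_dt {a : E 2} (h : ∀ u, dt a u = 0) : a = 0 := by
  have h1 := h (WithLp.toLp 2 ![-a 1, a 0])
  have h2 : a 0 * a 0 + a 1 * a 1 = 0 := by
    have : dt a (WithLp.toLp 2 ![-a 1, a 0]) = a 0 * a 0 - a 1 * (-a 1) := by
      simp [dt]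
    rw [this] at h1
    linarith
  have h3 : a 0 = 0 := by nlinarith [mul_self_nonneg (a 0), mul_self_nonneg (a 1)]
  have h4 : a 1 = 0 := by nlinarith [mul_self_nonneg (a 0), mul_self_nonneg (a 1)]
  ext i
  fin_cases i
  · simpa using h3
  · simpa using h4

private theorem dt_ne {m : ℕ} (A : E (2 + m) ≃L[ℝ] E (2 + m)) (L : Submodule ℝ (E (2 + m)))
    (hA : ∀ x, x ∈ L ↔ fstE (A x) = 0) (x y : E (2 + m))
    (h : L ⊔ Submodule.span ℝ {x, y} = ⊤) : dt (fstE (A x)) (fstE (A y)) ≠ 0 := by
  intro h0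
  have ha : fstE (A x) = 0 := by
    refine eq_zero_of_dt fun u => ?_
    exact func_kill A L hA x y h (dtl (fstE (A x))) (dt_self' _) h0 u
  have hb : fstE (A y) = 0 := by
    refine eq_zero_of_dt fun u => ?_
    refine func_kill A L hA x y h (dtl (fstE (A y))) ?_ (dt_self' _) u
    show dt (fstE (A y)) (fstE (A x)) = 0
    rw [dt_swap', h0, neg_zero]
  have hall : ∀ u : E 2, u = 0 := by
    intro u
    refine eq_zero_of_dt fun w => ?_
    have h5 := func_kill A L hA x y h (dtl u) (by rw [ha, map_zero]) (by rw [hb, map_zero]) w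
    exact h5
  have h6 := congrArg (fun u : E 2 => u 0) (hall (WithLp.toLp 2 ![1, 0]))
  simp at h6

theorem exists_zd {m n : ℕ} (g : Fin n → E (2 + m)) (L : Submodule ℝ (E (2 + m)))
    (hL : Module.finrank ℝ L = m) (hLg : L = Submodule.span ℝ (range g ∩ L)) (i : Fin 4 → Fin n)
    (hi : ∀ a b, a ≠ b → L ⊔ Submodule.span ℝ {g (i a), g (i b)} = ⊤) :
    ∃ (k p q : ℕ) (gh : ℤ → E 2) (cl : Fin p → ℕ) (rho : Fin p → ℝ)
      (g' : Fin (p + q) → E (2 + m)) (A : E (2 + m) ≃L[ℝ] E (2 + m)),
      ZD k m p q gh cl rho g' ∧ zono g' = A '' zono g := by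
  classical
  obtain ⟨A, hA⟩ := exists_coord L hL
  let P : Fin n → Prop := fun j => g j ∉ L
  let e1 : {j // P j} ≃ Fin (Fintype.card {j // P j}) := Fintype.equivFin _
  let e2 : {j // ¬ P j} ≃ Fin (Fintype.card {j // ¬ P j}) := Fintype.equivFin _
  obtain ⟨p, hp⟩ : ∃ p, p = Fintype.card {j // P j} := ⟨_, rfl⟩
  obtain ⟨q, hq⟩ : ∃ q, q = Fintype.card {j // ¬ P j} := ⟨_, rfl⟩
  let e : Fin (p + q) ≃ Fin n :=
    (finSumFinEquiv.symm.trans (Equiv.sumCongr ((finCongr hp).trans e1.symm)
      ((finCongr hq).trans e2.symm))).trans (Equiv.sumCompl P)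
  have he1 : ∀ h : Fin p, e (Fin.castAdd q h) = (e1.symm (finCongr hp h)).1 := by
    intro h
    simp [e]
  have he2 : ∀ h : Fin q, e (Fin.natAdd p h) = (e2.symm (finCongr hq h)).1 := by
    intro h
    simp [e]
  have hout : ∀ h : Fin p, g (e (Fin.castAdd q h)) ∉ L := by
    intro h
    rw [he1]
    exact (e1.symm (finCongr hp h)).2
  have hinn : ∀ h : Fin q, g (e (Fin.natAdd p h)) ∈ L := by
    intro h
    rw [he2]
    exact not_not.1 (e2.symm (finCongr hq h)).2
  have hsurO : ∀ j, g j ∉ L → ∃ h : Fin p, e (Fin.castAdd q h) = j := by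
    intro j hj
    refine ⟨(finCongr hp).symm (e1 ⟨j, hj⟩), ?_⟩
    rw [he1]
    simp
  have hsurI : ∀ j, g j ∈ L → ∃ h : Fin q, e (Fin.natAdd p h) = j := by
    intro j hj
    refine ⟨(finCongr hq).symm (e2 ⟨j, not_not.2 hj⟩), ?_⟩
    rw [he2]
    simp
  have hdt : ∀ a b, a ≠ b → dt (fstE (A (g (i a)))) (fstE (A (g (i b)))) ≠ 0 :=
    fun a b hab => dt_ne A L hA _ _ (hi a b hab)
  have hiO : ∀ a, g (i a) ∉ L := by
    intro a ha
    obtain ⟨b, hb⟩ : ∃ b : Fin 4, a ≠ b := by
      refine ⟨if a = 0 then 1 else 0, ?_⟩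
      split_ifs with h
      · rw [h]; decide
      · exact h
    refine hdt a b hb ?_
    rw [(hA _).1 ha]
    simp [dt]
  choose i' hi' using fun a => hsurO (i a) (hiO a)
  obtain ⟨k, gh, cl, rho, ep, hzon, hcl, hrho, hep, hv, hone⟩ :=
    exists_classes (fun h : Fin p => fstE (A (g (e (Fin.castAdd q h)))))
      (fun h h0 => hout h ((hA _).2 h0)) i' (fun a b hab => by
        simp only [hi']
        exact hdt a b hab)
  obtain ⟨s, hs⟩ : ∃ s : Fin (p + q) → ℝ, s = Fin.append ep (fun _ => 1) := ⟨_, rfl⟩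
  have hs1 : ∀ h : Fin p, s (Fin.castAdd q h) = ep h := by
    intro h
    rw [hs, Fin.append_left]
  have hs2 : ∀ h : Fin q, s (Fin.natAdd p h) = 1 := by
    intro h
    rw [hs, Fin.append_right]
  have hss : ∀ j, s j = 1 ∨ s j = -1 := by
    intro j
    refine Fin.addCases (fun h => ?_) (fun h => ?_) j
    · rw [hs1]
      exact hep h
    · rw [hs2]
      exact Or.inl rfl
  refine ⟨k, p, q, gh, cl, rho, fun j => s j • A (g (e j)), A, ?_, ?_⟩
  · refine ⟨hzon, hcl, hrho, ?_, ?_, hone, ?_⟩
    · intro h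
      simp only [hs1]
      rw [fst_smul]
      exact hv h
    · intro h
      simp only [hs2, one_smul]
      exact (hA _).1 (hinn h)
    · rw [eq_top_iff]
      intro y _
      let psi : E (2 + m) →ₗ[ℝ] E m :=
        { toFun := fun z => sndE (A z)
          map_add' := fun a b => by simp only [map_add, snd_add]
          map_smul' := fun a b => by simp only [map_smul, snd_smul, RingHom.id_apply] }
      have h1 : A.symm (pairE ((0 : E 2), y)) ∈ L := by
        rw [hA, ContinuousLinearEquiv.apply_symm_apply, fst_pair]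
      have h2 : psi (A.symm (pairE ((0 : E 2), y))) = y := by
        show sndE (A (A.symm (pairE ((0 : E 2), y)))) = y
        rw [ContinuousLinearEquiv.apply_symm_apply, snd_pair]
      have h3 : y ∈ Submodule.map psi (Submodule.span ℝ (range g ∩ L)) := by
        rw [← hLg]
        exact ⟨_, h1, h2⟩
      rw [Submodule.map_span] at h3
      refine Submodule.span_mono ?_ h3
      rintro _ ⟨_, ⟨⟨j, rfl⟩, hj⟩, rfl⟩
      obtain ⟨h, hh⟩ := hsurI j hj
      refine ⟨h, ?_⟩
      show sndE (s (Fin.natAdd p h) • A (g (e (Fin.natAdd p h)))) = sndE (A (g j))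
      rw [hs2, one_smul, hh]
  · rw [zono_image]
    exact zono_reindex (fun j => A (g j)) e s hss

end Pool.Agent.MPbd65ca.Zo
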