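import Pool.Agent.Lib.MP_bd65ca_an_Z.FinZ
import Pool.Agent.Lib.MP_bd65ca_an_Z.Inv
import Pool.Agent.Lib.MP_bd65ca_an_Z.NormC

/-!
# The Turán problem for zonotopes: zonotopes with a long belt

PROOF. Write `d = 2 + m`.  `exists_zd`, `ZD.main` and `turan_of_main` (with `ZD.span_top`) give the
inequality for `zono g' + zono g' = A '' (zono g + zono g)` (`Set.image_add` for the linear map `A`);
`turan_lin`.  `zono g + zono g` is a body: `isBody_zono`, `Convex.add_self`, `IsBody.smul`.
-/

open MeasureTheory FourierTransform Pointwise Set Filter Topology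
open scoped RealInnerProductSpace

namespace Pool.Agent.MPbd65ca.Zo

open Pool.Agent.MPbd65ca.Pg Pool.Agent.MPbd65ca.ProdAux

theorem turan_belt {d n : ℕ} (g : Fin n → E d) (hg : Submodule.span ℝ (range g) = ⊤)
    (L : Submodule ℝ (E d)) (hL : Module.finrank ℝ L + 2 = d)
    (hLg : L = Submodule.span ℝ (range g ∩ L)) (i : Fin 4 → Fin n)
    (hi : ∀ a b, a ≠ b → L ⊔ Submodule.span ℝ {g (i a), g (i b)} = ⊤) :
    turan (zono g + zono g) < 2 ^ d / volume.real (zono g + zono g) := by
  obtain ⟨m, rfl⟩ : ∃ m, d = 2 + m := ⟨Module.finrank ℝ L, by omega⟩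
  obtain ⟨k, p, q, gh, cl, rho, g', A, D, hz⟩ := exists_zd g L (by omega) hLg i hi
  have h1 := turan_of_main D.span_top D.main
  rw [hz, ← Set.image_add A] at h1
  refine turan_lin A ?_ h1
  have h2 : IsBody (zono g) := isBody_zono hg
  rw [Convex.add_self h2.convex]
  exact h2.smul two_pos

end Pool.Agent.MPbd65ca.Zo
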