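import Pool.Agent.Lib.MP_bd65ca_an.Pg.Bump2
import Pool.Agent.Lib.MP_bd65ca_an.Pg.VanA

/-!
# The Turán problem for zonotopes: a bump which is large on a ball

PROOF. `exists_bump2 2` with `ρ = 1` gives `Ψ` continuous, `≥ 0`, integrable, `Ψ 0 > 0`,
spectrum in the unit ball.  By continuity `Ψ x ≥ Ψ 0 / 2` for `‖x‖ ≤ δ`, and we may take
`δ ≤ 1`, `δ > 0`.  Let `T = (|S| + 1) / δ ≥ 1` and `Φ u = (2 / Ψ 0) * Ψ (T⁻¹ • u)`: for
`‖u‖ ≤ S` we have `‖T⁻¹ • u‖ ≤ δ`, so `Φ u ≥ 1`.  The spectrum is in `closedBall 0 (1/T)`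
(`vanish_scale`, `Vanish.const_mul`, `Vanish.mono`).
-/

open MeasureTheory FourierTransform Pointwise Set Filter Topology
open scoped RealInnerProductSpace

namespace Pool.Agent.MPbd65ca.Zo

open Pool.Agent.MPbd65ca.Pg

theorem exists_bump3 (S : ℝ) : ∃ Φ : E 2 → ℝ, Continuous Φ ∧ (∀ u, 0 ≤ Φ u) ∧ Integrable Φ ∧
    (∀ u, ‖u‖ ≤ S → 1 ≤ Φ u) ∧ Vanish (Metric.closedBall 0 1) (fun u => (Φ u : ℂ)) := by
  obtain ⟨Ψ, hc, h0, hi, hp, -, -, hv, -⟩ := exists_bump2 2 (ρ := 1) one_pos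
  have hev : ∀ᶠ x in 𝓝 (0 : E 2), Ψ 0 / 2 < Ψ x :=
    hc.continuousAt.eventually (lt_mem_nhds (by linarith))
  obtain ⟨ε, hε, hball⟩ := Metric.eventually_nhds_iff.1 hev
  obtain ⟨δ, hδ, hδ1, hδε⟩ : ∃ δ : ℝ, 0 < δ ∧ δ ≤ 1 ∧ δ < ε :=
    ⟨min 1 (ε / 2), lt_min one_pos (by linarith), min_le_left _ _,
      (min_le_right _ _).trans_lt (by linarith)⟩
  have hS : 0 < |S| + 1 := by positivity
  set T : ℝ := (|S| + 1) / δ with hT
  have hTpos : 0 < T := div_pos hS hδ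
  have hT1 : 1 ≤ T := by
    rw [hT, le_div_iff₀ hδ]
    have := abs_nonneg S
    linarith
  have hsm : Continuous (fun u : E 2 => T⁻¹ • u) := continuous_const_smul _
  refine ⟨fun u => 2 / Ψ 0 * Ψ (T⁻¹ • u), continuous_const.mul (hc.comp hsm), fun u => ?_, ?_,
    fun u hu => ?_, ?_⟩
  · exact mul_nonneg (div_nonneg (by norm_num) hp.le) (h0 _)
  · exact (hi.comp_smul (inv_ne_zero hTpos.ne')).const_mul _
  · have h1 : ‖T⁻¹ • u‖ < ε := by
      rw [norm_smul, Real.norm_of_nonneg (inv_nonneg.2 hTpos.le)]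
      have h2 : T⁻¹ * ‖u‖ ≤ δ := by
        rw [inv_mul_le_iff₀ hTpos, hT, div_mul_cancel₀ _ hδ.ne']
        have := le_abs_self S
        linarith
      linarith
    have h3 := hball (y := T⁻¹ • u) (by rw [dist_zero_right]; exact h1)
    change 1 ≤ 2 / Ψ 0 * Ψ (T⁻¹ • u)
    rw [div_mul_eq_mul_div, le_div_iff₀ hp]
    linarith
  · have h4 : Vanish (Metric.closedBall 0 1) (fun u : E 2 => ((Ψ (T⁻¹ • u) : ℝ) : ℂ)) := by
      refine Vanish.mono ?_ (vanish_scale hv hTpos)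
      apply Metric.closedBall_subset_closedBall
      rw [div_le_one hTpos]
      exact hT1
    refine Vanish.congr (h4.const_mul ((2 / Ψ 0 : ℝ) : ℂ)) fun u => ?_
    push_cast
    ring

end Pool.Agent.MPbd65ca.Zo
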