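import Mathlib

/-!
# The Cauchy-Binet formula

PROOF. `det (A * B)`: the rows of `A * B` are `∑_l A i l • B l`, so by multilinearity
(`Matrix.detRowAlternating`, `MultilinearMap.map_sum`, `map_smul_univ`)
`det (A * B) = ∑_{c : Fin d → Fin n} (∏_i A i (c i)) * det (B (c i) ·)`.  The terms with `c` not injective
vanish (`Matrix.det_zero_of_row_eq`).  Every injective `c` is uniquely `b ∘ σ` with a strictly monotone `b`
and a permutation `σ` (`b` enumerates the range of `c` in increasing order, `Finset.orderEmbOfFin`;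
`σ = b⁻¹ ∘ c`); `det (B (b (σ i)) ·) = sign σ * det (B (b i) ·)` (`Matrix.det_permute`) and
`∑_σ sign σ * ∏_i A i (b (σ i)) = det (A · (b ·))` (`Matrix.det_apply`, transpose).
-/

namespace Pool.Agent.MPbd65ca.Zo

open Classical in
theorem cauchy_binet {d n : ℕ} (A : Matrix (Fin d) (Fin n) ℝ) (B : Matrix (Fin n) (Fin d) ℝ) :
    (A * B).det = ∑ b ∈ Finset.univ.filter (fun b : Fin d → Fin n => StrictMono b),
      (A.submatrix id b).det * (B.submatrix b id).det := by
  have h1 : (A * B).det = ∑ p : Fin d → Fin n, (A.submatrix id p).det * ∏ i, B (p i) i := by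
    simp only [Matrix.det_apply', Matrix.mul_apply, Finset.prod_univ_sum, Finset.mul_sum,
      Fintype.piFinset_univ]
    rw [Finset.sum_comm]
    refine Finset.sum_congr rfl fun p _ => ?_
    rw [Finset.sum_mul]
    refine Finset.sum_congr rfl fun σ _ => ?_
    simp only [Matrix.submatrix_apply, id, Finset.prod_mul_distrib, mul_assoc]
  have h3 : ∀ b : Fin d → Fin n, (A.submatrix id b).det * (B.submatrix b id).det =
      ∑ τ : Equiv.Perm (Fin d), (A.submatrix id (b ∘ τ)).det * ∏ i, B ((b ∘ τ) i) i := by
    intro b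
    have h4 : ∀ τ : Equiv.Perm (Fin d), (A.submatrix id (b ∘ τ)).det =
        ((Equiv.Perm.sign τ : ℤ) : ℝ) * (A.submatrix id b).det := by
      intro τ
      exact Matrix.det_permute' τ (A.submatrix id b)
    rw [Matrix.det_apply' (B.submatrix b id), Finset.mul_sum]
    refine Finset.sum_congr rfl fun τ _ => ?_
    rw [h4 τ]
    simp only [Matrix.submatrix_apply, id, Function.comp_apply]
    ring
  have h5 : ∑ p : Fin d → Fin n, (A.submatrix id p).det * ∏ i, B (p i) i =
      ∑ p ∈ Finset.univ.filter (fun p : Fin d → Fin n => Function.Injective p),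
        (A.submatrix id p).det * ∏ i, B (p i) i := by
    symm
    refine Finset.sum_subset (Finset.filter_subset _ _) fun p _ hp => ?_
    have hp' : ¬ Function.Injective p := fun h => hp (Finset.mem_filter.2 ⟨Finset.mem_univ _, h⟩)
    obtain ⟨i, j, hij, hne⟩ : ∃ i j, p i = p j ∧ i ≠ j := by
      unfold Function.Injective at hp'
      push Not at hp'
      exact hp'
    rw [Matrix.det_zero_of_column_eq hne (fun k => by simp [hij]), zero_mul]
  rw [h1, h5, Finset.sum_congr rfl fun b _ => h3 b, ← Finset.sum_product']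
  symm
  refine Finset.sum_bij (fun x _ => x.1 ∘ x.2) ?_ ?_ ?_ ?_
  · intro x hx
    have hx1 : StrictMono x.1 := (Finset.mem_filter.1 (Finset.mem_product.1 hx).1).2
    exact Finset.mem_filter.2 ⟨Finset.mem_univ _, hx1.injective.comp x.2.injective⟩
  · intro x hx y hy hxy
    have hx1 : StrictMono x.1 := (Finset.mem_filter.1 (Finset.mem_product.1 hx).1).2
    have hy1 : StrictMono y.1 := (Finset.mem_filter.1 (Finset.mem_product.1 hy).1).2
    have hr : Set.range x.1 = Set.range y.1 := by
      have h6 : Set.range (x.1 ∘ x.2) = Set.range (y.1 ∘ y.2) := congrArg Set.range hxy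
      rwa [x.2.surjective.range_comp, y.2.surjective.range_comp] at h6
    have h7 : x.1 = y.1 := (StrictMono.range_inj hx1 hy1).1 hr
    have h8 : x.2 = y.2 := by
      apply Equiv.ext
      intro i
      apply hx1.injective
      have h9 : x.1 (x.2 i) = y.1 (y.2 i) := congrFun hxy i
      rw [h9, h7]
    exact Prod.ext h7 h8
  · intro p hp
    have hp1 : Function.Injective p := (Finset.mem_filter.1 hp).2
    have hm : StrictMono (p ∘ Tuple.sort p) :=
      (Tuple.monotone_sort p).strictMono_of_injective (hp1.comp (Tuple.sort p).injective)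
    refine ⟨(p ∘ Tuple.sort p, (Tuple.sort p)⁻¹), ?_, ?_⟩
    · exact Finset.mem_product.2 ⟨Finset.mem_filter.2 ⟨Finset.mem_univ _, hm⟩, Finset.mem_univ _⟩
    · funext i
      simp
  · intro x _
    rfl

end Pool.Agent.MPbd65ca.Zo
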