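import Pool.Agent.Lib.MP_bd65ca_an_Z.Piv
import Pool.Agent.Lib.MP_bd65ca_an.Gap

/-!
# Tiles are exact: the number of tiles

PROOF. `sub_notMem`: `W + W = 2 • W` (`Convex.add_self`), `interior (2 • W) = 2 • interior W`
(`interior_smul₀`).  If `s - t = 2 • u`, `u ∈ interior W`, then for `x = (1 / 2) • (s + t)`:
`x - t = u` and `x - s = -u`, both in `interior W` (`IsBody.neg_mem`, `interior` is symmetric by
`Homeomorph.neg`), which contradicts the hypothesis.
`tiles_finite`: `interior W` contains `ball 0 r`; the balls `ball t r`, `t ∈ T ∩ closedBall 0 N`,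
are pairwise disjoint and contained in `closedBall 0 (N + r)`; so for a finite subset the number
times `volume (ball 0 r)` is at most `volume (closedBall 0 (N + r))`; bounded cardinality of all
finite subsets gives finiteness (or: the points are `2 r`-separated, a compact set contains only
finitely many of them).
`tiles_card`: `W ⊆ closedBall 0 ρ`; `closedBall 0 (N - ρ) ⊆ ⋃_{t ∈ S} (t + W)`: for `x` in the ball
there is `t ∈ T` with `x - t ∈ W`, so `‖t‖ ≤ ‖x‖ + ρ ≤ N`, `t ∈ S`.  `measure_biUnion_finset_le`.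
-/

open MeasureTheory FourierTransform Pointwise Set
open scoped RealInnerProductSpace

namespace Pool.Agent.MPbd65ca.Zo

variable {d : ℕ}

private theorem neg_int {W : Set (E d)} (hW : IsBody W) {u : E d} (hu : u ∈ interior W) :
    -u ∈ interior W := by
  rw [mem_interior] at hu ⊢
  obtain ⟨V, hV, hVo, huV⟩ := hu
  refine ⟨-V, ?_, hVo.neg, by simpa using huV⟩
  intro x hx
  have h1 := hW.neg_mem _ (hV (Set.mem_neg.1 hx))
  simpa using h1

theorem sub_notMem {W : Set (E d)} (hW : IsBody W) {s t : E d}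
    (h : ∀ x, ¬ (x - s ∈ interior W ∧ x - t ∈ interior W)) : s - t ∉ interior (W + W) := by
  intro hst
  have h1 : W + W = (2 : ℝ) • W := by
    have := hW.convex.add_smul (p := 1) (q := 1) zero_le_one zero_le_one
    rw [one_smul] at this
    rw [← this]
    norm_num
  rw [h1, interior_smul₀ (two_ne_zero)] at hst
  obtain ⟨u, hu, hus⟩ := Set.mem_smul_set.1 hst
  refine h ((1 / 2 : ℝ) • (s + t)) ⟨?_, ?_⟩
  · have e : (1 / 2 : ℝ) • (s + t) - s = -u := by
      have : u = (1 / 2 : ℝ) • (s - t) := by rw [← hus, smul_smul]; norm_num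
      rw [this]
      module
    rw [e]
    exact neg_int hW hu
  · have e : (1 / 2 : ℝ) • (s + t) - t = u := by
      have : u = (1 / 2 : ℝ) • (s - t) := by rw [← hus, smul_smul]; norm_num
      rw [this]
      module
    rw [e]
    exact hu

theorem tiles_finite {W : Set (E d)} (hW : IsBody W) {T : Set (E d)}
    (h : ∀ s ∈ T, ∀ t ∈ T, s ≠ t → ∀ x, ¬ (x - s ∈ interior W ∧ x - t ∈ interior W)) (N : ℝ) :
    {t ∈ T | ‖t‖ ≤ N}.Finite := by
  obtain ⟨r, hr, hrW⟩ := Metric.isOpen_iff.1 isOpen_interior _ hW.zero_mem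
  have sep : ∀ s ∈ T, ∀ t ∈ T, s ≠ t → 2 * r ≤ dist s t := by
    intro s hs t ht hst
    by_contra hcon
    rw [not_le] at hcon
    refine h s hs t ht hst ((1 / 2 : ℝ) • (s + t)) ⟨hrW ?_, hrW ?_⟩
    · rw [mem_ball_zero_iff]
      have e : (1 / 2 : ℝ) • (s + t) - s = (-(1 / 2) : ℝ) • (s - t) := by module
      rw [e, norm_smul, ← dist_eq_norm]
      norm_num
      linarith
    · rw [mem_ball_zero_iff]
      have e : (1 / 2 : ℝ) • (s + t) - t = ((1 / 2) : ℝ) • (s - t) := by module
      rw [e, norm_smul, ← dist_eq_norm]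
      norm_num
      linarith
  by_contra hinf
  have hinf : {t ∈ T | ‖t‖ ≤ N}.Infinite := hinf
  obtain ⟨x, -, hx⟩ := Set.Infinite.exists_accPt_of_subset_isCompact hinf
    (isCompact_closedBall (0 : E d) N) (fun t ht => mem_closedBall_zero_iff.2 ht.2)
  rw [accPt_iff_nhds] at hx
  obtain ⟨y, ⟨hy1, hy2⟩, hy3⟩ := hx _ (Metric.ball_mem_nhds x hr)
  obtain ⟨z, ⟨hz1, hz2⟩, hz3⟩ := hx _ (Metric.ball_mem_nhds x (dist_pos.2 hy3))
  have hyz : y ≠ z := by
    rintro rfl
    rw [Metric.mem_ball] at hz1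
    exact lt_irrefl _ hz1
  have h1 := sep y hy2.1 z hz2.1 hyz
  have h2 : dist y z < 2 * r := by
    have h3 := dist_triangle_right y z x
    rw [Metric.mem_ball] at hy1 hz1
    linarith
  linarith

theorem tiles_card {W : Set (E d)} (hW : IsBody W) {T : Set (E d)} (h : ∀ x, ∃ t ∈ T, x - t ∈ W)
    {ρ : ℝ} (hρ : W ⊆ Metric.closedBall 0 ρ) {N : ℝ} {S : Finset (E d)}
    (hS : ∀ t ∈ T, ‖t‖ ≤ N → t ∈ S) :
    volume.real (Metric.closedBall (0 : E d) (N - ρ)) ≤ S.card * volume.real W := by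
  have hcov : Metric.closedBall (0 : E d) (N - ρ) ⊆ ⋃ t ∈ S, (fun y => t + y) '' W := by
    intro x hx
    rw [mem_closedBall_zero_iff] at hx
    obtain ⟨t, ht, hxt⟩ := h x
    have h1 := mem_closedBall_zero_iff.1 (hρ hxt)
    have h2 : ‖t‖ ≤ N := by
      have h3 : ‖t‖ ≤ ‖x‖ + ‖x - t‖ := by
        have e : t = x - (x - t) := by abel
        calc ‖t‖ = ‖x - (x - t)‖ := by rw [← e]
          _ ≤ ‖x‖ + ‖x - t‖ := norm_sub_le _ _
      linarith
    simp only [mem_iUnion]
    exact ⟨t, hS t ht h2, x - t, hxt, by simp⟩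
  have hfin : ∀ t ∈ S, volume ((fun y => t + y) '' W) ≠ ⊤ := by
    intro t _
    have h1 : volume W ≠ ⊤ :=
      ((measure_mono hρ).trans_lt (isCompact_closedBall _ _).measure_lt_top).ne
    rwa [image_add_left, measure_preimage_add]
  have h2 : volume (⋃ t ∈ S, (fun y => t + y) '' W) ≠ ⊤ := by
    refine ((measure_biUnion_finset_le S _).trans_lt ?_).ne
    exact ENNReal.sum_lt_top.2 fun t ht => (hfin t ht).lt_top
  calc volume.real (Metric.closedBall (0 : E d) (N - ρ))
      ≤ volume.real (⋃ t ∈ S, (fun y => t + y) '' W) := measureReal_mono hcov h2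
    _ ≤ ∑ t ∈ S, volume.real ((fun y => t + y) '' W) := measureReal_biUnion_finset_le _ _
    _ = ∑ _t ∈ S, volume.real W := by
        refine Finset.sum_congr rfl fun t _ => ?_
        rw [measureReal_def, measureReal_def, image_add_left, measure_preimage_add]
    _ = S.card * volume.real W := by rw [Finset.sum_const, nsmul_eq_mul]

end Pool.Agent.MPbd65ca.Zo
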