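import Pool.Agent.Lib.MP_bd65ca_an_Z.ExC
import Pool.Agent.Lib.MP_bd65ca_an_Z.ExD

/-!
# Tiles are exact

PROOF. `turan_ge_of_tiles`: `le_csInf` (nonempty by `cls_trivial`; `W + W` is a body:
`Convex.add_self`, `IsBody.smul`); so let `F ∈ cls (W + W)`; we show `1 / volume.real W ≤ ∫ F`.
Let `0 < ε < 1`.  `F` is continuous and `F 0 ≥ 1`, so there is `δ > 0` with `F x ≥ 1 - ε` for
`‖x‖ ≤ δ`.  Let `R` be as in `dsum_lower`, `W ⊆ closedBall 0 ρ`, `ρ > 0`, `N > ρ`, and `S` the finite set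
`{t ∈ T | ‖t‖ ≤ N}` (`tiles_finite`), `k = S.card`.  By `int_dsum` (with `sub_notMem`)
`k ∫ F = ∫ F ‖dsum S‖ ^ 2 ≥ ∫_{closedBall 0 δ} F ‖dsum S‖ ^ 2 ≥ (1 - ε) ∫_{closedBall 0 δ} ‖dsum S‖ ^ 2`,
so `k ∫ F * vol(B_{N + R}) ≥ (1 - ε) ^ 3 k ^ 2`; `k > 0` because
`0 < vol(B_{N - ρ}) ≤ k * volume.real W` (`tiles_card`), so
`∫ F ≥ (1 - ε) ^ 3 * (vol(B_{N - ρ}) / vol(B_{N + R})) / volume.real W`.  The quotient of the volumes is
`((N - ρ) / (N + R)) ^ d` (`Measure.addHaar_real_closedBall`), which tends to `1` as `N → ∞`.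
`N → ∞`, then `ε → 0`.
-/

open MeasureTheory FourierTransform Pointwise Set Filter Topology
open scoped RealInnerProductSpace

namespace Pool.Agent.MPbd65ca.Zo

variable {d : ℕ}

private theorem exE_quot (ρ R : ℝ) (k : ℕ) :
    Tendsto (fun N : ℝ => ((N - ρ) / (N + R)) ^ k) atTop (𝓝 1) := by
  have h1 : Tendsto (fun N : ℝ => (ρ + R) / (N + R)) atTop (𝓝 0) :=
    tendsto_const_nhds.div_atTop (tendsto_atTop_add_const_right _ _ tendsto_id)
  have h2 : Tendsto (fun N : ℝ => 1 - (ρ + R) / (N + R)) atTop (𝓝 1) := by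
    have h := (tendsto_const_nhds (x := (1 : ℝ)) (f := (atTop : Filter ℝ))).sub h1
    rwa [sub_zero] at h
  have h3 : Tendsto (fun N : ℝ => (N - ρ) / (N + R)) atTop (𝓝 1) := by
    refine h2.congr' ?_
    filter_upwards [eventually_gt_atTop (-R)] with N hN
    have hne : N + R ≠ 0 := by linarith [hN]
    field_simp
    ring
  have h4 := h3.pow k
  rwa [one_pow] at h4

private theorem exE_key {W : Set (E d)} (hW : IsBody W) {T : Set (E d)}
    (hcov : ∀ x, ∃ t ∈ T, x - t ∈ W)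
    (hdis : ∀ s ∈ T, ∀ t ∈ T, s ≠ t → ∀ x, ¬ (x - s ∈ interior W ∧ x - t ∈ interior W))
    {F : E d → ℝ} (hF : F ∈ cls (W + W)) {ε : ℝ} (hε : 0 < ε) (hε1 : ε < 1) :
    (1 - ε) ^ 3 ≤ (∫ x, F x) * volume.real W := by
  obtain ⟨hFc, hFi, hF0, hF1, -⟩ := id hF
  -- the radius delta
  have h1 : ∀ᶠ x in 𝓝 (0 : E d), 1 - ε < F x :=
    hFc.continuousAt.eventually (lt_mem_nhds (by linarith))
  obtain ⟨δ', hδ', h2⟩ := Metric.eventually_nhds_iff.1 h1
  have hδ : 0 < δ' / 2 := by linarith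
  set δ : ℝ := δ' / 2 with hδdef
  have h3 : ∀ x ∈ Metric.closedBall (0 : E d) δ, 1 - ε ≤ F x := by
    intro x hx
    exact (h2 (lt_of_le_of_lt (Metric.mem_closedBall.1 hx) (by linarith))).le
  obtain ⟨R, hR, hlow⟩ := dsum_lower (d := d) hδ hε hε1
  obtain ⟨ρ', hρ'⟩ := hW.isCompact.isBounded.subset_closedBall (0 : E d)
  set ρ : ℝ := max ρ' 1 with hρdef
  have hρ1 : 1 ≤ ρ := le_max_right _ _
  have hρ : W ⊆ Metric.closedBall 0 ρ :=
    hρ'.trans (Metric.closedBall_subset_closedBall (le_max_left _ _))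
  set c : ℝ := volume.real (Metric.ball (0 : E d) 1) with hcdef
  have hc : 0 < c := by
    rw [hcdef, measureReal_def]
    exact ENNReal.toReal_pos (Metric.measure_ball_pos volume _ one_pos).ne'
      measure_ball_lt_top.ne
  have hV : ∀ r : ℝ, 0 ≤ r →
      volume.real (Metric.closedBall (0 : E d) r) = r ^ (Module.finrank ℝ (E d)) * c := fun r hr =>
    Measure.addHaar_real_closedBall volume 0 hr
  have hI : 0 ≤ ∫ x, F x := integral_nonneg hF0
  have hW0 : 0 ≤ volume.real W := measureReal_nonneg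
  have main : ∀ N : ℝ, ρ < N → (1 - ε) ^ 3 * ((N - ρ) / (N + R)) ^ (Module.finrank ℝ (E d)) ≤
      (∫ x, F x) * volume.real W := by
    intro N hN
    have hfin := tiles_finite hW hdis N
    set S : Finset (E d) := hfin.toFinset with hSdef
    have hS : ∀ t, t ∈ S ↔ t ∈ T ∧ ‖t‖ ≤ N := fun t => by
      rw [hSdef, Set.Finite.mem_toFinset]
      rfl
    obtain ⟨i1, i2⟩ := int_dsum hF (T := S) (fun s hs t ht hst =>
      sub_notMem hW (hdis s ((hS s).1 hs).1 t ((hS t).1 ht).1 hst))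
    have i3 := hlow N (by linarith) S (fun t ht => ((hS t).1 ht).2)
    have i4 := tiles_card hW hcov hρ (N := N) (S := S) (fun t ht ht' => (hS t).2 ⟨ht, ht'⟩)
    have hdc : Continuous fun x => dsum S x := by
      unfold dsum
      fun_prop
    have hdi : IntegrableOn (fun x => ‖dsum S x‖ ^ 2) (Metric.closedBall (0 : E d) δ) :=
      (hdc.norm.pow 2).continuousOn.integrableOn_compact (isCompact_closedBall 0 δ)
    have i5 : (1 - ε) * ∫ x in Metric.closedBall (0 : E d) δ, ‖dsum S x‖ ^ 2 ≤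
        S.card * ∫ x, F x := by
      rw [← i2, ← integral_const_mul]
      calc ∫ x in Metric.closedBall (0 : E d) δ, (1 - ε) * ‖dsum S x‖ ^ 2
          ≤ ∫ x in Metric.closedBall (0 : E d) δ, F x * ‖dsum S x‖ ^ 2 := by
            refine setIntegral_mono_on (hdi.const_mul _) i1.integrableOn
              Metric.isClosed_closedBall.measurableSet fun x hx => ?_
            exact mul_le_mul_of_nonneg_right (h3 x hx) (sq_nonneg _)
        _ ≤ ∫ x, F x * ‖dsum S x‖ ^ 2 :=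
            setIntegral_le_integral i1 (Eventually.of_forall fun x =>
              mul_nonneg (hF0 x) (sq_nonneg _))
    rw [hV _ (by linarith)] at i3
    rw [hV _ (by linarith)] at i4
    set k : ℝ := (S.card : ℝ) with hk
    set J : ℝ := ∫ x in Metric.closedBall (0 : E d) δ, ‖dsum S x‖ ^ 2 with hJ
    have hA : 0 < (N - ρ) ^ (Module.finrank ℝ (E d)) := pow_pos (by linarith) _
    have hB : 0 < (N + R) ^ (Module.finrank ℝ (E d)) := pow_pos (by linarith) _
    set A : ℝ := (N - ρ) ^ (Module.finrank ℝ (E d)) with hAdef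
    set B : ℝ := (N + R) ^ (Module.finrank ℝ (E d)) with hBdef
    have hk0 : 0 ≤ k := Nat.cast_nonneg _
    have hkpos : 0 < k := by
      rcases hk0.lt_or_eq with h | h
      · exact h
      · rw [← h, zero_mul] at i4
        have := mul_pos hA hc
        linarith
    have e1 : (1 - ε) ^ 3 * k ≤ (∫ x, F x) * (B * c) := by
      have e2 : (1 - ε) * ((1 - ε) * k) ^ 2 ≤ (1 - ε) * (J * (B * c)) :=
        mul_le_mul_of_nonneg_left i3 (by linarith)
      have e3 : (1 - ε) * J * (B * c) ≤ k * (∫ x, F x) * (B * c) :=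
        mul_le_mul_of_nonneg_right i5 (mul_pos hB hc).le
      have e4 : k * ((1 - ε) ^ 3 * k) ≤ k * ((∫ x, F x) * (B * c)) := by nlinarith
      exact le_of_mul_le_mul_left e4 hkpos
    have e5 : (1 - ε) ^ 3 * (A * c) ≤ (1 - ε) ^ 3 * (k * volume.real W) :=
      mul_le_mul_of_nonneg_left i4 (pow_nonneg (by linarith) 3)
    have e6 : (1 - ε) ^ 3 * k * volume.real W ≤ (∫ x, F x) * (B * c) * volume.real W :=
      mul_le_mul_of_nonneg_right e1 hW0
    have e7 : (1 - ε) ^ 3 * A * c ≤ (∫ x, F x) * volume.real W * B * c := by nlinarith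
    have e8 : (1 - ε) ^ 3 * A ≤ (∫ x, F x) * volume.real W * B := le_of_mul_le_mul_right e7 hc
    rw [div_pow, ← mul_div_assoc, div_le_iff₀ hB]
    exact e8
  have hlim : Tendsto (fun N : ℝ => (1 - ε) ^ 3 *
      ((N - ρ) / (N + R)) ^ (Module.finrank ℝ (E d))) atTop (𝓝 ((1 - ε) ^ 3 * 1)) :=
    (exE_quot ρ R _).const_mul _
  rw [mul_one] at hlim
  refine le_of_tendsto hlim ?_
  filter_upwards [eventually_gt_atTop ρ] with N hN
  exact main N hN

theorem turan_ge_of_tiles {W : Set (E d)} (hW : IsBody W) (hT : Tiles W) :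
    1 / volume.real W ≤ turan (W + W) := by
  obtain ⟨T, hcov, hdis⟩ := hT
  have hadd : W + W = (2 : ℝ) • W := by
    have h := hW.convex.add_smul (p := (1 : ℝ)) (q := 1) zero_le_one zero_le_one
    rw [one_smul] at h
    rw [← h]
    norm_num
  have hWW : IsBody (W + W) := by
    rw [hadd]
    exact hW.smul two_pos
  obtain ⟨F0, hF0, -⟩ := cls_trivial hWW
  refine le_csInf ⟨_, F0, hF0, rfl⟩ ?_
  rintro _ ⟨F, hF, rfl⟩
  have hvW : 0 < volume.real W := by
    rw [measureReal_def]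
    refine ENNReal.toReal_pos ?_ hW.isCompact.measure_lt_top.ne
    exact (Measure.measure_pos_of_nonempty_interior volume hW.nonempty_interior).ne'
  have hlim : Tendsto (fun ε : ℝ => (1 - ε) ^ 3) (𝓝[>] 0) (𝓝 1) := by
    have h1 : Continuous fun ε : ℝ => (1 - ε) ^ 3 := by fun_prop
    have h2 := h1.tendsto 0
    rw [sub_zero, one_pow] at h2
    exact h2.mono_left nhdsWithin_le_nhds
  have h1 : 1 ≤ (∫ x, F x) * volume.real W := by
    refine le_of_tendsto hlim ?_
    filter_upwards [Ioo_mem_nhdsGT (show (0 : ℝ) < 1 from one_pos)] with ε hε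
    exact exE_key hW hcov hdis hF hε.1 hε.2
  show 1 / volume.real W ≤ ∫ x, F x
  rw [div_le_iff₀ hvW]
  exact h1

end Pool.Agent.MPbd65ca.Zo
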