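import Pool.Agent.Lib.MP_bd65ca_an_Z.MajB
import Pool.Agent.Lib.MP_bd65ca_an_Z.Hts

/-!
# The Turán problem for zonotopes: a majorant with small spectrum

PROOF. Let `c` be heights with `Gp v c` (`exists_gp`), `N` the number of elements of `bas v`, and
`δ' ∈ (0, 1/2]` with `δ' ∑_j ‖v (b j)‖ ≤ δ` for all `b ∈ bas v`.  By `abs_cosT_zono_le` at `θ • y`,
Cauchy-Schwarz (`sq_sum_le_card_mul_sum_sq`) and `sinc_sq_le` (`⟪θ • y, v i⟫ = θ * ⟪y, v i⟫`):
`cosT (zono v) (θ • y)^2 ≤ N ∑_b vdet(b)^2 ∏_j sinc (π θ ⟪y, v (b j)⟫)^2 ≤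
N ∑_b vdet(b)^2 10^m ∏_j QQ (δ' ⟪y, v (b j)⟫) =: B y`.  `B` is continuous, integrable and has its
spectrum in the ball (`QQ_prod`, `Vanish.const_mul`, `Vanish.sum`), and it is positive because
`bas v` is not empty (a spanning family contains a basis; order it increasingly:
`exists_linearIndependent`-type lemma, `Finset.orderEmbOfFin`), `vdet > 0` (`vdet_pos` in
Gen/Basic.lean) and `QQ_pos`.
-/

open MeasureTheory FourierTransform Pointwise Set
open scoped RealInnerProductSpace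

namespace Pool.Agent.MPbd65ca.Zo

theorem bas_nonempty {m q : ℕ} {v : Fin q → E m} (hv : Submodule.span ℝ (range v) = ⊤) :
    (bas v).Nonempty := by
  classical
  obtain ⟨κ, a, ha, hsp, hli⟩ := exists_linearIndependent' ℝ v
  have : Finite κ := Finite.of_injective a ha
  have := Fintype.ofFinite κ
  have hcard : Fintype.card κ = m := by
    have h1 := finrank_span_eq_card hli
    rw [hsp, hv, finrank_top, finrank_euclideanSpace_fin] at h1
    exact h1.symm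
  have hS : (Finset.univ.image a).card = m := by
    rw [Finset.card_image_of_injective _ ha, Finset.card_univ, hcard]
  have hb : ∀ j, (Finset.univ.image a).orderEmbOfFin hS j ∈ Finset.univ.image a :=
    fun j => Finset.orderEmbOfFin_mem _ hS j
  have hx : ∀ j, ∃ x : κ, a x = (Finset.univ.image a).orderEmbOfFin hS j := by
    intro j
    obtain ⟨x, _, hx⟩ := Finset.mem_image.1 (hb j)
    exact ⟨x, hx⟩
  choose c hc using hx
  have hcinj : Function.Injective c := fun i j h =>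
    ((Finset.univ.image a).orderEmbOfFin hS).injective (by rw [← hc i, ← hc j, h])
  have hli2 := hli.comp c hcinj
  refine ⟨(Finset.univ.image a).orderEmbOfFin hS, ?_⟩
  unfold bas
  rw [Finset.mem_filter]
  refine ⟨Finset.mem_univ _, ((Finset.univ.image a).orderEmbOfFin hS).strictMono, ?_⟩
  have h2 : (fun j => v ((Finset.univ.image a).orderEmbOfFin hS j)) = (v ∘ a) ∘ c := by
    funext j
    simp only [Function.comp_apply, hc]
  rw [h2]
  exact hli2

private theorem maj_scale {m q : ℕ} (v : Fin q → E m) {δ : ℝ} (hδ : 0 < δ) :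
    ∃ δ' : ℝ, 0 < δ' ∧ δ' ≤ 1 / 2 ∧ ∀ b ∈ bas v, δ' * ∑ j, ‖v (b j)‖ ≤ δ := by
  have hSg0 : 0 ≤ ∑ b ∈ bas v, ∑ j, ‖v (b j)‖ :=
    Finset.sum_nonneg fun b _ => Finset.sum_nonneg fun j _ => norm_nonneg _
  have hSgp : 0 < 1 + ∑ b ∈ bas v, ∑ j, ‖v (b j)‖ := by linarith
  have hp : 0 < min (1 / 2) (δ / (1 + ∑ b ∈ bas v, ∑ j, ‖v (b j)‖)) :=
    lt_min (by norm_num) (div_pos hδ hSgp)
  refine ⟨_, hp, min_le_left _ _, ?_⟩
  intro b hb
  have h1 : ∑ j, ‖v (b j)‖ ≤ ∑ b ∈ bas v, ∑ j, ‖v (b j)‖ :=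
    Finset.single_le_sum (f := fun b : Fin m → Fin q => ∑ j, ‖v (b j)‖)
      (fun b _ => Finset.sum_nonneg fun j _ => norm_nonneg _) hb
  have h2 := mul_le_mul_of_nonneg_left
    (show ∑ j, ‖v (b j)‖ ≤ 1 + ∑ b ∈ bas v, ∑ j, ‖v (b j)‖ by linarith) hp.le
  have h3 := mul_le_mul_of_nonneg_right (min_le_right (1 / 2)
    (δ / (1 + ∑ b ∈ bas v, ∑ j, ‖v (b j)‖))) hSgp.le
  rw [div_mul_cancel₀ _ hSgp.ne'] at h3
  exact h2.trans h3

private theorem maj_van {d : ℕ} {ι : Type*} (s : Finset ι) (K : Set (E d)) (a : ι → ℝ) (N : ℝ)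
    (f : ι → E d → ℝ) (hf : ∀ i ∈ s, Vanish K (fun y => ((f i y : ℝ) : ℂ))) :
    Vanish K (fun y => ((N * ∑ i ∈ s, a i * f i y : ℝ) : ℂ)) := by
  have h1 : Vanish K (fun y : E d => ∑ i ∈ s, (a i : ℂ) * ((f i y : ℝ) : ℂ)) :=
    Vanish.sum s (fun i y => (a i : ℂ) * ((f i y : ℝ) : ℂ)) fun i hi =>
      (hf i hi).const_mul (a i : ℂ)
  refine (h1.const_mul (N : ℂ)).congr fun y => ?_
  rw [Complex.ofReal_mul, Complex.ofReal_sum]
  refine congrArg _ (Finset.sum_congr rfl fun i _ => ?_)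
  rw [Complex.ofReal_mul]

theorem exists_maj {m q : ℕ} {v : Fin q → E m} (hv : Submodule.span ℝ (range v) = ⊤) {δ : ℝ}
    (hδ : 0 < δ) : ∃ B : E m → ℝ, Continuous B ∧ Integrable B ∧ (∀ y, 0 < B y) ∧
      Vanish (Metric.closedBall 0 δ) (fun y => (B y : ℂ)) ∧
      ∀ θ : ℝ, 1 / 2 ≤ θ → θ ≤ 1 → ∀ y, cosT (zono v) (θ • y) ^ 2 ≤ B y := by
  obtain ⟨c, hc⟩ := exists_gp v
  have hmem : ∀ b ∈ bas v, LinearIndependent ℝ (fun j => v (b j)) := by
    classical
    intro b hb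
    unfold bas at hb
    exact (Finset.mem_filter.1 hb).2.2
  obtain ⟨δ', hδ'p, hδ'1, hδ'2⟩ := maj_scale v hδ
  have hcard : 0 < ((bas v).card : ℝ) := by
    exact_mod_cast Finset.card_pos.2 (bas_nonempty hv)
  have hQ : ∀ b ∈ bas v, _ := fun b hb => QQ_prod (hmem b hb) hδ'p
  refine ⟨fun y => ((bas v).card : ℝ) * ∑ b ∈ bas v, (vdet (fun j => v (b j)) ^ 2 * 10 ^ m) *
    ∏ j, QQ (δ' * ⟪y, v (b j)⟫), ?_, ?_, ?_, ?_, ?_⟩
  · exact continuous_const.mul (continuous_finsetSum _ fun b hb =>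
      continuous_const.mul (hQ b hb).1)
  · exact (integrable_finsetSum _ fun b hb => (hQ b hb).2.1.const_mul _).const_mul _
  · intro y
    refine mul_pos hcard (Finset.sum_pos (fun b hb => ?_) (bas_nonempty hv))
    have h1 := vdet_pos (hmem b hb)
    exact mul_pos (by positivity) (Finset.prod_pos fun j _ => QQ_pos _)
  · exact maj_van (bas v) (Metric.closedBall 0 δ) (fun b => vdet (fun j => v (b j)) ^ 2 * 10 ^ m)
      ((bas v).card : ℝ) (fun b y => ∏ j, QQ (δ' * ⟪y, v (b j)⟫)) fun b hb =>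
        (hQ b hb).2.2.mono (Metric.closedBall_subset_closedBall (hδ'2 b hb))
  · intro θ hθ hθ1 y
    have h1 := abs_cosT_zono_le hc (θ • y)
    have h2 : cosT (zono v) (θ • y) ^ 2 ≤ (∑ b ∈ bas v, vdet (fun j => v (b j)) *
        ∏ j, |Real.sinc (Real.pi * ⟪θ • y, v (b j)⟫)|) ^ 2 := by
      rw [← sq_abs (cosT (zono v) (θ • y))]
      exact pow_le_pow_left₀ (abs_nonneg _) h1 2
    refine h2.trans ((sq_sum_le_card_mul_sum_sq (s := bas v) (f := fun b : Fin m → Fin q =>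
      vdet (fun j => v (b j)) *
        ∏ j, |Real.sinc (Real.pi * ⟪θ • y, v (b j)⟫)|)).trans ?_)
    refine mul_le_mul_of_nonneg_left (Finset.sum_le_sum fun b hb => ?_) hcard.le
    rw [mul_pow, mul_assoc]
    refine mul_le_mul_of_nonneg_left ?_ (sq_nonneg _)
    rw [← Finset.prod_pow]
    have h3 : (10 : ℝ) ^ m * ∏ j, QQ (δ' * ⟪y, v (b j)⟫) =
        ∏ j, 10 * QQ (δ' * ⟪y, v (b j)⟫) := by
      rw [Finset.prod_mul_distrib, Finset.prod_const, Finset.card_univ, Fintype.card_fin]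
    rw [h3]
    refine Finset.prod_le_prod (fun j _ => sq_nonneg _) fun j _ => ?_
    rw [sq_abs, real_inner_smul_left]
    exact sinc_sq_le hδ'p hδ'1 hθ hθ1 _

end Pool.Agent.MPbd65ca.Zo
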