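import Pool.Agent.Lib.MP_bd65ca_an_Z.Piv
import Pool.Agent.Lib.MP_bd65ca_an.Scale

/-!
# Zonotopes which tile: lattice packings of full density cover

PROOF. Let `Λ = span ℤ (range β)` and `F = ZSpan.fundamentalDomain β`, a set of volume `|det β|`
(`ZSpan.measure_fundamentalDomain`), an additive fundamental domain for `Λ`
(`ZSpan.isAddFundamentalDomain`).  `U = interior W`, `volume U = volume W` (the boundary of a
convex set is a null set: `Convex.addHaar_frontier`).  Suppose that `x` is in no set `z + W`,
`z ∈ Λ`.  This family of closed sets is locally finite (`Λ` is discrete, `W` is bounded), so a ball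
`B` with the centre `x` meets no set `z + W`; we take it so small that its translates by nonzero
elements of `Λ` do not meet `B`.  Then `U ∪ B` has larger volume than `F`, so it contains two points
which differ by a nonzero element of `Λ` (`IsAddFundamentalDomain.exists_ne_zero_vadd_eq`).  Both in
`U`: impossible because `U - U = U + U ⊆ interior (W + W)`.  The other cases are excluded by the
choice of `B`.
-/

open MeasureTheory FourierTransform Pointwise Set Filter Topology
open scoped RealInnerProductSpace

namespace Pool.Agent.MPbd65ca.Zo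

variable {d : ℕ}

private theorem sub_int {W : Set (E d)} (hW : IsBody W) {u v : E d} (hu : u ∈ interior W)
    (hv : v ∈ interior W) : u - v ∈ interior (W + W) := by
  have hneg : -v ∈ interior W := by
    rw [mem_interior_iff_mem_nhds] at hv ⊢
    have h1 : (fun y : E d => -y) ⁻¹' W ∈ 𝓝 (-v) := by
      refine continuous_neg.continuousAt.preimage_mem_nhds ?_
      rwa [neg_neg]
    refine mem_of_superset h1 fun y hy => ?_
    have h2 := hW.neg_mem _ hy
    rwa [neg_neg] at h2
  have h3 : interior W + interior W ⊆ interior (W + W) :=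
    interior_maximal (Set.add_subset_add interior_subset interior_subset)
      (isOpen_interior.add_right)
  rw [sub_eq_add_neg]
  exact h3 (Set.add_mem_add hu hneg)

private theorem vol_interior {W : Set (E d)} (hW : IsBody W) :
    volume (interior W) = volume W := by
  apply le_antisymm (measure_mono interior_subset)
  calc volume W ≤ volume (interior W ∪ frontier W) := by
        refine measure_mono fun y hy => ?_
        by_cases h : y ∈ interior W
        · exact Or.inl h
        · exact Or.inr ⟨subset_closure hy, h⟩
    _ ≤ volume (interior W) + volume (frontier W) := measure_union_le _ _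
    _ = volume (interior W) := by rw [Convex.addHaar_frontier volume hW.convex, add_zero]

private theorem vol_dom (b : Module.Basis (Fin d) ℝ (E d)) :
    volume (ZSpan.fundamentalDomain b) = ENNReal.ofReal (vdet fun i => b i) := by
  set e := EuclideanSpace.basisFun (Fin d) ℝ with he
  have h1 : volume (ZSpan.fundamentalDomain e.toBasis) = 1 := by
    rw [measure_congr (ZSpan.fundamentalDomain_ae_parallelepiped e.toBasis volume)]
    have h2 := e.volume_parallelepiped
    rwa [← e.coe_toBasis] at h2
  rw [ZSpan.measure_fundamentalDomain b volume e.toBasis, h1, mul_one]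
  congr 1
  unfold vdet
  rw [Module.Basis.det_apply, ← Matrix.det_transpose]
  rfl

theorem cover_of_pack {W : Set (E d)} (hW : IsBody W) {β : Fin d → E d}
    (hβ : LinearIndependent ℝ β)
    (hp : ∀ z ∈ Submodule.span ℤ (range β), z ≠ 0 → z ∉ interior (W + W))
    (hv : vdet β ≤ volume.real W) : ∀ x, ∃ z ∈ Submodule.span ℤ (range β), x - z ∈ W := by
  intro x
  by_contra hcon
  push Not at hcon
  set b : Module.Basis (Fin d) ℝ (E d) :=
    Module.Basis.mk hβ (hβ.span_eq_top_of_card_eq_finrank' (by simp)).ge with hb
  have hbβ : (b : Fin d → E d) = β := Module.Basis.coe_mk _ _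
  have hdom : volume (ZSpan.fundamentalDomain b) = ENNReal.ofReal (vdet β) := by
    rw [vol_dom b]
    congr 2
  rw [← hbβ] at hp hcon
  -- a bound for `W`
  obtain ⟨R, hR⟩ := hW.isCompact.isBounded.exists_norm_le
  -- a neighbourhood of `x` which meets no translate
  have hfin : (Metric.closedBall x (R + 1) ∩
      (Submodule.span ℤ (range b) : Set (E d))).Finite :=
    ZSpan.setFinite_inter b Metric.isBounded_closedBall
  have hnear : ∀ᶠ y in 𝓝 x, ∀ z ∈ Metric.closedBall x (R + 1) ∩
      (Submodule.span ℤ (range b) : Set (E d)), y - z ∉ W := by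
    rw [eventually_all_finite hfin]
    intro z hz
    have h1 : IsOpen ((fun y : E d => y - z) ⁻¹' Wᶜ) :=
      hW.isCompact.isClosed.isOpen_compl.preimage (continuous_sub_right z)
    exact h1.mem_nhds (hcon z hz.2)
  obtain ⟨r1, hr1, hr1'⟩ := Metric.eventually_nhds_iff.1 hnear
  -- small elements of the lattice
  have h0 : (0 : E d) ∈ interior (W + W) := by
    obtain ⟨u, hu⟩ := hW.nonempty_interior
    have := sub_int hW hu hu
    rwa [sub_self] at this
  obtain ⟨r2, hr2, hr2'⟩ := Metric.isOpen_iff.1 isOpen_interior 0 h0
  set r : ℝ := min (min r1 1) (r2 / 2) with hr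
  have hrpos : 0 < r := by positivity
  have hB : ∀ y ∈ Metric.ball x r, ∀ z ∈ Submodule.span ℤ (range b), y - z ∉ W := by
    intro y hy z hz hyz
    rw [Metric.mem_ball] at hy
    have hy1 : dist y x < r1 := lt_of_lt_of_le hy ((min_le_left _ _).trans (min_le_left _ _))
    have hy2 : dist y x < 1 := lt_of_lt_of_le hy ((min_le_left _ _).trans (min_le_right _ _))
    refine hr1' hy1 z ⟨?_, hz⟩ hyz
    rw [Metric.mem_closedBall]
    have h1 := hR _ hyz
    have h2 : dist z y ≤ R := by
      rw [dist_comm, dist_eq_norm]
      exact h1
    calc dist z x ≤ dist z y + dist y x := dist_triangle _ _ _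
      _ ≤ R + 1 := add_le_add h2 hy2.le
  have hmeas : NullMeasurableSet (interior W ∪ Metric.ball x r) volume :=
    (isOpen_interior.union Metric.isOpen_ball).measurableSet.nullMeasurableSet
  have hlt : volume (ZSpan.fundamentalDomain b) < volume (interior W ∪ Metric.ball x r) := by
    have hdisj : Disjoint (interior W) (Metric.ball x r) := by
      rw [Set.disjoint_left]
      intro y hy hy'
      refine hB y hy' 0 (Submodule.zero_mem _) ?_
      rw [sub_zero]
      exact interior_subset hy
    rw [measure_union hdisj Metric.isOpen_ball.measurableSet, vol_interior hW, hdom]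
    have h3 : ENNReal.ofReal (vdet β) ≤ volume W := by
      refine ENNReal.ofReal_le_of_le_toReal ?_
      exact hv
    have h4 : 0 < volume (Metric.ball x r) := Metric.measure_ball_pos volume x hrpos
    calc ENNReal.ofReal (vdet β) ≤ volume W := h3
      _ < volume W + volume (Metric.ball x r) :=
        ENNReal.lt_add_right hW.isCompact.measure_lt_top.ne h4.ne'
  have : VAddInvariantMeasure (Submodule.span ℤ (range b)) (E d) volume :=
    inferInstanceAs <| VAddInvariantMeasure (Submodule.span ℤ (range b)).toAddSubgroup (E d) volume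
  obtain ⟨u, hu, v, hv', g, hg, huv⟩ :=
    (ZSpan.isAddFundamentalDomain b volume).exists_ne_zero_vadd_eq hmeas hlt
  have hgne : (g : E d) ≠ 0 := by
    intro h
    exact hg (Subtype.ext h)
  have hgu : (g : E d) + u = v := huv
  rcases hu with hu | hu <;> rcases hv' with hv' | hv'
  · have h5 := sub_int hW hv' hu
    rw [← hgu, add_sub_cancel_right] at h5
    exact hp g g.2 hgne h5
  · refine hB v hv' g g.2 ?_
    rw [← hgu, add_sub_cancel_left]
    exact interior_subset hu
  · refine hB u hu (-g) (Submodule.neg_mem _ g.2) ?_
    have : u - -(g : E d) = v := by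
      rw [sub_neg_eq_add, add_comm, hgu]
    rw [this]
    exact interior_subset hv'
  · refine hp g g.2 hgne (hr2' ?_)
    rw [Metric.mem_ball, dist_zero_right]
    have h6 : (g : E d) = v - u := by rw [← hgu, add_sub_cancel_right]
    rw [Metric.mem_ball] at hu hv'
    have h7 : r ≤ r2 / 2 := min_le_right _ _
    calc ‖(g : E d)‖ = dist v u := by rw [h6, dist_eq_norm]
      _ ≤ dist v x + dist x u := dist_triangle _ _ _
      _ = dist v x + dist u x := by rw [dist_comm x u]
      _ < r + r := add_lt_add hv' hu
      _ ≤ r2 := by linarith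

theorem tiles_of_pack {W : Set (E d)} (hW : IsBody W) {β : Fin d → E d}
    (hβ : LinearIndependent ℝ β)
    (hp : ∀ z ∈ Submodule.span ℤ (range β), z ≠ 0 → z ∉ interior (W + W))
    (hv : vdet β ≤ volume.real W) : Tiles W := by
  refine ⟨(Submodule.span ℤ (range β) : Set (E d)), fun x => ?_, ?_⟩
  · obtain ⟨z, hz, h⟩ := cover_of_pack hW hβ hp hv x
    exact ⟨z, hz, h⟩
  · rintro s hs t ht hst x ⟨h1, h2⟩
    have h3 := sub_int hW h1 h2
    have h4 : x - s - (x - t) = t - s := by abel
    rw [h4] at h3
    exact hp (t - s) (Submodule.sub_mem _ ht hs) (sub_ne_zero.2 (Ne.symm hst)) h3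

end Pool.Agent.MPbd65ca.Zo
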