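import Pool.Agent.Lib.MP_bd65ca_an_Z.Trans
import Pool.Agent.Lib.MP_bd65ca_an_Z.Hts
import Pool.Agent.Lib.MP_bd65ca_an_Z.Maj
import Pool.Agent.Lib.MP_bd65ca_an_Z.CB
import Pool.Agent.Lib.MP_bd65ca_an_Z.TileL

/-!
# Zonotopes which tile: unimodular zonotopes are lattice tiles

PROOF. `u j = (y j)⁻¹ • g j`; `vdet (u ∘ c) = vdet (g ∘ c) / ∏ y (c a)` is `0` or `D` for every
`c`.  Let
`b ∈ bas g` (`bas_nonempty`), and `x i` (`i : Fin d`) the dual basis: `⟪x i, u (b i')⟫ = 1` if `i
= i'`, `0`
otherwise (existence: `zeta_spec` in Vert.lean for `u`, with `c` an indicator function; `b` is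
injective).  `P i j = ⟪x i, u j⟫` is the coordinate of `u j` at `u (b i)`:
`u j = ∑ P i j • u (b i)`.  By Cramer's rule `|P i j| = vdet (u ∘ update b i j) / vdet (u ∘ b)` is
`0`
or `1`.  More generally the matrix with the rows `u (c a)` is `(P i (c a))ᵀ` times the matrix with
the rows
`u (b i)`, so `|det (P i (c a))|` is `vdet (u ∘ c) / D ∈ {0, 1}` for every `c`.
`β i = ∑ j, P i j • g j`.
(1) Volume.  In the basis `u (b i')`: `β i = ∑ j P i j y j u j = ∑_{i'} (∑ j P i j y j P i' j) u
(b i')`, so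
`vdet β = |det (P diag(y) Pᵀ)| * D`, and by `cauchy_binet`
`det (P * (diag(y) Pᵀ)) = ∑_{c strictly monotone} det(P_c)^2 ∏ y (c a)`; `det(P_c)^2` is `1` if `c
∈ bas g`
(`vdet (g ∘ c) ≠ 0` iff independent) and `0` otherwise.  So
`vdet β = ∑_{c ∈ bas g} D ∏ y (c a) = ∑_{c ∈ bas g} vdet (g ∘ c) = volume.real (zono g)` (`vol_zono`
with heights from `exists_gp`), in particular it is positive and `β` is linearly independent.
(2) Packing.  Let `z = ∑ m i • β i`, `m i ∈ ℤ`, `z ≠ 0`, `ξ = ∑ m i • x i`,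
`k j = ⟪ξ, u j⟫ = ∑ m i * P i j`, an integer (as a real number).  `z = ∑ j, k j • g j = ∑ k j y j
u j`, so
`⟪ξ, z⟫ = ∑ y j (k j)^2 ≥ ∑ y j |k j|` (integers: `|k| ≤ k^2`).  For `w ∈ zono g + zono g` we have
`⟪ξ, w⟫ ≤ ∑ |⟪ξ, g j⟫| = ∑ y j |k j|`, and for `w` in the interior the inequality is strict because
`ξ ≠ 0` (move `w` a little in the direction `ξ`).  So `z` is not in the interior.
Elements of `span ℤ (range β)` are integer combinations (`Submodule.mem_span_range_iff_exists_fun`).
`tiles_zono`: `tiles_of_pack`.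
-/

open MeasureTheory FourierTransform Pointwise Set
open scoped RealInnerProductSpace

namespace Pool.Agent.MPbd65ca.Zo

variable {d n : ℕ}

/-- The absolute determinant of linear combinations. -/
private theorem vdet_comb {w v : Fin d → E d} (A : Matrix (Fin d) (Fin d) ℝ)
    (h : ∀ a, w a = ∑ i, A a i • v i) : vdet w = |A.det| * vdet v := by
  have h1 : (Matrix.of fun a k => w a k) = A * Matrix.of fun i k => v i k := by
    ext a k
    rw [Matrix.mul_apply]
    simp only [Matrix.of_apply]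
    rw [h a]
    simp
  rw [vdet, vdet, h1, Matrix.det_mul, abs_mul]

private theorem vdet_smul (v : Fin d → E d) (t : Fin d → ℝ) :
    vdet (fun a => t a • v a) = |∏ a, t a| * vdet v := by
  rw [vdet_comb (w := fun a => t a • v a) (v := v) (Matrix.diagonal t), Matrix.det_diagonal]
  intro a
  simp [Matrix.diagonal_apply, ite_smul]

private theorem li_of_vdet {v : Fin d → E d} (h : vdet v ≠ 0) : LinearIndependent ℝ v := by
  have h1 : (Matrix.of fun i j => v i j).det ≠ 0 := fun h2 => h (by rw [vdet, h2, abs_zero])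
  have h2 : LinearIndependent ℝ (Matrix.of fun i j => v i j).row := by
    rw [Matrix.linearIndependent_rows_iff_isUnit, Matrix.isUnit_iff_isUnit_det]
    exact isUnit_iff_ne_zero.2 h1
  exact LinearIndependent.of_comp (WithLp.linearEquiv 2 ℝ (Fin d → ℝ)).toLinearMap h2

/-- Coordinates of the rescaled generators with respect to a basis of rescaled generators. -/
private theorem exists_coord {g : Fin n → E d} (hg : Submodule.span ℝ (range g) = ⊤)
    {y : Fin n → ℝ} {D : ℝ} (hy : ∀ j, 0 < y j) (hD : 0 < D)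
    (h : ∀ c : Fin d → Fin n,
      vdet (fun a => g (c a)) = 0 ∨ vdet (fun a => g (c a)) = D * ∏ a, y (c a)) :
    ∃ (v : Fin d → E d) (P : Matrix (Fin d) (Fin n) ℝ) (x : Fin d → E d),
      vdet v = D ∧ (∀ j, g j = y j • ∑ i, P i j • v i) ∧
      (∀ c : Fin d → Fin n, (P.submatrix id c).det ^ 2 = 0 ∨ (P.submatrix id c).det ^ 2 = 1) ∧
      (∀ i j, ∃ k : ℤ, P i j = k) ∧ (∀ i j, ⟪x i, g j⟫ = y j * P i j) := by
  classical
  obtain ⟨b, hb⟩ := bas_nonempty hg
  have hli : LinearIndependent ℝ (fun i => g (b i)) := (mem_bas.1 hb).2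
  set u : Fin n → E d := fun j => (y j)⁻¹ • g j with hu
  have hgu : ∀ j, g j = y j • u j := fun j => by
    rw [hu]
    simp only
    rw [smul_smul, mul_inv_cancel₀ (hy j).ne', one_smul]
  have hpy : ∀ c : Fin d → Fin n, 0 < ∏ a, y (c a) := fun c => Finset.prod_pos fun a _ => hy _
  have hvg : ∀ c : Fin d → Fin n,
      vdet (fun a => g (c a)) = (∏ a, y (c a)) * vdet (fun a => u (c a)) := by
    intro c
    have h1 := vdet_smul (fun a => u (c a)) (fun a => y (c a))
    rw [abs_of_pos (hpy c)] at h1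
    rw [← h1]
    congr 1
    funext a
    exact hgu (c a)
  have hvb : vdet (fun a => u (b a)) = D := by
    have h1 := vdet_pos hli
    rcases h b with h2 | h2
    · exact absurd h2 h1.ne'
    · rw [hvg b] at h2
      have h3 : (∏ a, y (b a)) * vdet (fun a => u (b a)) = (∏ a, y (b a)) * D := by
        rw [h2, mul_comm]
      exact mul_left_cancel₀ (hpy b).ne' h3
  have hliu : LinearIndependent ℝ (fun i => u (b i)) := li_of_vdet (by rw [hvb]; exact hD.ne')
  have hspan : Submodule.span ℝ (range fun i => u (b i)) = ⊤ := by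
    apply LinearIndependent.span_eq_top_of_card_eq_finrank' hliu
    simp
  set B : Module.Basis (Fin d) ℝ (E d) := Module.Basis.mk hliu hspan.ge with hB
  have hBi : ∀ i, B i = u (b i) := fun i => by rw [hB, Module.Basis.mk_apply]
  set P : Matrix (Fin d) (Fin n) ℝ := Matrix.of fun i j => B.repr (u j) i with hP
  have hPu : ∀ j, u j = ∑ i, P i j • u (b i) := by
    intro j
    conv_lhs => rw [← B.sum_repr (u j)]
    refine Finset.sum_congr rfl fun i _ => ?_
    rw [hBi, hP, Matrix.of_apply]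
  have hdet : ∀ c : Fin d → Fin n,
      |(P.submatrix id c).det| = 0 ∨ |(P.submatrix id c).det| = 1 := by
    intro c
    have h1 : vdet (fun a => u (c a)) = |(P.submatrix id c).det| * D := by
      rw [← hvb, ← Matrix.det_transpose]
      refine vdet_comb _ fun a => ?_
      simp only [Matrix.transpose_apply, Matrix.submatrix_apply, id]
      exact hPu (c a)
    rcases h c with h2 | h2
    · left
      rw [hvg c, h1] at h2
      have h3 := (mul_eq_zero.1 h2).resolve_left (hpy c).ne'
      exact (mul_eq_zero.1 h3).resolve_right hD.ne'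
    · right
      rw [hvg c, h1] at h2
      have h3 : (∏ a, y (c a)) * (|(P.submatrix id c).det| * D) = (∏ a, y (c a)) * (1 * D) := by
        rw [h2]; ring
      exact mul_right_cancel₀ hD.ne' (mul_left_cancel₀ (hpy c).ne' h3)
  have hbb : ∀ i a, P i (b a) = if i = a then 1 else 0 := by
    intro i a
    rw [hP, Matrix.of_apply, ← hBi a, B.repr_self, Finsupp.single_apply]
    by_cases h1 : a = i
    · rw [if_pos h1, if_pos h1.symm]
    · rw [if_neg h1, if_neg (Ne.symm h1)]
  have hint : ∀ i j, ∃ k : ℤ, P i j = k := by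
    intro i j
    have h1 : (P.submatrix id (Function.update b i j)).det = P i j := by
      have h2 : P.submatrix id (Function.update b i j) =
          (1 : Matrix (Fin d) (Fin d) ℝ).updateCol i (fun a => P a j) := by
        ext a a'
        rw [Matrix.submatrix_apply, Matrix.updateCol_apply, id]
        by_cases h3 : a' = i
        · rw [if_pos h3, h3, Function.update_self]
        · rw [if_neg h3, Function.update_of_ne h3, hbb, Matrix.one_apply]
      rw [h2, ← Matrix.cramer_apply, Matrix.cramer_one]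
      rfl
    rcases hdet (Function.update b i j) with h2 | h2
    · rw [h1] at h2
      exact ⟨0, by rw [abs_eq_zero.1 h2]; simp⟩
    · rw [h1] at h2
      rcases (abs_eq one_pos.le).1 h2 with h3 | h3
      · exact ⟨1, by rw [h3]; simp⟩
      · exact ⟨-1, by rw [h3]; simp⟩
  refine ⟨fun i => u (b i), P,
    fun i => (InnerProductSpace.toDual ℝ (E d)).symm (LinearMap.toContinuousLinearMap (B.coord i)),
    hvb, fun j => by rw [← hPu j]; exact hgu j, fun c => ?_, hint, fun i j => ?_⟩
  · rcases hdet c with h1 | h1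
    · left; rw [← sq_abs, h1]; norm_num
    · right; rw [← sq_abs, h1]; norm_num
  · rw [InnerProductSpace.toDual_symm_apply, LinearMap.coe_toContinuousLinearMap', hgu j, map_smul,
      smul_eq_mul, Module.Basis.coord_apply, hP, Matrix.of_apply]

/-- The volume of the fundamental parallelepiped. -/
private theorem vdet_beta {g : Fin n → E d} {y : Fin n → ℝ} {D : ℝ} (hy : ∀ j, 0 < y j)
    {v : Fin d → E d} {P : Matrix (Fin d) (Fin n) ℝ} (hv : vdet v = D)
    (hg : ∀ j, g j = y j • ∑ i, P i j • v i)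
    (hP : ∀ c : Fin d → Fin n,
      (P.submatrix id c).det ^ 2 = 0 ∨ (P.submatrix id c).det ^ 2 = 1) :
    vdet (fun i => ∑ j, P i j • g j) = volume.real (zono g) := by
  classical
  set Q : Matrix (Fin n) (Fin d) ℝ := Matrix.of fun j i => y j * P i j with hQ
  have h1 : vdet (fun i => ∑ j, P i j • g j) = |(P * Q).det| * D := by
    rw [← hv]
    refine vdet_comb _ fun i => ?_
    simp only [Matrix.mul_apply, hQ, Matrix.of_apply, Finset.sum_smul]
    rw [Finset.sum_comm]
    refine Finset.sum_congr rfl fun j _ => ?_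
    rw [hg j, smul_smul, Finset.smul_sum]
    refine Finset.sum_congr rfl fun i' _ => ?_
    rw [smul_smul]
    congr 1
    ring
  have h2 : ∀ c : Fin d → Fin n, (Q.submatrix c id).det =
      (∏ a, y (c a)) * (P.submatrix id c).det := by
    intro c
    have h3 : Q.submatrix c id = Matrix.diagonal (fun a => y (c a)) * (P.submatrix id c).transpose
        := by
      ext a i
      rw [Matrix.diagonal_mul]
      simp [hQ]
    rw [h3, Matrix.det_mul, Matrix.det_diagonal, Matrix.det_transpose]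
  have hpy : ∀ c : Fin d → Fin n, 0 < ∏ a, y (c a) := fun c => Finset.prod_pos fun a _ => hy _
  have h4 : ∀ c : Fin d → Fin n, vdet (fun a => g (c a)) =
      (P.submatrix id c).det * (Q.submatrix c id).det * D := by
    intro c
    have h5 : vdet (fun a => g (c a)) =
        |(Q.submatrix c id).det| * D := by
      rw [← hv]
      refine vdet_comb _ fun a => ?_
      rw [hg (c a), Finset.smul_sum]
      refine Finset.sum_congr rfl fun i _ => ?_
      rw [smul_smul, Matrix.submatrix_apply, hQ, Matrix.of_apply, id]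
    rw [h5, h2 c, abs_mul, abs_of_pos (hpy c)]
    have h6 : |(P.submatrix id c).det| = (P.submatrix id c).det ^ 2 := by
      rcases hP c with h7 | h7
      · rw [h7, pow_eq_zero_iff two_ne_zero |>.1 h7, abs_zero]
      · rw [h7]
        rw [← sq_abs] at h7
        exact (pow_eq_one_iff_of_nonneg (abs_nonneg _) two_ne_zero).1 h7
    rw [h6]
    ring
  obtain ⟨c, hc⟩ := exists_gp g
  rw [vol_zono hc, h1]
  have h5 : (P * Q).det * D = ∑ b ∈ bas g, vdet (fun j => g (b j)) := by
    rw [cauchy_binet, Finset.sum_mul]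
    rw [Finset.sum_congr rfl fun b _ => (h4 b).symm]
    symm
    refine Finset.sum_subset_zero_on_sdiff ?_ ?_ fun _ _ => rfl
    · intro b hb
      rw [Finset.mem_filter]
      exact ⟨Finset.mem_univ _, (mem_bas.1 hb).1⟩
    · intro b hb
      rw [Finset.mem_sdiff, Finset.mem_filter] at hb
      by_contra h6
      exact hb.2 (mem_bas.2 ⟨hb.1.2, li_of_vdet h6⟩)
  have hD : 0 ≤ D := by rw [← hv]; exact vdet_nonneg _
  have h6 : 0 ≤ (P * Q).det * D := by
    rw [h5]
    exact Finset.sum_nonneg fun b _ => vdet_nonneg _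
  rw [← h5, ← abs_of_nonneg hD, ← abs_mul, abs_of_nonneg hD, abs_of_nonneg h6]

/-- The lattice packing. -/
private theorem pack {g : Fin n → E d} {y : Fin n → ℝ} (hy : ∀ j, 0 < y j)
    {P : Matrix (Fin d) (Fin n) ℝ} {x : Fin d → E d}
    (hP : ∀ i j, ∃ k : ℤ, P i j = k) (hx : ∀ i j, ⟪x i, g j⟫ = y j * P i j) {z : E d}
    (hz : z ∈ Submodule.span ℤ (range fun i => ∑ j, P i j • g j)) (h0 : z ≠ 0) :
    z ∉ interior (zono g + zono g) := by
  intro hzi
  obtain ⟨m, hm⟩ := (Submodule.mem_span_range_iff_exists_fun ℤ).1 hz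
  choose K hK using hP
  set ξ : E d := ∑ i, (m i : ℝ) • x i with hξ
  set k : Fin n → ℤ := fun j => ∑ i, m i * K i j with hk
  have hk' : ∀ j, (k j : ℝ) = ∑ i, (m i : ℝ) * P i j := by
    intro j
    rw [hk]
    push_cast
    exact Finset.sum_congr rfl fun i _ => by rw [hK i j]
  have hzk : z = ∑ j, (k j : ℝ) • g j := by
    rw [← hm]
    simp only [hk', Finset.sum_smul]
    rw [Finset.sum_comm]
    refine Finset.sum_congr rfl fun i _ => ?_
    rw [← Int.cast_smul_eq_zsmul ℝ, Finset.smul_sum]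
    exact Finset.sum_congr rfl fun j _ => by rw [smul_smul]
  have hξg : ∀ j, ⟪ξ, g j⟫ = y j * k j := by
    intro j
    rw [hξ, sum_inner, hk', Finset.mul_sum]
    refine Finset.sum_congr rfl fun i _ => ?_
    rw [real_inner_smul_left, hx]
    ring
  have hξz : ⟪ξ, z⟫ = ∑ j, y j * (k j : ℝ) ^ 2 := by
    rw [hzk, inner_sum]
    refine Finset.sum_congr rfl fun j _ => ?_
    rw [real_inner_smul_right, hξg]
    ring
  have hup : ∀ w ∈ zono g, ⟪ξ, w⟫ ≤ 1 / 2 * ∑ j, y j * |(k j : ℝ)| := by
    rintro w ⟨lam, hl, rfl⟩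
    rw [inner_sum, Finset.mul_sum]
    refine Finset.sum_le_sum fun j _ => ?_
    rw [real_inner_smul_right, hξg]
    have h1 : lam j * (y j * (k j : ℝ)) ≤ |lam j| * (y j * |(k j : ℝ)|) := by
      refine (le_abs_self _).trans ?_
      rw [abs_mul, abs_mul, abs_of_pos (hy j)]
    refine h1.trans ?_
    exact mul_le_mul_of_nonneg_right (hl j) (mul_nonneg (hy j).le (abs_nonneg _))
  have hint : ∀ j, |(k j : ℝ)| ≤ (k j : ℝ) ^ 2 := by
    intro j
    have h1 : |k j| ≤ k j ^ 2 := (Int.le_self_sq |k j|).trans_eq (sq_abs _)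
    exact_mod_cast h1
  have hle : ∑ j, y j * |(k j : ℝ)| ≤ ⟪ξ, z⟫ := by
    rw [hξz]
    exact Finset.sum_le_sum fun j _ => mul_le_mul_of_nonneg_left (hint j) (hy j).le
  have hξ0 : ξ ≠ 0 := by
    intro h1
    apply h0
    rw [hzk]
    refine Finset.sum_eq_zero fun j _ => ?_
    have h2 := hξg j
    rw [h1, inner_zero_left] at h2
    have h3 : (k j : ℝ) = 0 := (mul_eq_zero.1 h2.symm).resolve_left (hy j).ne'
    rw [h3, zero_smul]
  obtain ⟨ε, hε, hball⟩ := Metric.isOpen_iff.1 isOpen_interior z hzi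
  have hξn : 0 < ‖ξ‖ := norm_pos_iff.2 hξ0
  set t : ℝ := ε / (2 * ‖ξ‖) with ht
  have ht0 : 0 < t := by positivity
  have h1 : z + t • ξ ∈ zono g + zono g := by
    apply interior_subset
    apply hball
    rw [Metric.mem_ball, dist_eq_norm, add_sub_cancel_left, norm_smul, Real.norm_eq_abs,
      abs_of_pos ht0, ht]
    have h2 : ε / (2 * ‖ξ‖) * ‖ξ‖ = ε / 2 := by field_simp
    rw [h2]
    linarith
  obtain ⟨w₁, hw₁, w₂, hw₂, hw⟩ := h1
  simp only at hw
  have h2 : ⟪ξ, z + t • ξ⟫ = ⟪ξ, w₁⟫ + ⟪ξ, w₂⟫ := by rw [← hw, inner_add_right]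
  rw [inner_add_right, real_inner_smul_right, real_inner_self_eq_norm_sq] at h2
  have h3 := hup w₁ hw₁
  have h4 := hup w₂ hw₂
  have h5 : 0 < t * ‖ξ‖ ^ 2 := by positivity
  linarith

theorem exists_lattice {g : Fin n → E d} (hg : Submodule.span ℝ (range g) = ⊤) {y : Fin n → ℝ}
    {D : ℝ} (hy : ∀ j, 0 < y j) (hD : 0 < D)
    (h : ∀ c : Fin d → Fin n,
      vdet (fun a => g (c a)) = 0 ∨ vdet (fun a => g (c a)) = D * ∏ a, y (c a)) :
    ∃ β : Fin d → E d, LinearIndependent ℝ β ∧
      (∀ z ∈ Submodule.span ℤ (range β), z ≠ 0 → z ∉ interior (zono g + zono g)) ∧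
      vdet β = volume.real (zono g) := by
  obtain ⟨v, P, x, hv, hgP, hdet, hint, hx⟩ := exists_coord hg hy hD h
  have h1 := vdet_beta hy hv hgP hdet
  have h2 : vdet (fun i => ∑ j, P i j • g j) ≠ 0 := by
    rw [h1]
    obtain ⟨c, hc⟩ := exists_gp g
    obtain ⟨b, hb⟩ := bas_nonempty hg
    rw [vol_zono hc]
    exact (Finset.sum_pos' (f := fun b => vdet fun j => g (b j)) (fun b _ => vdet_nonneg _)
      ⟨b, hb, vdet_pos (mem_bas.1 hb).2⟩).ne'
  exact ⟨fun i => ∑ j, P i j • g j, li_of_vdet h2, fun z hz h0 => pack hy hint hx hz h0, h1⟩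

theorem tiles_zono {g : Fin n → E d} (hg : Submodule.span ℝ (range g) = ⊤) {y : Fin n → ℝ}
    {D : ℝ} (hy : ∀ j, 0 < y j) (hD : 0 < D)
    (h : ∀ c : Fin d → Fin n,
      vdet (fun a => g (c a)) = 0 ∨ vdet (fun a => g (c a)) = D * ∏ a, y (c a)) :
    Tiles (zono g) := by
  obtain ⟨β, h1, h2, h3⟩ := exists_lattice hg hy hD h
  exact tiles_of_pack (isBody_zono hg) h1 h2 h3.le

end Pool.Agent.MPbd65ca.Zo
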