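import Pool.Agent.Lib.MP_bd65ca_an_Z.PivA

/-!
# Zonotopes which tile: the minors

PROOF. Claim, for `k ≤ d`: for all `A ∈ S` with `Pot A univ x y`, and all `c : Fin d → Fin n` such that
for some injective `σ : Fin k → Fin d` the columns `c a`, `a < k`, of `A` are the unit vectors
`A i (c a) = if i = σ a then 1 else 0`, the statement of `det_pot` holds.  Downward induction on `k`
(induction on `d - k`).  `k = d`: `σ` is a permutation and the matrix `(A i (c a))` is a permutation
matrix, `|det| = 1`, and `1 = |A (σ a) (c a)| = x (σ a) * y (c a)` for all `a`, so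
`∏ x * ∏ y (c a) = 1`.  `k < d`: consider the column `c k`.  If `A i (c k) = 0` for all `i` not in
the range of `σ`, then the columns `0, ..., k` are linearly dependent (the column `k` is a combination of the
unit vectors), so `det = 0`.  Otherwise let `i0` be not in the range of `σ` with `A i0 (c k) ≠ 0` and
`A' = piv A i0 (c k)`, `x' = Function.update x i0 (y (c k))⁻¹` (`pot_piv`).  `A' i j` arises from `A i j` by
row operations: the row `i0` is divided by `A i0 (c k)` and multiples of it are subtracted from the other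
rows, so `det A'_c = det A_c / A i0 (c k)` (`Matrix.det_updateRow_smul`,
`Matrix.det_eq_of_forall_row_eq_smul_add_const` or write `A'_c = U * A_c` with a matrix `U` of
determinant `1 / A i0 (c k)`), while
`∏ x' = ∏ x / (x i0 * y (c k)) = ∏ x / |A i0 (c k)|`.  The columns `c a`, `a < k`, do not change
(`A i0 (c a) = 0` because `i0` is not in the range of `σ`), the column `c k` becomes the unit vector `i0`.  So
the claim for `k + 1` gives the claim for `k`.  `det_pot` is `k = 0`.
-/

open MeasureTheory FourierTransform Pointwise Set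
open scoped RealInnerProductSpace

namespace Pool.Agent.MPbd65ca.Zo

variable {d n : ℕ} {S : Set (Fin d → Fin n → ℝ)}

/-- The determinant after an exchange. -/
private theorem PivD_det (A : Fin d → Fin n → ℝ) (c : Fin d → Fin n) (i0 : Fin d) (j0 : Fin n) :
    (Matrix.of fun i a => piv A i0 j0 i (c a)).det =
      (A i0 j0)⁻¹ * (Matrix.of fun i a => A i (c a)).det := by
  have h1 : (Matrix.of fun i a => piv A i0 j0 i (c a)).det =
      ((Matrix.of fun i a => A i (c a)).updateRow i0
        ((A i0 j0)⁻¹ • (Matrix.of fun i a => A i (c a)) i0)).det := by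
    refine Matrix.det_eq_of_forall_row_eq_smul_add_const
      (fun i => if i = i0 then 0 else - A i j0) i0 (if_pos rfl) (fun i a => ?_)
    by_cases hi : i = i0
    · subst hi
      simp only [Matrix.of_apply, piv, Matrix.updateRow_self, Pi.smul_apply, smul_eq_mul,
        if_true, zero_mul, add_zero]
      ring
    · simp only [Matrix.of_apply, piv, Matrix.updateRow_self, Pi.smul_apply, smul_eq_mul, hi,
        if_false, Matrix.updateRow_ne hi]
      ring
  rw [h1, Matrix.det_updateRow_smul, Matrix.updateRow_eq_self]

/-- Dependent columns. -/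
private theorem PivD_zero (A : Fin d → Fin n → ℝ) (c : Fin d → Fin n) (P : Finset (Fin d))
    (σ : Fin d → Fin d) (hσ : Set.InjOn σ P)
    (h1 : ∀ a ∈ P, ∀ i, A i (c a) = if i = σ a then 1 else 0) {a0 : Fin d} (ha0 : a0 ∉ P)
    (h2 : ∀ i, i ∉ P.image σ → A i (c a0) = 0) :
    (Matrix.of fun i a => A i (c a)).det = 0 := by
  rw [← Matrix.exists_mulVec_eq_zero_iff]
  refine ⟨fun a => (if a = a0 then 1 else 0) - if a ∈ P then A (σ a) (c a0) else 0, ?_, ?_⟩
  · intro h3
    have h4 := congrFun h3 a0
    simp only [if_true, ha0, if_false, sub_zero, Pi.zero_apply] at h4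
    exact one_ne_zero h4
  · ext i
    change ∑ a, A i (c a) * ((if a = a0 then 1 else 0) - if a ∈ P then A (σ a) (c a0) else 0) = 0
    have h3 : ∑ a, A i (c a) * ((if a = a0 then 1 else 0) -
        if a ∈ P then A (σ a) (c a0) else 0) =
        A i (c a0) - ∑ a ∈ P, A i (c a) * A (σ a) (c a0) := by
      simp only [mul_sub, mul_ite, mul_one, mul_zero, Finset.sum_sub_distrib, Finset.sum_ite_eq',
        Finset.mem_univ, if_true, Finset.sum_ite_mem, Finset.univ_inter]
    rw [h3, sub_eq_zero]
    by_cases hi : i ∈ P.image σ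
    · obtain ⟨a, ha, rfl⟩ := Finset.mem_image.1 hi
      rw [Finset.sum_eq_single_of_mem a ha]
      · rw [h1 a ha, if_pos rfl, one_mul]
      · intro b hb hba
        rw [h1 b hb, if_neg, zero_mul]
        intro h4
        exact hba (hσ hb ha h4.symm)
    · rw [h2 i hi]
      refine (Finset.sum_eq_zero fun a ha => ?_).symm
      rw [h1 a ha, if_neg, zero_mul]
      rintro rfl
      exact hi (Finset.mem_image_of_mem σ ha)

/-- A permutation matrix. -/
private theorem PivD_perm {A : Fin d → Fin n → ℝ} {x : Fin d → ℝ} {y : Fin n → ℝ}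
    (hp : Pot A Finset.univ x y) (c : Fin d → Fin n) (σ : Fin d → Fin d)
    (hσ : Function.Injective σ) (h1 : ∀ a, ∀ i, A i (c a) = if i = σ a then 1 else 0) :
    |(Matrix.of fun i a => A i (c a)).det| = (∏ i, x i) * ∏ a, y (c a) := by
  have hb : Function.Bijective σ := Finite.injective_iff_bijective.1 hσ
  let τ : Equiv.Perm (Fin d) := Equiv.ofBijective σ hb
  have h2 : (Matrix.of fun i a => A i (c a)) = (1 : Matrix (Fin d) (Fin d) ℝ).submatrix id τ := by
    ext i a
    rw [Matrix.of_apply, Matrix.submatrix_apply, Matrix.one_apply, h1 a i]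
    rfl
  have h3 : ∀ a, x (τ a) * y (c a) = 1 := fun a => by
    have h4 : A (σ a) (c a) = 1 := by rw [h1 a, if_pos rfl]
    rcases hp.2.2 (σ a) (c a) (Finset.mem_univ _) with h5 | h5
    · rw [h4] at h5
      exact absurd h5 one_ne_zero
    · rw [h4, abs_one] at h5
      exact h5.symm
  have h4 : (∏ i, x i) * ∏ a, y (c a) = 1 := by
    rw [← Equiv.prod_comp τ x, ← Finset.prod_mul_distrib]
    exact Finset.prod_eq_one fun a _ => h3 a
  rw [h4, h2, Matrix.det_permute', Matrix.det_one, mul_one]
  rcases Int.units_eq_one_or (Equiv.Perm.sign τ) with h5 | h5 <;> rw [h5] <;> simp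

private theorem PivD_claim (h : PCl S) (y : Fin n → ℝ) (c : Fin d → Fin n) (m : ℕ) :
    ∀ A ∈ S, ∀ x : Fin d → ℝ, Pot A Finset.univ x y → ∀ (P : Finset (Fin d))
      (σ : Fin d → Fin d), P.card + m = d → Set.InjOn σ P →
      (∀ a ∈ P, ∀ i, A i (c a) = if i = σ a then 1 else 0) →
      (Matrix.of fun i a => A i (c a)).det = 0 ∨
        |(Matrix.of fun i a => A i (c a)).det| = (∏ i, x i) * ∏ a, y (c a) := by
  induction m with
  | zero =>
    intro A hA x hp P σ hc hσ h1
    have hP : P = Finset.univ := by
      rw [← Finset.card_eq_iff_eq_univ, Fintype.card_fin]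
      exact hc
    subst hP
    refine Or.inr (PivD_perm hp c σ (fun a b hab => hσ ?_ ?_ hab) fun a i =>
      h1 a (Finset.mem_univ a) i)
    · exact Finset.mem_coe.2 (Finset.mem_univ _)
    · exact Finset.mem_coe.2 (Finset.mem_univ _)
  | succ m ih =>
    intro A hA x hp P σ hc hσ h1
    obtain ⟨a0, ha0⟩ : ∃ a0, a0 ∉ P := by
      by_contra hcon
      push Not at hcon
      have h2 : P.card = d := by
        rw [Finset.eq_univ_iff_forall.2 hcon, Finset.card_univ, Fintype.card_fin]
      omega
    by_cases h2 : ∀ i, i ∉ P.image σ → A i (c a0) = 0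
    · exact Or.inl (PivD_zero A c P σ hσ h1 ha0 h2)
    push Not at h2
    obtain ⟨i0, hi0, h3⟩ := h2
    have hne : ∀ a ∈ P, i0 ≠ σ a := fun a ha h4 =>
      hi0 (h4 ▸ Finset.mem_image_of_mem σ ha)
    have hz : ∀ a ∈ P, A i0 (c a) = 0 := fun a ha => by
      rw [h1 a ha, if_neg (hne a ha)]
    have hA' : piv A i0 (c a0) ∈ S := h.1 A hA i0 (c a0) h3
    have hp' := pot_piv h hA hp (Finset.mem_univ (c a0)) h3
    have hneq : ∀ a ∈ P, a ≠ a0 := fun a ha h4 => ha0 (h4 ▸ ha)
    have key := ih (piv A i0 (c a0)) hA' _ hp' (insert a0 P) (Function.update σ a0 i0)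
      (by rw [Finset.card_insert_of_notMem ha0]; omega)
      (by
        intro a ha b hb hab
        rw [Finset.coe_insert] at ha hb
        rcases ha with rfl | ha <;> rcases hb with rfl | hb
        · rfl
        · rw [Function.update_self, Function.update_of_ne (hneq b hb)] at hab
          exact absurd hab (hne b hb)
        · rw [Function.update_self, Function.update_of_ne (hneq a ha)] at hab
          exact absurd hab.symm (hne a ha)
        · rw [Function.update_of_ne (hneq a ha), Function.update_of_ne (hneq b hb)] at hab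
          exact hσ ha hb hab)
      (by
        intro a ha i
        rcases Finset.mem_insert.1 ha with rfl | ha
        · rw [Function.update_self]
          unfold piv
          by_cases hi : i = i0
          · rw [if_pos hi, if_pos hi, div_self h3]
          · rw [if_neg hi, if_neg hi, mul_div_cancel_right₀ _ h3, sub_self]
        · rw [Function.update_of_ne (hneq a ha)]
          unfold piv
          rw [hz a ha, mul_zero, zero_div, sub_zero]
          by_cases hi : i = i0
          · rw [if_pos hi, hi, if_neg (hne a ha)]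
          · rw [if_neg hi]
            exact h1 a ha i)
    rw [PivD_det] at key
    rcases key with key | key
    · left
      rcases mul_eq_zero.1 key with h4 | h4
      · exact absurd h4 (inv_ne_zero h3)
      · exact h4
    · right
      have h4 : |A i0 (c a0)| = x i0 * y (c a0) := by
        rcases hp.2.2 i0 (c a0) (Finset.mem_univ _) with h5 | h5
        · exact absurd h5 h3
        · exact h5
      have hy : y (c a0) ≠ 0 := (hp.2.1 (c a0)).ne'
      have hx : x i0 ≠ 0 := (hp.1 i0).ne'
      rw [Finset.prod_update_of_mem (Finset.mem_univ i0), abs_mul, abs_inv, h4] at key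
      have h5 : ∏ i, x i = x i0 * ∏ i ∈ Finset.univ \ {i0}, x i := by
        rw [Finset.sdiff_singleton_eq_erase, Finset.mul_prod_erase _ _ (Finset.mem_univ i0)]
      rw [h5]
      have h6 : |(Matrix.of fun i a => A i (c a)).det| = (x i0 * y (c a0)) *
          ((x i0 * y (c a0))⁻¹ * |(Matrix.of fun i a => A i (c a)).det|) := by
        rw [← mul_assoc, mul_inv_cancel₀ (mul_ne_zero hx hy), one_mul]
      rw [h6, key]
      field_simp

theorem det_pot (h : PCl S) {A : Fin d → Fin n → ℝ} (hA : A ∈ S) {x : Fin d → ℝ}
    {y : Fin n → ℝ} (hp : Pot A Finset.univ x y) (c : Fin d → Fin n) :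
    (Matrix.of fun i a => A i (c a)).det = 0 ∨
      |(Matrix.of fun i a => A i (c a)).det| = (∏ i, x i) * ∏ a, y (c a) := by
  refine PivD_claim h y c d A hA x hp ∅ id ?_ ?_ ?_
  · rw [Finset.card_empty, zero_add]
  · rw [Finset.coe_empty]
    exact Set.injOn_empty _
  · intro a ha
    exact absurd ha (Finset.notMem_empty a)

end Pool.Agent.MPbd65ca.Zo
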