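import Pool.Agent.Lib.MP_bd65ca_an_Z.PivC
import Pool.Agent.Lib.MP_bd65ca_an_Z.PivD
import Pool.Agent.Lib.MP_bd65ca_an_Z.Join
import Pool.Agent.Lib.MP_bd65ca_an.Gen.Basic

/-!
# Zonotopes which tile: the generators are unimodular up to scaling

PROOF. `cc_piv`: let `A` belong to the basis `b`, `A i0 j0 ≠ 0`, `b' = Function.update b i0 j0`.
`g j0 = ∑ A i j0 • g (b i)` gives `g (b i0) = (1 / A i0 j0) • (g j0 - ∑_{i ≠ i0} A i j0 • g (b
i))`; insert this in `g j = ∑ A i j • g (b i)` to get `g j = ∑ piv A i0 j0 i j • g (b' i)`.  The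
`g (b' i)` span (they span the `g (b i)`) and their number is `d`, so they are independent
(`linearIndependent_of_top_le_span_of_card_eq_finrank`).
`cc_minor`: `NB g`, `A ∈ Cc g` with the basis `b`, `i ≠ i'`, all four entries nonzero.  Let `L` be
the span of the `g (b i'')`, `i'' ≠ i, i'`: finrank `d - 2`, spanned by generators.  If the minor
is not `0` then the four vectors `g (b i)`, `g (b i')`, `g j`, `g j'`, whose coordinates in the
rows `i`, `i'` are `(1,0)`, `(0,1)`, `(A i j, A i' j)`, `(A i j', A i' j')`, are pairwise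
independent modulo `L` (all `2 × 2` determinants are nonzero), so `L ⊔ span` of any two is
everything: contradiction to `NB g` with `![b i, b i', j, j']`.
`exists_cc`: a spanning family contains a basis; coordinates: `Basis.mk`, `Basis.repr`.
`exists_scal`: `PCl (Cc g)`, `A ∈ Cc g` with the basis `b`, potentials `x, y` from `exists_pot`
with `J = univ`.  For `c : Fin d → Fin n` the matrix with the rows `g (c a)` is the product of the
transpose of `(A i (c a))` and of the matrix with the rows `g (b i)`, so `vdet (fun a => g (c a))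
= |det (A i (c a))| * vdet (fun i => g (b i))`; `det_pot`; `D = (∏ x) * vdet (fun i => g (b i)) >
0` (`vdet_pos` in Gen/Basic.lean).
-/

open MeasureTheory FourierTransform Pointwise Set
open scoped RealInnerProductSpace

namespace Pool.Agent.MPbd65ca.Zo

variable {d n : ℕ}

private theorem scal_span {v : Fin d → E d} (hv : LinearIndependent ℝ v) :
    Submodule.span ℝ (range v) = ⊤ := by
  apply hv.span_eq_top_of_card_eq_finrank'
  simp

theorem cc_piv {g : Fin n → E d} {A : Fin d → Fin n → ℝ} (hA : A ∈ Cc g) {i0 : Fin d} {j0 : Fin n}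
    (h0 : A i0 j0 ≠ 0) : piv A i0 j0 ∈ Cc g := by
  classical
  obtain ⟨b, hli, hg⟩ := hA
  have key : ∀ j, g j = ∑ i, piv A i0 j0 i j • g (Function.update b i0 j0 i) := by
    intro j
    have e1 : ∑ i, piv A i0 j0 i j • g (Function.update b i0 j0 i) =
        (A i0 j / A i0 j0) • g j0 +
          ∑ i ∈ Finset.univ.erase i0, (A i j - A i j0 * A i0 j / A i0 j0) • g (b i) := by
      rw [← Finset.add_sum_erase _ _ (Finset.mem_univ i0)]
      congr 1
      · simp [piv]
      · apply Finset.sum_congr rfl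
        intro i hi
        have hi' : i ≠ i0 := Finset.ne_of_mem_erase hi
        simp [piv, hi']
    have e2 : g j0 = A i0 j0 • g (b i0) + ∑ i ∈ Finset.univ.erase i0, A i j0 • g (b i) := by
      rw [Finset.add_sum_erase _ (fun i => A i j0 • g (b i)) (Finset.mem_univ i0)]
      exact hg j0
    have e3 : g j = A i0 j • g (b i0) + ∑ i ∈ Finset.univ.erase i0, A i j • g (b i) := by
      rw [Finset.add_sum_erase _ (fun i => A i j • g (b i)) (Finset.mem_univ i0)]
      exact hg j
    rw [e1]
    have e4 : (A i0 j / A i0 j0) • g j0 = A i0 j • g (b i0) +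
        ∑ i ∈ Finset.univ.erase i0, (A i j0 * A i0 j / A i0 j0) • g (b i) := by
      rw [e2, smul_add, smul_smul, div_mul_cancel₀ _ h0, Finset.smul_sum]
      congr 1
      apply Finset.sum_congr rfl
      intro i _
      rw [smul_smul]
      congr 1
      ring
    rw [e4, add_assoc, ← Finset.sum_add_distrib]
    rw [e3]
    congr 1
    apply Finset.sum_congr rfl
    intro i _
    rw [← add_smul]
    congr 1
    ring
  refine ⟨Function.update b i0 j0, ?_, key⟩
  apply linearIndependent_of_top_le_span_of_card_eq_finrank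
  · rw [← scal_span hli, Submodule.span_le]
    rintro _ ⟨i, rfl⟩
    simp only [SetLike.mem_coe]
    rw [key (b i)]
    apply Submodule.sum_mem
    intro k _
    apply Submodule.smul_mem
    exact Submodule.subset_span ⟨k, rfl⟩
  · simp

private theorem scal_top {v : Fin d → E d} (hv : LinearIndependent ℝ v) {i i' : Fin d}
    {L : Submodule ℝ (E d)} (hL : ∀ k, k ≠ i → k ≠ i' → v k ∈ L) (hi : i ≠ i')
    {U V : Fin d → ℝ} {u w : E d} (hu : u = ∑ k, U k • v k) (hw : w = ∑ k, V k • v k)
    (hD : U i * V i' - U i' * V i ≠ 0) : L ⊔ Submodule.span ℝ {u, w} = ⊤ := by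
  classical
  set M := L ⊔ Submodule.span ℝ {u, w} with hM
  have hLM : ∀ k, k ≠ i → k ≠ i' → v k ∈ M := fun k h1 h2 =>
    Submodule.mem_sup_left (hL k h1 h2)
  have huM : u ∈ M := Submodule.mem_sup_right (Submodule.subset_span (by simp))
  have hwM : w ∈ M := Submodule.mem_sup_right (Submodule.subset_span (by simp))
  have hsplit : ∀ X : Fin d → ℝ, ∑ k, X k • v k ∈ M → X i • v i + X i' • v i' ∈ M := by
    intro X hX
    have h1 : ∑ k, X k • v k = (X i • v i + X i' • v i') +
        ∑ k ∈ (Finset.univ.erase i).erase i', X k • v k := by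
      rw [add_assoc, Finset.add_sum_erase _ (fun k => X k • v k)
        (Finset.mem_erase.2 ⟨hi.symm, Finset.mem_univ i'⟩),
        Finset.add_sum_erase _ (fun k => X k • v k) (Finset.mem_univ i)]
    have h2 : ∑ k ∈ (Finset.univ.erase i).erase i', X k • v k ∈ M := by
      apply Submodule.sum_mem
      intro k hk
      rw [Finset.mem_erase, Finset.mem_erase] at hk
      exact Submodule.smul_mem _ _ (hLM k hk.2.1 hk.1)
    rw [h1] at hX
    exact (Submodule.add_mem_iff_left _ h2).1 hX
  have h1 := hsplit U (hu ▸ huM)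
  have h2 := hsplit V (hw ▸ hwM)
  have h3 : v i ∈ M := by
    have h4 : (U i * V i' - U i' * V i) • v i ∈ M := by
      have h5 : (U i * V i' - U i' * V i) • v i =
          V i' • (U i • v i + U i' • v i') - U i' • (V i • v i + V i' • v i') := by
        simp only [smul_add, smul_smul, sub_smul, mul_comm (V i') (U i), mul_comm (V i') (U i')]
        abel
      rw [h5]
      exact Submodule.sub_mem _ (Submodule.smul_mem _ _ h1) (Submodule.smul_mem _ _ h2)
    exact (Submodule.smul_mem_iff _ hD).1 h4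
  have h3' : v i' ∈ M := by
    have h4 : (U i * V i' - U i' * V i) • v i' ∈ M := by
      have h5 : (U i * V i' - U i' * V i) • v i' =
          U i • (V i • v i + V i' • v i') - V i • (U i • v i + U i' • v i') := by
        simp only [smul_add, smul_smul, sub_smul, mul_comm (V i) (U i), mul_comm (V i) (U i')]
        abel
      rw [h5]
      exact Submodule.sub_mem _ (Submodule.smul_mem _ _ h2) (Submodule.smul_mem _ _ h1)
    exact (Submodule.smul_mem_iff _ hD).1 h4
  rw [eq_top_iff, ← scal_span hv, Submodule.span_le]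
  rintro _ ⟨k, rfl⟩
  by_cases hk : k = i
  · rw [hk]; exact h3
  · by_cases hk' : k = i'
    · rw [hk']; exact h3'
    · exact hLM k hk hk'

theorem cc_minor {g : Fin n → E d} (hg : NB g) {A : Fin d → Fin n → ℝ} (hA : A ∈ Cc g)
    {i i' : Fin d} {j j' : Fin n} (hi : i ≠ i') (h1 : A i j ≠ 0) (h2 : A i' j ≠ 0)
    (h3 : A i j' ≠ 0) (h4 : A i' j' ≠ 0) : A i j * A i' j' = A i j' * A i' j := by
  classical
  obtain ⟨b, hli, hgj⟩ := hA
  by_contra hne
  have hne' : A i j * A i' j' - A i' j * A i j' ≠ 0 := by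
    intro h
    apply hne
    linarith
  set v : Fin d → E d := fun k => g (b k) with hv
  set L : Submodule ℝ (E d) :=
    Submodule.span ℝ (range fun k : {k : Fin d // k ≠ i ∧ k ≠ i'} => v k) with hLdef
  have hL : ∀ k, k ≠ i → k ≠ i' → v k ∈ L := fun k hk hk' =>
    Submodule.subset_span ⟨⟨k, hk, hk'⟩, rfl⟩
  have hfin : Module.finrank ℝ L + 2 = d := by
    have hli' : LinearIndependent ℝ (fun k : {k : Fin d // k ≠ i ∧ k ≠ i'} => v k) :=
      hli.comp _ Subtype.val_injective
    rw [hLdef, finrank_span_eq_card hli']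
    have hc : Fintype.card {k : Fin d // k ≠ i ∧ k ≠ i'} =
        ((Finset.univ.erase i).erase i').card := by
      rw [Fintype.card_subtype]
      congr 1
      ext k
      simp [and_comm]
    rw [hc, Finset.card_erase_of_mem (Finset.mem_erase.2 ⟨hi.symm, Finset.mem_univ i'⟩),
      Finset.card_erase_of_mem (Finset.mem_univ i), Finset.card_univ, Fintype.card_fin]
    have h5 : 2 ≤ d := by
      have h6 : ({i, i'} : Finset (Fin d)).card ≤ d := by
        simpa using Finset.card_le_univ ({i, i'} : Finset (Fin d))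
      rwa [Finset.card_pair hi] at h6
    omega
  have hspan : L = Submodule.span ℝ (range g ∩ L) := by
    apply le_antisymm
    · rw [hLdef]
      apply Submodule.span_mono
      rintro _ ⟨k, rfl⟩
      exact ⟨⟨b k, rfl⟩, hL k k.2.1 k.2.2⟩
    · rw [Submodule.span_le]
      exact inter_subset_right
  have hs : ∀ l : Fin d, v l = ∑ k, (Pi.single l (1 : ℝ) : Fin d → ℝ) k • v k := by
    intro l
    rw [Finset.sum_eq_single l]
    · simp
    · intro k _ hk
      simp [Pi.single_eq_of_ne hk]
    · intro h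
      exact absurd (Finset.mem_univ l) h
  refine hg L hfin hspan ![b i, b i', j, j'] ?_
  let W : Fin 4 → Fin d → ℝ :=
    ![Pi.single i 1, Pi.single i' 1, fun k => A k j, fun k => A k j']
  have hW : ∀ a, g (![b i, b i', j, j'] a) = ∑ k, W a k • v k := by
    intro a
    fin_cases a
    · exact hs i
    · exact hs i'
    · exact hgj j
    · exact hgj j'
  have hs1 : (Pi.single i (1 : ℝ) : Fin d → ℝ) i = 1 := Pi.single_eq_same _ _
  have hs2 : (Pi.single i (1 : ℝ) : Fin d → ℝ) i' = 0 := Pi.single_eq_of_ne hi.symm _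
  have hs3 : (Pi.single i' (1 : ℝ) : Fin d → ℝ) i = 0 := Pi.single_eq_of_ne hi _
  have hs4 : (Pi.single i' (1 : ℝ) : Fin d → ℝ) i' = 1 := Pi.single_eq_same _ _
  have e0 : W 0 i = 1 ∧ W 0 i' = 0 := ⟨hs1, hs2⟩
  have e1 : W 1 i = 0 ∧ W 1 i' = 1 := ⟨hs3, hs4⟩
  have e2 : W 2 i = A i j ∧ W 2 i' = A i' j := ⟨rfl, rfl⟩
  have e3 : W 3 i = A i j' ∧ W 3 i' = A i' j' := ⟨rfl, rfl⟩
  have hD : ∀ a b : Fin 4, a < b → W a i * W b i' - W a i' * W b i ≠ 0 := by
    intro a b hab
    fin_cases a <;> fin_cases b <;> first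
      | exact absurd hab (by decide)
      | skip
    · show W 0 i * W 1 i' - W 0 i' * W 1 i ≠ 0
      rw [e0.1, e0.2, e1.1, e1.2]; norm_num
    · show W 0 i * W 2 i' - W 0 i' * W 2 i ≠ 0
      rw [e0.1, e0.2, e2.1, e2.2]; simpa using h2
    · show W 0 i * W 3 i' - W 0 i' * W 3 i ≠ 0
      rw [e0.1, e0.2, e3.1, e3.2]; simpa using h4
    · show W 1 i * W 2 i' - W 1 i' * W 2 i ≠ 0
      rw [e1.1, e1.2, e2.1, e2.2]; simpa using h1
    · show W 1 i * W 3 i' - W 1 i' * W 3 i ≠ 0
      rw [e1.1, e1.2, e3.1, e3.2]; simpa using h3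
    · show W 2 i * W 3 i' - W 2 i' * W 3 i ≠ 0
      rw [e2.1, e2.2, e3.1, e3.2]; exact hne'
  intro a c hac
  rcases lt_or_gt_of_ne hac with h | h
  · exact scal_top hli hL hi (hW a) (hW c) (hD a c h)
  · rw [Set.pair_comm]
    exact scal_top hli hL hi (hW c) (hW a) (hD c a h)

theorem exists_cc {g : Fin n → E d} (hg : Submodule.span ℝ (range g) = ⊤) : (Cc g).Nonempty := by
  classical
  obtain ⟨κ, a, ha, hsp, hli⟩ := exists_linearIndependent' ℝ g
  have : Finite κ := Finite.of_injective a ha
  have := Fintype.ofFinite κ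
  let B : Module.Basis κ ℝ (E d) := Module.Basis.mk hli (by rw [hsp, hg])
  have hcard : Fintype.card κ = d := by
    have h1 := Module.finrank_eq_card_basis B
    simpa using h1.symm
  let e : κ ≃ Fin d := Fintype.equivFinOfCardEq hcard
  let B' : Module.Basis (Fin d) ℝ (E d) := B.reindex e
  have hB' : ∀ i, B' i = g (a (e.symm i)) := by
    intro i
    simp [B', B]
  refine ⟨fun i j => B'.repr (g j) i, fun i => a (e.symm i), ?_, ?_⟩
  · have h1 := B'.linearIndependent
    have h2 : (fun i => g (a (e.symm i))) = ⇑B' := by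
      funext i
      exact (hB' i).symm
    rw [h2]
    exact h1
  · intro j
    have h1 := B'.sum_repr (g j)
    rw [← h1]
    apply Finset.sum_congr rfl
    intro i _
    show (B'.repr _) i • B' i = (B'.repr _) i • g (a (e.symm i))
    rw [hB']

theorem exists_scal {g : Fin n → E d} (hg : Submodule.span ℝ (range g) = ⊤) (hb : NB g) :
    ∃ (y : Fin n → ℝ) (D : ℝ), (∀ j, 0 < y j) ∧ 0 < D ∧ ∀ c : Fin d → Fin n,
      vdet (fun a => g (c a)) = 0 ∨ vdet (fun a => g (c a)) = D * ∏ a, y (c a) := by
  classical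
  have hP : PCl (Cc g) := ⟨fun A hA i j h => cc_piv hA h,
    fun A hA i i' j j' hi h1 h2 h3 h4 => cc_minor hb hA hi h1 h2 h3 h4⟩
  obtain ⟨A, hA⟩ := exists_cc hg
  obtain ⟨x, y, hp⟩ := exists_pot hP Finset.univ A hA
  obtain ⟨b, hli, hgj⟩ := id hA
  refine ⟨y, (∏ i, x i) * vdet (fun i => g (b i)), hp.2.1,
    mul_pos (Finset.prod_pos fun i _ => hp.1 i) (vdet_pos hli), fun c => ?_⟩
  have hmat : (Matrix.of fun a l => g (c a) l) =
      (Matrix.of fun i a => A i (c a)).transpose * (Matrix.of fun i l => g (b i) l) := by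
    ext a l
    rw [Matrix.mul_apply]
    simp only [Matrix.of_apply, Matrix.transpose_apply]
    have h1 := congrArg (fun z : E d => z l) (hgj (c a))
    simpa using h1
  have hv : vdet (fun a => g (c a)) =
      |(Matrix.of fun i a => A i (c a)).det| * vdet (fun i => g (b i)) := by
    unfold vdet
    rw [hmat, Matrix.det_mul, Matrix.det_transpose, abs_mul]
  rcases det_pot hP hA hp c with h | h
  · left
    rw [hv, h, abs_zero, zero_mul]
  · right
    rw [hv, h]
    ring

end Pool.Agent.MPbd65ca.Zo
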