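import Pool.Agent.Lib.MP_bd65ca_an_Z.Belt
import Pool.Agent.Lib.MP_bd65ca_an_Z.Scal
import Pool.Agent.Lib.MP_bd65ca_an_Z.Latt
import Pool.Agent.Lib.MP_bd65ca_an_Z.ExE

/-!
# The Turán problem for zonotopes: classification

PROOF. `tiles_smul`: scale the set `T`; `tiles_two`: `W + W = 2 • W` (`Convex.add_self`).
`zono_class`: let `W = zono g`, `K = W + W = 2 • W`, `volume.real K = 2 ^ d * volume.real W`
(`vol_smul`), so `2 ^ d / volume.real K = 1 / volume.real W`.  Upper bound: `cls_trivial`,
`turan_le_integral`.  `NB g → Tiles K`: `exists_scal`, `tiles_zono`, `tiles_two`.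
`Tiles K → turan K = ...`: `tiles_two`, `turan_ge_of_tiles` and the upper bound.
`turan K = ... → NB g`: otherwise there are `L` and `i` as in the definition of `NB`, and
`turan_belt` gives the strict inequality.
-/

open MeasureTheory FourierTransform Pointwise Set
open scoped RealInnerProductSpace

namespace Pool.Agent.MPbd65ca.Zo

open ScaleAux

variable {d n : ℕ}

theorem tiles_smul {K : Set (E d)} (h : Tiles K) {c : ℝ} (hc : 0 < c) : Tiles (c • K) := by
  obtain ⟨T, h1, h2⟩ := h
  have hc' := hc.ne'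
  have key : ∀ x t : E d, x - c • t = c • (c⁻¹ • x - t) := by
    intro x t
    rw [smul_sub, smul_smul, mul_inv_cancel₀ hc', one_smul]
  refine ⟨c • T, fun x => ?_, ?_⟩
  · obtain ⟨t, ht, hx⟩ := h1 (c⁻¹ • x)
    refine ⟨c • t, Set.smul_mem_smul_set ht, ?_⟩
    rw [key]
    exact Set.smul_mem_smul_set hx
  · intro s' hs' t' ht' hst x hx
    obtain ⟨s, hs, rfl⟩ := hs'
    obtain ⟨t, ht, rfl⟩ := ht'
    have hst' : s ≠ t := fun he => hst (by rw [he])
    obtain ⟨hx1, hx2⟩ := hx
    rw [interior_smul₀ hc'] at hx1 hx2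
    refine h2 s hs t ht hst' (c⁻¹ • x) ⟨?_, ?_⟩
    · refine (Set.smul_mem_smul_set_iff₀ hc' _ _).1 ?_
      rw [← key]
      exact hx1
    · refine (Set.smul_mem_smul_set_iff₀ hc' _ _).1 ?_
      rw [← key]
      exact hx2

theorem tiles_two {W : Set (E d)} (hW : IsBody W) : Tiles (W + W) ↔ Tiles W := by
  rw [Convex.add_self hW.convex]
  refine ⟨fun h => ?_, fun h => tiles_smul h two_pos⟩
  have h1 := tiles_smul h (c := 1 / 2) (by norm_num)
  rwa [smul_smul, one_div, inv_mul_cancel₀ two_ne_zero, one_smul] at h1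

theorem zono_class (g : Fin n → E d) (hg : Submodule.span ℝ (range g) = ⊤) :
    turan (zono g + zono g) ≤ 2 ^ d / volume.real (zono g + zono g) ∧
    (turan (zono g + zono g) = 2 ^ d / volume.real (zono g + zono g) ↔ Tiles (zono g + zono g)) ∧
    (Tiles (zono g + zono g) ↔ NB g) := by
  have hW : IsBody (zono g) := isBody_zono hg
  have hK : IsBody (zono g + zono g) := by
    rw [Convex.add_self hW.convex]
    exact hW.smul two_pos
  have he : (2 : ℝ) ^ d / volume.real (zono g + zono g) = 1 / volume.real (zono g) := by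
    have h0 : volume.real (zono g) ≠ 0 := (vol_pos hW).ne'
    rw [Convex.add_self hW.convex, vol_smul two_pos]
    field_simp
  have hU : turan (zono g + zono g) ≤ 2 ^ d / volume.real (zono g + zono g) := by
    obtain ⟨F, hF, hi⟩ := cls_trivial hK
    exact (turan_le_integral hF).trans hi
  have h1 : NB g → Tiles (zono g + zono g) := by
    intro hb
    obtain ⟨y, D, hy, hD, h⟩ := exists_scal hg hb
    exact (tiles_two hW).2 (tiles_zono hg hy hD h)
  have h2 : Tiles (zono g + zono g) →
      turan (zono g + zono g) = 2 ^ d / volume.real (zono g + zono g) := by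
    intro hT
    refine le_antisymm hU ?_
    rw [he]
    exact turan_ge_of_tiles hW ((tiles_two hW).1 hT)
  have h3 : turan (zono g + zono g) = 2 ^ d / volume.real (zono g + zono g) → NB g := by
    intro h L hL hLg i hi
    exact absurd h (turan_belt g hg L hL hLg i hi).ne
  exact ⟨hU, ⟨fun h => h1 (h3 h), h2⟩, ⟨fun h => h3 (h2 h), h1⟩⟩

end Pool.Agent.MPbd65ca.Zo
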