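import Pool.Agent.Lib.MP_bd65ca_an_Z.Vert

/-!
# The Turán problem for zonotopes: the tiles cover the zonotope up to a null set

PROOF. `tile_subset`: coefficients `sg i` for `i ∉ range b` and `μ j` for `i = b j`
(`b` is injective by independence), all of absolute value `≤ 1/2`.
`cover`: for a set `F : Finset (Fin n)` with `(g i)_{i ∈ F}` independent and `F.card < d` and signs
`s : Fin n → ℝ` with values in `{1/2, -1/2}` (finitely many, e.g. functions of the form
`fun i => if i ∈ T then 1/2 else -1/2` with `T : Finset (Fin n)`) the affine subspace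
`∑_{i ∉ F} s i • g i + span (g i, i ∈ F)` is a null set: a translate of a proper submodule
(`Measure.addHaar_submodule`, `measure_preimage_add`, or `Measure.addHaar_affineSubspace`).  Let `x`
be in none of these finitely many sets and `x ∈ zono g`.  The set of all `lam` with `|lam i| ≤ 1/2`
and `∑ lam i • g i = x` is compact and nonempty; take `lam` maximising `∑ lam i * c i`.  Let
`F = {i | |lam i| < 1/2}`.  (1) `(g i)_{i ∈ F}` is independent: otherwise `Gp` gives `α` supported in
`F` with `∑ α i • g i = 0`, `∑ α i * c i ≠ 0`, and `lam + ε α` (or `lam - ε α`) for small `ε > 0` is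
admissible and has a larger value.  (2) `F.card < d` is impossible by the choice of `x`
(`lam i = ± 1/2` for `i ∉ F`), and `F.card ≤ d` by independence, so `F.card = d`; let
`b = F.orderEmbOfFin`.  Then `b ∈ bas g` and `range b = F`.  (3) For `i ∉ F` write
`g i = ∑ β j • g (b j)` (independent, `d` vectors: a basis); for `α = e_i - ∑ β j e_{b j}` we have
`∑ α • g = 0` and `∑ α * c = rr i` (`sum_rr`).  If `lam i = 1/2` then `lam - ε α` is admissible for
small `ε > 0`, so `rr i ≥ 0`, hence `rr i > 0` by `rr_ne` and `sg i = 1/2 = lam i`.  If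
`lam i = -1/2` then `lam + ε α` is admissible, so `rr i ≤ 0` and `sg i = -1/2 = lam i`.  So
`x = cen + ∑ lam (b j) • g (b j)` is in the tile of `b`.
-/

open MeasureTheory FourierTransform Pointwise Set
open scoped RealInnerProductSpace

namespace Pool.Agent.MPbd65ca.Zo

variable {d n : ℕ} {g : Fin n → E d} {c : Fin n → ℝ} {b : Fin d → Fin n}

private theorem inj_of_li (hb : LinearIndependent ℝ (fun j => g (b j))) :
    Function.Injective b := by
  intro j k hjk
  have h1 : (fun j => g (b j)) j = (fun j => g (b j)) k := by simp only [hjk]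
  exact hb.injective h1

private theorem sum_ext {V : Type*} [AddCommGroup V] [Module ℝ V] (hi : Function.Injective b)
    (μ : Fin d → ℝ) (w : Fin n → V) :
    ∑ i, Function.extend b μ 0 i • w i = ∑ j, μ j • w (b j) := by
  classical
  have h1 : ∑ i ∈ Finset.univ.image b, Function.extend b μ 0 i • w i =
      ∑ i, Function.extend b μ 0 i • w i := by
    apply Finset.sum_subset (Finset.subset_univ _)
    intro i _ hi'
    have h2 : ¬ ∃ j, b j = i := by
      rintro ⟨j, rfl⟩
      exact hi' (Finset.mem_image_of_mem _ (Finset.mem_univ j))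
    rw [Function.extend_apply' _ _ _ h2, Pi.zero_apply, zero_smul]
  rw [← h1, Finset.sum_image (fun x _ y _ h => hi h)]
  exact Finset.sum_congr rfl fun j _ => by rw [hi.extend_apply]

theorem tile_subset (hb : LinearIndependent ℝ (fun j => g (b j))) : tile g c b ⊆ zono g := by
  rintro x ⟨μ, hμ, rfl⟩
  have hi := inj_of_li hb
  refine ⟨fun i => sg g c b i + Function.extend b μ 0 i, fun i => ?_, ?_⟩
  · change |sg g c b i + Function.extend b μ 0 i| ≤ 1 / 2
    by_cases h : ∃ j, b j = i
    · obtain ⟨j, rfl⟩ := h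
      rw [sg_basis, hi.extend_apply, zero_add]
      exact (hμ j).le
    · rw [Function.extend_apply' _ _ _ h, Pi.zero_apply, add_zero]
      exact abs_sg_le i
  · simp only [add_smul, Finset.sum_add_distrib]
    rw [sum_ext hi, cen]

/-- the affine subspaces which are left out -/
private def bad (g : Fin n → E d) (F T : Finset (Fin n)) : Set (E d) :=
  {x | x - ∑ i ∈ Finset.univ \ F, (if i ∈ T then (1 / 2 : ℝ) else -(1 / 2)) • g i ∈
    Submodule.span ℝ (g '' (F : Set (Fin n)))}

private theorem bad_null (F T : Finset (Fin n)) (hF : F.card < d) :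
    ∀ᵐ x : E d, x ∉ bad g F T := by
  classical
  set S : Submodule ℝ (E d) := Submodule.span ℝ (g '' (F : Set (Fin n))) with hS
  have hne : S ≠ ⊤ := by
    intro h
    have h1 : Module.finrank ℝ S ≤ F.card := by
      have h2 : Module.finrank ℝ S ≤ (F.image g).card := by
        have h3 : S = Submodule.span ℝ ((F.image g : Finset (E d)) : Set (E d)) := by
          rw [hS, Finset.coe_image]
        rw [h3]
        exact finrank_span_finset_le_card _
      exact h2.trans Finset.card_image_le
    rw [h, finrank_top] at h1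
    simp at h1
    omega
  have h0 : (volume : Measure (E d)) (S : Set (E d)) = 0 := Measure.addHaar_submodule _ S hne
  rw [ae_iff]
  have h1 : {x : E d | ¬ x ∉ bad g F T} = (fun x => x +
      -(∑ i ∈ Finset.univ \ F, (if i ∈ T then (1 / 2 : ℝ) else -(1 / 2)) • g i)) ⁻¹'
      (S : Set (E d)) := by
    ext x
    simp only [bad, mem_ofPred_eq, not_not, mem_preimage, SetLike.mem_coe, sub_eq_add_neg]
    rfl
  rw [h1, measure_preimage_add_right, h0]

private theorem perturb {lam : Fin n → ℝ} (hl : ∀ i, |lam i| ≤ 1 / 2)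
    (hmax : ∀ lam' : Fin n → ℝ, (∀ i, |lam' i| ≤ 1 / 2) →
      ∑ i, lam' i • g i = ∑ i, lam i • g i → ∑ i, lam' i * c i ≤ ∑ i, lam i * c i)
    {α : Fin n → ℝ} (h0 : ∑ i, α i • g i = 0)
    (hα : ∀ i, |lam i| = 1 / 2 → α i * lam i ≤ 0) : ∑ i, α i * c i ≤ 0 := by
  have hev : ∀ᶠ ε : ℝ in nhdsWithin 0 (Ioi 0), ∀ i, |lam i + ε * α i| ≤ 1 / 2 := by
    rw [Filter.eventually_all]
    intro i
    rcases (hl i).lt_or_eq with h | h
    · have hc1 : Continuous fun ε : ℝ => |lam i + ε * α i| := by fun_prop
      have hc2 : Filter.Tendsto (fun ε : ℝ => |lam i + ε * α i|) (nhdsWithin 0 (Ioi 0))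
          (nhds |lam i + 0 * α i|) := (hc1.tendsto 0).mono_left nhdsWithin_le_nhds
      rw [zero_mul, add_zero] at hc2
      filter_upwards [hc2.eventually_lt_const h] with ε hε
      exact hε.le
    · have hc1 : Continuous fun ε : ℝ => ε * |α i| := by fun_prop
      have hc2 : Filter.Tendsto (fun ε : ℝ => ε * |α i|) (nhdsWithin 0 (Ioi 0))
          (nhds (0 * |α i|)) := (hc1.tendsto 0).mono_left nhdsWithin_le_nhds
      rw [zero_mul] at hc2
      filter_upwards [hc2.eventually_lt_const zero_lt_one, self_mem_nhdsWithin] with ε hε hε0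
      have hε0' : (0 : ℝ) < ε := hε0
      have h1 := hα i h
      have h2 : ε * α i ≤ ε * |α i| := mul_le_mul_of_nonneg_left (le_abs_self _) hε0'.le
      have h3 : ε * -α i ≤ ε * |α i| := mul_le_mul_of_nonneg_left (neg_le_abs _) hε0'.le
      rcases le_total 0 (lam i) with hp | hp
      · rw [abs_of_nonneg hp] at h
        rw [h] at h1 ⊢
        have h4 : α i ≤ 0 := by linarith
        have h5 : ε * α i ≤ 0 := mul_nonpos_of_nonneg_of_nonpos hε0'.le h4
        rw [abs_le]
        constructor <;> linarith
      · rw [abs_of_nonpos hp] at h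
        have h' : lam i = -(1 / 2) := by linarith
        rw [h'] at h1 ⊢
        have h4 : 0 ≤ α i := by linarith
        have h5 : 0 ≤ ε * α i := mul_nonneg hε0'.le h4
        rw [abs_le]
        constructor <;> linarith
  obtain ⟨ε, hε, hε0⟩ := (hev.and self_mem_nhdsWithin).exists
  have hε0' : (0 : ℝ) < ε := hε0
  have h1 := hmax (fun i => lam i + ε * α i) hε (by
    simp only [add_smul, Finset.sum_add_distrib, mul_smul]
    rw [← Finset.smul_sum, h0, smul_zero, add_zero])
  simp only [add_mul, Finset.sum_add_distrib, mul_assoc] at h1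
  rw [← Finset.mul_sum] at h1
  by_contra h2
  have h3 := mul_pos hε0' (not_le.1 h2)
  linarith

private theorem ex_max (g : Fin n → E d) (c : Fin n → ℝ) {x : E d} (hx : x ∈ zono g) :
    ∃ lam : Fin n → ℝ, (∀ i, |lam i| ≤ 1 / 2) ∧ ∑ i, lam i • g i = x ∧
      ∀ lam' : Fin n → ℝ, (∀ i, |lam' i| ≤ 1 / 2) →
      ∑ i, lam' i • g i = x → ∑ i, lam' i * c i ≤ ∑ i, lam i * c i := by
  have hK : IsCompact {lam : Fin n → ℝ | (∀ i, |lam i| ≤ 1 / 2) ∧ ∑ i, lam i • g i = x} := by
    have h1 : {lam : Fin n → ℝ | (∀ i, |lam i| ≤ 1 / 2) ∧ ∑ i, lam i • g i = x} =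
        Icc (fun _ => -(1 / 2 : ℝ)) (fun _ => 1 / 2) ∩ {lam | ∑ i, lam i • g i = x} := by
      ext lam
      simp only [mem_ofPred_eq, mem_inter_iff, mem_Icc, Pi.le_def, abs_le, forall_and]
    rw [h1]
    refine isCompact_Icc.inter_right (isClosed_eq ?_ continuous_const)
    fun_prop
  obtain ⟨l0, hl0, rfl⟩ := hx
  obtain ⟨lam, ⟨h1, h2⟩, h3⟩ := hK.exists_isMaxOn ⟨l0, hl0, rfl⟩
    (f := fun lam : Fin n → ℝ => ∑ i, lam i * c i) (by fun_prop)
  exact ⟨lam, h1, h2, fun l' h4 h5 => h3 ⟨h4, h5⟩⟩

theorem cover (hc : Gp g c) : ∀ᵐ x : E d, x ∈ zono g → ∃ b ∈ bas g, x ∈ tile g c b := by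
  classical
  have hnull : ∀ᵐ x : E d, ∀ F T : Finset (Fin n), F.card < d → x ∉ bad g F T := by
    rw [ae_all_iff]
    intro F
    rw [ae_all_iff]
    intro T
    by_cases h : F.card < d
    · filter_upwards [bad_null F T h] with x hx _
      exact hx
    · exact Filter.Eventually.of_forall fun x h' => absurd h' h
  filter_upwards [hnull] with x hx hxz
  obtain ⟨lam, hl, hlx, hmax⟩ := ex_max g c hxz
  have hmax' : ∀ lam' : Fin n → ℝ, (∀ i, |lam' i| ≤ 1 / 2) →
      ∑ i, lam' i • g i = ∑ i, lam i • g i → ∑ i, lam' i * c i ≤ ∑ i, lam i * c i :=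
    fun l' h1 h2 => hmax l' h1 (h2.trans hlx)
  set F : Finset (Fin n) := Finset.univ.filter fun i => |lam i| < 1 / 2 with hFdef
  have hFmem : ∀ i, i ∈ F ↔ |lam i| < 1 / 2 := fun i => by simp [hFdef]
  have hFn : ∀ i, i ∉ F → |lam i| = 1 / 2 := fun i hi => by
    rw [hFmem, not_lt] at hi
    exact le_antisymm (hl i) hi
  have hind : LinearIndependent ℝ (fun i : F => g i) := by
    by_contra hdep
    obtain ⟨α, hα, h0, h1⟩ := hc F hdep
    have hz : ∀ i, |lam i| = 1 / 2 → α i = 0 := fun i hi => hα i (by
      rw [hFmem, hi]; exact lt_irrefl _)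
    have h2 := perturb hl hmax' h0 (fun i hi => by rw [hz i hi, zero_mul])
    have h3 := perturb (α := fun i => -α i) hl hmax' (by
      simp only [neg_smul, Finset.sum_neg_distrib, h0, neg_zero])
      (fun i hi => by rw [hz i hi, neg_zero, zero_mul])
    simp only [neg_mul, Finset.sum_neg_distrib] at h3
    exact h1 (le_antisymm h2 (by linarith))
  have hle : F.card ≤ d := by
    have h := hind.fintype_card_le_finrank
    simpa using h
  have hcard : F.card = d := by
    by_contra hne
    have hlt : F.card < d := lt_of_le_of_ne hle hne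
    apply hx F (Finset.univ.filter fun i => lam i = 1 / 2) hlt
    have hsplit : x = ∑ i ∈ Finset.univ \ F, lam i • g i + ∑ i ∈ F, lam i • g i := by
      rw [Finset.sum_sdiff (Finset.subset_univ F), hlx]
    have hs : ∑ i ∈ Finset.univ \ F, lam i • g i = ∑ i ∈ Finset.univ \ F,
        (if i ∈ Finset.univ.filter (fun i => lam i = 1 / 2) then (1 / 2 : ℝ) else -(1 / 2)) •
          g i := by
      refine Finset.sum_congr rfl fun i hi => ?_
      have hi' := hFn i (Finset.mem_sdiff.1 hi).2
      congr 1
      simp only [Finset.mem_filter, Finset.mem_univ, true_and]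
      split_ifs with h
      · exact h
      · rcases abs_eq (by norm_num : (0 : ℝ) ≤ 1 / 2) |>.1 hi' with h' | h'
        · exact absurd h' h
        · exact h'
    change x - ∑ i ∈ Finset.univ \ F, (if i ∈ Finset.univ.filter (fun i => lam i = 1 / 2) then
      (1 / 2 : ℝ) else -(1 / 2)) • g i ∈ Submodule.span ℝ (g '' (F : Set (Fin n)))
    rw [← hs, hsplit, add_sub_cancel_left]
    exact Submodule.sum_mem _ fun i hi => Submodule.smul_mem _ _
      (Submodule.subset_span ⟨i, hi, rfl⟩)
  set b : Fin d → Fin n := ⇑(F.orderEmbOfFin hcard) with hbdef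
  have hbF : ∀ j, b j ∈ F := fun j => F.orderEmbOfFin_mem hcard j
  have hrange : range b = (F : Set (Fin n)) := F.range_orderEmbOfFin hcard
  have hmono : StrictMono b := (F.orderEmbOfFin hcard).strictMono
  have hli : LinearIndependent ℝ (fun j => g (b j)) := by
    have h := hind.comp (fun j : Fin d => (⟨b j, hbF j⟩ : F)) (by
      intro j k hjk
      exact hmono.injective (congrArg Subtype.val hjk))
    exact h
  have hi := inj_of_li hli
  have hspan : Submodule.span ℝ (range fun j => g (b j)) = ⊤ := by
    apply LinearIndependent.span_eq_top_of_card_eq_finrank' hli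
    simp
  have hkey : ∀ i, i ∉ range b → sg g c b i = lam i := by
    intro i hir
    have hiF : i ∉ F := fun h => hir (by rw [hrange]; exact h)
    have hmem : g i ∈ Submodule.span ℝ (range fun j => g (b j)) := by rw [hspan]; trivial
    obtain ⟨β, hβ⟩ := (Submodule.mem_span_range_iff_exists_fun ℝ).1 hmem
    set α : Fin n → ℝ := fun k => (Pi.single i 1 : Fin n → ℝ) k - Function.extend b β 0 k
      with hαdef
    have hαg : ∑ k, α k • g k = 0 := by
      simp only [hαdef, sub_smul, Finset.sum_sub_distrib]
      rw [sum_ext hi β g, hβ]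
      rw [Finset.sum_eq_single i (fun k _ hk => by rw [Pi.single_eq_of_ne hk, zero_smul])
        (fun h => absurd (Finset.mem_univ i) h), Pi.single_eq_same, one_smul, sub_self]
    have hαc : ∑ k, α k * c k = rr g c b i := by
      rw [sum_rr hli hαg]
      simp only [hαdef, sub_mul, Finset.sum_sub_distrib]
      have h1 := sum_ext hi β (rr g c b)
      simp only [smul_eq_mul] at h1
      rw [h1, Finset.sum_eq_zero (f := fun j => β j * rr g c b (b j))
        (fun j _ => by rw [rr_basis hli, mul_zero])]
      rw [Finset.sum_eq_single i (fun k _ hk => by rw [Pi.single_eq_of_ne hk, zero_mul])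
        (fun h => absurd (Finset.mem_univ i) h), Pi.single_eq_same, one_mul, sub_zero]
    have hαk : ∀ k, |lam k| = 1 / 2 → k ≠ i → α k = 0 := by
      intro k hk hki
      have hkF : ¬ ∃ j, b j = k := by
        rintro ⟨j, rfl⟩
        have := (hFmem _).1 (hbF j)
        rw [hk] at this
        exact lt_irrefl _ this
      simp only [hαdef]
      rw [Function.extend_apply' _ _ _ hkF, Pi.single_eq_of_ne hki, Pi.zero_apply, sub_zero]
    have hαi : α i = 1 := by
      have hkF : ¬ ∃ j, b j = i := hir
      simp only [hαdef]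
      rw [Function.extend_apply' _ _ _ hkF, Pi.single_eq_same, Pi.zero_apply, sub_zero]
    rw [sg, if_neg hir]
    rcases abs_eq (by norm_num : (0 : ℝ) ≤ 1 / 2) |>.1 (hFn i hiF) with h | h
    · have h3 := perturb (α := fun k => -α k) hl hmax' (by
        simp only [neg_smul, Finset.sum_neg_distrib, hαg, neg_zero])
        (fun k hk => by
          by_cases hki : k = i
          · subst hki
            rw [hαi, h]
            norm_num
          · rw [hαk k hk hki, neg_zero, zero_mul])
      simp only [neg_mul, Finset.sum_neg_distrib] at h3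
      rw [hαc] at h3
      have h4 := rr_ne hc hli hir
      have h5 : 0 < rr g c b i := lt_of_le_of_ne (by linarith) (Ne.symm h4)
      rw [if_pos h5, h]
    · have h3 := perturb (α := α) hl hmax' hαg
        (fun k hk => by
          by_cases hki : k = i
          · subst hki
            rw [hαi, h]
            norm_num
          · rw [hαk k hk hki, zero_mul])
      rw [hαc] at h3
      rw [if_neg (not_lt.2 h3), h]
  refine ⟨b, mem_bas.2 ⟨hmono, hli⟩, fun j => lam (b j), fun j => (hFmem _).1 (hbF j), ?_⟩
  rw [cen, ← sum_ext hi (fun j => lam (b j)) g, ← Finset.sum_add_distrib, ← hlx]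
  refine Finset.sum_congr rfl fun i _ => ?_
  rw [← add_smul]
  congr 1
  by_cases h : ∃ j, b j = i
  · obtain ⟨j, rfl⟩ := h
    rw [sg_basis, hi.extend_apply, zero_add]
  · rw [Function.extend_apply' _ _ _ h, Pi.zero_apply, add_zero]
    exact (hkey i h).symm

end Pool.Agent.MPbd65ca.Zo
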