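import Pool.Agent.Lib.MP_bd65ca_an.Pg.Defs
import Pool.Agent.Lib.MP_bd65ca_an.Gen.Defs
import Pool.Agent.Lib.MP_bd65ca_an.Prod

/-!
# The Turán problem for zonotopes: definitions

Zonotopes, their tilings by parallelepipeds which belong to heights in general position, zonotopes
with a distinguished subspace of codimension two spanned by generators, and the phases of the
translates of the corresponding face.
-/

open MeasureTheory FourierTransform Pointwise Set
open scoped RealInnerProductSpace

namespace Pool.Agent.MPbd65ca.Zo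

open Pool.Agent.MPbd65ca.Pg

section tilings

variable {d n : ℕ}

/-- The zonotope with the generators `g`. -/
def zono (g : Fin n → E d) : Set (E d) :=
  {x | ∃ lam : Fin n → ℝ, (∀ i, |lam i| ≤ 1 / 2) ∧ x = ∑ i, lam i • g i}

/-- The heights `c` are in general position: every dependent set of generators has a linear relation
which is not a relation of the heights. -/
def Gp (g : Fin n → E d) (c : Fin n → ℝ) : Prop :=
  ∀ S : Finset (Fin n), ¬ LinearIndependent ℝ (fun i : S => g i) →
    ∃ α : Fin n → ℝ, (∀ i, i ∉ S → α i = 0) ∧ ∑ i, α i • g i = 0 ∧ ∑ i, α i * c i ≠ 0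

/-- The bases consisting of generators, in increasing order. -/
noncomputable def bas (g : Fin n → E d) : Finset (Fin d → Fin n) :=
  open Classical in
  Finset.univ.filter fun b => StrictMono b ∧ LinearIndependent ℝ (fun j => g (b j))

/-- The intersection point of the hyperplanes `⟪g i, ζ⟫ = c i` of a basis. -/
noncomputable def zeta (g : Fin n → E d) (c : Fin n → ℝ) (b : Fin d → Fin n) : E d :=
  open Classical in
  if h : ∃ ζ : E d, ∀ j, ⟪g (b j), ζ⟫ = c (b j) then h.choose else 0

/-- The reduced heights with respect to a basis. -/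
noncomputable def rr (g : Fin n → E d) (c : Fin n → ℝ) (b : Fin d → Fin n) (i : Fin n) : ℝ :=
  c i - ⟪g i, zeta g c b⟫

/-- The coefficients of the centre of the tile of a basis. -/
noncomputable def sg (g : Fin n → E d) (c : Fin n → ℝ) (b : Fin d → Fin n) (i : Fin n) : ℝ :=
  open Classical in
  if i ∈ range b then 0 else if 0 < rr g c b i then 1 / 2 else -(1 / 2)

/-- The centre of the tile of a basis. -/
noncomputable def cen (g : Fin n → E d) (c : Fin n → ℝ) (b : Fin d → Fin n) : E d :=
  ∑ i, sg g c b i • g i

/-- The (open) tile of a basis. -/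
def tile (g : Fin n → E d) (c : Fin n → ℝ) (b : Fin d → Fin n) : Set (E d) :=
  {x | ∃ μ : Fin d → ℝ, (∀ j, |μ j| < 1 / 2) ∧ x = cen g c b + ∑ j, μ j • g (b j)}

end tilings

section belts

variable {m p q : ℕ}

/-- The planar parts of the outer generators. -/
noncomputable def gP (g : Fin (p + q) → E (2 + m)) (h : Fin p) : E 2 := fstE (g (Fin.castAdd q h))

/-- The other parts of the inner generators. -/
noncomputable def gI (g : Fin (p + q) → E (2 + m)) (i : Fin q) : E m := sndE (g (Fin.natAdd p i))

/-- The inner generators have no planar part. -/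
def Inn (g : Fin (p + q) → E (2 + m)) : Prop := ∀ i : Fin q, fstE (g (Fin.natAdd p i)) = 0

/-- Two outer and `m` inner indices together. -/
def jn (a : Fin 2 → Fin p) (B : Fin m → Fin q) : Fin (2 + m) → Fin (p + q) :=
  Fin.append (fun i => Fin.castAdd q (a i)) (fun i => Fin.natAdd p (B i))

/-- The bases with at least three outer generators. -/
noncomputable def rst (g : Fin (p + q) → E (2 + m)) : Finset (Fin (2 + m) → Fin (p + q)) :=
  open Classical in
  (bas g).filter fun b => ∃ i : Fin m, (b (Fin.natAdd 2 i) : ℕ) < p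

/-- The heights of the outer and of the inner generators. -/
def hgt (c0 : Fin p → ℝ) (c1 : Fin q → ℝ) (N : ℝ) : Fin (p + q) → ℝ :=
  Fin.append (fun h => N * c0 h) c1

/-- The main term of the Fourier transform of a zonotope. -/
noncomputable def Mn (g : Fin (p + q) → E (2 + m)) (c0 : Fin p → ℝ) (t : E (2 + m)) : ℂ :=
  ∑ a ∈ bas (gP g), ((vdet (fun j => gP g (a j)) *
    ∏ j, Real.sinc (Real.pi * ⟪t, g (Fin.castAdd q (a j))⟫) : ℝ) : ℂ) *
    (Real.fourierChar (-∑ h, sg (gP g) c0 a h * ⟪t, g (Fin.castAdd q h)⟫) : ℂ)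

/-- Zonotopes with a long belt in normal form: the subspace of the inner generators is
`{x | fstE x = 0}`, the planar parts of the outer generators are positive multiples of the sides
`gh j` (`0 ≤ j < k`) of half of a symmetric polygon. -/
structure ZD (k m p q : ℕ) (gh : ℤ → E 2) (cl : Fin p → ℕ) (rho : Fin p → ℝ)
    (g : Fin (p + q) → E (2 + m)) : Prop where
  zon : Zon k gh
  cl_lt : ∀ h, cl h < k
  rho_pos : ∀ h, 0 < rho h
  out : ∀ h, fstE (g (Fin.castAdd q h)) = rho h • gh (cl h)
  inn : ∀ i, fstE (g (Fin.natAdd p i)) = 0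
  one : ∀ j, j < k → ∑ h with cl h = j, rho h = 1
  span : Submodule.span ℝ (range (gI g)) = ⊤

/-- The sums of the outer generators over the classes, extended with `gt (j + k) = -gt j`. -/
noncomputable def gt (k : ℕ) (cl : Fin p → ℕ) (g : Fin (p + q) → E (2 + m)) (j : ℤ) : E (2 + m) :=
  ((-1 : ℝ) ^ (j / (k : ℤ))) • ∑ h with (cl h : ℤ) = j % (k : ℤ), g (Fin.castAdd q h)

/-- The centres of the translates of the face in the belt. -/
noncomputable def vt (k : ℕ) (cl : Fin p → ℕ) (g : Fin (p + q) → E (2 + m)) (j : ℤ) : E (2 + m) :=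
  (-(1 / 2) : ℝ) • ∑ l ∈ Finset.range k, gt k cl g (j + l)

/-- The phases of the translates of the face in the belt. -/
noncomputable def zt (k : ℕ) (cl : Fin p → ℕ) (g : Fin (p + q) → E (2 + m)) (t : E (2 + m))
    (j : ℤ) : Circle :=
  Real.fourierChar ⟪t, vt k cl g j⟫

end belts

end Pool.Agent.MPbd65ca.Zo
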