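import Pool.Agent.Lib.MP_bd65ca_an_Z.Vert

/-!
# The Turán problem for zonotopes: the tiles are disjoint

PROOF. `tile_lam`: a point `x = cen + ∑ μ j • g (b j)` of the tile is `∑ lam i • g i` with
`lam i = sg i` for `i ∉ range b` and `lam (b j) = μ j` (`b` is injective because the vectors
`g (b j)` are independent; `sg (b j) = 0`).
`height_le`: for every `μ : Fin n → ℝ` with `|μ i| ≤ 1/2` and `∑ μ i • g i = x`:
`∑ μ i * c i = ∑ μ i * rr i + ⟪x, ζ⟫` (because `c i = rr i + ⟪g i, ζ⟫`), and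
`μ i * rr i ≤ |rr i| / 2 = rr i * sg i`, with equality iff `μ i = sg i` when `i ∉ range b`
(`rr i ≠ 0` there).
`tile_disj`: let `x` be in the tiles of `b` and `b'`, with coefficients `lam`, `lam'`.
By `height_le` for `b` the number `∑ lam' i * c i` is at most the value
`∑ rr i * sg i + ⟪x, ζ⟫ = ∑ lam i * c i` (because `rr (b j) = 0`), and by symmetry
`∑ lam i * c i ≤ ∑ lam' i * c i`.  So there is equality, hence `lam' i = sg i = lam i` for all
`i ∉ range b`, and then `∑_j (lam' (b j) - lam (b j)) • g (b j) = 0` gives `lam' = lam` by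
independence. The set of the `i` with `|lam i| < 1/2` is `range b` and also `range b'`; two strictly
monotone maps `Fin d → Fin n` with the same range are equal (`StrictMono.range_inj` or
`Finset.orderEmbOfFin_unique`).
-/

open MeasureTheory FourierTransform Pointwise Set
open scoped RealInnerProductSpace

namespace Pool.Agent.MPbd65ca.Zo

variable {d n : ℕ} {g : Fin n → E d} {c : Fin n → ℝ} {b b' : Fin d → Fin n}

private theorem disj_inj (hb : LinearIndependent ℝ (fun j => g (b j))) :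
    Function.Injective b := by
  intro j k hjk
  have h1 : (fun j => g (b j)) j = (fun j => g (b j)) k := by simp only [hjk]
  exact hb.injective h1

private theorem disj_val {x : E d} {μ : Fin n → ℝ} (hx : x = ∑ i, μ i • g i) :
    ∑ i, μ i * c i = ∑ i, μ i * rr g c b i + ⟪x, zeta g c b⟫ := by
  rw [hx, sum_inner, ← Finset.sum_add_distrib]
  refine Finset.sum_congr rfl fun i _ => ?_
  rw [real_inner_smul_left, rr]
  ring

private theorem disj_le {μ r : ℝ} (hμ : |μ| ≤ 1 / 2) : μ * r ≤ |r| / 2 := by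
  have h1 : μ * r ≤ |μ| * |r| := by rw [← abs_mul]; exact le_abs_self _
  have h2 : |μ| * |r| ≤ 1 / 2 * |r| := mul_le_mul_of_nonneg_right hμ (abs_nonneg r)
  linarith

theorem tile_lam (hb : LinearIndependent ℝ (fun j => g (b j))) {x : E d} (hx : x ∈ tile g c b) :
    ∃ lam : Fin n → ℝ, (∀ i, i ∉ range b → lam i = sg g c b i) ∧ (∀ j, |lam (b j)| < 1 / 2) ∧
      x = ∑ i, lam i • g i := by
  classical
  obtain ⟨μ, hμ, hx⟩ := hx
  have hinj : Function.Injective b := disj_inj hb
  refine ⟨fun i => sg g c b i + ∑ j, if b j = i then μ j else 0, fun i hi => ?_, fun j => ?_, ?_⟩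
  · have h0 : (∑ j, if b j = i then μ j else 0) = 0 :=
      Finset.sum_eq_zero fun j _ => if_neg fun h => hi ⟨j, h⟩
    simp only [h0, add_zero]
  · have h0 : (∑ k, if b k = b j then μ k else 0) = μ j := by
      rw [Finset.sum_eq_single j]
      · exact if_pos rfl
      · intro k _ hk
        exact if_neg fun h => hk (hinj h)
      · intro h
        exact absurd (Finset.mem_univ j) h
    simp only [h0, sg_basis, zero_add]
    exact hμ j
  · rw [hx, cen]
    simp only [add_smul, Finset.sum_add_distrib]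
    congr 1
    simp only [Finset.sum_smul]
    rw [Finset.sum_comm]
    refine Finset.sum_congr rfl fun j _ => ?_
    rw [Finset.sum_eq_single (b j)]
    · rw [if_pos rfl]
    · intro k _ hk
      rw [if_neg (Ne.symm hk), zero_smul]
    · intro h
      exact absurd (Finset.mem_univ _) h

theorem height_le (hc : Gp g c) (hb : LinearIndependent ℝ (fun j => g (b j))) {x : E d}
    {μ : Fin n → ℝ} (hμ : ∀ i, |μ i| ≤ 1 / 2) (hx : x = ∑ i, μ i • g i) :
    ∑ i, μ i * c i ≤ ∑ i, |rr g c b i| / 2 + ⟪x, zeta g c b⟫ ∧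
    (∑ i, μ i * c i = ∑ i, |rr g c b i| / 2 + ⟪x, zeta g c b⟫ →
      ∀ i, i ∉ range b → μ i = sg g c b i) := by
  have hle : ∀ i, μ i * rr g c b i ≤ |rr g c b i| / 2 := fun i => disj_le (hμ i)
  rw [disj_val (b := b) hx]
  refine ⟨by
    have := Finset.sum_le_sum fun i (_ : i ∈ Finset.univ) => hle i
    linarith, fun h i hi => ?_⟩
  have h1 : ∑ i, μ i * rr g c b i = ∑ i, |rr g c b i| / 2 := by linarith
  have h2 := (Finset.sum_eq_sum_iff_of_le fun i (_ : i ∈ Finset.univ) => hle i).1 h1 i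
    (Finset.mem_univ i)
  rw [← rr_mul_sg hc hb i, mul_comm] at h2
  exact mul_left_cancel₀ (rr_ne hc hb hi) h2

private theorem disj_abs {b : Fin d → Fin n} {lam : Fin n → ℝ}
    (h1 : ∀ i, i ∉ range b → lam i = sg g c b i) (h2 : ∀ j, |lam (b j)| < 1 / 2) (i : Fin n) :
    |lam i| ≤ 1 / 2 := by
  by_cases hi : i ∈ range b
  · obtain ⟨j, rfl⟩ := hi
    exact (h2 j).le
  · rw [h1 i hi]
    exact abs_sg_le i

private theorem disj_range {b : Fin d → Fin n} {lam : Fin n → ℝ}
    (h1 : ∀ i, i ∉ range b → lam i = sg g c b i) (h2 : ∀ j, |lam (b j)| < 1 / 2) (i : Fin n) :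
    i ∈ range b ↔ |lam i| < 1 / 2 := by
  constructor
  · rintro ⟨j, rfl⟩
    exact h2 j
  · intro h
    by_contra hi
    rw [h1 i hi, abs_sg hi] at h
    exact lt_irrefl _ h

private theorem disj_max (hc : Gp g c) {b : Fin d → Fin n}
    (hb : LinearIndependent ℝ (fun j => g (b j))) {x : E d} {lam : Fin n → ℝ}
    (h1 : ∀ i, i ∉ range b → lam i = sg g c b i) (h3 : x = ∑ i, lam i • g i) :
    ∑ i, lam i * c i = ∑ i, |rr g c b i| / 2 + ⟪x, zeta g c b⟫ := by
  rw [disj_val (b := b) h3]
  congr 1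
  refine Finset.sum_congr rfl fun i _ => ?_
  by_cases hi : i ∈ range b
  · obtain ⟨j, rfl⟩ := hi
    rw [rr_basis hb]
    simp
  · rw [h1 i hi, mul_comm, rr_mul_sg hc hb]

private theorem disj_sum {b : Fin d → Fin n} (hinj : Function.Injective b) {f : Fin n → E d}
    (hf : ∀ i, i ∉ range b → f i = 0) : ∑ j, f (b j) = ∑ i, f i := by
  classical
  rw [← Finset.sum_image (f := f) (s := Finset.univ) (g := b) fun x _ y _ h => hinj h]
  refine Finset.sum_subset (Finset.subset_univ _) fun i _ hi => hf i fun ⟨j, hj⟩ => hi ?_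
  exact Finset.mem_image.2 ⟨j, Finset.mem_univ j, hj⟩

theorem tile_disj (hc : Gp g c) (hb : b ∈ bas g) (hb' : b' ∈ bas g) {x : E d}
    (hx : x ∈ tile g c b) (hx' : x ∈ tile g c b') : b = b' := by
  classical
  obtain ⟨hm, hb⟩ := mem_bas.1 hb
  obtain ⟨hm', hb'⟩ := mem_bas.1 hb'
  obtain ⟨lam, h1, h2, h3⟩ := tile_lam hb hx
  obtain ⟨lam', h1', h2', h3'⟩ := tile_lam hb' hx'
  have ha : ∀ i, |lam i| ≤ 1 / 2 := disj_abs h1 h2
  have ha' : ∀ i, |lam' i| ≤ 1 / 2 := disj_abs h1' h2'
  have he := disj_max hc hb h1 h3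
  have he' := disj_max hc hb' h1' h3'
  obtain ⟨k1, k2⟩ := height_le hc hb ha' h3'
  obtain ⟨k1', -⟩ := height_le hc hb' ha h3
  have h4 : ∀ i, i ∉ range b → lam' i = sg g c b i := k2 (by linarith)
  have h5 : ∑ j, (lam' (b j) - lam (b j)) • g (b j) = 0 := by
    have h6 : ∑ i, (lam' i - lam i) • g i = 0 := by
      simp only [sub_smul, Finset.sum_sub_distrib]
      rw [← h3, ← h3', sub_self]
    rw [← h6]
    refine disj_sum (f := fun i => (lam' i - lam i) • g i) (disj_inj hb) fun i hi => ?_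
    rw [h4 i hi, h1 i hi, sub_self, zero_smul]
  have h6 : ∀ j, lam' (b j) - lam (b j) = 0 := fun j =>
    Fintype.linearIndependent_iff.1 hb _ h5 j
  have h7 : lam' = lam := by
    funext i
    by_cases hi : i ∈ range b
    · obtain ⟨j, rfl⟩ := hi
      linarith [h6 j]
    · rw [h4 i hi, h1 i hi]
  have h8 : range b = range b' := by
    ext i
    rw [disj_range h1 h2, ← h7, ← disj_range h1' h2']
  exact (hm.range_inj hm').1 h8

end Pool.Agent.MPbd65ca.Zo
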