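import Pool.Agent.Lib.MP_bd65ca_an_Z.Piv
import Pool.Agent.Lib.MP_bd65ca_an.Gap

/-!
# Tiles are exact: orthogonality

PROOF. `fourier_eq_zero`: the Fourier transform of an integrable function is continuous, it
vanishes on `Kᶜ` (`tsupport ⊆ K`), and `v ∈ closure Kᶜ = (interior K)ᶜ`.
`int_dsum`: `‖dsum T x‖ ^ 2 = ∑ s, ∑ t, e(⟪s - t, x⟫)` (as complex numbers,
`Complex.mul_conj`), so
`∫ F * ‖dsum T‖ ^ 2 = ∑ s, ∑ t, ∫ F x * e(⟪s - t, x⟫) = ∑ s, ∑ t, 𝓕 F (t - s)`
(`Real.fourier_eq`, all terms integrable because `|e| = 1`), and `𝓕 F (t - s) = 0` if `s ≠ t`, while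
`𝓕 F 0 = ∫ F`.
-/

open MeasureTheory FourierTransform Pointwise Set
open scoped RealInnerProductSpace

namespace Pool.Agent.MPbd65ca.Zo

variable {d : ℕ}

/-- Exponential sums. -/
noncomputable def dsum (T : Finset (E d)) (x : E d) : ℂ :=
  ∑ t ∈ T, (Real.fourierChar ⟪t, x⟫ : ℂ)

theorem fourier_eq_zero {K : Set (E d)} {F : E d → ℝ} (hF : F ∈ cls K) {v : E d}
    (hv : v ∉ interior K) : 𝓕 (fun x => (F x : ℂ)) v = 0 := by
  obtain ⟨-, h2, -, -, h5⟩ := hF
  have hint : Integrable (fun x => (F x : ℂ)) := h2.ofReal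
  have hcont : Continuous (𝓕 (fun x => (F x : ℂ))) :=
    VectorFourier.fourierIntegral_continuous Real.continuous_fourierChar
      (by exact (continuous_inner : Continuous fun p : E d × E d => ⟪p.1, p.2⟫)) hint
  have hclosed : IsClosed {v | 𝓕 (fun x => (F x : ℂ)) v = 0} :=
    isClosed_eq hcont continuous_const
  have hsub : Kᶜ ⊆ {v | 𝓕 (fun x => (F x : ℂ)) v = 0} := by
    intro w hw
    by_contra hne
    exact hw (h5 (subset_tsupport _ hne))
  have h6 : closure Kᶜ ⊆ {v | 𝓕 (fun x => (F x : ℂ)) v = 0} :=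
    closure_minimal hsub hclosed
  rw [closure_compl] at h6
  exact h6 hv

theorem norm_dsum_sq (T : Finset (E d)) (x : E d) :
    ((‖dsum T x‖ ^ 2 : ℝ) : ℂ) =
      ∑ s ∈ T, ∑ t ∈ T, (Real.fourierChar (-⟪x, t - s⟫) : ℂ) := by
  have h1 : ((‖dsum T x‖ ^ 2 : ℝ) : ℂ) = dsum T x * (starRingEnd ℂ) (dsum T x) := by
    rw [Complex.mul_conj, Complex.normSq_eq_norm_sq]
  rw [h1, dsum, map_sum, Finset.sum_mul_sum]
  refine Finset.sum_congr rfl fun s _ => Finset.sum_congr rfl fun t _ => ?_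
  have h2 : (starRingEnd ℂ) (Real.fourierChar ⟪t, x⟫ : ℂ) = (Real.fourierChar (-⟪t, x⟫) : ℂ) := by
    rw [AddChar.map_neg_eq_inv, Circle.coe_inv_eq_conj]
  rw [h2, ← Circle.coe_mul, ← AddChar.map_add_eq_mul]
  congr 3
  rw [inner_sub_right, real_inner_comm t x, real_inner_comm s x]
  ring

theorem int_dsum {K : Set (E d)} {F : E d → ℝ} (hF : F ∈ cls K) {T : Finset (E d)}
    (hT : ∀ s ∈ T, ∀ t ∈ T, s ≠ t → s - t ∉ interior K) :
    Integrable (fun x => F x * ‖dsum T x‖ ^ 2) ∧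
      ∫ x, F x * ‖dsum T x‖ ^ 2 = T.card * ∫ x, F x := by
  have h2 : Integrable (fun x => (F x : ℂ)) := hF.2.1.ofReal
  have hterm : ∀ v : E d, Integrable (fun x => (Real.fourierChar (-⟪x, v⟫) : ℂ) * (F x : ℂ)) := by
    intro v
    have h := (Real.fourierIntegral_convergent_iff v (f := fun x => (F x : ℂ))).2 h2
    refine h.congr ?_
    filter_upwards with x
    rw [Circle.smul_def, smul_eq_mul]
  have hfun : (fun x => ((F x * ‖dsum T x‖ ^ 2 : ℝ) : ℂ)) = fun x => ∑ s ∈ T, ∑ t ∈ T,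
      (Real.fourierChar (-⟪x, t - s⟫) : ℂ) * (F x : ℂ) := by
    funext x
    rw [Complex.ofReal_mul, norm_dsum_sq, mul_comm, Finset.sum_mul]
    exact Finset.sum_congr rfl fun s _ => by rw [Finset.sum_mul]
  have hintC : Integrable (fun x => ((F x * ‖dsum T x‖ ^ 2 : ℝ) : ℂ)) := by
    rw [hfun]
    exact integrable_finsetSum _ fun s _ => integrable_finsetSum _ fun t _ => hterm _
  have hintR : Integrable (fun x => F x * ‖dsum T x‖ ^ 2) := by
    have h := hintC.re
    refine h.congr ?_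
    filter_upwards with x
    exact Complex.ofReal_re _
  refine ⟨hintR, ?_⟩
  have hval : ∀ s ∈ T, ∀ t ∈ T, ∫ x, (Real.fourierChar (-⟪x, t - s⟫) : ℂ) * (F x : ℂ) =
      if s = t then ((∫ x, F x : ℝ) : ℂ) else 0 := by
    intro s hs t ht
    have h3 : ∫ x, (Real.fourierChar (-⟪x, t - s⟫) : ℂ) * (F x : ℂ) =
        𝓕 (fun x => (F x : ℂ)) (t - s) := by
      rw [Real.fourier_eq]
      refine integral_congr_ae ?_
      filter_upwards with x
      rw [Circle.smul_def, smul_eq_mul]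
    rw [h3]
    split_ifs with hst
    · subst hst
      rw [sub_self, Real.fourier_eq, ← integral_complex_ofReal]
      refine integral_congr_ae ?_
      filter_upwards with x
      simp
    · exact fourier_eq_zero hF (hT t ht s hs (Ne.symm hst))
  have hC : ((∫ x, F x * ‖dsum T x‖ ^ 2 : ℝ) : ℂ) = ((T.card * ∫ x, F x : ℝ) : ℂ) := by
    rw [← integral_complex_ofReal, hfun,
      integral_finsetSum _ fun s _ => integrable_finsetSum _ fun t _ => hterm _]
    have h4 : ∀ s ∈ T, ∫ x, ∑ t ∈ T, (Real.fourierChar (-⟪x, t - s⟫) : ℂ) * (F x : ℂ) =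
        ((∫ x, F x : ℝ) : ℂ) := by
      intro s hs
      rw [integral_finsetSum _ fun t _ => hterm _,
        Finset.sum_congr rfl fun t ht => hval s hs t ht]
      simp [hs]
    rw [Finset.sum_congr rfl h4, Finset.sum_const, nsmul_eq_mul]
    push_cast
    rfl
  exact_mod_cast hC

end Pool.Agent.MPbd65ca.Zo
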