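import Pool.Agent.Lib.MP_bd65ca_an_Z.ExA
import Pool.Agent.Lib.MP_bd65ca_an.CosT

/-!
# Tiles are exact: integrals over a ball

PROOF. `psi_inv`: `ψ` is continuous and integrable, `𝓕 ψ` is continuous, and `0` outside
`closedBall 0 δ`, so it is integrable; Fourier inversion
(`MeasureTheory.Integrable.fourierInv_fourier_eq` or `Continuous.fourierInv_fourier_eq`) gives
`ψ v = ∫ x, 𝓕 ψ x * e(⟪x, v⟫)`, and the integrand is `0` outside the ball.
`int_translate`: insert `psi_inv` for `v = u - t` and interchange the integrals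
(`integral_integral_swap`, bounded integrand on a set of finite measure):
`∫_{u ∈ B} ψ (u - t) = ∫_{x ∈ ball} 𝓕 ψ x * e(-⟪t, x⟫) * ∫_{u ∈ B} e(⟪u, x⟫)`, and the inner integral is
`cosT B x` because `B` is symmetric (the sine part is odd; see `CosTAux.cosT_eq` in CosT.lean).
-/

open MeasureTheory FourierTransform Pointwise Set
open scoped RealInnerProductSpace

namespace Pool.Agent.MPbd65ca.Zo

variable {d : ℕ}

private theorem cont_four {ψ : E d → ℝ} {δ : ℝ}
    (hv : Vanish (Metric.closedBall 0 δ) (fun x => (ψ x : ℂ))) :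
    Continuous (𝓕 (fun x : E d => (ψ x : ℂ))) :=
  VectorFourier.fourierIntegral_continuous Real.continuous_fourierChar
    (by exact continuous_inner) hv.1

private theorem int_four {ψ : E d → ℝ} {δ : ℝ}
    (hv : Vanish (Metric.closedBall 0 δ) (fun x => (ψ x : ℂ))) :
    Integrable (𝓕 (fun x : E d => (ψ x : ℂ))) :=
  (cont_four hv).integrable_of_hasCompactSupport
    (HasCompactSupport.intro (isCompact_closedBall 0 δ) hv.2)

theorem psi_inv {ψ : E d → ℝ} (hc : Continuous ψ) {δ : ℝ}
    (hv : Vanish (Metric.closedBall 0 δ) (fun x => (ψ x : ℂ))) (v : E d) :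
    (ψ v : ℂ) = ∫ x in Metric.closedBall (0 : E d) δ,
      𝓕 (fun x => (ψ x : ℂ)) x * (Real.fourierChar ⟪v, x⟫ : ℂ) := by
  have h1 : Continuous (fun x : E d => (ψ x : ℂ)) := Complex.continuous_ofReal.comp hc
  have h2 := congrFun (h1.fourierInv_fourier_eq hv.1 (int_four hv)) v
  have h3 : (ψ v : ℂ) = ∫ x : E d, 𝓕 (fun x => (ψ x : ℂ)) x * (Real.fourierChar ⟪v, x⟫ : ℂ) := by
    rw [← h2, Real.fourierInv_eq]
    refine integral_congr_ae (Filter.Eventually.of_forall fun x => ?_)
    simp only [Circle.smul_def, smul_eq_mul]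
    rw [mul_comm, real_inner_comm]
  rw [h3]
  refine (setIntegral_eq_integral_of_forall_compl_eq_zero fun x hx => ?_).symm
  rw [hv.2 x hx, zero_mul]

private theorem inner_int {B : Set (E d)} (hB : IsCompact B) (hs : ∀ x ∈ B, -x ∈ B) (x : E d) :
    ∫ u in B, (Real.fourierChar ⟪u, x⟫ : ℂ) = (cosT B x : ℂ) := by
  rw [CosTAux.cosT_eq hB hs, charFun_apply]
  refine integral_congr_ae (Filter.Eventually.of_forall fun u => ?_)
  simp only [Real.fourierChar_apply]
  rw [real_inner_smul_right]

theorem int_translate {ψ : E d → ℝ} (hc : Continuous ψ) {δ : ℝ}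
    (hv : Vanish (Metric.closedBall 0 δ) (fun x => (ψ x : ℂ))) {B : Set (E d)}
    (hB : IsCompact B) (hs : ∀ x ∈ B, -x ∈ B) (t : E d) :
    ((∫ u in B, ψ (u - t) : ℝ) : ℂ) = ∫ x in Metric.closedBall (0 : E d) δ,
      𝓕 (fun x => (ψ x : ℂ)) x * (Real.fourierChar (-⟪t, x⟫) : ℂ) * (cosT B x : ℂ) := by
  have hfin : IsFiniteMeasure (volume.restrict B : Measure (E d)) :=
    ⟨by rw [Measure.restrict_apply_univ]; exact hB.measure_lt_top⟩
  have h1 : ((∫ u in B, ψ (u - t) : ℝ) : ℂ) = ∫ u in B, ∫ x in Metric.closedBall (0 : E d) δ,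
      𝓕 (fun x => (ψ x : ℂ)) x * (Real.fourierChar ⟪u - t, x⟫ : ℂ) := by
    rw [← integral_complex_ofReal]
    exact integral_congr_ae (Filter.Eventually.of_forall fun u => psi_inv hc hv (u - t))
  rw [h1, integral_integral_swap]
  · refine integral_congr_ae (Filter.Eventually.of_forall fun x => ?_)
    simp only
    rw [← inner_int hB hs x, ← integral_const_mul]
    refine integral_congr_ae (Filter.Eventually.of_forall fun u => ?_)
    simp only
    rw [inner_sub_left, sub_eq_neg_add, AddChar.map_add_eq_mul, Circle.coe_mul, mul_assoc]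
  · have h2 : Integrable (fun z : E d × E d => (1 : ℝ) * ‖𝓕 (fun x : E d => (ψ x : ℂ)) z.2‖)
        ((volume.restrict B).prod (volume.restrict (Metric.closedBall (0 : E d) δ))) :=
      (integrable_const (1 : ℝ) (μ := volume.restrict B)).mul_prod
        ((int_four hv).norm.restrict)
    have h3 := cont_four hv
    refine Integrable.mono' h2 (Continuous.aestronglyMeasurable ?_)
      (Filter.Eventually.of_forall fun z => ?_)
    · change Continuous fun z : E d × E d => 𝓕 (fun x : E d => (ψ x : ℂ)) z.2 *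
        (Real.fourierChar ⟪z.1 - t, z.2⟫ : ℂ)
      have h4 : Continuous fun z : E d × E d => (Real.fourierChar ⟪z.1 - t, z.2⟫ : ℂ) :=
        continuous_subtype_val.comp (Real.continuous_fourierChar.comp (by fun_prop))
      exact (h3.comp continuous_snd).mul h4
    · change ‖𝓕 (fun x : E d => (ψ x : ℂ)) z.2 * (Real.fourierChar ⟪z.1 - t, z.2⟫ : ℂ)‖ ≤ _
      rw [norm_mul, Circle.norm_coe, mul_one, one_mul]

end Pool.Agent.MPbd65ca.Zo
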