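import Pool.Agent.Lib.MP_bd65ca_an_Z.ExB
import Pool.Agent.Lib.MP_bd65ca_an.Bump

/-!
# Tiles are exact: exponential sums near the origin

PROOF. `exists_bump d hδ` gives `ψ ≥ 0`, continuous, integrable, with spectrum in `closedBall 0 δ`;
`I = ∫ ψ > 0` (`∫ ψ ^ 2 > 0`, so `ψ` is not `0`; continuous and nonnegative).
Choose `R > 0` with `∫_{closedBall 0 R} ψ ≥ (1 - ε) I` (the balls exhaust the space: e.g.
`tendsto_setIntegral_of_monotone` for the balls of radius `n`).
Let `B = closedBall 0 (N + R)`.  For `t ∈ T`: `∫_{u ∈ B} ψ (u - t) ≥ ∫_{u ∈ closedBall t R} ψ (u -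
t) = ∫_{closedBall 0 R} ψ ≥ (1 - ε) I`.  Sum over `t` and use `int_translate` (with `𝓕 ψ` etc.):
`(1 - ε) I |T| ≤ ∑_t ∫_{u ∈ B} ψ (u - t) = ∫_{x ∈ closedBall 0 δ} 𝓕 ψ x * conj (dsum T x) * cosT B
x`, in absolute value `≤ I ∫_{x ∈ closedBall 0 δ} ‖dsum T x‖ |cosT B x|` (`|𝓕 ψ x| ≤ ∫ ψ = I`), and
by the Cauchy-Schwarz inequality
`((1 - ε) |T|) ^ 2 ≤ (∫_{closedBall 0 δ} ‖dsum T x‖ ^ 2) (∫ cosT B x ^ 2) ≤ (...) * volume.real B`
(`cosT_props`).  (Cauchy-Schwarz without `L^p`: for `a, b ≥ 0` continuous on the ball and every real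
`s`, `0 ≤ ∫ (a - s b)^2`; or `MeasureTheory.integral_mul_le_Lp_mul_Lq_of_nonneg`.)
-/

open MeasureTheory FourierTransform Pointwise Set
open scoped RealInnerProductSpace

namespace Pool.Agent.MPbd65ca.Zo

variable {d : ℕ}

private theorem exc_cs {S : Set (E d)} {a b : E d → ℝ}
    (h1 : IntegrableOn (fun x => a x ^ 2) S) (h2 : IntegrableOn (fun x => a x * b x) S)
    (h3 : IntegrableOn (fun x => b x ^ 2) S) :
    (∫ x in S, a x * b x) ^ 2 ≤ (∫ x in S, a x ^ 2) * ∫ x in S, b x ^ 2 := by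
  have h : ∀ s : ℝ, 0 ≤ (∫ x in S, b x ^ 2) * (s * s) + (-(2 * ∫ x in S, a x * b x)) * s +
      ∫ x in S, a x ^ 2 := by
    intro s
    have h4 : (∫ x in S, b x ^ 2) * (s * s) + (-(2 * ∫ x in S, a x * b x)) * s +
        ∫ x in S, a x ^ 2 = ∫ x in S, (a x - s * b x) ^ 2 := by
      have e : (fun x => (a x - s * b x) ^ 2) =
          fun x => (a x ^ 2 - (2 * s) * (a x * b x)) + (s * s) * b x ^ 2 := by
        funext x
        ring
      have h6 : IntegrableOn (fun x => a x ^ 2 - (2 * s) * (a x * b x)) S :=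
        h1.sub (h2.const_mul (2 * s))
      rw [e, integral_add h6 (h3.const_mul (s * s)),
        integral_sub h1 (h2.const_mul (2 * s)), integral_const_mul, integral_const_mul]
      ring
    rw [h4]
    exact integral_nonneg fun x => sq_nonneg _
  have h5 := discrim_le_zero h
  rw [discrim] at h5
  nlinarith

private theorem exc_pos {ψ : E d → ℝ} (h0 : ∀ x, 0 ≤ ψ x) (hint : Integrable ψ)
    (hpos : 0 < ∫ x, ψ x ^ 2) : 0 < ∫ x, ψ x := by
  have h1 : 0 ≤ ∫ x, ψ x := integral_nonneg h0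
  refine lt_of_le_of_ne h1 fun h2 => ?_
  have h3 : ψ =ᵐ[volume] 0 := (integral_eq_zero_iff_of_nonneg h0 hint).1 h2.symm
  have h4 : ∫ x, ψ x ^ 2 = 0 := by
    have h5 : (fun x => ψ x ^ 2) =ᵐ[volume] fun _ => (0 : ℝ) := by
      filter_upwards [h3] with x hx
      rw [hx]
      simp
    rw [integral_congr_ae h5]
    simp
  linarith

private theorem exc_radius {ψ : E d → ℝ} (hint : Integrable ψ) {ε : ℝ} (hε : 0 < ε)
    (hI : 0 < ∫ x, ψ x) : ∃ R : ℝ, 0 < R ∧
      (1 - ε) * ∫ x, ψ x ≤ ∫ x in Metric.closedBall (0 : E d) R, ψ x := by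
  have h1 : Filter.Tendsto (fun n : ℕ => ∫ x in Metric.closedBall (0 : E d) ((n : ℝ) + 1), ψ x)
      Filter.atTop (nhds (∫ x in ⋃ n : ℕ, Metric.closedBall (0 : E d) ((n : ℝ) + 1), ψ x)) := by
    apply tendsto_setIntegral_of_monotone
    · intro n
      exact Metric.isClosed_closedBall.measurableSet
    · intro m n hmn
      apply Metric.closedBall_subset_closedBall
      have : (m : ℝ) ≤ n := by exact_mod_cast hmn
      linarith
    · exact hint.integrableOn
  have h2 : (⋃ n : ℕ, Metric.closedBall (0 : E d) ((n : ℝ) + 1)) = Set.univ := by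
    rw [Set.eq_univ_iff_forall]
    intro x
    obtain ⟨n, hn⟩ := exists_nat_ge ‖x‖
    rw [Set.mem_iUnion]
    refine ⟨n, ?_⟩
    rw [Metric.mem_closedBall, dist_zero_right]
    linarith
  rw [h2, setIntegral_univ] at h1
  have h3 : (1 - ε) * ∫ x, ψ x < ∫ x, ψ x := by nlinarith
  obtain ⟨n, hn⟩ := ((tendsto_order.1 h1).1 _ h3).exists
  exact ⟨(n : ℝ) + 1, by positivity, hn.le⟩

private theorem exc_trans {ψ : E d → ℝ} (h0 : ∀ x, 0 ≤ ψ x) (hint : Integrable ψ) {N R : ℝ}
    {t : E d} (ht : ‖t‖ ≤ N) : ∫ x in Metric.closedBall (0 : E d) R, ψ x ≤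
      ∫ u in Metric.closedBall (0 : E d) (N + R), ψ (u - t) := by
  have h1 : ∫ x in Metric.closedBall (0 : E d) R, ψ x =
      ∫ u in Metric.closedBall t R, ψ (u - t) := by
    rw [← integral_indicator Metric.isClosed_closedBall.measurableSet,
      ← integral_indicator Metric.isClosed_closedBall.measurableSet,
      ← integral_sub_right_eq_self _ t]
    apply integral_congr_ae
    refine Filter.Eventually.of_forall fun u => ?_
    by_cases hu : u ∈ Metric.closedBall t R
    · have hu' : u - t ∈ Metric.closedBall (0 : E d) R := by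
        rw [Metric.mem_closedBall, dist_zero_right, ← dist_eq_norm]
        exact hu
      simp only [Set.indicator_of_mem hu', Set.indicator_of_mem hu]
    · have hu' : u - t ∉ Metric.closedBall (0 : E d) R := by
        rw [Metric.mem_closedBall, dist_zero_right, ← dist_eq_norm]
        exact hu
      simp only [Set.indicator_of_notMem hu', Set.indicator_of_notMem hu]
  rw [h1]
  apply setIntegral_mono_set (hint.comp_sub_right t).integrableOn
  · exact Filter.Eventually.of_forall fun x => h0 _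
  · apply LE.le.eventuallyLE
    apply Metric.closedBall_subset_closedBall'
    rw [dist_zero_right]
    linarith

private theorem exc_char (t : E d) : Continuous fun x : E d =>
    (Real.fourierChar (-⟪t, x⟫) : ℂ) := by
  have h1 : Continuous fun x : E d => (Real.fourierChar (-⟪t, x⟫) : Circle) :=
    Real.continuous_fourierChar.comp (continuous_const.inner continuous_id).neg
  fun_prop

private theorem exc_dsum_cont (T : Finset (E d)) : Continuous (dsum T) := by
  unfold dsum
  refine continuous_finsetSum _ fun t _ => ?_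
  have h1 : Continuous fun x : E d => (Real.fourierChar ⟪t, x⟫ : Circle) :=
    Real.continuous_fourierChar.comp (continuous_const.inner continuous_id)
  fun_prop

private theorem exc_conj (T : Finset (E d)) (x : E d) :
    ‖∑ t ∈ T, (Real.fourierChar (-⟪t, x⟫) : ℂ)‖ = ‖dsum T x‖ := by
  have h1 : ∑ t ∈ T, (Real.fourierChar (-⟪t, x⟫) : ℂ) = (starRingEnd ℂ) (dsum T x) := by
    unfold dsum
    rw [map_sum]
    refine Finset.sum_congr rfl fun t _ => ?_
    rw [AddChar.map_neg_eq_inv, Circle.coe_inv_eq_conj]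
  rw [h1, RCLike.norm_conj]

theorem dsum_lower {δ ε : ℝ} (hδ : 0 < δ) (hε : 0 < ε) (hε1 : ε < 1) : ∃ R : ℝ, 0 < R ∧
    ∀ N : ℝ, 0 ≤ N → ∀ T : Finset (E d), (∀ t ∈ T, ‖t‖ ≤ N) →
      ((1 - ε) * T.card) ^ 2 ≤ (∫ x in Metric.closedBall (0 : E d) δ, ‖dsum T x‖ ^ 2) *
        volume.real (Metric.closedBall (0 : E d) (N + R)) := by
  obtain ⟨ψ, hc, h0, hint, hpos, -, hv, -⟩ := exists_bump d hδ
  have hI := exc_pos h0 hint hpos
  obtain ⟨R, hR, hR1⟩ := exc_radius hint hε hI
  refine ⟨R, hR, fun N hN T hT => ?_⟩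
  set B : Set (E d) := Metric.closedBall 0 (N + R) with hBdef
  have hB : IsCompact B := isCompact_closedBall _ _
  have hs : ∀ x ∈ B, -x ∈ B := by
    intro x hx
    rw [hBdef, Metric.mem_closedBall, dist_zero_right] at hx ⊢
    rwa [norm_neg]
  obtain ⟨k1, -, k3, k4, -⟩ := cosT_props hB hs
  set Q : Set (E d) := Metric.closedBall (0 : E d) δ with hQdef
  have hQ : IsCompact Q := isCompact_closedBall _ _
  have hψC : Integrable fun x => (ψ x : ℂ) := hint.ofReal
  have hFc : Continuous (𝓕 (fun x => (ψ x : ℂ))) :=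
    VectorFourier.fourierIntegral_continuous Real.continuous_fourierChar
      (continuous_inner : Continuous fun p : E d × E d => (inner ℝ p.1 p.2 : ℝ)) hψC
  have hFn : ∀ x, ‖𝓕 (fun x => (ψ x : ℂ)) x‖ ≤ ∫ x, ψ x := by
    intro x
    refine (VectorFourier.norm_fourierIntegral_le_integral_norm _ _ _ _ _).trans_eq ?_
    apply integral_congr_ae
    refine Filter.Eventually.of_forall fun y => ?_
    simp [abs_of_nonneg (h0 y)]
  have hdc := exc_dsum_cont T
  -- the lower bound for the sum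
  have h1 : (1 - ε) * (∫ x, ψ x) * T.card ≤ ∑ t ∈ T, ∫ u in B, ψ (u - t) := by
    have h2 : ∑ _t ∈ T, (1 - ε) * (∫ x, ψ x) ≤ ∑ t ∈ T, ∫ u in B, ψ (u - t) :=
      Finset.sum_le_sum fun t ht => hR1.trans (exc_trans h0 hint (hT t ht))
    rw [Finset.sum_const, nsmul_eq_mul] at h2
    linarith
  -- the identity
  have h3 : ((∑ t ∈ T, ∫ u in B, ψ (u - t) : ℝ) : ℂ) = ∫ x in Q,
      𝓕 (fun x => (ψ x : ℂ)) x * (∑ t ∈ T, (Real.fourierChar (-⟪t, x⟫) : ℂ)) *
        (cosT B x : ℂ) := by
    rw [Complex.ofReal_sum]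
    have h4 : ∀ t ∈ T, ((∫ u in B, ψ (u - t) : ℝ) : ℂ) = ∫ x in Q,
        𝓕 (fun x => (ψ x : ℂ)) x * (Real.fourierChar (-⟪t, x⟫) : ℂ) * (cosT B x : ℂ) :=
      fun t _ => int_translate hc hv hB hs t
    rw [Finset.sum_congr rfl h4, ← integral_finsetSum]
    · apply integral_congr_ae
      refine Filter.Eventually.of_forall fun x => ?_
      simp only [Finset.mul_sum, Finset.sum_mul]
    · intro t _
      refine ContinuousOn.integrableOn_compact hQ (Continuous.continuousOn ?_)
      exact (hFc.mul (exc_char t)).mul (Complex.continuous_ofReal.comp k1)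
  -- the upper bound
  have h5 : ∑ t ∈ T, ∫ u in B, ψ (u - t) ≤
      (∫ x, ψ x) * ∫ x in Q, ‖dsum T x‖ * |cosT B x| := by
    have h6 : ∑ t ∈ T, ∫ u in B, ψ (u - t) ≤
        ‖((∑ t ∈ T, ∫ u in B, ψ (u - t) : ℝ) : ℂ)‖ := by
      rw [Complex.norm_real]
      exact le_abs_self _
    refine h6.trans ?_
    rw [h3, ← integral_const_mul]
    refine (norm_integral_le_integral_norm _).trans ?_
    apply integral_mono_of_nonneg
    · exact Filter.Eventually.of_forall fun x => norm_nonneg _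
    · refine ContinuousOn.integrableOn_compact hQ (Continuous.continuousOn ?_)
      exact continuous_const.mul (hdc.norm.mul k1.abs)
    · refine Filter.Eventually.of_forall fun x => ?_
      simp only [norm_mul, exc_conj, Complex.norm_real, Real.norm_eq_abs]
      rw [mul_assoc]
      exact mul_le_mul_of_nonneg_right (hFn x) (by positivity)
  have h7 : (1 - ε) * T.card ≤ ∫ x in Q, ‖dsum T x‖ * |cosT B x| := by
    have h8 : (∫ x, ψ x) * ((1 - ε) * T.card) ≤
        (∫ x, ψ x) * ∫ x in Q, ‖dsum T x‖ * |cosT B x| := by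
      refine le_trans ?_ (h1.trans h5)
      apply le_of_eq
      ring
    exact le_of_mul_le_mul_left h8 hI
  have h9 : 0 ≤ (1 - ε) * T.card := mul_nonneg (by linarith) (Nat.cast_nonneg _)
  have h10 := exc_cs (S := Q) (a := fun x => ‖dsum T x‖) (b := fun x => |cosT B x|)
    (ContinuousOn.integrableOn_compact hQ (hdc.norm.pow 2).continuousOn)
    (ContinuousOn.integrableOn_compact hQ (hdc.norm.mul k1.abs).continuousOn)
    (ContinuousOn.integrableOn_compact hQ (k1.abs.pow 2).continuousOn)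
  have h11 : ∫ x in Q, |cosT B x| ^ 2 ≤ volume.real B := by
    have e : (fun x => |cosT B x| ^ 2) = fun x => cosT B x ^ 2 := by
      funext x
      exact sq_abs _
    rw [e]
    exact (setIntegral_le_integral k3 (Filter.Eventually.of_forall fun x => sq_nonneg _)).trans k4
  calc ((1 - ε) * T.card) ^ 2 ≤ (∫ x in Q, ‖dsum T x‖ * |cosT B x|) ^ 2 :=
        pow_le_pow_left₀ h9 h7 2
    _ ≤ (∫ x in Q, ‖dsum T x‖ ^ 2) * ∫ x in Q, |cosT B x| ^ 2 := h10
    _ ≤ (∫ x in Q, ‖dsum T x‖ ^ 2) * volume.real B :=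
        mul_le_mul_of_nonneg_left h11 (integral_nonneg fun x => by positivity)

end Pool.Agent.MPbd65ca.Zo
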