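import Pool.Agent.Lib.MP_bd65ca_an_Z.Spec

/-!
# The Turán problem for zonotopes: the correction

PROOF. `psi_ge`: for `|y| ≤ 1/2`: `|sin x| ≥ (2/π) |x|` for `|x| ≤ π/2` (`Real.mul_le_sin`), so
`sinc (π y) ≥ 2/π` and the square is `≥ 4/π² ≥ 1/3`.  `psi_le`: for `|y| ≥ 1/2`:
`sinc (π y)^2 ≤ 1/(π y)^2 ≤ 4/π² ≤ 1/2`.  `psi_le_one`: `|sinc| ≤ 1`.
`ex_van`: `f t = Φ (T⁻¹ • fstE t) * B (sndE t)` has its spectrum in
`{ξ | ‖fstE ξ‖ ≤ 1/T, ‖sndE ξ‖ ≤ r/4} ⊆ closedBall 0 (1/T + r/4)` (`van_prod`, `vanish_scale`;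
`‖ξ‖² = ‖fstE ξ‖² + ‖sndE ξ‖²` by `inner_split`).  Multiplication by
`sinc (π (Yf gh i (fstE t) / (2 A)))^2 = sinc (π ⟪t, e⟫)^2`, `e = pairE ((2A)⁻¹ • gh i, 0)`, enlarges
the radius by `‖e‖ = ‖gh i‖ / (2A)` (`van_sinc`), and by `sinc (π (sndE t i / A'))^2`,
`e = pairE (0, EuclideanSpace.single i A'⁻¹)`, by `1/A'`.  All radii are `≤ r` if `T`, `A`, `A'` are large
(`r/4 + 1/T + ... ≤ 3r/4`; `A1` is the maximum over `i < k` of `‖gh i‖ * 4 / r` and `4/r`, say).  Then
`Vanish.add`, `Vanish.const_mul`, `Vanish.sum`.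
`int_line`: dominated convergence: `0 ≤ sinc^2 ≤ 1`, and for every `u` with `⟪v, u⟫ ≠ 0` (almost every
`u`, a proper subspace is a null set: `Measure.addHaar_submodule`) `sinc (π (T x))^2 ≤ 1/(π T x)^2 → 0`,
`x = ⟪v, u⟫ / (2A) ≠ 0`.
`int_tail`: dominated convergence: the sum is in `[0, m]` and tends to `0` for every `y`, because
`y i / A' → 0` and `sinc` is continuous with `sinc 0 = 1`.
`ex_int`: `int_prod` for each of the terms, `∫ Φ (T⁻¹ • s) h(s) ds = T² ∫ Φ u h (T • u) du`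
(`Measure.integral_comp_inv_smul`, `finrank = 2`).  Integrability of all the terms: bounded continuous
functions times integrable ones.
-/

open MeasureTheory FourierTransform Pointwise Set Filter Topology
open scoped RealInnerProductSpace

namespace Pool.Agent.MPbd65ca.Zo

open Pool.Agent.MPbd65ca.Pg Pool.Agent.MPbd65ca.ProdAux

variable {m : ℕ}

private theorem ex_sinc_abs (x : ℝ) (hx : x ≠ 0) : Real.sinc x ^ 2 ≤ (x ^ 2)⁻¹ := by
  rw [Real.sinc_of_ne_zero hx, div_pow, div_eq_mul_inv]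
  have h1 : Real.sin x ^ 2 ≤ 1 := Real.sin_sq_le_one x
  have h2 : 0 ≤ (x ^ 2)⁻¹ := by positivity
  nlinarith

theorem psi_ge {y : ℝ} (hy : |y| ≤ 1 / 2) : 1 / 3 ≤ Real.sinc (Real.pi * y) ^ 2 := by
  have key : ∀ z : ℝ, 0 ≤ z → z ≤ 1 / 2 → 1 / 3 ≤ Real.sinc (Real.pi * z) ^ 2 := by
    intro z hz hz2
    rcases hz.eq_or_lt with h | h
    · rw [← h, mul_zero, Real.sinc_zero]
      norm_num
    · have hpz : 0 < Real.pi * z := mul_pos Real.pi_pos h
      have h1 : 2 / Real.pi * (Real.pi * z) ≤ Real.sin (Real.pi * z) := by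
        refine Real.mul_le_sin hpz.le ?_
        nlinarith [Real.pi_pos]
      rw [Real.sinc_of_ne_zero hpz.ne']
      have h2 : 2 / Real.pi ≤ Real.sin (Real.pi * z) / (Real.pi * z) := by
        rw [le_div_iff₀ hpz]
        exact h1
      have h3 : (2 / Real.pi) ^ 2 ≤ (Real.sin (Real.pi * z) / (Real.pi * z)) ^ 2 := by
        refine pow_le_pow_left₀ ?_ h2 2
        exact div_nonneg zero_le_two Real.pi_pos.le
      refine le_trans ?_ h3
      rw [div_pow, div_le_div_iff₀ (by norm_num) (pow_pos Real.pi_pos 2)]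
      have h4 := Real.pi_lt_d2
      have h5 := Real.pi_pos
      nlinarith
  rcases le_total 0 y with h | h
  · exact key y h (by rwa [abs_of_nonneg h] at hy)
  · have h1 := key (-y) (by linarith) (by rwa [abs_of_nonpos h] at hy)
    rwa [mul_neg, Real.sinc_neg] at h1

theorem psi_le {y : ℝ} (hy : 1 / 2 ≤ |y|) : Real.sinc (Real.pi * y) ^ 2 ≤ 1 / 2 := by
  have hy0 : y ≠ 0 := by
    intro h
    rw [h, abs_zero] at hy
    linarith
  refine (ex_sinc_abs _ (mul_ne_zero Real.pi_ne_zero hy0)).trans ?_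
  rw [mul_pow, ← sq_abs y]
  have h1 := Real.pi_gt_three
  have h2 : (9 : ℝ) ≤ Real.pi ^ 2 := by nlinarith
  have h3 : (1 / 4 : ℝ) ≤ |y| ^ 2 := by nlinarith
  have h4 : (2 : ℝ) ≤ Real.pi ^ 2 * |y| ^ 2 := by nlinarith
  rw [inv_le_comm₀ (by linarith) (by norm_num)]
  linarith

theorem psi_le_one (y : ℝ) : Real.sinc (Real.pi * y) ^ 2 ≤ 1 := by
  rw [← sq_abs]
  have h1 := Real.abs_sinc_le_one (Real.pi * y)
  have h2 := abs_nonneg (Real.sinc (Real.pi * y))
  nlinarith

/-- The correction: it is large near the singular lines and for large `sndE t`, and its integral is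
small. -/
noncomputable def EX (k : ℕ) (gh : ℤ → E 2) (Φ : E 2 → ℝ) (B : E m → ℝ) (C1 C2 ε A A' T : ℝ)
    (t : E (2 + m)) : ℝ :=
  Φ (T⁻¹ • fstE t) * B (sndE t) *
    (C1 * ∑ i ∈ Finset.range k, Real.sinc (Real.pi * (Yf gh i (fstE t) / (2 * A))) ^ 2 +
      C2 * ∑ i : Fin m, (1 - Real.sinc (Real.pi * (sndE t i / A')) ^ 2) + ε)

private theorem ex_cont_Yf (gh : ℤ → E 2) (i : ℤ) : Continuous (fun s : E 2 => Yf gh i s) := by
  unfold Yf
  fun_prop

theorem continuous_EX (k : ℕ) (gh : ℤ → E 2) {Φ : E 2 → ℝ} (hΦ : Continuous Φ) {B : E m → ℝ}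
    (hB : Continuous B) (C1 C2 ε A A' T : ℝ) : Continuous (EX k gh Φ B C1 C2 ε A A' T) := by
  unfold EX
  have h1 : Continuous (fun t : E (2 + m) => Φ (T⁻¹ • fstE t)) :=
    hΦ.comp ((continuous_const_smul _).comp fst_mp)
  have h2 : Continuous (fun t : E (2 + m) => B (sndE t)) := hB.comp snd_mp
  refine (h1.mul h2).mul (((continuous_const.mul (continuous_finsetSum _ fun i _ => ?_)).add
    (continuous_const.mul (continuous_finsetSum _ fun i _ => ?_))).add continuous_const)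
  · refine (Real.continuous_sinc.comp (continuous_const.mul ?_)).pow 2
    exact ((ex_cont_Yf gh i).comp fst_mp).div_const _
  · refine continuous_const.sub ((Real.continuous_sinc.comp (continuous_const.mul ?_)).pow 2)
    refine Continuous.div_const ?_ _
    exact (by fun_prop : Continuous (fun y : E m => y i)).comp snd_mp

private theorem ex_norm_le (x : E (2 + m)) : ‖x‖ ≤ ‖fstE (m := 2) x‖ + ‖sndE (m := 2) x‖ := by
  have h1 : ‖x‖ ^ 2 = ‖fstE (m := 2) x‖ ^ 2 + ‖sndE (m := 2) x‖ ^ 2 := by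
    rw [← real_inner_self_eq_norm_sq, ← real_inner_self_eq_norm_sq, ← real_inner_self_eq_norm_sq]
    exact inner_split (m := 2) x x
  have h2 := norm_nonneg (fstE (m := 2) x)
  have h3 := norm_nonneg (sndE (m := 2) x)
  refine le_of_sq_le_sq ?_ (by positivity)
  nlinarith [mul_nonneg h2 h3]

theorem ex_van (k : ℕ) (gh : ℤ → E 2) {Φ : E 2 → ℝ}
    (hΦ : Vanish (Metric.closedBall 0 1) (fun u => (Φ u : ℂ))) {r : ℝ} (hr : 0 < r) {B : E m → ℝ}
    (hB : Vanish (Metric.closedBall 0 (r / 4)) (fun y => (B y : ℂ))) :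
    ∃ A₁ : ℝ, 0 < A₁ ∧ ∀ A A' T : ℝ, A₁ ≤ A → A₁ ≤ A' → A₁ ≤ T → ∀ C1 C2 ε : ℝ,
      Vanish (Metric.closedBall 0 r)
        (fun t : E (2 + m) => (EX k gh Φ B C1 C2 ε A A' T t : ℂ)) := by
  have hS0 : 0 ≤ ∑ i ∈ Finset.range k, ‖gh i‖ := Finset.sum_nonneg fun i _ => norm_nonneg _
  refine ⟨(4 + ∑ i ∈ Finset.range k, ‖gh i‖) / r, by positivity, ?_⟩
  intro A A' T hA hA' hT C1 C2 ε
  set S : ℝ := ∑ i ∈ Finset.range k, ‖gh i‖ with hS
  have hA1 : 0 < (4 + S) / r := by positivity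
  have hA0 : 0 < A := hA1.trans_le hA
  have hA'0 : 0 < A' := hA1.trans_le hA'
  have hT0 : 0 < T := hA1.trans_le hT
  rw [div_le_iff₀ hr] at hA hA' hT
  -- the basic function
  have hf : Vanish (Metric.closedBall 0 (r / 2))
      (fun t : E (2 + m) => (Φ (T⁻¹ • fstE t) : ℂ) * (B (sndE t) : ℂ)) := by
    refine (van_prod (vanish_scale hΦ hT0) hB).mono ?_
    rintro ξ ⟨h1, h2⟩
    rw [mem_closedBall_zero_iff] at h1 h2 ⊢
    refine (ex_norm_le ξ).trans ?_
    have h3 : 1 / T ≤ r / 4 := by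
      rw [div_le_div_iff₀ hT0 (by norm_num)]
      nlinarith
    linarith
  have hmono : ∀ ρ : ℝ, ρ ≤ r / 2 → Metric.closedBall (0 : E (2 + m)) (r / 2 + ρ) ⊆
      Metric.closedBall 0 r := fun ρ hρ => Metric.closedBall_subset_closedBall (by linarith)
  have hf1 : Vanish (Metric.closedBall 0 r)
      (fun t : E (2 + m) => (Φ (T⁻¹ • fstE t) : ℂ) * (B (sndE t) : ℂ)) :=
    hf.mono (Metric.closedBall_subset_closedBall (by linarith))
  have h1 : ∀ i ∈ Finset.range k, Vanish (Metric.closedBall 0 r) (fun t : E (2 + m) =>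
      ((Real.sinc (Real.pi * (Yf gh i (fstE t) / (2 * A))) ^ 2 : ℝ) : ℂ) *
        ((Φ (T⁻¹ • fstE t) : ℂ) * (B (sndE t) : ℂ))) := by
    intro i hi
    have he : ‖(pairE ((2 * A)⁻¹ • gh i, 0) : E (2 + m))‖ ≤ r / 2 := by
      refine (ex_norm_le _).trans ?_
      rw [fst_pair, snd_pair]
      simp only [norm_zero, add_zero]
      rw [norm_smul, Real.norm_of_nonneg (by positivity), inv_mul_le_iff₀ (by positivity)]
      have h2 : ‖gh i‖ ≤ S :=
        Finset.single_le_sum (f := fun i : ℕ => ‖gh i‖) (fun j _ => norm_nonneg _) hi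
      nlinarith
    refine ((van_sinc hf (pairE ((2 * A)⁻¹ • gh i, 0))).mono (hmono _ he)).congr fun t => ?_
    have h3 : ⟪t, (pairE ((2 * A)⁻¹ • gh i, 0) : E (2 + m))⟫ = Yf gh i (fstE t) / (2 * A) := by
      rw [inner_split, fst_pair, snd_pair]
      simp only [inner_zero_right, add_zero]
      rw [real_inner_smul_right, real_inner_comm]
      unfold Yf
      rw [div_eq_inv_mul]
    rw [h3]
  have h2 : ∀ i ∈ (Finset.univ : Finset (Fin m)), Vanish (Metric.closedBall 0 r)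
      (fun t : E (2 + m) => (Φ (T⁻¹ • fstE t) : ℂ) * (B (sndE t) : ℂ) + (-1 : ℂ) *
      (((Real.sinc (Real.pi * (sndE t i / A')) ^ 2 : ℝ) : ℂ) *
        ((Φ (T⁻¹ • fstE t) : ℂ) * (B (sndE t) : ℂ)))) := by
    intro i _
    have he : ‖(pairE (0, EuclideanSpace.single i A'⁻¹) : E (2 + m))‖ ≤ r / 2 := by
      refine (ex_norm_le _).trans ?_
      rw [fst_pair, snd_pair]
      simp only [norm_zero, zero_add]
      rw [PiLp.norm_single, Real.norm_of_nonneg (by positivity),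
        inv_le_comm₀ hA'0 (by positivity), inv_div, div_le_iff₀ hr]
      nlinarith
    refine hf1.add (Vanish.const_mul (((van_sinc hf
      (pairE (0, EuclideanSpace.single i A'⁻¹))).mono (hmono _ he)).congr fun t => ?_) _)
    have h3 : ⟪t, (pairE (0, EuclideanSpace.single i A'⁻¹) : E (2 + m))⟫ = sndE t i / A' := by
      rw [inner_split, fst_pair, snd_pair]
      simp only [inner_zero_right, zero_add]
      rw [EuclideanSpace.inner_single_right]
      simp only [conj_trivial]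
      rw [div_eq_inv_mul]
    rw [h3]
  refine ((((Vanish.sum _ _ h1).const_mul (C1 : ℂ)).add
    ((Vanish.sum _ _ h2).const_mul (C2 : ℂ))).add (hf1.const_mul (ε : ℂ))).congr fun t => ?_
  unfold EX
  push_cast
  rw [← Finset.sum_mul]
  have h4 : ∀ i : Fin m, (Φ (T⁻¹ • fstE t) : ℂ) * (B (sndE t) : ℂ) + (-1 : ℂ) *
      ((Real.sinc (Real.pi * (sndE t i / A')) : ℂ) ^ 2 *
        ((Φ (T⁻¹ • fstE t) : ℂ) * (B (sndE t) : ℂ))) =
      (1 - (Real.sinc (Real.pi * (sndE t i / A')) : ℂ) ^ 2) *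
        ((Φ (T⁻¹ • fstE t) : ℂ) * (B (sndE t) : ℂ)) := fun i => by ring
  rw [Finset.sum_congr rfl fun i _ => h4 i, ← Finset.sum_mul]
  ring

theorem int_line {Φ : E 2 → ℝ} (hΦ : Integrable Φ) {v : E 2} (hv : v ≠ 0) {A : ℝ} (hA : 0 < A) :
    Tendsto (fun T : ℝ => ∫ u, Φ u * Real.sinc (Real.pi * (⟪v, T • u⟫ / (2 * A))) ^ 2) atTop
      (𝓝 0) := by
  have hz : (0 : ℝ) = ∫ _ : E 2, (0 : ℝ) := by simp
  rw [hz]
  refine tendsto_integral_filter_of_dominated_convergence (fun u => ‖Φ u‖) ?_ ?_ hΦ.norm ?_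
  · refine Eventually.of_forall fun T => ?_
    refine hΦ.aestronglyMeasurable.mul ?_
    refine Continuous.aestronglyMeasurable ?_
    refine (Real.continuous_sinc.comp (continuous_const.mul ?_)).pow 2
    refine Continuous.div_const ?_ _
    fun_prop
  · refine Eventually.of_forall fun T => Eventually.of_forall fun u => ?_
    rw [norm_mul, Real.norm_of_nonneg (sq_nonneg (Real.sinc _))]
    exact mul_le_of_le_one_right (norm_nonneg _) (psi_le_one _)
  · have hnull : volume (((ℝ ∙ v)ᗮ : Submodule ℝ (E 2)) : Set (E 2)) = 0 := by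
      refine Measure.addHaar_submodule _ _ ?_
      intro h
      have h1 : v ∈ (ℝ ∙ v)ᗮ := by
        rw [h]
        exact Submodule.mem_top
      rw [Submodule.mem_orthogonal_singleton_iff_inner_right] at h1
      exact hv (inner_self_eq_zero.1 h1)
    have hae : ∀ᵐ u : E 2, u ∉ (((ℝ ∙ v)ᗮ : Submodule ℝ (E 2)) : Set (E 2)) :=
      measure_eq_zero_iff_ae_notMem.1 hnull
    filter_upwards [hae] with u hu
    have hx : ⟪v, u⟫ ≠ 0 := by
      intro h
      exact hu ((Submodule.mem_orthogonal_singleton_iff_inner_right).2 h)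
    set c : ℝ := Real.pi * (⟪v, u⟫ / (2 * A)) with hc
    have hc0 : c ≠ 0 := mul_ne_zero Real.pi_ne_zero (div_ne_zero hx (by positivity))
    have h1 : Tendsto (fun T : ℝ => (c ^ 2)⁻¹ * (T⁻¹) ^ 2) atTop (𝓝 0) := by
      have h2 : Tendsto (fun T : ℝ => (T⁻¹) ^ 2) atTop (𝓝 0) := by
        have := (tendsto_inv_atTop_zero (𝕜 := ℝ)).pow 2
        simpa using this
      simpa using h2.const_mul ((c ^ 2)⁻¹)
    have h3 : Tendsto (fun T : ℝ => Real.sinc (Real.pi * (⟪v, T • u⟫ / (2 * A))) ^ 2) atTop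
        (𝓝 0) := by
      refine squeeze_zero' (Eventually.of_forall fun T => sq_nonneg _) ?_ h1
      filter_upwards [eventually_gt_atTop (0 : ℝ)] with T hT
      have h4 : Real.pi * (⟪v, T • u⟫ / (2 * A)) = T * c := by
        rw [real_inner_smul_right, hc]
        ring
      rw [h4]
      refine (ex_sinc_abs _ (mul_ne_zero hT.ne' hc0)).trans (le_of_eq ?_)
      rw [mul_pow, mul_inv, inv_pow, mul_comm]
    simpa using h3.const_mul (Φ u)

theorem int_tail {B : E m → ℝ} (hB : Integrable B) :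
    Tendsto (fun A' : ℝ => ∫ y, B y * ∑ i : Fin m, (1 - Real.sinc (Real.pi * (y i / A')) ^ 2))
      atTop (𝓝 0) := by
  have hz : (0 : ℝ) = ∫ _ : E m, (0 : ℝ) := by simp
  rw [hz]
  refine tendsto_integral_filter_of_dominated_convergence (fun y => ‖B y‖ * m) ?_ ?_
    (hB.norm.mul_const _) ?_
  · refine Eventually.of_forall fun A' => ?_
    refine hB.aestronglyMeasurable.mul ?_
    refine Continuous.aestronglyMeasurable ?_
    refine continuous_finsetSum _ fun i _ => continuous_const.sub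
      ((Real.continuous_sinc.comp (continuous_const.mul ?_)).pow 2)
    refine Continuous.div_const ?_ _
    fun_prop
  · refine Eventually.of_forall fun A' => Eventually.of_forall fun y => ?_
    have h1 : ∀ i ∈ (Finset.univ : Finset (Fin m)),
        0 ≤ 1 - Real.sinc (Real.pi * (y i / A')) ^ 2 := fun i _ => by
      linarith [psi_le_one (y i / A')]
    rw [norm_mul, Real.norm_of_nonneg (Finset.sum_nonneg h1)]
    refine mul_le_mul_of_nonneg_left ?_ (norm_nonneg _)
    have h2 : ∑ i : Fin m, (1 - Real.sinc (Real.pi * (y i / A')) ^ 2) ≤ ∑ _i : Fin m, (1 : ℝ) :=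
      Finset.sum_le_sum fun i _ => by linarith [sq_nonneg (Real.sinc (Real.pi * (y i / A')))]
    refine h2.trans (le_of_eq ?_)
    simp
  · refine Eventually.of_forall fun y => ?_
    have h1 : ∀ i : Fin m, Tendsto
        (fun A' : ℝ => 1 - Real.sinc (Real.pi * (y i / A')) ^ 2) atTop (𝓝 0) := by
      intro i
      have h2 : Tendsto (fun A' : ℝ => Real.pi * (y i / A')) atTop (𝓝 0) := by
        have := (tendsto_const_nhds (x := y i)).div_atTop tendsto_id
        simpa using this.const_mul Real.pi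
      have h3 := (Real.continuous_sinc.tendsto 0).comp h2
      rw [Real.sinc_zero] at h3
      have h4 := (tendsto_const_nhds (x := (1 : ℝ))).sub (h3.pow 2)
      simpa using h4
    have h5 := tendsto_finsetSum (Finset.univ : Finset (Fin m)) fun i _ => h1 i
    rw [Finset.sum_const_zero] at h5
    simpa using h5.const_mul (B y)

private theorem ex_integrable_prod {F : E 2 → ℝ} {G : E m → ℝ} (hF : Integrable F)
    (hG : Integrable G) : Integrable (fun t : E (2 + m) => F (fstE t) * G (sndE t)) := by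
  have h := hF.mul_prod hG
  rw [← Measure.volume_eq_prod, ← (Phi_mp (m := 2) (n := m)).integrable_comp_emb
    (Phi 2 m).measurableEmbedding] at h
  exact h

private theorem ex_scale (F : E 2 → ℝ) {T : ℝ} (hT : 0 < T) :
    ∫ s, F (T⁻¹ • s) = T ^ 2 * ∫ u, F u := by
  rw [Measure.integral_comp_inv_smul, finrank_euclideanSpace_fin, smul_eq_mul,
    abs_of_pos (by positivity)]

theorem ex_int (k : ℕ) (gh : ℤ → E 2) {Φ : E 2 → ℝ} (hΦc : Continuous Φ) (hΦ : Integrable Φ)
    {B : E m → ℝ} (hBc : Continuous B) (hB : Integrable B) (C1 C2 ε A A' : ℝ) {T : ℝ}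
    (hT : 0 < T) : ∫ t : E (2 + m), EX k gh Φ B C1 C2 ε A A' T t = T ^ 2 *
      (C1 * (∫ y, B y) * ∑ i ∈ Finset.range k,
          (∫ u, Φ u * Real.sinc (Real.pi * (⟪gh i, T • u⟫ / (2 * A))) ^ 2) +
        C2 * (∫ u, Φ u) * (∫ y, B y * ∑ i : Fin m, (1 - Real.sinc (Real.pi * (y i / A')) ^ 2)) +
        ε * (∫ u, Φ u) * ∫ y, B y) := by
  have hΦT : Integrable (fun s : E 2 => Φ (T⁻¹ • s)) := hΦ.comp_smul (inv_ne_zero hT.ne')
  -- the factors
  have hF : ∀ i : ℕ, Integrable (fun s : E 2 => Φ (T⁻¹ • s) *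
      Real.sinc (Real.pi * (Yf gh i s / (2 * A))) ^ 2) := by
    intro i
    refine hΦT.mul_bdd (c := 1) ?_ (Eventually.of_forall fun s => ?_)
    · refine Continuous.aestronglyMeasurable ?_
      refine (Real.continuous_sinc.comp (continuous_const.mul ?_)).pow 2
      exact (ex_cont_Yf gh i).div_const _
    · rw [Real.norm_of_nonneg (sq_nonneg _)]
      exact psi_le_one _
  have hG : Integrable (fun y : E m => B y *
      ∑ i : Fin m, (1 - Real.sinc (Real.pi * (y i / A')) ^ 2)) := by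
    refine hB.mul_bdd (c := m) ?_ (Eventually.of_forall fun y => ?_)
    · refine Continuous.aestronglyMeasurable ?_
      refine continuous_finsetSum _ fun i _ => continuous_const.sub
        ((Real.continuous_sinc.comp (continuous_const.mul ?_)).pow 2)
      refine Continuous.div_const ?_ _
      fun_prop
    · have h1 : ∀ i ∈ (Finset.univ : Finset (Fin m)),
          0 ≤ 1 - Real.sinc (Real.pi * (y i / A')) ^ 2 := fun i _ => by
        linarith [psi_le_one (y i / A')]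
      rw [Real.norm_of_nonneg (Finset.sum_nonneg h1)]
      have h2 : ∑ i : Fin m, (1 - Real.sinc (Real.pi * (y i / A')) ^ 2) ≤ ∑ _i : Fin m, (1 : ℝ) :=
        Finset.sum_le_sum fun i _ => by linarith [sq_nonneg (Real.sinc (Real.pi * (y i / A')))]
      refine h2.trans (le_of_eq ?_)
      simp
  have hE : ∀ t : E (2 + m), EX k gh Φ B C1 C2 ε A A' T t =
      C1 * ∑ i ∈ Finset.range k, (Φ (T⁻¹ • fstE t) *
        Real.sinc (Real.pi * (Yf gh i (fstE t) / (2 * A))) ^ 2) * B (sndE t) +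
      C2 * (Φ (T⁻¹ • fstE t) * (B (sndE t) *
        ∑ i : Fin m, (1 - Real.sinc (Real.pi * (sndE t i / A')) ^ 2))) +
      ε * (Φ (T⁻¹ • fstE t) * B (sndE t)) := by
    intro t
    unfold EX
    have h1 : ∑ i ∈ Finset.range k, (Φ (T⁻¹ • fstE t) *
        Real.sinc (Real.pi * (Yf gh i (fstE t) / (2 * A))) ^ 2) * B (sndE t) =
        Φ (T⁻¹ • fstE t) * B (sndE t) *
          ∑ i ∈ Finset.range k, Real.sinc (Real.pi * (Yf gh i (fstE t) / (2 * A))) ^ 2 := by
      rw [Finset.mul_sum]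
      exact Finset.sum_congr rfl fun i _ => by ring
    rw [h1]
    ring
  have i1 : ∀ i ∈ Finset.range k, Integrable (fun t : E (2 + m) => (Φ (T⁻¹ • fstE t) *
      Real.sinc (Real.pi * (Yf gh i (fstE t) / (2 * A))) ^ 2) * B (sndE t)) := fun i _ =>
    ex_integrable_prod (F := fun s : E 2 => Φ (T⁻¹ • s) *
      Real.sinc (Real.pi * (Yf gh i s / (2 * A))) ^ 2) (hF i) hB
  have i2 : Integrable (fun t : E (2 + m) => Φ (T⁻¹ • fstE t) * (B (sndE t) *
      ∑ i : Fin m, (1 - Real.sinc (Real.pi * (sndE t i / A')) ^ 2))) :=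
    ex_integrable_prod (F := fun s : E 2 => Φ (T⁻¹ • s)) (G := fun y : E m => B y *
      ∑ i : Fin m, (1 - Real.sinc (Real.pi * (y i / A')) ^ 2)) hΦT hG
  have i3 : Integrable (fun t : E (2 + m) => Φ (T⁻¹ • fstE t) * B (sndE t)) :=
    ex_integrable_prod (F := fun s : E 2 => Φ (T⁻¹ • s)) hΦT hB
  have j1 : ∀ i : ℕ, ∫ t : E (2 + m), (Φ (T⁻¹ • fstE t) *
      Real.sinc (Real.pi * (Yf gh i (fstE t) / (2 * A))) ^ 2) * B (sndE t) =
      T ^ 2 * (∫ u, Φ u * Real.sinc (Real.pi * (⟪gh i, T • u⟫ / (2 * A))) ^ 2) *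
        ∫ y, B y := by
    intro i
    rw [int_prod (fun s : E 2 => Φ (T⁻¹ • s) *
      Real.sinc (Real.pi * (Yf gh i s / (2 * A))) ^ 2) B]
    congr 1
    rw [← ex_scale (fun u => Φ u * Real.sinc (Real.pi * (⟪gh i, T • u⟫ / (2 * A))) ^ 2) hT]
    refine integral_congr_ae (Eventually.of_forall fun s => ?_)
    simp only [Yf, smul_inv_smul₀ hT.ne']
  have j2 : ∫ t : E (2 + m), Φ (T⁻¹ • fstE t) * (B (sndE t) *
      ∑ i : Fin m, (1 - Real.sinc (Real.pi * (sndE t i / A')) ^ 2)) =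
      T ^ 2 * (∫ u, Φ u) *
        ∫ y, B y * ∑ i : Fin m, (1 - Real.sinc (Real.pi * (y i / A')) ^ 2) := by
    rw [int_prod (fun s : E 2 => Φ (T⁻¹ • s)) (fun y : E m => B y *
      ∑ i : Fin m, (1 - Real.sinc (Real.pi * (y i / A')) ^ 2)), ex_scale Φ hT]
  have j3 : ∫ t : E (2 + m), Φ (T⁻¹ • fstE t) * B (sndE t) =
      T ^ 2 * (∫ u, Φ u) * ∫ y, B y := by
    rw [int_prod (fun s : E 2 => Φ (T⁻¹ • s)) B, ex_scale Φ hT]
  rw [integral_congr_ae (Eventually.of_forall hE), integral_add, integral_add,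
    integral_const_mul, integral_const_mul, integral_const_mul, integral_finsetSum _ i1,
    j2, j3, Finset.sum_congr rfl fun i _ => j1 i, ← Finset.sum_mul, ← Finset.mul_sum]
  · ring
  · exact (integrable_finsetSum _ i1).const_mul _
  · exact i2.const_mul _
  · exact ((integrable_finsetSum _ i1).const_mul _).add (i2.const_mul _)
  · exact i3.const_mul _

end Pool.Agent.MPbd65ca.Zo
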