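import Pool.Agent.Lib.MP_bd65ca_an_Z.MainD

/-!
# The Turán problem for zonotopes: the terms with frequencies in the interior

PROOF. `van_frt`: `n = some (p, q, α, β)` with `α, β = ±1` (`some_mem_FZ`):
`X = α • vt p + β • vt q` (`zt_mono`), `fstE X = Pg.fq k gh n` (`D.fst_vt`, linearity); `Two g X` by
`two_add`: `α • vt p` is `vt p` or `-vt p = vt (p + k)` (`vt_anti`), `D.vt_mem`; `(1/2) • fstE X` is in the
interior and `fstE X ≠ 0` by the definition of `Pg.Fr` (`Finset.mem_filter`).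
`n = none`: `X = Y + Y`, `Y = vt 0 + gt l` (`zt_xz`), `Two g X` by `two_add` and `D.sp_mem`,
`fstE X = 2 • (vx 0 + gh l)` (`D.fst_vt`, `D.fst_gt`).
In both cases `D.room_ball` gives `r > 0`; `vanish_tp` (Pg/VanA.lean) with the frequency `fstE X` and
`r` gives `T₀` and the spectrum `closedBall (fstE X) r` of
`Φ (T⁻¹ • s) * tp s b (T⁻¹ • s) * 𝐞 ⟪s, fstE X⟫`; `van_gam`, `Vanish.mono`, `Vanish.congr`.
`van_ct`: the same with `X = 0`, `D.room_zero`; for the second function `vanish_scale` and the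
radius `ρ / T ≤ r`.
-/

open MeasureTheory FourierTransform Pointwise Set Filter Topology
open scoped RealInnerProductSpace

namespace Pool.Agent.MPbd65ca.Zo

open Pool.Agent.MPbd65ca.Pg Pool.Agent.MPbd65ca.ProdAux

variable {k m p q : ℕ} {gh : ℤ → E 2} {cl : Fin p → ℕ} {rho : Fin p → ℝ}
  {g : Fin (p + q) → E (2 + m)}

private theorem MainF_gen (D : ZD k m p q gh cl rho g) {ρ : ℝ} {Φ : E 2 → ℂ}
    (hΦ : Vanish (Metric.closedBall 0 ρ) Φ) (s : Finset (E 2)) (b : E 2 → ℂ) {θ : ℝ} (hθ : 0 < θ)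
    (hθ1 : θ < 1) {X : E (2 + m)} (hX : Two g X)
    (hN : (1 / 2 : ℝ) • fstE X ∈ interior (zg k gh)) (hN0 : fstE X ≠ 0)
    {mo : E (2 + m) → ℂ} (hmo : ∀ t, mo t = (Real.fourierChar ⟪t, X⟫ : ℂ)) :
    ∃ T₀ : ℝ, 0 < T₀ ∧ ∀ T : ℝ, T₀ ≤ T → Vanish ((zono g + zono g) \ {0})
      (fun t => (Gm g θ (sndE t) : ℂ) * (Φ (T⁻¹ • fstE t) * tp s b (T⁻¹ • fstE t) * mo t)) := by
  obtain ⟨r, hr, hsub⟩ := D.room_ball hθ hθ1 hX hN hN0
  obtain ⟨T₀, hT₀, hT⟩ := vanish_tp hΦ s b (fstE X) hr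
  refine ⟨T₀, hT₀, fun T hTT => ?_⟩
  have h1 := van_gam (g := g) hθ X (F := fun u => Φ (T⁻¹ • u) * tp s b (T⁻¹ • u)) (hT T hTT)
  refine (h1.mono hsub).congr fun t => ?_
  rw [hmo t]

private theorem MainF_zero {θ : ℝ} (hθ : 0 < θ) {r : ℝ}
    (hsub : {ξ : E (2 + m) | fstE ξ ∈ Metric.closedBall 0 r ∧
      sndE ξ ∈ Tw g θ 0} ⊆ zono g + zono g) {F : E 2 → ℂ}
    (hF : Vanish (Metric.closedBall 0 r) F) :
    Vanish (zono g + zono g) (fun t => (Gm g θ (sndE t) : ℂ) * F (fstE t)) := by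
  have h0 : Vanish (Metric.closedBall 0 r)
      (fun u => F u * (Real.fourierChar ⟪u, fstE (0 : E (2 + m))⟫ : ℂ)) := by
    refine hF.congr fun u => ?_
    rw [fst_zero, inner_zero_right, AddChar.map_zero_eq_one, Circle.coe_one, mul_one]
  have h1 := van_gam (g := g) hθ (0 : E (2 + m)) h0
  rw [snd_zero] at h1
  refine (h1.mono hsub).congr fun t => ?_
  rw [inner_zero_right, AddChar.map_zero_eq_one, Circle.coe_one, mul_one]

private theorem MainF_sgn (D : ZD k m p q gh cl rho g) (hk : 0 < k) {α : ℤ}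
    (hα : α = 1 ∨ α = -1) (j : ℤ) {y : E m} (hy : y ∈ zono (gI g)) :
    (α : ℝ) • vt k cl g j + pairE (0, y) ∈ zono g := by
  rcases hα with rfl | rfl
  · have h := D.vt_mem j hy
    rwa [Int.cast_one, one_smul]
  · have h := D.vt_mem (j + k) hy
    rw [vt_anti hk] at h
    rwa [Int.cast_neg, Int.cast_one, neg_one_smul]

theorem ZD.van_frt (D : ZD k m p q gh cl rho g) {l : ℕ} (hl : l < k)
    (hsp : vx k gh 0 + gh l ∈ interior (zg k gh)) (hsp0 : vx k gh 0 + gh l ≠ 0)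
    {ρ : ℝ} {Φ : E 2 → ℂ} (hΦ : Vanish (Metric.closedBall 0 ρ) Φ) (s : Finset (E 2))
    (b : E 2 → ℂ) {θ : ℝ} (hθ : 0 < θ) (hθ1 : θ < 1) {n : Jx} (hn : n ∈ FZ k gh) :
    ∃ T₀ : ℝ, 0 < T₀ ∧ ∀ T : ℝ, T₀ ≤ T → Vanish ((zono g + zono g) \ {0})
      (fun t => (Gm g θ (sndE t) : ℂ) * (Φ (T⁻¹ • fstE t) * tp s b (T⁻¹ • fstE t) *
        (moz l n (zt k cl g t) : ℂ))) := by
  have hk : 0 < k := lt_of_le_of_lt (Nat.zero_le l) hl
  cases n with
  | none =>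
    have hX : Two g ((vt k cl g 0 + gt k cl g l) + (vt k cl g 0 + gt k cl g l)) :=
      two_add (fun y hy => D.sp_mem hl hy) (fun y hy => D.sp_mem hl hy)
    have hf : fstE ((vt k cl g 0 + gt k cl g l) + (vt k cl g 0 + gt k cl g l)) =
        (vx k gh 0 + gh l) + (vx k gh 0 + gh l) := by
      rw [fst_add, fst_add, D.fst_vt, D.fst_gt]
    have hN : (1 / 2 : ℝ) • fstE ((vt k cl g 0 + gt k cl g l) + (vt k cl g 0 + gt k cl g l)) =
        vx k gh 0 + gh l := by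
      rw [hf, ← two_smul ℝ, smul_smul]
      norm_num
    refine MainF_gen D hΦ s b hθ hθ1 hX (by rw [hN]; exact hsp) ?_ fun t => ?_
    · intro h
      rw [h, smul_zero] at hN
      exact hsp0 hN.symm
    · show ((xz l (zt k cl g t) ^ 2 : Circle) : ℂ) = _
      rw [zt_xz hk]
  | some n =>
    obtain ⟨h1, h2, h3⟩ := some_mem_FZ.1 hn
    have h4 : (1 / 2 : ℝ) • Pg.fq k gh n ∈ interior (zg k gh) ∧ Pg.fq k gh n ≠ 0 := by
      classical
      simp only [Pg.Fr, Finset.mem_filter] at h1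
      exact h1.2
    have hX : Two g ((n.2.2.1 : ℝ) • vt k cl g n.1 + (n.2.2.2 : ℝ) • vt k cl g n.2.1) :=
      two_add (fun y hy => MainF_sgn D hk h2 n.1 hy) (fun y hy => MainF_sgn D hk h3 n.2.1 hy)
    have hf : fstE ((n.2.2.1 : ℝ) • vt k cl g n.1 + (n.2.2.2 : ℝ) • vt k cl g n.2.1) =
        Pg.fq k gh n := by
      rw [fst_add, fst_smul, fst_smul, D.fst_vt, D.fst_vt, Pg.fq]
    refine MainF_gen D hΦ s b hθ hθ1 hX (by rw [hf]; exact h4.1) (by rw [hf]; exact h4.2)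
      fun t => ?_
    show (mono n (zt k cl g t) : ℂ) = _
    rw [zt_mono]

theorem ZD.van_ct (D : ZD k m p q gh cl rho g) {ρ : ℝ} {Φ Φ₁ : E 2 → ℂ}
    (hΦ : Vanish (Metric.closedBall 0 ρ) Φ) (hΦ₁ : Vanish (Metric.closedBall 0 ρ) Φ₁)
    (s : Finset (E 2)) (b : E 2 → ℂ) {θ : ℝ} (hθ : 0 < θ) (hθ1 : θ < 1) :
    ∃ T₀ : ℝ, 0 < T₀ ∧ ∀ T : ℝ, T₀ ≤ T →
      Vanish (zono g + zono g)
        (fun t => (Gm g θ (sndE t) : ℂ) * (Φ (T⁻¹ • fstE t) * tp s b (T⁻¹ • fstE t))) ∧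
      Vanish (zono g + zono g)
        (fun t => (Gm g θ (sndE t) : ℂ) * Φ₁ (T⁻¹ • fstE t)) := by
  obtain ⟨r, hr, hsub⟩ := D.room_zero hθ hθ1
  obtain ⟨T₁, hT₁, hT⟩ := vanish_tp hΦ s b 0 hr
  have hq : 0 ≤ |ρ| / r := div_nonneg (abs_nonneg _) hr.le
  refine ⟨T₁ + |ρ| / r, by linarith, fun T hTT => ⟨?_, ?_⟩⟩
  · refine MainF_zero hθ hsub (F := fun u => Φ (T⁻¹ • u) * tp s b (T⁻¹ • u)) ?_
    refine (hT T (by linarith)).congr fun u => ?_
    rw [inner_zero_right, AddChar.map_zero_eq_one, Circle.coe_one, mul_one]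
  · have hT0 : 0 < T := by linarith
    refine MainF_zero hθ hsub (F := fun u => Φ₁ (T⁻¹ • u)) ?_
    refine (vanish_scale hΦ₁ hT0).mono (Metric.closedBall_subset_closedBall ?_)
    have h1 : |ρ| / r ≤ T := by linarith
    rw [div_le_iff₀ hr] at h1
    rw [div_le_iff₀ hT0]
    have h2 := le_abs_self ρ
    linarith [mul_comm T r]

end Pool.Agent.MPbd65ca.Zo
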