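import Pool.Agent.Lib.MP_bd65ca_an_Z.MainH
import Pool.Agent.Lib.MP_bd65ca_an_Z.MainF

/-!
# The Turán problem for zonotopes: spectrum and integral of the main part

PROOF (compare Pg/GTv.lean).  `c` from `D.van_hbt`.  Put `Φ u = Ψ (R⁻¹ • u)^2` (complex), spectrum in
`closedBall 0 (1/R)` (`vanish_scale p.van2`), `Φ₁ u = Ψ (R⁻¹ • u)`.  `G0 t` is the sum of the real parts
of the functions in `D.van_hbt` (`j < k`), in `D.van_frt` (`n ∈ FZ k gh`, `s n`, `b n`), of the first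
function in `D.van_ct` (with `s0`, `b0`) and of `M` times the second one.  `K = zono g + zono g` and
`K \ {0}` are symmetric, so `vanish_re` applies.  The integrals of the first two kinds are `0`
(`Vanish.integral_eq_zero`), the integral of the others is
`(∫ Gm) * ∫ (Φ tp0 + M Φ₁)(T⁻¹ • s) ds` (`int_prod`; `Measure.integral_comp_inv_smul`,
`finrank = 2`).  `T₀` = sum of the finitely many thresholds (`choose!`).
-/

open MeasureTheory FourierTransform Pointwise Set Filter Topology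
open scoped RealInnerProductSpace

namespace Pool.Agent.MPbd65ca.Zo

open Pool.Agent.MPbd65ca.Pg Pool.Agent.MPbd65ca.ProdAux

variable {k m p q : ℕ} {gh : ℤ → E 2} {cl : Fin p → ℕ} {rho : Fin p → ℝ}
  {g : Fin (p + q) → E (2 + m)}

theorem ZD.main_v (D : ZD k m p q gh cl rho g) {l : ℕ} (hl : l < k)
    (hsp : vx k gh 0 + gh l ∈ interior (zg k gh)) (hsp0 : vx k gh 0 + gh l ≠ 0) :
    ∃ c : ℝ, ∀ (R M S C : ℝ) (Ψ : E 2 → ℝ)
    (s : Jx → Finset (E 2)) (b : Jx → E 2 → ℂ) (s0 : Finset (E 2)) (b0 : E 2 → ℂ),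
    ProfG (FZ k gh) (moz l) k gh c R M S C Ψ s b s0 b0 → ∀ θ : ℝ, 0 < θ → θ < 1 →
    ∃ T₀ : ℝ, 0 < T₀ ∧ ∀ T : ℝ, T₀ ≤ T →
      Vanish (zono g + zono g)
        (fun t => (G0 (FZ k gh) (moz l) k cl g gh c R M Ψ s b s0 b0 θ T t : ℂ)) ∧
      ∫ t, G0 (FZ k gh) (moz l) k cl g gh c R M Ψ s b s0 b0 θ T t =
        (∫ y, Gm g θ y) * (T ^ 2 * ∫ u : E 2,
          (Ψ (R⁻¹ • u) ^ 2 * (tp s0 b0 u).re + M * Ψ (R⁻¹ • u))) := by
  obtain ⟨c, hc⟩ := D.van_hbt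
  refine ⟨c, fun R M S C Ψ s b s0 b0 pr θ hθ hθ1 => ?_⟩
  have hR0 : 0 < R := by linarith [pr.hR]
  have hsym : ∀ x ∈ zono g + zono g, -x ∈ zono g + zono g := by
    rintro _ ⟨x, hx, y, hy, rfl⟩
    refine ⟨-x, neg_mem_zono g x hx, -y, neg_mem_zono g y hy, ?_⟩
    show -x + -y = -(x + y)
    abel
  have hsym0 : ∀ x ∈ (zono g + zono g) \ {0}, -x ∈ (zono g + zono g) \ {0} := by
    rintro x ⟨hx, hx0⟩
    refine ⟨hsym x hx, ?_⟩
    rintro (hx1 : -x = 0)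
    exact hx0 (neg_eq_zero.1 hx1)
  set Φ : E 2 → ℂ := fun u => ((Ψ (R⁻¹ • u) ^ 2 : ℝ) : ℂ) with hΦd
  have hΦ : Vanish (Metric.closedBall 0 (1 / R)) Φ := vanish_scale pr.van2 hR0
  have hΦ1 : Vanish (Metric.closedBall 0 (1 / R)) (fun u => (Ψ (R⁻¹ • u) : ℂ)) :=
    vanish_scale pr.van1 hR0
  obtain ⟨T1, hT1, h1⟩ := hc R pr.hR Φ hΦ θ hθ hθ1
  have hfr : ∀ n ∈ FZ k gh, ∃ T₀ : ℝ, 0 < T₀ ∧ ∀ T : ℝ, T₀ ≤ T →
      Vanish ((zono g + zono g) \ {0})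
      (fun t => (Gm g θ (sndE t) : ℂ) * (Φ (T⁻¹ • fstE t) * tp (s n) (b n) (T⁻¹ • fstE t) *
        (moz l n (zt k cl g t) : ℂ))) := fun n hn =>
    D.van_frt hl hsp hsp0 hΦ (s n) (b n) hθ hθ1 hn
  choose! T2 hT2 h2 using hfr
  obtain ⟨T3, hT3, h3⟩ := D.van_ct hΦ hΦ1 s0 b0 hθ hθ1
  have hS0 : 0 ≤ ∑ n ∈ FZ k gh, T2 n := Finset.sum_nonneg fun n hn => (hT2 n hn).le
  refine ⟨T1 + (∑ n ∈ FZ k gh, T2 n) + T3, by linarith, fun T hT => ?_⟩
  have hT0 : 0 < T := by linarith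
  have hA : ∀ j ∈ Finset.range k, Vanish ((zono g + zono g) \ {0})
      (fun t => ((((Gm g θ (sndE t) : ℂ) * (Φ (T⁻¹ • fstE t) * hb gh c R j (T⁻¹ • fstE t) *
        ((zt k cl g t j : ℂ) * (zt k cl g t (j + 1) : ℂ)))).re : ℝ) : ℂ)) := fun j hj =>
    vanish_re hsym0 (h1 T (by linarith) j (Finset.mem_range.1 hj))
  have hB : ∀ n ∈ FZ k gh, Vanish ((zono g + zono g) \ {0})
      (fun t => ((((Gm g θ (sndE t) : ℂ) * (Φ (T⁻¹ • fstE t) * tp (s n) (b n) (T⁻¹ • fstE t) *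
        (moz l n (zt k cl g t) : ℂ))).re : ℝ) : ℂ)) := by
    intro n hn
    refine vanish_re hsym0 (h2 n hn T ?_)
    have := Finset.single_le_sum (f := T2) (fun n hn => (hT2 n hn).le) hn
    linarith
  have hD := vanish_re hsym (h3 T (by linarith)).1
  have hE := (h3 T (by linarith)).2.const_mul (M : ℂ)
  have hF1 := (Vanish.sum _ _ hA).add (Vanish.sum _ _ hB)
  have hF2 := hD.add hE
  -- the real parts
  set f1 : E (2 + m) → ℝ := fun t => ∑ j ∈ Finset.range k, ((Gm g θ (sndE t) : ℂ) *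
      (Φ (T⁻¹ • fstE t) * hb gh c R j (T⁻¹ • fstE t) *
        ((zt k cl g t j : ℂ) * (zt k cl g t (j + 1) : ℂ)))).re +
    ∑ n ∈ FZ k gh, ((Gm g θ (sndE t) : ℂ) * (Φ (T⁻¹ • fstE t) *
      tp (s n) (b n) (T⁻¹ • fstE t) * (moz l n (zt k cl g t) : ℂ))).re with hf1
  set F : E 2 → ℝ := fun u => Ψ (R⁻¹ • u) ^ 2 * (tp s0 b0 u).re + M * Ψ (R⁻¹ • u) with hF
  have e1 : Vanish ((zono g + zono g) \ {0}) (fun t => (f1 t : ℂ)) := by
    refine hF1.congr fun t => ?_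
    rw [hf1]
    push_cast
    rfl
  have e2 : Vanish (zono g + zono g)
      (fun t => ((F (T⁻¹ • fstE t) * Gm g θ (sndE t) : ℝ) : ℂ)) := by
    refine hF2.congr fun t => ?_
    simp only [hF, hΦd, Complex.re_ofReal_mul]
    push_cast
    ring
  have hG : ∀ t, G0 (FZ k gh) (moz l) k cl g gh c R M Ψ s b s0 b0 θ T t =
      f1 t + F (T⁻¹ • fstE t) * Gm g θ (sndE t) := by
    intro t
    simp only [G0, pTg, hp, ipg, hf1, hF, hΦd]
    have q1 : ∀ j : ℕ, (((Gm g θ (sndE t) : ℝ) : ℂ) *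
        (((Ψ (R⁻¹ • T⁻¹ • fstE t) ^ 2 : ℝ) : ℂ) * hb gh c R j (T⁻¹ • fstE t) *
        ((zt k cl g t j : ℂ) * (zt k cl g t (j + 1) : ℂ)))).re =
        Gm g θ (sndE t) * (Ψ (R⁻¹ • T⁻¹ • fstE t) ^ 2 * (hb gh c R j (T⁻¹ • fstE t) *
        ((zt k cl g t j : ℂ) * (zt k cl g t (j + 1) : ℂ))).re) := by
      intro j
      rw [mul_assoc ((Ψ (R⁻¹ • T⁻¹ • fstE t) ^ 2 : ℝ) : ℂ), Complex.re_ofReal_mul,
        Complex.re_ofReal_mul]
    have q2 : ∀ n : Jx, (((Gm g θ (sndE t) : ℝ) : ℂ) *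
        (((Ψ (R⁻¹ • T⁻¹ • fstE t) ^ 2 : ℝ) : ℂ) * tp (s n) (b n) (T⁻¹ • fstE t) *
        (moz l n (zt k cl g t) : ℂ))).re =
        Gm g θ (sndE t) * (Ψ (R⁻¹ • T⁻¹ • fstE t) ^ 2 * (tp (s n) (b n) (T⁻¹ • fstE t) *
        (moz l n (zt k cl g t) : ℂ)).re) := by
      intro n
      rw [mul_assoc ((Ψ (R⁻¹ • T⁻¹ • fstE t) ^ 2 : ℝ) : ℂ), Complex.re_ofReal_mul,
        Complex.re_ofReal_mul]
    simp only [q1, q2, ← Finset.mul_sum]
    ring
  have hi1 : Integrable f1 := by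
    have := e1.1.re
    simpa using this
  have hi2 : Integrable (fun t : E (2 + m) => F (T⁻¹ • fstE t) * Gm g θ (sndE t)) := by
    have := e2.1.re
    simpa using this
  refine ⟨?_, ?_⟩
  · refine ((e1.mono Set.sdiff_subset).add e2).congr fun t => ?_
    rw [hG]
    push_cast
    rfl
  · simp only [hG]
    rw [integral_add hi1 hi2]
    have z1 : ∫ t, f1 t = 0 := by
      have := e1.integral_eq_zero (fun h0 => h0.2 rfl)
      rw [integral_complex_ofReal] at this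
      exact_mod_cast this
    rw [z1, zero_add, int_prod (fun u => F (T⁻¹ • u)) (Gm g θ),
      Measure.integral_comp_inv_smul, finrank_euclideanSpace_fin,
      abs_of_pos (by positivity), smul_eq_mul, mul_comm]

end Pool.Agent.MPbd65ca.Zo
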