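import Pool.Agent.Lib.MP_bd65ca_an_Z.PoffZA
import Pool.Agent.Lib.MP_bd65ca_an.Pg.PC

/-!
# The Turán problem for zonotopes: the pointwise inequality

PROOF. Copies of `Zon.poff` (Pg/Poff.lean; without `exists_side`; `poffz_id` with
`q = 1 / (36 L^2 ‖u‖^2)`, `Wz_le` in place of `Wn_le`, `16` replaced by `36`), `Zon.pon` (Pg/Pon.lean;
`Phj_intz` in place of `Phj_int`) and `Zon.pc` (Pg/PC.lean; its private lemmas have to be copied;
`ipg_zero`).
-/

open MeasureTheory FourierTransform Pointwise Set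
open scoped RealInnerProductSpace

namespace Pool.Agent.MPbd65ca.Zo

open Pool.Agent.MPbd65ca.Pg

variable {k : ℕ} {g : ℤ → E 2}

theorem poffz (h : Zon k g) {l : ℕ} (hl1 : 1 ≤ l) (hl2 : l ≤ 2) (c : ℝ) :
    ∃ CE c2 : ℝ, 0 < CE ∧ 0 < c2 ∧ ∀ R : ℝ, 1 ≤ R →
    ∀ u : E 2, 1 ≤ ‖u‖ → (∀ j, Yf g j u ≠ 0) → ∃ a : Jx → ℂ, ∀ z, Ph k z → Zt k g z u = 0 →
      c2 / ‖u‖ ^ 2 ≤ hp k g c R z u + ipg (FZ k g) (moz l) a z + CE * eE k g R u := by
  have hk := h.hk
  obtain ⟨L, hL0, -, hL⟩ := h.norm_le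
  obtain ⟨C, hC0, hC⟩ := h.Sk_bound
  obtain ⟨C1, hC10, hC1⟩ := h.hb_err c
  refine ⟨2 * C * C1 * k + 1, 1 / (36 * L ^ 2), by positivity, by positivity,
    fun R hR u hu1 hu => ?_⟩
  obtain ⟨a, ha⟩ := poffz_id h hl1 hl2 c R hu (1 / (36 * L ^ 2 * ‖u‖ ^ 2))
  refine ⟨a, fun z hz h0 => ?_⟩
  rw [ha z hz h0]
  have hn : 0 < ‖u‖ := by linarith
  have hE := Poff_eE_nonneg k g hR u
  set w : ℤ → ℂ := fun j => hb g c R j u +
    ((1 / 2 * (bq g j / (Yf g (j - 1) u * Yf g (j + 1) u)) : ℝ) : ℂ) with hw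
  have hS := hC z u hz hu h0
  -- the error
  have hA : -(2 * C * C1 * k * eE k g R u) ≤
      ∑ j ∈ Finset.range k, (w j * Phj g z u j).re := by
    have h1 : ∀ j ∈ Finset.range k, -(2 * C * C1 * eE k g R u) ≤ (w (j : ℤ) * Phj g z u j).re := by
      intro j hj
      have h2 : |(w (j : ℤ) * Phj g z u j).re| ≤ ‖w j‖ * ‖Phj g z u j‖ := by
        rw [← norm_mul]
        exact Complex.abs_re_le_norm _
      have h3 := Poff_norm_Phj_le hu hS (j : ℤ)
      have h4 := hC1 R hR u hu1 hu j (Finset.mem_range.mp hj)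
      have h5 : ‖w j‖ * ‖Phj g z u j‖ ≤ 2 * C * C1 * eE k g R u := by
        calc ‖w j‖ * ‖Phj g z u j‖
            ≤ ‖w j‖ * (2 * (C / ‖u‖) * min |Yf g (j - 1) u| |Yf g (j + 1) u|) :=
              mul_le_mul_of_nonneg_left h3 (norm_nonneg _)
          _ = 2 * C * (‖w j‖ * (min |Yf g (j - 1) u| |Yf g (j + 1) u| / ‖u‖)) := by
              field_simp
          _ ≤ 2 * C * (C1 * eE k g R u) :=
              mul_le_mul_of_nonneg_left h4 (by positivity)
          _ = _ := by ring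
      have h6 := neg_abs_le (w (j : ℤ) * Phj g z u j).re
      linarith
    have h2 := Finset.sum_le_sum h1
    rw [Finset.sum_const, Finset.card_range, nsmul_eq_mul] at h2
    linarith
  -- the positive term
  have hB : 1 / (36 * L ^ 2 * ‖u‖ ^ 2) * Wz z l ≤ ∑ j ∈ Finset.range k, Sk g z u j ^ 2 := by
    have h1 := Wz_le (by omega) hz (l : ℤ)
    have h2 : ∑ j ∈ Finset.range k, (cr z j - cr z (j + 1)) ^ 2 ≤
        ∑ j ∈ Finset.range k, L ^ 2 * ‖u‖ ^ 2 * Sk g z u j ^ 2 := by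
      refine Finset.sum_le_sum fun j _ => ?_
      rw [Poff_Sk_mul z hu (j : ℤ), mul_pow, mul_comm]
      refine mul_le_mul_of_nonneg_right ?_ (sq_nonneg _)
      rw [← mul_pow, ← sq_abs (Yf g j u)]
      exact pow_le_pow_left₀ (abs_nonneg _) (hL u j) 2
    rw [← Finset.mul_sum] at h2
    rw [div_mul_eq_mul_div, one_mul, div_le_iff₀ (by positivity)]
    linarith
  have hq : 1 / (36 * L ^ 2) / ‖u‖ ^ 2 = 1 / (36 * L ^ 2 * ‖u‖ ^ 2) := by
    rw [div_div]
  rw [hq]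
  have hfin : 1 / (36 * L ^ 2 * ‖u‖ ^ 2) * (1 - Wz z l) =
      1 / (36 * L ^ 2 * ‖u‖ ^ 2) - 1 / (36 * L ^ 2 * ‖u‖ ^ 2) * Wz z l := by ring
  rw [hfin]
  linarith

theorem ponz (h : Zon k g) (l : ℤ) (c : ℝ) : ∃ C : ℝ, 0 < C ∧ ∀ R : ℝ, 1 ≤ R → ∀ u : E 2,
    1 ≤ ‖u‖ → (∃ j, Yf g j u = 0) → ∃ a : Jx → ℂ, ∀ z, Ph k z → Zt k g z u = 0 →
      -(C / (1 + ‖u‖ ^ 2)) ≤ hp k g c R z u + ipg (FZ k g) (moz l) a z := by
  have hk := h.hk
  obtain ⟨c0, hc0, h2⟩ := h.two_forms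
  have hb0 : ∀ j, 0 < bq g j := h.bq_pos
  refine ⟨∑ j ∈ Finset.range k, 144 * bq g j / c0 ^ 2 + 1, ?_, fun R hR u hu1 hex => ?_⟩
  · have : 0 ≤ ∑ j ∈ Finset.range k, 144 * bq g j / c0 ^ 2 :=
      Finset.sum_nonneg fun j _ => div_nonneg (mul_nonneg (by norm_num) (hb0 j).le) (sq_nonneg _)
    linarith
  obtain ⟨i, hi⟩ := hex
  have A : IntG (FZ k g) (moz l) (fun z => ∑ j ∈ Finset.range k,
      ((hb g c R j u * Phj g z u j).re - (hb g c R j u * ((z j : ℂ) * (z (j + 1) : ℂ))).re)) :=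
    IntG.sum _ (fun (j : ℕ) z =>
      ((hb g c R j u * Phj g z u j).re - (hb g c R j u * ((z j : ℂ) * (z (j + 1) : ℂ))).re))
      fun j hj => Phj_intz h l u (Finset.mem_range.mp hj) (hb g c R j u)
  obtain ⟨a, ha⟩ := A
  refine ⟨a, fun z hz h0 => ?_⟩
  have hn : 0 < ‖u‖ := by linarith
  have hu0 : u ≠ 0 := norm_pos_iff.mp hn
  have e1 : hp k g c R z u + ipg (FZ k g) (moz l) a z =
      ∑ j ∈ Finset.range k, (hb g c R j u * Phj g z u j).re := by
    have h3 := ha z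
    simp only [Finset.sum_sub_distrib] at h3
    rw [← h3, hp]
    ring
  rw [e1]
  have hline : ∀ j : ℤ, Yf g j u = 0 → cr z j = cr z (j + 1) := fun j hj =>
    h.Zt_line hz hu0 hj h0
  have hterm : ∀ j ∈ Finset.range k, -(144 * bq g j / c0 ^ 2 / (1 + ‖u‖ ^ 2)) ≤
      (hb g c R j u * Phj g z u j).re := by
    intro j _
    have hpos : 0 ≤ 144 * bq g j / c0 ^ 2 / (1 + ‖u‖ ^ 2) :=
      div_nonneg (div_nonneg (mul_nonneg (by norm_num) (hb0 j).le) (sq_nonneg _)) (by positivity)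
    have key : ‖hb g c R j u‖ * ‖Phj g z u j‖ ≤ 144 * bq g j / c0 ^ 2 / (1 + ‖u‖ ^ 2) := by
      by_cases hA : Yf g (j - 1) u = 0
      · have : Phj g z u j = 0 := by
          have h3 := hline _ hA
          rw [sub_add_cancel] at h3
          rw [Phj, if_pos (by rw [hA, abs_zero]; exact abs_nonneg _), h3]
          simp
        rw [this, norm_zero, mul_zero]
        exact hpos
      by_cases hB : Yf g (j + 1) u = 0
      · have : Phj g z u j = 0 := by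
          have h3 := hline _ hB
          have e : (j : ℤ) + 1 + 1 = j + 2 := by ring
          rw [e] at h3
          rw [Phj, if_neg, h3]
          · simp
          · rw [hB, abs_zero, not_le]
            exact abs_pos.mpr hA
        rw [this, norm_zero, mul_zero]
        exact hpos
      have hA' := h.Pon_other h2 hi hA
      have hB' := h.Pon_other h2 hi hB
      have h4 := norm_hb_le g c R j u
      have h5 := Pon_norm_Phj_le (g := g) z u j
      have h6 : (c0 * ‖u‖) * (c0 * ‖u‖) ≤ (1 + |Yf g (j - 1) u|) * (1 + |Yf g (j + 1) u|) := by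
        apply mul_le_mul (by linarith) (by linarith) (by positivity)
        have := abs_nonneg (Yf g (j - 1) u)
        linarith
      have h7 : ‖hb g c R j u‖ ≤ 36 * bq g j / c0 ^ 2 / (1 + ‖u‖ ^ 2) := by
        refine h4.trans ?_
        rw [abs_of_pos (hb0 j), div_div]
        have h8 : c0 ^ 2 * (1 + ‖u‖ ^ 2) ≤
            2 * ((1 + |Yf g (j - 1) u|) * (1 + |Yf g (j + 1) u|)) := by
          have h9 : 1 ≤ ‖u‖ ^ 2 := by nlinarith
          have h10 : c0 ^ 2 * (1 + ‖u‖ ^ 2) ≤ c0 ^ 2 * (2 * ‖u‖ ^ 2) :=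
            mul_le_mul_of_nonneg_left (by linarith) (sq_nonneg _)
          nlinarith
        rw [div_le_div_iff₀ (by positivity) (by positivity)]
        have := mul_le_mul_of_nonneg_left h8 (hb0 (j : ℤ)).le
        nlinarith
      calc ‖hb g c R j u‖ * ‖Phj g z u j‖
          ≤ (36 * bq g j / c0 ^ 2 / (1 + ‖u‖ ^ 2)) * 4 :=
            mul_le_mul h7 h5 (norm_nonneg _) ((norm_nonneg _).trans h7)
        _ = _ := by ring
    have h6 : |(hb g c R j u * Phj g z u j).re| ≤ ‖hb g c R j u‖ * ‖Phj g z u j‖ := by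
      rw [← norm_mul]
      exact Complex.abs_re_le_norm _
    have h7 := neg_abs_le (hb g c R j u * Phj g z u j).re
    linarith
  have hsum := Finset.sum_le_sum hterm
  rw [Finset.sum_neg_distrib, ← Finset.sum_div] at hsum
  refine le_trans ?_ hsum
  rw [neg_le_neg_iff]
  exact div_le_div_of_nonneg_right (by linarith) (by positivity)

private theorem PCZ_hp (k : ℕ) (g : ℤ → E 2) (c R : ℝ) (z : ℤ → Circle) (u : E 2) :
    |hp k g c R z u| ≤ ∑ j ∈ Finset.range k, 18 * |bq g j| := by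
  unfold hp
  refine (Finset.abs_sum_le_sum_abs _ _).trans (Finset.sum_le_sum fun j _ => ?_)
  have h1 : ‖(z j : ℂ) * (z (j + 1) : ℂ)‖ = 1 := by
    rw [norm_mul, Circle.norm_coe, Circle.norm_coe, one_mul]
  have h2 : |(hb g c R j u * ((z j : ℂ) * (z (j + 1) : ℂ))).re| ≤ ‖hb g c R j u‖ := by
    refine (Complex.abs_re_le_norm _).trans ?_
    rw [norm_mul, h1, mul_one]
  refine h2.trans ((norm_hb_le g c R j u).trans ?_)
  have h3 : (1 : ℝ) ≤ (1 + |Yf g (j - 1) u|) * (1 + |Yf g (j + 1) u|) := by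
    have h4 := abs_nonneg (Yf g ((j : ℤ) - 1) u)
    have h5 := abs_nonneg (Yf g ((j : ℤ) + 1) u)
    nlinarith [mul_nonneg h4 h5]
  exact div_le_self (by positivity) h3

private theorem PCZ_term (k : ℕ) (g : ℤ → E 2) (u : E 2) (j : ℕ) :
    0 ≤ ((1 + ‖u‖ ^ 2) * (1 + |Yf g j u|))⁻¹ := by
  positivity

private theorem PCZ_eE (k : ℕ) (g : ℤ → E 2) {R : ℝ} (hR : 1 ≤ R) (u : E 2) {j : ℕ} (hj : j < k) :
    ((1 + ‖u‖ ^ 2) * (1 + |Yf g j u|))⁻¹ ≤ eE k g R u := by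
  unfold eE
  have h1 := Finset.single_le_sum (f := fun j : ℕ => ((1 + ‖u‖ ^ 2) * (1 + |Yf g j u|))⁻¹)
    (fun j _ => PCZ_term k g u j) (Finset.mem_range.2 hj)
  have h2 : 0 ≤ (R * (1 + ‖u‖))⁻¹ := by
    have := norm_nonneg u
    positivity
  have h3 : ((1 + ‖u‖ ^ 2) * (1 + |Yf g j u|))⁻¹ ≤
      ∑ j ∈ Finset.range k, ((1 + ‖u‖ ^ 2) * (1 + |Yf g j u|))⁻¹ := h1
  linarith

theorem pcz (h : Zon k g) {l : ℕ} (hl1 : 1 ≤ l) (hl2 : l ≤ 2) (c : ℝ) :
    ∃ CE c2 : ℝ, 0 < CE ∧ 0 < c2 ∧ ∀ R : ℝ, 1 ≤ R →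
    ∀ u : E 2, ∃ a : Jx → ℂ, ∀ z, Ph k z → Zt k g z u = 0 →
      0 < hp k g c R z u + ipg (FZ k g) (moz l) a z + ez k g R CE c2 u := by
  have hk := h.hk
  obtain ⟨CE0, c2, hCE0, hc2, off⟩ := poffz h hl1 hl2 c
  obtain ⟨C1, hC1, on⟩ := ponz h l c
  obtain ⟨L, hL0, -, hL⟩ := h.norm_le
  set B : ℝ := ∑ j ∈ Finset.range k, 18 * |bq g j| with hB
  have hB0 : 0 ≤ B := Finset.sum_nonneg fun j _ => by positivity
  set CE : ℝ := CE0 + C1 + c2 + 1 + 2 * (1 + L) * (B + c2 + 1) with hCE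
  have hx0 : 0 ≤ 2 * (1 + L) * (B + c2 + 1) := by positivity
  refine ⟨CE, c2, by positivity, hc2, fun R hR u => ?_⟩
  have hCEpos : 0 < CE := by positivity
  have hu0 := norm_nonneg u
  have hE0 : 0 ≤ eE k g R u := (PCZ_term k g u 0).trans (PCZ_eE k g hR u (by omega))
  by_cases hu : ‖u‖ ≤ 1
  · refine ⟨0, fun z _ _ => ?_⟩
    have e1 : ipg (FZ k g) (moz l) 0 z = 0 := ipg_zero z
    have e2 := PCZ_hp k g c R z u
    have e3 := neg_abs_le (hp k g c R z u)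
    have e4 := PCZ_eE k g hR u (j := 0) (by omega)
    have e5 : (2 * (1 + L))⁻¹ ≤ ((1 + ‖u‖ ^ 2) * (1 + |Yf g (0 : ℕ) u|))⁻¹ := by
      apply inv_anti₀ (by positivity)
      have f1 : |Yf g (0 : ℕ) u| ≤ L := (hL u _).trans (by nlinarith)
      have f2 : ‖u‖ ^ 2 ≤ 1 := by nlinarith
      have f3 := abs_nonneg (Yf g (0 : ℕ) u)
      nlinarith [mul_nonneg (sub_nonneg.2 f2) (add_nonneg zero_le_one f3)]
    have e6 : B + c2 + 1 ≤ CE * eE k g R u := by
      have f1 : (2 * (1 + L))⁻¹ ≤ eE k g R u := e5.trans e4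
      have f2 : 2 * (1 + L) * (B + c2 + 1) * (2 * (1 + L))⁻¹ ≤ CE * eE k g R u := by
        refine mul_le_mul ?_ f1 (by positivity) hCEpos.le
        linarith
      have f3 : 2 * (1 + L) * (B + c2 + 1) * (2 * (1 + L))⁻¹ = B + c2 + 1 := by
        field_simp
      linarith
    have e7 : c2 / (1 + ‖u‖ ^ 2) ≤ c2 := div_le_self hc2.le (by nlinarith [sq_nonneg ‖u‖])
    unfold ez
    rw [e1]
    linarith
  · push Not at hu
    have hs : 0 < ‖u‖ ^ 2 := by positivity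
    by_cases hj : ∃ j, Yf g j u = 0
    · obtain ⟨a, ha⟩ := on R hR u hu.le hj
      refine ⟨a, fun z hz hZ => ?_⟩
      obtain ⟨j, hj⟩ := hj
      obtain ⟨i, hi, he⟩ := exists_per k (by omega) (fun j => |Yf g j u|)
        (fun j => h.abs_Yf_per u j) j
      have he' : |Yf g i u| = 0 := by
        have : |Yf g j u| = |Yf g i u| := he
        rw [← this, hj, abs_zero]
      have e4 := PCZ_eE k g hR u hi
      rw [he', add_zero, mul_one] at e4
      have e5 : CE * (1 + ‖u‖ ^ 2)⁻¹ ≤ CE * eE k g R u := mul_le_mul_of_nonneg_left e4 hCEpos.le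
      have e6 := ha z hz hZ
      have e7 : 0 < (CE - C1 - c2) * (1 + ‖u‖ ^ 2)⁻¹ := by
        refine mul_pos ?_ (by positivity)
        linarith
      unfold ez
      rw [div_eq_mul_inv] at e6 ⊢
      nlinarith
    · push Not at hj
      obtain ⟨a, ha⟩ := off R hR u hu.le hj
      refine ⟨a, fun z hz hZ => ?_⟩
      have e6 := ha z hz hZ
      have e7 : c2 / (1 + ‖u‖ ^ 2) < c2 / ‖u‖ ^ 2 :=
        div_lt_div_of_pos_left hc2 hs (by linarith)
      have e8 : CE0 * eE k g R u ≤ CE * eE k g R u := by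
        refine mul_le_mul_of_nonneg_right ?_ hE0
        linarith
      unfold ez
      linarith

end Pool.Agent.MPbd65ca.Zo
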