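import Pool.Agent.Lib.MP_bd65ca_an.Pg.Inner

/-!
# The Turán problem for zonotopes: the special frequency

PROOF. `vx k g 0 = -(1/2) ∑_{i<k} g i`.  If `vx 0 + g 1 = 0` and `vx 0 + g 2 = 0` then
`g 1 = g 2`, but `dt (g 1) (g 2) > 0`; so one of them is not `0`; let `l ∈ {1, 2}` be this index.
`l + 1 < k`.
`w = vx 0 + g l = ∑_{i<k} e i • g i` with `e l = 1/2`, `e i = -1/2` otherwise.  By `Zon.gam_rel`
(file Pg/Basic.lean) `g (l-1) / tau l + g (l+1) / tau (l+1) = gam l • g l`, with `tau > 0` and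
`gam l = dt (g (l-1)) (g (l+1)) / (tau l * tau (l+1)) > 0`.  So for every `τ`
`w = w - τ • (gam l • g l - (tau l)⁻¹ • g (l-1) - (tau (l+1))⁻¹ • g (l+1))`, which has the
coefficients `1/2 - τ gam l` at `l`, `-1/2 + τ / tau l` at `l - 1`, `-1/2 + τ / tau (l+1)` at
`l + 1`; for small `τ > 0` all coefficients are in `[-1/2, 1/2]` and these three are in the open
interval.  Use `Zon.int_of_coeff` with `i = 0`, `l₁ = l - 1`, `l₂ = l + 1`.
-/

open MeasureTheory FourierTransform Pointwise Set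
open scoped RealInnerProductSpace

namespace Pool.Agent.MPbd65ca.Zo

open Pool.Agent.MPbd65ca.Pg

variable {k : ℕ} {g : ℤ → E 2}

private lemma SpZ_single (p : ℕ) (hp : p < k) (a : ℝ) (v : ℕ → E 2) :
    ∑ l ∈ Finset.range k, (if l = p then a else 0) • v l = a • v p := by
  rw [Finset.sum_eq_single_of_mem p (Finset.mem_range.2 hp)]
  · rw [if_pos rfl]
  · intro l _ hl
    rw [if_neg hl, zero_smul]

private lemma SpZ_int (h : Zon k g) (m : ℕ) (hm : m + 2 < k) :
    vx k g 0 + g ((m + 1 : ℕ) : ℤ) ∈ interior (zg k g) := by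
  have hk := h.hk
  have hrel := h.gam_rel ((m + 1 : ℕ) : ℤ)
  have e1 : ((m + 1 : ℕ) : ℤ) - 1 = (m : ℤ) := by push_cast; ring
  have e2 : ((m + 1 : ℕ) : ℤ) + 1 = ((m + 2 : ℕ) : ℤ) := by push_cast; ring
  have ha0 : 0 < (tau g ((m + 1 : ℕ) : ℤ))⁻¹ := inv_pos.2 (h.tau_pos _)
  have hb0 : 0 < (tau g (((m + 1 : ℕ) : ℤ) + 1))⁻¹ := inv_pos.2 (h.tau_pos _)
  have hc0 : 0 < gam g ((m + 1 : ℕ) : ℤ) := by
    unfold gam
    refine div_pos (h.pos _ _ (by omega) (by omega)) (mul_pos (h.tau_pos _) (h.tau_pos _))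
  rw [e1, e2] at hrel
  rw [e2] at hb0
  generalize (tau g ((m + 1 : ℕ) : ℤ))⁻¹ = a at hrel ha0
  generalize (tau g ((m + 2 : ℕ) : ℤ))⁻¹ = b at hrel hb0
  generalize gam g ((m + 1 : ℕ) : ℤ) = c at hrel hc0
  have hS : 0 < 1 + a + b + c := by positivity
  obtain ⟨t, ht0, hta, htb, htc⟩ : ∃ t : ℝ, 0 < t ∧ t * a < 1 ∧ t * b < 1 ∧ t * c < 1 := by
    refine ⟨(1 + a + b + c)⁻¹, inv_pos.2 hS, ?_, ?_, ?_⟩ <;>
    · rw [inv_mul_lt_iff₀ hS]
      linarith
  have hta0 : 0 < t * a := mul_pos ht0 ha0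
  have htb0 : 0 < t * b := mul_pos ht0 hb0
  have htc0 : 0 < t * c := mul_pos ht0 hc0
  set lam : ℕ → ℝ := fun i => -(1 / 2) + (if i = m then t * a else 0) +
    (if i = m + 2 then t * b else 0) + (if i = m + 1 then 1 - t * c else 0) with hlam
  have lamd : ∀ i, lam i = -(1 / 2) + (if i = m then t * a else 0) +
    (if i = m + 2 then t * b else 0) + (if i = m + 1 then 1 - t * c else 0) := fun i => rfl
  have l0 : lam m = -(1 / 2) + t * a := by
    rw [lamd, if_pos rfl, if_neg (by omega : ¬ m = m + 2), if_neg (by omega : ¬ m = m + 1)]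
    ring
  have l1 : lam (m + 1) = 1 / 2 - t * c := by
    rw [lamd, if_neg (by omega : ¬ m + 1 = m), if_neg (by omega : ¬ m + 1 = m + 2), if_pos rfl]
    ring
  have l2 : lam (m + 2) = -(1 / 2) + t * b := by
    rw [lamd, if_neg (by omega : ¬ m + 2 = m), if_pos rfl, if_neg (by omega : ¬ m + 2 = m + 1)]
    ring
  have l3 : ∀ i, i ≠ m → i ≠ m + 1 → i ≠ m + 2 → lam i = -(1 / 2) := by
    intro i h0 h1 h2
    rw [lamd, if_neg h0, if_neg h2, if_neg h1]
    ring
  have hsum : ∑ i ∈ Finset.range k, lam i • g (0 + i) = vx k g 0 + g ((m + 1 : ℕ) : ℤ) := by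
    have e3 : ∑ i ∈ Finset.range k, lam i • g (0 + i) =
        vx k g 0 + (t * a) • g (m : ℤ) + (t * b) • g ((m + 2 : ℕ) : ℤ) +
          (1 - t * c) • g ((m + 1 : ℕ) : ℤ) := by
      have f1 := SpZ_single m (by omega : m < k) (t * a) (fun i => g (0 + i))
      have f2 := SpZ_single (m + 2) (by omega : m + 2 < k) (t * b) (fun i => g (0 + i))
      have f3 := SpZ_single (m + 1) (by omega : m + 1 < k) (1 - t * c) (fun i => g (0 + i))
      simp only [zero_add] at f1 f2 f3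
      simp only [hlam, add_smul, Finset.sum_add_distrib, zero_add]
      rw [f1, f2, f3]
      unfold vx
      rw [Finset.smul_sum]
      simp only [zero_add]
    rw [e3]
    have e4 : (t * a) • g (m : ℤ) + (t * b) • g ((m + 2 : ℕ) : ℤ) =
        (t * c) • g ((m + 1 : ℕ) : ℤ) := by
      rw [← smul_smul, ← smul_smul, ← smul_smul, ← smul_add, hrel]
    rw [add_assoc (vx k g 0), e4, sub_smul, one_smul]
    abel
  rw [← hsum]
  refine h.int_of_coeff 0 lam (fun i _ => ?_) (l₁ := m) (l₂ := m + 2) (by omega) hm (by omega)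
    ?_ ?_
  · by_cases h0 : i = m
    · rw [h0, l0, abs_le]
      constructor <;> linarith
    · by_cases h1 : i = m + 1
      · rw [h1, l1, abs_le]
        constructor <;> linarith
      · by_cases h2 : i = m + 2
        · rw [h2, l2, abs_le]
          constructor <;> linarith
        · rw [l3 i h0 h1 h2, abs_neg, abs_of_pos (by norm_num)]
  · rw [l0, abs_lt]
    constructor <;> linarith
  · rw [l2, abs_lt]
    constructor <;> linarith

theorem exists_sp (h : Zon k g) : ∃ l : ℕ, 1 ≤ l ∧ l ≤ 2 ∧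
    vx k g 0 + g l ∈ interior (zg k g) ∧ vx k g 0 + g l ≠ 0 := by
  have hk := h.hk
  by_cases h1 : vx k g 0 + g ((1 : ℕ) : ℤ) = 0
  · refine ⟨2, by norm_num, le_rfl, SpZ_int h 1 (by omega), fun h2 => ?_⟩
    have h3 : g ((1 : ℕ) : ℤ) = g ((2 : ℕ) : ℤ) := add_left_cancel (h1.trans h2.symm)
    have h4 := h.pos ((1 : ℕ) : ℤ) ((2 : ℕ) : ℤ) (by norm_num) (by push_cast; omega)
    rw [h3, dt_self] at h4
    exact lt_irrefl _ h4
  · exact ⟨1, le_rfl, by norm_num, SpZ_int h 0 (by omega), h1⟩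

end Pool.Agent.MPbd65ca.Zo
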