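import Pool.Agent.Lib.MP_bd65ca_an_Z.NonnegZ
import Pool.Agent.Lib.MP_bd65ca_an_Z.MainV
import Pool.Agent.Lib.MP_bd65ca_an_Z.Maj
import Pool.Agent.Lib.MP_bd65ca_an_Z.PCZ
import Pool.Agent.Lib.MP_bd65ca_an_Z.SpZ
import Pool.Agent.Lib.MP_bd65ca_an_Z.Bump3
import Pool.Agent.Lib.MP_bd65ca_an.Pg.PertG
import Pool.Agent.Lib.MP_bd65ca_an.Pg.Final

/-!
# The Turán problem for zonotopes: zonotopes with a long belt in normal form

PROOF. `l` from `exists_sp`, `l < k`.  `c` from `D.main_v`; the profile from `exists_profg`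
(`continuous_moz`, `pcz`).  `I = ∫ (Ψ^2 tp0 + M Ψ) < 0` (`pr.neg`), `γ = -I`, `I0 = ∫ cosT G ^2 > 0`
(`D.int_gam`).  `W = zono g` is a body (`D.isBody`), `0` is in the interior of `W + W`: let
`closedBall 0 r ⊆ W + W`, `r > 0`.  `B` from `exists_maj D.span` with `δ = r/4`, `Φ` from
`exists_bump3 S`, `B2` from `exists_B2`, `A₁` from `ex_van`.  `IB = ∫ B > 0`, `IΦ = ∫ Φ ≥ 0`.
Choose `A' ≥ A₁` with `2 B2 IΦ ∫ B y ∑ (1 - sinc^2) ≤ γ I0 / 4` (`int_tail`), then `ε > 0` with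
`ε IΦ IB ≤ γ I0 / 4`, `θ` between `θ₀` and `1` from `nonneg_z`, `A ≥ max A₀ A₁`, and `T` with `T ≥ T₀`
(`main_v`), `T ≥ A₁`, `3 B2 IB ∑_i ∫ Φ sinc^2 ≤ γ I0 / 4` (`int_line`; `gh i ≠ 0` because
`dt (gh i) (gh (i+1)) > 0`) and `|W| (-(γ I0 / 4) T^2) < G(0)`, where
`G = G0 + EX`; `G(0)` does not depend on `T` (`T⁻¹ • 0 = 0`).  `∫ G ≤ -γ (∫ Γ) T² + (3/4) γ I0 T² ≤
-(γ I0/4) T²` since `∫ Γ ≥ I0`.  `pertG` (Pg/PertG.lean) with `nonneg_z`.
`turan_of_zd`: as `turan_of_zon` in Pg/Final.lean (`turan_le_integral`, `K = W + W = 2 W`,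
`vol K = 2^d vol W`).
-/

open MeasureTheory FourierTransform Pointwise Set Filter Topology
open scoped RealInnerProductSpace

namespace Pool.Agent.MPbd65ca.Zo

open Pool.Agent.MPbd65ca.Pg Pool.Agent.MPbd65ca.ProdAux

variable {k m p q : ℕ} {gh : ℤ → E 2} {cl : Fin p → ℕ} {rho : Fin p → ℝ}
  {g : Fin (p + q) → E (2 + m)}

private theorem FinZ_fst_zero : (fstE (0 : E (2 + m)) : E 2) = 0 := by
  ext i
  simp [fstE]

private theorem FinZ_ev {f : ℝ → ℝ} (hf : Tendsto f atTop (𝓝 0)) (a : ℝ) {η : ℝ} (hη : 0 < η) :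
    ∀ᶠ x in atTop, a * f x < η := by
  have h := hf.const_mul a
  rw [mul_zero] at h
  exact h.eventually_lt_const hη

private theorem FinZ_scale {w η g0 : ℝ} (hw : 0 < w) (hη : 0 < η) :
    ∀ᶠ T : ℝ in atTop, w * (-(η * T ^ 2)) < g0 := by
  have h2 : Tendsto (fun T : ℝ => T ^ 2) atTop atTop := tendsto_pow_atTop two_ne_zero
  have h3 : Tendsto (fun T : ℝ => (w * -η) * T ^ 2) atTop atBot :=
    h2.const_mul_atTop_of_neg (mul_neg_of_pos_of_neg hw (by linarith))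
  filter_upwards [h3.eventually_lt_atBot g0] with T hT
  have e : w * (-(η * T ^ 2)) = (w * -η) * T ^ 2 := by ring
  rw [e]
  exact hT

theorem ZD.main (D : ZD k m p q gh cl rho g) :
    ∃ F ∈ cls (zono g + zono g), ∫ x, F x < 1 / volume.real (zono g) := by
  obtain ⟨l, hl1, hl2, hint, hne⟩ := exists_sp D.zon
  have hlk : l < k := by
    have := D.zon.hk
    omega
  obtain ⟨c, hc⟩ := D.main_v hlk hint hne
  obtain ⟨R, M, S, C, Ψ, s, b, s0, b0, pr⟩ :=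
    exists_profg (F := FZ k gh) (mo := moz (l : ℤ)) (continuous_moz (l : ℤ)) D.zon c
      (pcz D.zon hl1 hl2 c)
  set I : ℝ := ∫ u : E 2, (Ψ (R⁻¹ • u) ^ 2 * (tp s0 b0 u).re + M * Ψ (R⁻¹ • u)) with hI
  have hneg : I < 0 := pr.neg
  have hW : IsBody (zono g) := D.isBody
  have hpos : 0 < volume.real (zono g) := ScaleAux.vol_pos hW
  have hWW : zono g + zono g = (2 : ℝ) • zono g := Convex.add_self hW.convex
  have h0 : (0 : E (2 + m)) ∈ interior (zono g + zono g) := by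
    rw [hWW]
    exact (hW.smul two_pos).zero_mem
  obtain ⟨r, hr, hball⟩ : ∃ r : ℝ, 0 < r ∧ Metric.closedBall 0 r ⊆ zono g + zono g := by
    obtain ⟨r, hr, h⟩ := Metric.nhds_basis_closedBall.mem_iff.1 (mem_interior_iff_mem_nhds.1 h0)
    exact ⟨r, hr, h⟩
  have hI0 := (D.int_gam (θ := 1) one_pos le_rfl).1
  set I0 : ℝ := ∫ y, cosT (zono (gI g)) y ^ 2 with hI0d
  obtain ⟨B, hBc, hBi, hB0, hBv, hBm⟩ := exists_maj D.span (δ := r / 4) (by positivity)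
  obtain ⟨Φ, hΦc, hΦ0, hΦi, hΦ1, hΦv⟩ := exists_bump3 S
  obtain ⟨B2, hB20, hB2, hB2'⟩ := exists_B2 (l : ℤ) pr
  obtain ⟨A₁, hA₁, hexv⟩ := ex_van k gh hΦv hr hBv
  set IB : ℝ := ∫ y, B y with hIB
  set IP : ℝ := ∫ u, Φ u with hIP
  have hIB0 : 0 ≤ IB := integral_nonneg fun y => (hB0 y).le
  have hIP0 : 0 ≤ IP := integral_nonneg fun u => hΦ0 u
  obtain ⟨η, hη, hηI⟩ : ∃ η : ℝ, 0 < η ∧ I0 * I = -(4 * η) :=
    ⟨-(I0 * I) / 4, by nlinarith [mul_neg_of_pos_of_neg hI0 hneg], by ring⟩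
  obtain ⟨A', hA'1, hA'2⟩ := ((FinZ_ev (int_tail hBi) (2 * B2 * IP) hη).and
    (eventually_ge_atTop A₁)).exists
  have hA'0 : 0 < A' := lt_of_lt_of_le hA₁ hA'2
  obtain ⟨ε, hε, hε2⟩ : ∃ ε : ℝ, 0 < ε ∧ ε * IP * IB ≤ η := by
    refine ⟨η / (IP * IB + 1), by positivity, ?_⟩
    have h1 : 0 ≤ IP * IB := by positivity
    rw [mul_assoc, div_mul_eq_mul_div, div_le_iff₀ (by positivity)]
    nlinarith
  obtain ⟨θ₀, hθ1, hθ2, hθ⟩ := D.nonneg_z (l : ℤ) pr hB20 hB2 hB2' hΦ0 hΦ1 hBc hB0 hBm hA'0 hε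
  obtain ⟨θ, hθa, hθb⟩ : ∃ θ : ℝ, θ₀ ≤ θ ∧ θ < 1 := ⟨θ₀, le_rfl, hθ2⟩
  have hθ0 : 0 < θ := by linarith
  obtain ⟨A₀, hA₀, hnn⟩ := hθ θ hθa hθb
  obtain ⟨T₀, hT₀, hT⟩ := hc R M S C Ψ s b s0 b0 pr θ hθ0 hθb
  set A : ℝ := max A₀ A₁ with hA
  have hAa : A₀ ≤ A := le_max_left _ _
  have hAb : A₁ ≤ A := le_max_right _ _
  have hA0 : 0 < A := lt_of_lt_of_le hA₀ hAa
  set g0 : ℝ := G0 (FZ k gh) (moz (l : ℤ)) k cl g gh c R M Ψ s b s0 b0 θ 1 0 +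
    EX k gh Φ B (3 * B2) (2 * B2) ε A A' 1 0 with hg0
  have hgT : ∀ T : ℝ, G0 (FZ k gh) (moz (l : ℤ)) k cl g gh c R M Ψ s b s0 b0 θ T 0 +
      EX k gh Φ B (3 * B2) (2 * B2) ε A A' T 0 = g0 := by
    intro T
    rw [hg0]
    simp only [G0, EX, FinZ_fst_zero, smul_zero]
  have hline : Tendsto (fun T : ℝ => ∑ i ∈ Finset.range k,
      ∫ u, Φ u * Real.sinc (Real.pi * (⟪gh i, T • u⟫ / (2 * A))) ^ 2) atTop (𝓝 0) := by
    have h1 : Tendsto (fun T : ℝ => ∑ i ∈ Finset.range k,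
        ∫ u, Φ u * Real.sinc (Real.pi * (⟪gh i, T • u⟫ / (2 * A))) ^ 2) atTop
          (𝓝 (∑ i ∈ Finset.range k, (0 : ℝ))) := by
      refine tendsto_finsetSum _ fun i _ => int_line hΦi ?_ hA0
      intro h2
      have h3 := D.zon.pos i (i + 1) (by omega) (by have := D.zon.hk; omega)
      rw [h2, dt_zero_left] at h3
      exact lt_irrefl _ h3
    simpa using h1
  obtain ⟨T, hT1, hT2, hT3, hT4⟩ := ((FinZ_ev hline (3 * B2 * IB) hη).and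
    ((FinZ_scale (g0 := g0) hpos hη).and
      ((eventually_ge_atTop T₀).and (eventually_ge_atTop A₁)))).exists
  have hTpos : 0 < T := lt_of_lt_of_le hT₀ hT3
  obtain ⟨hv, hi⟩ := hT T hT3
  obtain ⟨C', hC', hnn'⟩ := hnn A hAa T hTpos
  have hvE := hexv A A' T hAb hA'2 hT4 (3 * B2) (2 * B2) ε
  have hG0i : Integrable (G0 (FZ k gh) (moz (l : ℤ)) k cl g gh c R M Ψ s b s0 b0 θ T) := by
    have := hv.1.re
    simpa using this
  have hEXi : Integrable (EX k gh Φ B (3 * B2) (2 * B2) ε A A' T : E (2 + m) → ℝ) := by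
    have := hvE.1.re
    simpa using this
  refine pertG (G := fun t => G0 (FZ k gh) (moz (l : ℤ)) k cl g gh c R M Ψ s b s0 b0 θ T t +
    EX k gh Φ B (3 * B2) (2 * B2) ε A A' T t) hW.isCompact hW.neg_mem hpos
    ((continuous_G0 (l : ℤ) pr cl g θ T).add (continuous_EX k gh hΦc hBc _ _ ε A A' T)) ?_ hC'
    hnn' ?_
  · refine (hv.add (hvE.mono hball)).congr fun t => ?_
    push_cast
    rfl
  · rw [hgT T]
    refine lt_of_le_of_lt ?_ hT2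
    refine mul_le_mul_of_nonneg_left ?_ hpos.le
    rw [integral_add hG0i hEXi, hi, ex_int k gh hΦc hΦi hBc hBi (3 * B2) (2 * B2) ε A A' hTpos]
    have hTT : 0 ≤ T ^ 2 := sq_nonneg T
    have h1 : (∫ y, Gm g θ y) * (T ^ 2 * I) ≤ I0 * (T ^ 2 * I) := by
      refine mul_le_mul_of_nonpos_right (D.int_gam hθ0 hθb.le).2 ?_
      exact mul_nonpos_of_nonneg_of_nonpos hTT hneg.le
    have h2 : I0 * (T ^ 2 * I) = T ^ 2 * (-(4 * η)) := by
      rw [← hηI]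
      ring
    have h3 : T ^ 2 * (3 * B2 * (∫ y, B y) * ∑ i ∈ Finset.range k,
          (∫ u, Φ u * Real.sinc (Real.pi * (⟪gh i, T • u⟫ / (2 * A))) ^ 2) +
        2 * B2 * (∫ u, Φ u) *
          (∫ y, B y * ∑ i : Fin m, (1 - Real.sinc (Real.pi * (y i / A')) ^ 2)) +
        ε * (∫ u, Φ u) * ∫ y, B y) ≤ T ^ 2 * (3 * η) := by
      refine mul_le_mul_of_nonneg_left ?_ hTT
      linarith
    linarith

theorem turan_of_main {d n : ℕ} {g : Fin n → E d} (hg : Submodule.span ℝ (range g) = ⊤)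
    (h : ∃ F ∈ cls (zono g + zono g), ∫ x, F x < 1 / volume.real (zono g)) :
    turan (zono g + zono g) < 2 ^ d / volume.real (zono g + zono g) := by
  have hW : IsBody (zono g) := isBody_zono hg
  have hpos : 0 < volume.real (zono g) := ScaleAux.vol_pos hW
  obtain ⟨F, hF, hFi⟩ := h
  refine lt_of_le_of_lt (turan_le_integral hF) (lt_of_lt_of_eq hFi ?_)
  rw [Convex.add_self hW.convex, ScaleAux.vol_smul two_pos]
  field_simp

end Pool.Agent.MPbd65ca.Zo
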