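import Pool.Agent.Lib.MP_bd65ca_an.Perturb
import Pool.Agent.Lib.MP_bd65ca_an.Prod
import Pool.Agent.Lib.MP_bd65ca_an.Pg.VanI
import Pool.Agent.Lib.MP_bd65ca_an.Pg.VanA
import Pool.Agent.Lib.MP_bd65ca_an.Pg.Chi

/-!
# The Turán problem for zonotopes: spectra of products, translates and dilates

PROOF. `van_prod`, `int_prod`: as `fourier_prod`, `prod_cls` in Prod.lean (there for real functions):
integrability `Integrable.mul_prod`, transported by `Phi_mp`; the Fourier transform of the product at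
`ξ` is the product of the Fourier transforms at `fstE ξ`, `sndE ξ`, and one factor vanishes.
`van_mod`: the Fourier transform of `t ↦ 𝐞 ⟪t, v⟫ f t` at `ξ` is that of `f` at `ξ - v`
(see `Vanish.modulate`).  `van_scale`: as `vanish_scale` in Pg/VanA.lean: the transform of
`f (T⁻¹ t)` at `ξ` is `T^d` times that of `f` at `T • ξ`.  `van_inter`: trivial.
`van_sinc`: `sinc (π y)^2` is the integral of `𝐞 ((p.1 - p.2) * y)` over `p ∈ [0,1]²`, so the
function has its spectrum in `closedBall 0 (ρ + ‖e‖)` by `vanish_integral` (VanI.lean) and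
`Vanish.modulate`, `Vanish.mono`.
-/

open MeasureTheory FourierTransform Pointwise Set Filter Topology
open scoped RealInnerProductSpace

namespace Pool.Agent.MPbd65ca.Zo

open Pool.Agent.MPbd65ca.Pg Pool.Agent.MPbd65ca.ProdAux

variable {m n d : ℕ}

private theorem spec_fourier_prod (F : E m → ℂ) (G : E n → ℂ) (ξ : E (m + n)) :
    𝓕 (fun x : E (m + n) => F (fstE x) * G (sndE x)) ξ
      = 𝓕 F (fstE ξ) * 𝓕 G (sndE ξ) := by
  simp only [Real.fourier_eq']
  rw [← integral_prod_mul, ← Measure.volume_eq_prod, ← (Phi_mp (m := m) (n := n)).integral_comp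
    (Phi m n).measurableEmbedding]
  refine integral_congr_ae (Eventually.of_forall fun x => ?_)
  simp only [Phi_apply, smul_eq_mul]
  rw [inner_split]
  push_cast
  rw [mul_add, add_mul, Complex.exp_add]
  ring

theorem van_prod {A : Set (E m)} {B : Set (E n)} {F : E m → ℂ} {G : E n → ℂ} (hF : Vanish A F)
    (hG : Vanish B G) :
    Vanish {ξ : E (m + n) | fstE ξ ∈ A ∧ sndE ξ ∈ B} (fun t => F (fstE t) * G (sndE t)) := by
  refine ⟨?_, fun ξ hξ => ?_⟩
  · have h := hF.1.mul_prod hG.1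
    rw [← Measure.volume_eq_prod, ← (Phi_mp (m := m) (n := n)).integrable_comp_emb
      (Phi m n).measurableEmbedding] at h
    exact h
  · rw [spec_fourier_prod]
    by_cases h : fstE ξ ∈ A
    · have h' : sndE ξ ∉ B := fun h' => hξ ⟨h, h'⟩
      rw [hG.2 _ h', mul_zero]
    · rw [hF.2 _ h, zero_mul]

theorem int_prod (F : E m → ℝ) (G : E n → ℝ) :
    ∫ t : E (m + n), F (fstE t) * G (sndE t) = (∫ x, F x) * ∫ y, G y := by
  rw [← integral_prod_mul, ← Measure.volume_eq_prod, ← (Phi_mp (m := m) (n := n)).integral_comp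
    (Phi m n).measurableEmbedding]
  rfl

theorem van_mod {K : Set (E d)} {f : E d → ℂ} (hf : Vanish K f) (v : E d) :
    Vanish {ξ | ξ - v ∈ K} (fun t => (Real.fourierChar ⟪t, v⟫ : ℂ) * f t) := by
  constructor
  · have := (Real.fourierIntegral_convergent_iff (μ := (volume : Measure (E d))) (f := f)
      (-v)).2 hf.1
    refine this.congr (Eventually.of_forall fun x => ?_)
    simp only [inner_neg_right, neg_neg]
    rw [Circle.smul_def, smul_eq_mul]
  · intro ξ hξ
    have h2 := hf.2 _ hξ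
    rw [Real.fourier_eq] at h2 ⊢
    rw [← h2]
    congr 1
    ext x
    rw [Circle.smul_def, Circle.smul_def, smul_eq_mul, smul_eq_mul, ← mul_assoc,
      ← Circle.coe_mul, ← AddChar.map_add_eq_mul]
    congr 3
    rw [inner_sub_right]
    ring

theorem van_scale {K : Set (E d)} {f : E d → ℂ} (hf : Vanish K f) {T : ℝ} (hT : 0 < T) :
    Vanish {ξ | T • ξ ∈ K} (fun t => f (T⁻¹ • t)) := by
  refine ⟨hf.1.comp_smul (inv_ne_zero hT.ne'), fun ξ hξ => ?_⟩
  have h2 := hf.2 _ hξ
  rw [Real.fourier_eq] at h2 ⊢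
  have h3 : ∀ v : E d, 𝐞 (-⟪v, ξ⟫) • f (T⁻¹ • v) =
      (fun y => 𝐞 (-⟪y, T • ξ⟫) • f y) (T⁻¹ • v) := by
    intro v
    have h4 : ⟪T⁻¹ • v, T • ξ⟫ = ⟪v, ξ⟫ := by
      rw [real_inner_smul_left, real_inner_smul_right, ← mul_assoc, inv_mul_cancel₀ hT.ne',
        one_mul]
    simp only [h4]
  rw [integral_congr_ae (Eventually.of_forall h3)]
  have h5 := Measure.integral_comp_inv_smul (volume : Measure (E d))
    (fun y => 𝐞 (-⟪y, T • ξ⟫) • f y) T
  rw [h2, smul_zero] at h5
  exact h5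

theorem van_inter {K K' : Set (E d)} {f : E d → ℂ} (hf : Vanish K f) (hf' : Vanish K' f) :
    Vanish (K ∩ K') f := by
  refine ⟨hf.1, fun ξ hξ => ?_⟩
  by_cases h : ξ ∈ K
  · exact hf'.2 ξ fun h' => hξ ⟨h, h'⟩
  · exact hf.2 ξ h

private theorem spec_one (y : ℝ) :
    ∫ ω in Icc (0 : ℝ) 1, (Real.fourierChar (ω * y) : ℂ) =
      Complex.exp ((Real.pi * y : ℝ) * Complex.I) * (Real.sinc (Real.pi * y) : ℂ) := by
  rw [integral_Icc_eq_integral_Ioc, ← intervalIntegral.integral_of_le zero_le_one]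
  by_cases hy : y = 0
  · subst hy
    simp
  · have hpy : Real.pi * y ≠ 0 := mul_ne_zero Real.pi_ne_zero hy
    have hc : (2 * Real.pi * y : ℂ) * Complex.I ≠ 0 := by
      have h1 : (Real.pi : ℂ) ≠ 0 := Complex.ofReal_ne_zero.2 Real.pi_ne_zero
      have h2 : (y : ℂ) ≠ 0 := Complex.ofReal_ne_zero.2 hy
      exact mul_ne_zero (mul_ne_zero (mul_ne_zero two_ne_zero h1) h2) Complex.I_ne_zero
    have h1 : ∀ ω : ℝ, (Real.fourierChar (ω * y) : ℂ) =
        Complex.exp (((2 * Real.pi * y : ℂ) * Complex.I) * ω) := by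
      intro ω
      rw [Real.fourierChar_apply]
      congr 1
      push_cast
      ring
    simp_rw [h1]
    rw [integral_exp_mul_complex hc, Real.sinc_of_ne_zero hpy, Complex.ofReal_div,
      Complex.ofReal_sin, Complex.sin]
    simp only [Complex.ofReal_one, Complex.ofReal_zero, mul_one, mul_zero, Complex.exp_zero]
    have h2 : Complex.exp ((2 * Real.pi * y : ℂ) * Complex.I) =
        Complex.exp ((Real.pi * y : ℝ) * Complex.I) *
          Complex.exp ((Real.pi * y : ℝ) * Complex.I) := by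
      rw [← Complex.exp_add]
      congr 1
      push_cast
      ring
    have h3 : Complex.exp (-((Real.pi * y : ℝ) : ℂ) * Complex.I) *
        Complex.exp ((Real.pi * y : ℝ) * Complex.I) = 1 := by
      rw [← Complex.exp_add]
      rw [show -((Real.pi * y : ℝ) : ℂ) * Complex.I + ((Real.pi * y : ℝ) : ℂ) * Complex.I = 0 by
        ring, Complex.exp_zero]
    rw [h2]
    set X := Complex.exp ((Real.pi * y : ℝ) * Complex.I) with hX
    set Y := Complex.exp (-((Real.pi * y : ℝ) : ℂ) * Complex.I) with hY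
    have hpiy : ((Real.pi * y : ℝ) : ℂ) ≠ 0 := Complex.ofReal_ne_zero.2 hpy
    have hI : Complex.I * Complex.I = -1 := Complex.I_mul_I
    rw [show (2 * Real.pi * y : ℂ) * Complex.I = 2 * ((Real.pi * y : ℝ) : ℂ) * Complex.I by
      push_cast; ring]
    rw [div_eq_iff (by
      refine mul_ne_zero (mul_ne_zero two_ne_zero hpiy) Complex.I_ne_zero)]
    field_simp
    linear_combination h3 + (X * (X - Y)) * hI

private theorem spec_sq (y : ℝ) :
    ∫ p in Icc (0 : ℝ × ℝ) 1, (Real.fourierChar ((p.1 - p.2) * y) : ℂ) =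
      ((Real.sinc (Real.pi * y) ^ 2 : ℝ) : ℂ) := by
  have h1 : ∀ p : ℝ × ℝ, (Real.fourierChar ((p.1 - p.2) * y) : ℂ) =
      (Real.fourierChar (p.1 * y) : ℂ) * (Real.fourierChar (p.2 * (-y)) : ℂ) := by
    intro p
    rw [← Circle.coe_mul, ← AddChar.map_add_eq_mul]
    congr 2
    ring
  simp_rw [h1]
  rw [Icc_prod_eq, Measure.volume_eq_prod]
  have h2 := setIntegral_prod_mul (μ := (volume : Measure ℝ)) (ν := (volume : Measure ℝ))
    (fun ω : ℝ => (Real.fourierChar (ω * y) : ℂ))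
    (fun ω : ℝ => (Real.fourierChar (ω * (-y)) : ℂ)) (Icc (0 : ℝ) 1) (Icc (0 : ℝ) 1)
  refine h2.trans ?_
  rw [spec_one, spec_one, mul_neg, Real.sinc_neg]
  have h3 : Complex.exp ((Real.pi * y : ℝ) * Complex.I) *
      Complex.exp ((-(Real.pi * y) : ℝ) * Complex.I) = 1 := by
    rw [← Complex.exp_add]
    rw [show ((Real.pi * y : ℝ) : ℂ) * Complex.I + ((-(Real.pi * y) : ℝ) : ℂ) * Complex.I = 0 by
      push_cast; ring, Complex.exp_zero]
  push_cast at h3 ⊢
  linear_combination ((Real.sinc (Real.pi * y) : ℂ) ^ 2) * h3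

theorem van_sinc {ρ : ℝ} {f : E d → ℂ} (hf : Vanish (Metric.closedBall 0 ρ) f) (e : E d) :
    Vanish (Metric.closedBall 0 (ρ + ‖e‖))
      (fun t => ((Real.sinc (Real.pi * ⟪t, e⟫) ^ 2 : ℝ) : ℂ) * f t) := by
  have hm : Continuous (fun _ : ℝ × ℝ => (1 : ℂ)) := continuous_const
  have hw : Continuous (fun p : ℝ × ℝ => (p.1 - p.2) • e) := by fun_prop
  have hv : ∀ p ∈ Icc (0 : ℝ × ℝ) 1, Vanish (Metric.closedBall 0 (ρ + ‖e‖))
      (fun x => (Real.fourierChar ⟪x, (p.1 - p.2) • e⟫ : ℂ) * f x) := by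
    intro p hp
    have hp1 : |p.1 - p.2| ≤ 1 := by
      have h1 := hp.1.1
      have h2 := hp.1.2
      have h3 := hp.2.1
      have h4 := hp.2.2
      simp only [Prod.fst_zero, Prod.snd_zero, Prod.fst_one, Prod.snd_one] at h1 h2 h3 h4
      rw [abs_le]
      constructor <;> linarith
    refine ((hf.modulate ((p.1 - p.2) • e)).mono ?_).congr fun x => ?_
    · intro ξ hξ
      rw [mem_closedBall_iff_norm] at hξ
      rw [mem_closedBall_zero_iff]
      have h1 : ξ = (ξ - (p.1 - p.2) • e) + (p.1 - p.2) • e := by abel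
      rw [h1]
      refine (norm_add_le _ _).trans (add_le_add hξ ?_)
      rw [norm_smul, Real.norm_eq_abs]
      exact mul_le_of_le_one_left (norm_nonneg _) hp1
    · rw [Circle.smul_def, smul_eq_mul]
  refine (vanish_integral hf.1 hm hw hv).congr fun t => ?_
  rw [← spec_sq, ← integral_mul_const]
  refine integral_congr_ae (Eventually.of_forall fun p => ?_)
  simp only [one_mul, real_inner_smul_right]

end Pool.Agent.MPbd65ca.Zo
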