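import Pool.Agent.Lib.MP_bd65ca_an_Z.Room
import Pool.Agent.Lib.MP_bd65ca_an_Z.Spec
import Pool.Agent.Lib.MP_bd65ca_an.CosT
import Pool.Agent.Lib.MP_bd65ca_an.Dense

/-!
# The Turán problem for zonotopes: the factor in the direction of the belt face

`Γ y = cosT G (θ • y) ^ 2`, `G = zono (gI g)`, has its spectrum in `θ • (G + G)`.

PROOF. `cosT_props` for `G` (`isCompact_zono`, `neg_mem_zono`): `Vanish (G + G) (cosT G ^ 2)`;
`van_scale` with `T = θ⁻¹` gives the spectrum `{y | θ⁻¹ • y ∈ G + G}`, and `G + G = 2 G`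
(`G` convex: `Convex.add_self` in Dense.lean), so `y = (2θ) • w`.  `van_gam`: `van_mod` and `van_prod`:
`F (fstE t) * Γ (sndE t) * 𝐞 ⟪t, X⟫ = (F (fstE t) * 𝐞 ⟪fstE t, fstE X⟫) *
(Γ (sndE t) * 𝐞 ⟪sndE t, sndE X⟫)` by `inner_split`.
`int_gam`: `Measure.integral_comp_smul`-type substitution (`finrank (E m) = m`):
`∫ cosT G (θ • y)^2 dy = (θ^m)⁻¹ ∫ cosT G^2`; `θ ≤ 1` gives `≥`, and `∫ cosT G^2 > 0` because
`cosT G` is continuous with `cosT G 0 = volume.real G > 0` (`D.span`, `isBody_zono`, `ScaleAux.vol_pos`).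
`gam_unif`: `cosT G` is continuous, so `(θ, y) ↦ cosT G (θ • y)^2` is uniformly continuous on
`[1/2, 1] × closedBall 0 V` (compact): for `θ` near `1` it is close to its value at `θ = 1`
(`IsCompact.uniformContinuousOn_of_continuous`, or a `tendstoUniformly` lemma for a compact
parameter space).
-/

open MeasureTheory FourierTransform Pointwise Set Filter Topology
open scoped RealInnerProductSpace

namespace Pool.Agent.MPbd65ca.Zo

open Pool.Agent.MPbd65ca.Pg Pool.Agent.MPbd65ca.ProdAux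

variable {k m p q : ℕ} {gh : ℤ → E 2} {cl : Fin p → ℕ} {rho : Fin p → ℝ}
  {g : Fin (p + q) → E (2 + m)}

/-- The factor in the direction of the belt face. -/
noncomputable def Gm (g : Fin (p + q) → E (2 + m)) (θ : ℝ) (y : E m) : ℝ :=
  cosT (zono (gI g)) (θ • y) ^ 2

private theorem props (g : Fin (p + q) → E (2 + m)) :
    Continuous (cosT (zono (gI g))) ∧ cosT (zono (gI g)) 0 = volume.real (zono (gI g)) ∧
    Integrable (fun x => cosT (zono (gI g)) x ^ 2) ∧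
    ∫ x, cosT (zono (gI g)) x ^ 2 ≤ volume.real (zono (gI g)) ∧
    Vanish (zono (gI g) + zono (gI g)) (fun x => ((cosT (zono (gI g)) x ^ 2 : ℝ) : ℂ)) :=
  cosT_props (isCompact_zono (gI g)) (neg_mem_zono (gI g))

theorem continuous_Gm (g : Fin (p + q) → E (2 + m)) (θ : ℝ) : Continuous (Gm g θ) :=
  ((props g).1.comp (continuous_const_smul θ)).pow 2

theorem van_Gm (g : Fin (p + q) → E (2 + m)) {θ : ℝ} (hθ : 0 < θ) :
    Vanish (Tw g θ 0) (fun y => (Gm g θ y : ℂ)) := by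
  have h1 := (props g).2.2.2.2
  have h2 := van_scale h1 (T := θ⁻¹) (inv_pos.2 hθ)
  have h3 : {ξ : E m | θ⁻¹ • ξ ∈ zono (gI g) + zono (gI g)} ⊆ Tw g θ 0 := by
    intro ξ hξ
    rw [Set.mem_ofPred_eq, Convex.add_self (convex_zono (gI g))] at hξ
    obtain ⟨w, hw, hw2⟩ := hξ
    refine ⟨w, hw, ?_⟩
    have h4 : θ • θ⁻¹ • ξ = ξ := by rw [smul_smul, mul_inv_cancel₀ hθ.ne', one_smul]
    rw [sub_zero, ← h4, ← hw2]
    simp only [smul_smul]
    rw [mul_comm]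
  refine (h2.mono h3).congr fun y => ?_
  simp only [Gm, inv_inv]

theorem van_gam {θ : ℝ} (hθ : 0 < θ) (X : E (2 + m)) {A : Set (E 2)} {F : E 2 → ℂ}
    (hF : Vanish A (fun s => F s * (Real.fourierChar ⟪s, fstE X⟫ : ℂ))) :
    Vanish {ξ : E (2 + m) | fstE ξ ∈ A ∧ sndE ξ ∈ Tw g θ (sndE X)}
      (fun t => (Gm g θ (sndE t) : ℂ) * (F (fstE t) * (Real.fourierChar ⟪t, X⟫ : ℂ))) := by
  have h1 := van_prod hF (van_mod (van_Gm g hθ) (sndE X))
  refine (h1.mono ?_).congr fun t => ?_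
  · rintro ξ ⟨hξ1, w, hw, hw2⟩
    refine ⟨hξ1, w, hw, ?_⟩
    rw [← hw2, sub_zero]
  · rw [inner_split t X, AddChar.map_add_eq_mul, Circle.coe_mul]
    ring

theorem ZD.int_gam (D : ZD k m p q gh cl rho g) {θ : ℝ} (hθ : 0 < θ) (hθ1 : θ ≤ 1) :
    0 < ∫ y, cosT (zono (gI g)) y ^ 2 ∧ ∫ y, cosT (zono (gI g)) y ^ 2 ≤ ∫ y, Gm g θ y := by
  have h1 := (props g).1
  have h2 := (props g).2.1
  have h3 := (props g).2.2.1
  have h4 : 0 < volume.real (zono (gI g)) := ScaleAux.vol_pos (isBody_zono D.span)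
  have h5 : 0 < ∫ y, cosT (zono (gI g)) y ^ 2 := by
    rw [integral_pos_iff_support_of_nonneg (fun y => sq_nonneg _) h3]
    refine IsOpen.measure_pos volume (h1.pow 2).isOpen_support ⟨0, ?_⟩
    rw [Function.mem_support, h2]
    positivity
  refine ⟨h5, ?_⟩
  have h6 := Measure.integral_comp_smul (volume : Measure (E m))
    (fun y => cosT (zono (gI g)) y ^ 2) θ
  have h7 : ∫ y, Gm g θ y = |(θ ^ m)⁻¹| * ∫ y, cosT (zono (gI g)) y ^ 2 := by
    rw [finrank_euclideanSpace_fin, smul_eq_mul] at h6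
    exact h6
  rw [h7]
  have h8 : 1 ≤ |(θ ^ m)⁻¹| := by
    rw [abs_of_pos (by positivity)]
    exact (one_le_inv₀ (by positivity)).2 (pow_le_one₀ hθ.le hθ1)
  nlinarith

theorem gam_unif (g : Fin (p + q) → E (2 + m)) (V : ℝ) {ε : ℝ} (hε : 0 < ε) :
    ∃ θ₀ : ℝ, 1 / 2 ≤ θ₀ ∧ θ₀ < 1 ∧ ∀ θ : ℝ, θ₀ ≤ θ → θ ≤ 1 → ∀ y : E m, ‖y‖ ≤ V →
      |Gm g θ y - cosT (zono (gI g)) y ^ 2| ≤ ε := by
  have h1 := (props g).1
  have h2 : Continuous fun x : ℝ × E m => cosT (zono (gI g)) (x.1 • x.2) ^ 2 :=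
    (h1.comp (continuous_fst.smul continuous_snd)).pow 2
  have h3 : IsCompact (Icc (0 : ℝ) 1 ×ˢ Metric.closedBall (0 : E m) V) :=
    isCompact_Icc.prod (isCompact_closedBall 0 V)
  have h4 := h3.uniformContinuousOn_of_continuous h2.continuousOn
  obtain ⟨δ, hδ, h5⟩ := Metric.uniformContinuousOn_iff.1 h4 ε hε
  refine ⟨max (1 / 2) (1 - δ / 2), le_max_left _ _, max_lt (by norm_num) (by linarith), ?_⟩
  intro θ hθ hθ1 y hy
  have h6 : 1 / 2 ≤ θ := (le_max_left _ _).trans hθ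
  have h7 : 1 - δ / 2 ≤ θ := (le_max_right _ _).trans hθ
  have hy2 : y ∈ Metric.closedBall (0 : E m) V := by rwa [mem_closedBall_zero_iff]
  have h8 := h5 (θ, y) ⟨⟨by linarith, hθ1⟩, hy2⟩ (1, y) ⟨⟨zero_le_one, le_rfl⟩, hy2⟩ (by
    rw [Prod.dist_eq, dist_self, Real.dist_eq]
    refine max_lt ?_ hδ
    rw [abs_lt]
    constructor <;> linarith)
  rw [Real.dist_eq, one_smul] at h8
  exact h8.le

end Pool.Agent.MPbd65ca.Zo
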