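import Pool.Agent.Lib.MP_bd65ca_an_Z.Spec
import Pool.Agent.Lib.MP_bd65ca_an.Pg.VanB

/-!
# The Turán problem for zonotopes: the planar terms of the middles of the sides

PROOF. `Zon.vanish_hb` (Pg/VanB.lean) gives `c` and, for `R` and `Φ`, `T₀`, such that for `T ≥ T₀` the
function `f_T t = Φ (T⁻¹ • t) * hb g c R j (T⁻¹ • t) * 𝐞 ⟪t, N⟫`, `N = vx j + vx (j + 1)`, has its
spectrum in `(zg + zg) \ {0}`.  For `T ≥ T₀` we also have
`f_T t = 𝐞 ⟪t, N⟫ * H (T⁻¹ • t)` with `H = Φ * hb`, and `H (T₀⁻¹ • t) = 𝐞 ⟪t, -N⟫ * f_{T₀} t` has its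
spectrum in `{ξ | ξ + N ∈ (zg + zg)}` (`van_mod` with `-N`, `Vanish.mono`); hence `H (T⁻¹ • t)`, which is
`t ↦ (fun y => H (T₀⁻¹ • y)) ((T/T₀)⁻¹ • t)`, has its spectrum in `{ξ | (T/T₀) • ξ + N ∈ zg + zg}`
(`van_scale`), and `f_T` in `{ξ | (T/T₀) • (ξ - N) + N ∈ zg + zg}` (`van_mod`).  Intersect
(`van_inter`).
-/

open MeasureTheory FourierTransform Pointwise Set Filter Topology
open scoped RealInnerProductSpace

namespace Pool.Agent.MPbd65ca.Zo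

open Pool.Agent.MPbd65ca.Pg

variable {k : ℕ} {g : ℤ → E 2}

theorem vanish_hbz (h : Zon k g) : ∃ c : ℝ, ∀ R : ℝ, 1 ≤ R → ∀ Φ : E 2 → ℂ,
    Vanish (Metric.closedBall 0 (1 / R)) Φ → ∃ T₀ : ℝ, 0 < T₀ ∧ ∀ T : ℝ, T₀ ≤ T →
      ∀ j : ℕ, j < k → Vanish {ξ : E 2 | ξ ≠ 0 ∧ (T / T₀) • (ξ - (vx k g j + vx k g (j + 1))) +
          (vx k g j + vx k g (j + 1)) ∈ zg k g + zg k g}
        (fun t => Φ (T⁻¹ • t) * hb g c R j (T⁻¹ • t) *
          (Real.fourierChar ⟪t, vx k g j + vx k g (j + 1)⟫ : ℂ)) := by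
  obtain ⟨c, _, hc⟩ := h.vanish_hb
  refine ⟨c, fun R hR Φ hΦ => ?_⟩
  obtain ⟨T₀, hT₀, hV⟩ := hc R hR Φ hΦ
  refine ⟨T₀, hT₀, fun T hT j hj => ?_⟩
  have hTp : 0 < T := lt_of_lt_of_le hT₀ hT
  set N : E 2 := vx k g j + vx k g (j + 1) with hN
  have h1 := hV T hT j hj
  have h2 : Vanish {ξ : E 2 | ξ - (-N) ∈ zg k g + zg k g}
      (fun t => Φ (T₀⁻¹ • t) * hb g c R j (T₀⁻¹ • t)) := by
    refine ((van_mod (hV T₀ le_rfl j hj) (-N)).mono fun ξ hξ => hξ.1).congr fun t => ?_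
    have h3 : (Real.fourierChar ⟪t, -N⟫ : ℂ) * (Real.fourierChar ⟪t, N⟫ : ℂ) = 1 := by
      rw [← Circle.coe_mul, ← AddChar.map_add_eq_mul, inner_neg_right, neg_add_cancel,
        AddChar.map_zero_eq_one, Circle.coe_one]
    simp only [← hN]
    linear_combination (Φ (T₀⁻¹ • t) * hb g c R j (T₀⁻¹ • t)) * h3
  have h4 := van_mod (van_scale h2 (div_pos hTp hT₀)) N
  have h6 : Vanish {ξ : E 2 | (T / T₀) • (ξ - N) + N ∈ zg k g + zg k g}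
      (fun t => Φ (T⁻¹ • t) * hb g c R j (T⁻¹ • t) * (Real.fourierChar ⟪t, N⟫ : ℂ)) := by
    refine (h4.mono fun ξ hξ => ?_).congr fun t => ?_
    · have h5 := hξ
      simp only [Set.mem_ofPred_eq, sub_neg_eq_add] at h5
      exact h5
    · have h7 : T₀⁻¹ • (T / T₀)⁻¹ • t = T⁻¹ • t := by
        rw [smul_smul]
        congr 1
        field_simp
      rw [h7]
      ring
  refine Vanish.mono ?_ (van_inter h1 h6)
  intro ξ hξ
  exact ⟨fun h0 => hξ.1.2 h0, hξ.2⟩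

end Pool.Agent.MPbd65ca.Zo
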