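import Pool.Agent.Lib.MP_bd65ca_an_Z.WinZ
import Pool.Agent.Lib.MP_bd65ca_an.Pg.IntF

/-!
# The Turán problem for zonotopes: trigonometric polynomials in the phases

PROOF. As in Pg/IntFA.lean and Pg/IntF.lean.  `IntG` is closed under linear combinations; a single
monomial of the index set is in `IntG` (`of_mem`).  `intz_far`, `intz_near`: the indices
`(p, p + m, ±1, ±1)` used in `Zon.intF_far`, `Zon.intF_near` are in `Fr k g` (repeat the proofs of
`IntF_quot` and `Zon.intF_far`: `IntF_mem`), and their exponents are `±1`, so `some n ∈ FZ k g`, with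
`moz l (some n) = mono n`.  `intz_sp`: the index `none` with the coefficient `1`.
`continuous_moz`: `mono n` is continuous (`SelA_mono` shows it for the coercion), `xz` as well.
-/

open MeasureTheory FourierTransform Pointwise Set
open scoped RealInnerProductSpace

namespace Pool.Agent.MPbd65ca.Zo

open Pool.Agent.MPbd65ca.Pg

variable {k : ℕ} {g : ℤ → E 2}

/-- Trigonometric polynomials in the phases. -/
noncomputable def ipg {J : Type} (F : Finset J) (mo : J → (ℤ → Circle) → Circle) (a : J → ℂ)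
    (z : ℤ → Circle) : ℝ :=
  ∑ n ∈ F, (a n * (mo n z : ℂ)).re

/-- The functions which are such trigonometric polynomials. -/
def IntG {J : Type} (F : Finset J) (mo : J → (ℤ → Circle) → Circle) (f : (ℤ → Circle) → ℝ) :
    Prop :=
  ∃ a : J → ℂ, ∀ z, f z = ipg F mo a z

/-- The indices: an index of two vertices, or the special frequency. -/
abbrev Jx := Option Pg.Ix

/-- The monomials. -/
noncomputable def moz (l : ℤ) (n : Jx) (z : ℤ → Circle) : Circle :=
  match n with
  | some n => mono n z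
  | none => xz l z ^ 2

/-- The sums and differences of two vertices in the interior, and the special frequency. -/
noncomputable def FZ (k : ℕ) (g : ℤ → E 2) : Finset Jx :=
  open Classical in
  insert none (((Fr k g).filter fun n =>
    (n.2.2.1 = 1 ∨ n.2.2.1 = -1) ∧ (n.2.2.2 = 1 ∨ n.2.2.2 = -1)).image some)

section general

variable {J : Type} {F : Finset J} {mo : J → (ℤ → Circle) → Circle}

theorem IntG.congr {f₁ f₂ : (ℤ → Circle) → ℝ} (h₁ : IntG F mo f₁) (h : ∀ z, f₁ z = f₂ z) :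
    IntG F mo f₂ := by
  obtain ⟨a, ha⟩ := h₁
  exact ⟨a, fun z => by rw [← h z, ha z]⟩

theorem IntG.zero : IntG F mo (fun _ => 0) := by
  refine ⟨fun _ => 0, fun z => ?_⟩
  unfold ipg
  exact (Finset.sum_eq_zero fun n _ => by rw [zero_mul, Complex.zero_re]).symm

theorem IntG.add {f₁ f₂ : (ℤ → Circle) → ℝ} (h₁ : IntG F mo f₁) (h₂ : IntG F mo f₂) :
    IntG F mo (fun z => f₁ z + f₂ z) := by
  obtain ⟨a, ha⟩ := h₁
  obtain ⟨b, hb⟩ := h₂
  refine ⟨fun n => a n + b n, fun z => ?_⟩
  simp only [ha z, hb z]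
  unfold ipg
  rw [← Finset.sum_add_distrib]
  exact Finset.sum_congr rfl fun n _ => by rw [add_mul, Complex.add_re]

theorem IntG.const_mul {f : (ℤ → Circle) → ℝ} (hf : IntG F mo f) (c : ℝ) :
    IntG F mo (fun z => c * f z) := by
  obtain ⟨a, ha⟩ := hf
  refine ⟨fun n => (c : ℂ) * a n, fun z => ?_⟩
  simp only [ha z]
  unfold ipg
  rw [Finset.mul_sum]
  exact Finset.sum_congr rfl fun n _ => by rw [mul_assoc, Complex.re_ofReal_mul]

theorem IntG.sub {f₁ f₂ : (ℤ → Circle) → ℝ} (h₁ : IntG F mo f₁) (h₂ : IntG F mo f₂) :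
    IntG F mo (fun z => f₁ z - f₂ z) := by
  exact (h₁.add (h₂.const_mul (-1))).congr fun z => by ring

theorem IntG.sum {ι : Type*} (s : Finset ι) (f : ι → (ℤ → Circle) → ℝ)
    (hf : ∀ i ∈ s, IntG F mo (f i)) : IntG F mo (fun z => ∑ i ∈ s, f i z) := by
  classical
  induction s using Finset.induction_on with
  | empty => exact IntG.zero.congr fun z => by rw [Finset.sum_empty]
  | insert i s hi ih =>
    have h1 := hf i (Finset.mem_insert_self i s)
    have h2 := ih fun j hj => hf j (Finset.mem_insert_of_mem hj)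
    exact (h1.add h2).congr fun z => by rw [Finset.sum_insert hi]

theorem IntG.of_mem {n : J} (hn : n ∈ F) (w : ℂ) :
    IntG F mo (fun z => (w * (mo n z : ℂ)).re) := by
  classical
  refine ⟨fun m => if m = n then w else 0, fun z => ?_⟩
  unfold ipg
  rw [Finset.sum_eq_single n]
  · simp only [if_pos]
  · intro m _ hm
    simp only [if_neg hm, zero_mul, Complex.zero_re]
  · intro h
    exact absurd hn h

theorem ipg_zero (z : ℤ → Circle) : ipg F mo 0 z = 0 := by
  simp [ipg]

theorem ipg_combo (z : ℤ → Circle) (a₁ a₂ : J → ℂ) (r₁ r₂ : ℝ) :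
    ipg F mo (r₁ • a₁ + r₂ • a₂) z = r₁ * ipg F mo a₁ z + r₂ * ipg F mo a₂ z := by
  unfold ipg
  rw [Finset.mul_sum, Finset.mul_sum, ← Finset.sum_add_distrib]
  refine Finset.sum_congr rfl fun n _ => ?_
  simp only [Pi.add_apply, Pi.smul_apply, add_mul, Complex.add_re, Complex.real_smul, mul_assoc,
    Complex.re_ofReal_mul]

theorem continuous_ipg (hmo : ∀ n, Continuous (mo n)) :
    Continuous fun p : (ℤ → Circle) × (J → ℂ) => ipg F mo p.2 p.1 := by
  unfold ipg
  refine continuous_finsetSum _ fun n _ => ?_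
  refine Complex.continuous_re.comp ?_
  exact ((continuous_apply n).comp continuous_snd).mul
    (continuous_subtype_val.comp ((hmo n).comp continuous_fst))

theorem abs_ipg_le (z : ℤ → Circle) (a : J → ℂ) : |ipg F mo a z| ≤ ∑ n ∈ F, ‖a n‖ := by
  unfold ipg
  refine (Finset.abs_sum_le_sum_abs _ _).trans (Finset.sum_le_sum fun n _ => ?_)
  refine (Complex.abs_re_le_norm _).trans ?_
  rw [norm_mul, Circle.norm_coe, mul_one]

theorem abs_ipg_sub_le (z : ℤ → Circle) (a a' : J → ℂ) :
    |ipg F mo a z - ipg F mo a' z| ≤ ∑ n ∈ F, ‖a n - a' n‖ := by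
  have h : ipg F mo a z - ipg F mo a' z = ipg F mo (fun n => a n - a' n) z := by
    unfold ipg
    rw [← Finset.sum_sub_distrib]
    refine Finset.sum_congr rfl fun n _ => ?_
    rw [sub_mul, Complex.sub_re]
  rw [h]
  exact abs_ipg_le z _

end general

theorem continuous_moz (l : ℤ) (n : Jx) : Continuous (moz l n) := by
  match n with
  | some n =>
    change Continuous fun z : ℤ → Circle => mono n z
    unfold mono
    exact ((continuous_apply n.1).zpow _).mul ((continuous_apply n.2.1).zpow _)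
  | none =>
    change Continuous fun z : ℤ → Circle => xz l z ^ 2
    unfold xz
    exact (((continuous_apply (0 : ℤ)).mul (continuous_apply (l + 1))).mul
      (continuous_apply l).inv).pow 2

theorem some_mem_FZ {n : Pg.Ix} : some n ∈ FZ k g ↔ n ∈ Fr k g ∧
    (n.2.2.1 = 1 ∨ n.2.2.1 = -1) ∧ (n.2.2.2 = 1 ∨ n.2.2.2 = -1) := by
  classical
  unfold FZ
  simp

private theorem Idx_mem {p q α β : ℤ} (h1 : -2 ≤ p) (h2 : p ≤ 2 * k + 2) (h3 : -2 ≤ q)
    (h4 : q ≤ 2 * k + 2) (h5 : α = 1 ∨ α = -1) (h6 : β = 1 ∨ β = -1)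
    (h9 : (1 / 2 : ℝ) • fq k g (p, q, α, β) ∈ interior (zg k g))
    (h10 : fq k g (p, q, α, β) ≠ 0) : (some (p, q, α, β) : Jx) ∈ FZ k g :=
  some_mem_FZ.2 ⟨IntF_mem h1 h2 h3 h4 (by omega) (by omega) (by omega) (by omega) h9 h10, h5, h6⟩

private theorem Idx_quot (h : Zon k g) (l : ℤ) {p : ℤ} {m : ℕ} (h1 : 1 ≤ m) (hm : m + 2 ≤ k)
    (hp : -2 ≤ p) (hp2 : p + m ≤ 2 * k + 2) (w : ℂ) :
    IntG (FZ k g) (moz l) (fun z => (w * ((z p : ℂ) * ((z (p + m))⁻¹ : Circle))).re) ∧
    IntG (FZ k g) (moz l) (fun z => (w * (((z p)⁻¹ : Circle) * (z (p + m) : ℂ))).re) := by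
  have e1 := h.diff_int p hm
  have e2 := h.diff_ne p h1 (by omega : m < k)
  have f1 : fq k g (p, p + m, 1, -1) = -(vx k g (p + m) - vx k g p) := by
    simp only [fq, Int.cast_one, Int.cast_neg, one_smul, neg_smul]
    abel
  have f2 : fq k g (p, p + m, -1, 1) = vx k g (p + m) - vx k g p := by
    simp only [fq, Int.cast_one, Int.cast_neg, one_smul, neg_smul]
    abel
  constructor
  · have hn : (some (p, p + (m : ℤ), (1 : ℤ), (-1 : ℤ)) : Jx) ∈ FZ k g := by
      refine Idx_mem hp (by omega) (by omega) hp2 (Or.inl rfl) (Or.inr rfl) ?_ ?_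
      · rw [f1, smul_neg]
        exact IntF_neg_int e1
      · rw [f1, neg_ne_zero]
        exact e2
    refine (IntG.of_mem (mo := moz l) hn w).congr fun z => ?_
    simp only [moz, mono, zpow_one, zpow_neg, Circle.coe_mul]
  · have hn : (some (p, p + (m : ℤ), (-1 : ℤ), (1 : ℤ)) : Jx) ∈ FZ k g := by
      refine Idx_mem hp (by omega) (by omega) hp2 (Or.inr rfl) (Or.inl rfl) ?_ ?_
      · rw [f2]
        exact e1
      · rw [f2]
        exact e2
    refine (IntG.of_mem (mo := moz l) hn w).congr fun z => ?_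
    simp only [moz, mono, zpow_one, zpow_neg, Circle.coe_mul]

/-- The products of the phases of two vertices which are not neighbours. -/
theorem intz_far (h : Zon k g) (l : ℤ) {p : ℤ} {m : ℕ} (h2 : 2 ≤ m) (hm : m + 2 ≤ k)
    (hp : -2 ≤ p) (hp2 : p + m ≤ 2 * k + 2) (w : ℂ) :
    IntG (FZ k g) (moz l) (fun z => (w * ((z p : ℂ) * (z (p + m) : ℂ))).re) ∧
    IntG (FZ k g) (moz l) (fun z => (w * ((z p : ℂ) * ((z (p + m))⁻¹ : Circle))).re) ∧
    IntG (FZ k g) (moz l) (fun z => (w * (((z p)⁻¹ : Circle) * (z (p + m) : ℂ))).re) ∧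
    IntG (FZ k g) (moz l) (fun z => cr z p * cr z (p + m)) := by
  have hsum : ∀ w : ℂ,
      IntG (FZ k g) (moz l) (fun z => (w * ((z p : ℂ) * (z (p + m) : ℂ))).re) := by
    intro w
    have f1 : fq k g (p, p + m, 1, 1) = vx k g p + vx k g (p + m) := by
      simp only [fq, Int.cast_one, one_smul]
    have hn : (some (p, p + (m : ℤ), (1 : ℤ), (1 : ℤ)) : Jx) ∈ FZ k g := by
      refine Idx_mem hp (by omega) (by omega) hp2 (Or.inl rfl) (Or.inl rfl) ?_ ?_
      · rw [f1]
        exact h.sum_int p h2 (by omega)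
      · rw [f1]
        exact h.sum_ne p (by omega)
    refine (IntG.of_mem (mo := moz l) hn w).congr fun z => ?_
    simp only [moz, mono, zpow_one, Circle.coe_mul]
  have hq := fun w => Idx_quot h l (by omega : 1 ≤ m) hm hp hp2 w
  refine ⟨hsum w, (hq w).1, (hq w).2, ?_⟩
  refine (((hsum 1).const_mul (1 / 2)).add ((hq 1).1.const_mul (1 / 2))).congr fun z => ?_
  rw [Circle.coe_inv_eq_conj]
  simp only [cr, one_mul, Complex.mul_re, Complex.conj_re, Complex.conj_im]
  ring

/-- The quotient of the phases of two neighbours. -/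
theorem intz_near (h : Zon k g) (l : ℤ) {p : ℤ} (hp : -2 ≤ p) (hp2 : p ≤ 2 * k + 1) (w : ℂ) :
    IntG (FZ k g) (moz l) (fun z => (w * ((z p : ℂ) * ((z (p + 1))⁻¹ : Circle))).re) ∧
    IntG (FZ k g) (moz l) (fun z => (w * (((z p)⁻¹ : Circle) * (z (p + 1) : ℂ))).re) := by
  have h1 := Idx_quot h l (m := 1) le_rfl (by have := h.hk; omega) hp (by push_cast; omega) w
  rw [Nat.cast_one] at h1
  exact h1

/-- The special monomial. -/
theorem intz_sp (k : ℕ) (g : ℤ → E 2) (l : ℤ) :
    IntG (FZ k g) (moz l) (fun z => ((xz l z : ℂ) ^ 2).re) := by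
  classical
  have hn : (none : Jx) ∈ FZ k g := by
    unfold FZ
    exact Finset.mem_insert_self _ _
  refine (IntG.of_mem (mo := moz l) hn 1).congr fun z => ?_
  simp only [moz, one_mul, Circle.coe_pow]

end Pool.Agent.MPbd65ca.Zo
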