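import Pool.Agent.Lib.MP_bd65ca_an_Z.TransA
import Pool.Agent.Lib.MP_bd65ca_an.Pg.Basic

/-!
# The Turán problem for zonotopes: the lifted sides and vertices

PROOF. `gt_anti`: `(j + k) % k = j % k`, `(j + k) / k = j / k + 1` (`Int.add_emod_right`,
`Int.add_ediv_of_dvd_right` or `Int.add_mul_ediv_right`), `(-1 : ℝ) ^ (x + 1) = -(-1) ^ x`
(`zpow_add_one₀`).
`fst_gt`: both sides are antiperiodic in `j` (`D.zon.anti`), so it is enough to take `0 ≤ j < k`
(`exists_range`, induction on the number of periods, or: prove `gh j = (-1)^(j/k) • gh (j % k)` for all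
`j` first); there `j / k = 0`, `j % k = j` and
`fstE (∑ h with cl h = j, g (castAdd h)) = ∑ rho h • gh j = gh j` by `D.one` (`fst_add`, a sum lemma by
induction).  `fst_vt`: linearity.  `vt_succ`: `∑_{l<k} gt (j+1+l) = ∑_{l<k} gt (j+l) + gt (j+k) - gt j`
(`Finset.sum_range_succ`, `Finset.sum_range_succ'`, or see `Zon.vx_succ`), and `gt_anti`.
`vt_anti`: linearity.  `ph_zt`: `fourierChar (-x) = (fourierChar x)⁻¹` (`AddChar.map_neg_eq_inv`).
`vt_mem`: `vt k cl g j = -(1/2) ∑_{l<k} (± 1) • ∑ h with cl h = (j+l) % k, g (castAdd h)`; when `l`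
runs through `range k`, `(j + l) % k` runs once through `0, ..., k-1`, so
`vt j = ∑_h ε h • g (castAdd h)` with `ε h = ± 1/2`.  More convenient: prove first for every family
`a : ℕ → ℝ` with `|a l| ≤ 1/2` that `∑_{l<k} a l • gt (j + l) = ∑_h e h • g (castAdd h)` for some `e`
with `|e h| ≤ 1/2` (`gt_comb`).  With `y = ∑ μ i • gI g i`, `|μ i| ≤ 1/2`:
`pairE (0, y) = ∑ μ i • g (natAdd i)` since `fstE (g (natAdd i)) = 0` (`pair_eta`), so the sum has the
coefficients `Fin.append e μ` (`Fin.sum_univ_add`).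
`sp_mem`: `vt 0 + gt l = ∑_{i<k} (if i = l then 1/2 else -1/2) • gt i`: again `gt_comb`.
`exists_lift`: `x = ∑_{l<k} lam l • gh l`; take `X = ∑_h lam (cl h) • g (castAdd h)`:
`fstE X = ∑_h lam (cl h) * rho h • gh (cl h) = ∑_{l<k} lam l • gh l` (fibres: `Finset.sum_fiberwise`),
coefficients `Fin.append (lam ∘ cl) 0`.
`span_top`: let `U` be the span of the generators.  Every `pairE (0, y)` is in `U`
(`D.span`; the inner generators are `pairE (0, gI g i)`), and the planar parts of the vectors of `U`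
contain all `gh j`, which span `E 2` (`dt (gh 0) (gh 1) > 0`); so for `x : E (2 + m)` there is `u ∈ U`
with `fstE u = fstE x`, and `x - u = pairE (0, _) ∈ U`.
-/

open MeasureTheory FourierTransform Pointwise Set
open scoped RealInnerProductSpace

namespace Pool.Agent.MPbd65ca.Zo

open Pool.Agent.MPbd65ca.Pg Pool.Agent.MPbd65ca.ProdAux

variable {k m p q : ℕ} {gh : ℤ → E 2} {cl : Fin p → ℕ} {rho : Fin p → ℝ}
  {g : Fin (p + q) → E (2 + m)}

private theorem ext_fs {m n : ℕ} {x y : E (m + n)} (h1 : fstE x = fstE y)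
    (h2 : sndE x = sndE y) : x = y := by
  rw [← pair_eta x, ← pair_eta y, h1, h2]

private theorem fst_sum' {m n : ℕ} {ι : Type*} (s : Finset ι) (f : ι → E (m + n)) :
    fstE (∑ i ∈ s, f i) = ∑ i ∈ s, fstE (f i) := by
  classical
  induction s using Finset.induction_on with
  | empty => simp [fst_zero]
  | insert a s ha ih => rw [Finset.sum_insert ha, Finset.sum_insert ha, fst_add, ih]

private theorem snd_sum' {m n : ℕ} {ι : Type*} (s : Finset ι) (f : ι → E (m + n)) :
    sndE (∑ i ∈ s, f i) = ∑ i ∈ s, sndE (f i) := by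
  classical
  induction s using Finset.induction_on with
  | empty => simp [snd_zero]
  | insert a s ha ih => rw [Finset.sum_insert ha, Finset.sum_insert ha, snd_add, ih]

private theorem pair_add' {m n : ℕ} (y z : E n) :
    (pairE ((0 : E m), y + z) : E (m + n)) = pairE (0, y) + pairE (0, z) := by
  refine ext_fs ?_ ?_
  · rw [fst_add, fst_pair, fst_pair, fst_pair, add_zero]
  · rw [snd_add, snd_pair, snd_pair, snd_pair]

private theorem pair_smul' {m n : ℕ} (c : ℝ) (y : E n) :
    (pairE ((0 : E m), c • y) : E (m + n)) = c • pairE (0, y) := by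
  refine ext_fs ?_ ?_
  · rw [fst_smul, fst_pair, fst_pair, smul_zero]
  · rw [snd_smul, snd_pair, snd_pair]

private theorem pair_zero' {m n : ℕ} : (pairE ((0 : E m), (0 : E n)) : E (m + n)) = 0 := by
  refine ext_fs ?_ ?_
  · rw [fst_zero, fst_pair]
  · rw [snd_zero, snd_pair]

theorem gt_anti (hk : 0 < k) (cl : Fin p → ℕ) (g : Fin (p + q) → E (2 + m)) (j : ℤ) :
    gt k cl g (j + k) = -gt k cl g j := by
  have hk' : (k : ℤ) ≠ 0 := by exact_mod_cast hk.ne'
  unfold gt
  rw [Int.add_emod_right, Int.add_ediv_of_dvd_right (dvd_refl (k : ℤ)), Int.ediv_self hk',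
    zpow_add_one₀ (by norm_num : (-1 : ℝ) ≠ 0), mul_neg_one, neg_smul]

private theorem gh_mul (hz : Zon k gh) (i n : ℤ) : gh (i + n * k) = ((-1 : ℝ) ^ n) • gh i := by
  induction n using Int.induction_on with
  | zero => simp
  | succ n ih =>
    have h1 : i + ((n : ℤ) + 1) * k = i + n * k + k := by ring
    rw [h1, hz.anti, ih, zpow_add_one₀ (by norm_num : (-1 : ℝ) ≠ 0), mul_neg_one, neg_smul]
  | pred n ih =>
    have h1 : i + -(n : ℤ) * k = i + (-(n : ℤ) - 1) * k + k := by ring
    rw [h1, hz.anti] at ih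
    have h2 : gh (i + (-(n : ℤ) - 1) * k) = -(((-1 : ℝ) ^ (-(n : ℤ))) • gh i) := by
      rw [← ih, neg_neg]
    rw [h2, zpow_sub_one₀ (by norm_num : (-1 : ℝ) ≠ 0), inv_neg, inv_one, mul_neg_one, neg_smul]

theorem ZD.fst_gt (D : ZD k m p q gh cl rho g) (j : ℤ) : fstE (gt k cl g j) = gh j := by
  have hk : 0 < k := by have := D.zon.hk; omega
  have hk' : (0 : ℤ) < k := by exact_mod_cast hk
  have h0 := Int.emod_nonneg j hk'.ne'
  have h1 := Int.emod_lt_of_pos j hk'
  have h2 : ∑ h with (cl h : ℤ) = j % (k : ℤ), rho h = 1 := by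
    have h3 := D.one (j % (k : ℤ)).toNat (by omega)
    rw [← h3]
    refine Finset.sum_congr (Finset.filter_congr fun h _ => ?_) fun _ _ => rfl
    omega
  unfold gt
  rw [fst_smul, fst_sum']
  have h4 : ∑ h with (cl h : ℤ) = j % (k : ℤ), fstE (g (Fin.castAdd q h)) = gh (j % (k : ℤ)) := by
    rw [← one_smul ℝ (gh (j % (k : ℤ))), ← h2, Finset.sum_smul]
    refine Finset.sum_congr rfl fun h hh => ?_
    rw [D.out, (Finset.mem_filter.1 hh).2]
  rw [h4]
  have h5 := gh_mul D.zon (j % (k : ℤ)) (j / (k : ℤ))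
  rw [← h5]
  congr 1
  rw [mul_comm]
  exact Int.emod_add_mul_ediv j k

theorem ZD.fst_vt (D : ZD k m p q gh cl rho g) (j : ℤ) : fstE (vt k cl g j) = vx k gh j := by
  unfold vt vx
  rw [fst_smul, fst_sum']
  congr 1
  exact Finset.sum_congr rfl fun l _ => D.fst_gt _

theorem vt_succ (hk : 0 < k) (cl : Fin p → ℕ) (g : Fin (p + q) → E (2 + m)) (j : ℤ) :
    vt k cl g (j + 1) = vt k cl g j + gt k cl g j := by
  have h1 : ∑ l ∈ Finset.range k, gt k cl g (j + 1 + l) =
      ∑ l ∈ Finset.range k, gt k cl g (j + l) - (2 : ℝ) • gt k cl g j := by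
    have h2 := gt_anti hk cl g j
    obtain ⟨n, hn⟩ : ∃ n, k = n + 1 := ⟨k - 1, by omega⟩
    have h4 : ∀ l : ℕ, gt k cl g (j + 1 + l) = gt k cl g (j + ((l + 1 : ℕ) : ℤ)) := by
      intro l
      congr 1
      push_cast
      ring
    rw [Finset.sum_congr rfl fun l _ => h4 l]
    have h5 : ∑ l ∈ Finset.range k, gt k cl g (j + ((l + 1 : ℕ) : ℤ)) + gt k cl g (j + (0 : ℕ)) =
        ∑ l ∈ Finset.range k, gt k cl g (j + l) + gt k cl g (j + k) := by
      rw [← Finset.sum_range_succ' (fun l : ℕ => gt k cl g (j + l)),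
        Finset.sum_range_succ (fun l : ℕ => gt k cl g (j + l))]
    rw [h2, Nat.cast_zero, add_zero] at h5
    rw [eq_sub_of_add_eq h5, two_smul]
    abel
  unfold vt
  rw [h1, smul_sub, smul_smul]
  norm_num

theorem vt_anti (hk : 0 < k) (cl : Fin p → ℕ) (g : Fin (p + q) → E (2 + m)) (j : ℤ) :
    vt k cl g (j + k) = -vt k cl g j := by
  unfold vt
  rw [← smul_neg, ← Finset.sum_neg_distrib]
  congr 1
  refine Finset.sum_congr rfl fun l _ => ?_
  rw [← gt_anti hk]
  congr 1
  ring

theorem ph_zt (hk : 0 < k) (cl : Fin p → ℕ) (g : Fin (p + q) → E (2 + m)) (t : E (2 + m)) :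
    Ph k (zt k cl g t) := by
  intro j
  unfold zt
  rw [vt_anti hk, inner_neg_right, AddChar.map_neg_eq_inv]

theorem gt_comb (hk : 0 < k) (cl : Fin p → ℕ) (hcl : ∀ h, cl h < k) (g : Fin (p + q) → E (2 + m))
    (j : ℤ) {a : ℕ → ℝ} {r : ℝ} (ha : ∀ l, |a l| ≤ r) : ∃ e : Fin p → ℝ, (∀ h, |e h| ≤ r) ∧
      ∑ l ∈ Finset.range k, a l • gt k cl g (j + l) = ∑ h, e h • g (Fin.castAdd q h) := by
  have hk' : (0 : ℤ) < k := by exact_mod_cast hk
  set L : Fin p → ℕ := fun h => (((cl h : ℤ) - j) % (k : ℤ)).toNat with hL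
  have hLlt : ∀ h, L h < k := by
    intro h
    have h0 := Int.emod_nonneg ((cl h : ℤ) - j) hk'.ne'
    have h1 := Int.emod_lt_of_pos ((cl h : ℤ) - j) hk'
    simp only [hL]
    omega
  have hLiff : ∀ h, ∀ l < k, ((cl h : ℤ) = (j + l) % (k : ℤ) ↔ l = L h) := by
    intro h l hl
    have h0 := Int.emod_nonneg ((cl h : ℤ) - j) hk'.ne'
    have hcast : ((L h : ℕ) : ℤ) = ((cl h : ℤ) - j) % (k : ℤ) := by
      simp only [hL]
      exact Int.toNat_of_nonneg h0
    constructor
    · intro h2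
      have h3 : ((cl h : ℤ) - j) % (k : ℤ) = l := by
        rw [h2, Int.emod_sub_emod]
        have : j + (l : ℤ) - j = l := by ring
        rw [this]
        exact Int.emod_eq_of_lt (by positivity) (by exact_mod_cast hl)
      rw [← hcast] at h3
      exact_mod_cast h3.symm
    · intro h2
      rw [h2, hcast, Int.add_emod_emod]
      have : j + ((cl h : ℤ) - j) = cl h := by ring
      rw [this]
      exact (Int.emod_eq_of_lt (by positivity) (by exact_mod_cast hcl h)).symm
  refine ⟨fun h => a (L h) * (-1 : ℝ) ^ ((j + L h) / (k : ℤ)), fun h => ?_, ?_⟩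
  · rw [abs_mul, abs_zpow, abs_neg, abs_one, one_zpow, mul_one]
    exact ha _
  · have h5 : ∀ l ∈ Finset.range k, a l • gt k cl g (j + l) =
        ∑ h, if l = L h then (a l * (-1 : ℝ) ^ ((j + l) / (k : ℤ))) • g (Fin.castAdd q h)
          else 0 := by
      intro l hl
      unfold gt
      rw [smul_smul, Finset.smul_sum, Finset.sum_filter]
      refine Finset.sum_congr rfl fun h _ => ?_
      simp only [hLiff h l (Finset.mem_range.1 hl)]
    rw [Finset.sum_congr rfl h5, Finset.sum_comm]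
    refine Finset.sum_congr rfl fun h _ => ?_
    rw [Finset.sum_ite_eq' (Finset.range k) (L h), if_pos (Finset.mem_range.2 (hLlt h))]

private theorem ZD.mem_aux (D : ZD k m p q gh cl rho g) {e : Fin p → ℝ} (he : ∀ h, |e h| ≤ 1 / 2)
    {y : E m} (hy : y ∈ zono (gI g)) :
    ∑ h, e h • g (Fin.castAdd q h) + pairE (0, y) ∈ zono g := by
  obtain ⟨mu, hmu, rfl⟩ := hy
  refine ⟨Fin.append e mu, fun i => ?_, ?_⟩
  · refine Fin.addCases (fun h => ?_) (fun i => ?_) i
    · rw [Fin.append_left]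
      exact he h
    · rw [Fin.append_right]
      exact hmu i
  · rw [Fin.sum_univ_add]
    simp only [Fin.append_left, Fin.append_right]
    congr 1
    refine ext_fs ?_ ?_
    · rw [fst_pair, fst_sum']
      symm
      refine Finset.sum_eq_zero fun i _ => ?_
      rw [fst_smul, D.inn, smul_zero]
    · rw [snd_pair, snd_sum']
      change ∑ i, mu i • gI g i = ∑ i, sndE (mu i • g (Fin.natAdd p i))
      refine Finset.sum_congr rfl fun i _ => ?_
      rw [snd_smul]
      rfl

theorem ZD.vt_mem (D : ZD k m p q gh cl rho g) (j : ℤ) {y : E m} (hy : y ∈ zono (gI g)) :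
    vt k cl g j + pairE (0, y) ∈ zono g := by
  have hk : 0 < k := by have := D.zon.hk; omega
  obtain ⟨e, he, h⟩ := gt_comb hk cl D.cl_lt g j (a := fun _ => (-(1 / 2) : ℝ)) (r := 1 / 2)
    (fun l => by rw [abs_neg]; exact le_of_eq (abs_of_pos (by norm_num)))
  have h1 : vt k cl g j = ∑ h, e h • g (Fin.castAdd q h) := by
    rw [← h, ← Finset.smul_sum]
    rfl
  rw [h1]
  exact D.mem_aux he hy

theorem ZD.sp_mem (D : ZD k m p q gh cl rho g) {l : ℕ} (hl : l < k) {y : E m}
    (hy : y ∈ zono (gI g)) : vt k cl g 0 + gt k cl g l + pairE (0, y) ∈ zono g := by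
  have hk : 0 < k := by have := D.zon.hk; omega
  obtain ⟨e, he, h⟩ := gt_comb hk cl D.cl_lt g 0
    (a := fun i => (if i = l then (1 / 2 : ℝ) else -(1 / 2))) (r := 1 / 2)
    (fun i => by
      split_ifs
      · exact le_of_eq (abs_of_pos (by norm_num))
      · rw [abs_neg]
        exact le_of_eq (abs_of_pos (by norm_num)))
  have h1 : vt k cl g 0 + gt k cl g l = ∑ h, e h • g (Fin.castAdd q h) := by
    rw [← h]
    unfold vt
    rw [Finset.smul_sum]
    have h2 : gt k cl g l = ∑ i ∈ Finset.range k,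
        (if i = l then (1 : ℝ) else 0) • gt k cl g (0 + (i : ℤ)) := by
      rw [Finset.sum_eq_single l]
      · simp
      · intro i _ hi
        rw [if_neg hi, zero_smul]
      · intro hcon
        exact absurd (Finset.mem_range.2 hl) hcon
    rw [h2, ← Finset.sum_add_distrib]
    refine Finset.sum_congr rfl fun i _ => ?_
    rw [← add_smul]
    congr 1
    split_ifs <;> norm_num
  rw [h1]
  exact D.mem_aux he hy

theorem ZD.zero_mem (D : ZD k m p q gh cl rho g) {y : E m} (hy : y ∈ zono (gI g)) :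
    pairE (0, y) ∈ zono g := by
  have h := D.mem_aux (e := fun _ => 0) (fun _ => by norm_num) hy
  simpa using h

private theorem zero_mem_zono {d n : ℕ} (g : Fin n → E d) : (0 : E d) ∈ zono g :=
  ⟨fun _ => 0, fun _ => by norm_num, by simp⟩

theorem ZD.exists_lift (D : ZD k m p q gh cl rho g) {x : E 2} (hx : x ∈ zg k gh) :
    ∃ X ∈ zono g, fstE X = x := by
  have hk : 0 < k := by have := D.zon.hk; omega
  obtain ⟨lam, hlam, rfl⟩ := hx
  obtain ⟨e, he, h⟩ := gt_comb hk cl D.cl_lt g 0 (a := lam) (r := 1 / 2) hlam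
  refine ⟨∑ h, e h • g (Fin.castAdd q h) + pairE (0, 0), D.mem_aux he (zero_mem_zono _), ?_⟩
  rw [fst_add, fst_pair, add_zero, ← h, fst_sum']
  refine Finset.sum_congr rfl fun l _ => ?_
  rw [fst_smul, D.fst_gt, zero_add]

theorem ZD.span_top (D : ZD k m p q gh cl rho g) : Submodule.span ℝ (range g) = ⊤ := by
  set U := Submodule.span ℝ (range g) with hU
  have hg : ∀ i, g i ∈ U := fun i => Submodule.subset_span ⟨i, rfl⟩
  have h1 : ∀ y : E m, (pairE ((0 : E 2), y) : E (2 + m)) ∈ U := by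
    intro y
    have hy : y ∈ Submodule.span ℝ (range (gI g)) := by
      rw [D.span]
      exact Submodule.mem_top
    induction hy using Submodule.span_induction with
    | mem z hz =>
      obtain ⟨i, rfl⟩ := hz
      have h2 : (pairE ((0 : E 2), gI g i) : E (2 + m)) = g (Fin.natAdd p i) := by
        rw [← D.inn i]
        exact pair_eta _
      rw [h2]
      exact hg _
    | zero =>
      rw [pair_zero']
      exact U.zero_mem
    | add y z _ _ hy hz =>
      rw [pair_add']
      exact U.add_mem hy hz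
    | smul c y _ hy =>
      rw [pair_smul']
      exact U.smul_mem c hy
  have h2 : ∀ j, gt k cl g j ∈ U := by
    intro j
    unfold gt
    exact U.smul_mem _ (U.sum_mem fun h _ => hg _)
  rw [Submodule.eq_top_iff']
  intro x
  have hk := D.zon.hk
  have hd : 0 < dt (gh 0) (gh 1) := D.zon.pos 0 1 (by norm_num) (by omega)
  have h3 : fstE x = (dt (fstE x) (gh 1) / dt (gh 0) (gh 1)) • gh 0 +
      (dt (gh 0) (fstE x) / dt (gh 0) (gh 1)) • gh 1 := by
    have h4 := dt_comb (gh 0) (gh 1) (fstE x)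
    rw [dt_swap (fstE x) (gh 1), dt_swap (gh 0) (fstE x)] at h4
    have h5 : dt (gh 0) (gh 1) • fstE x =
        dt (fstE x) (gh 1) • gh 0 + dt (gh 0) (fstE x) • gh 1 := by
      linear_combination (norm := module) h4
    have h6 : fstE x = (dt (gh 0) (gh 1))⁻¹ • (dt (gh 0) (gh 1) • fstE x) := by
      rw [smul_smul, inv_mul_cancel₀ hd.ne', one_smul]
    rw [h5, smul_add, smul_smul, smul_smul, inv_mul_eq_div, inv_mul_eq_div] at h6
    exact h6
  set a := dt (fstE x) (gh 1) / dt (gh 0) (gh 1)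
  set b := dt (gh 0) (fstE x) / dt (gh 0) (gh 1)
  have h6 : fstE (x - (a • gt k cl g 0 + b • gt k cl g 1)) = 0 := by
    rw [sub_eq_add_neg, fst_add, fst_neg, fst_add, fst_smul, fst_smul, D.fst_gt, D.fst_gt, ← h3,
      add_neg_cancel]
  have h7 : x = (a • gt k cl g 0 + b • gt k cl g 1) +
      pairE (0, sndE (x - (a • gt k cl g 0 + b • gt k cl g 1))) := by
    rw [← h6, pair_eta]
    abel
  rw [h7]
  exact U.add_mem (U.add_mem (U.smul_mem _ (h2 _)) (U.smul_mem _ (h2 _))) (h1 _)

/-- The zonotope is a body. -/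
theorem ZD.isBody (D : ZD k m p q gh cl rho g) : IsBody (zono g) :=
  isBody_zono D.span_top

end Pool.Agent.MPbd65ca.Zo
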