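import Pool.Agent.Lib.MP_bd65ca_an_Z.SelG
import Pool.Agent.Lib.MP_bd65ca_an.Pg.Prof

/-!
# The Turán problem for zonotopes: the profile

PROOF. Copy of `Zon.exists_prof` (Pg/Prof.lean) with `ipg F mo` in place of `ip k g`, the hypothesis
`hpc` in place of `Zon.pc`, `exists_selg`, `exists_cptg` in place of `exists_sel`, `exists_cpt`,
`abs_ipg_le`, `abs_ipg_sub_le` in place of `Prof_ip_abs`, `Prof_ip_sub`; the other auxiliary
lemmas (`Prof_tail`, `Prof_far`, `Prof_cpt_bound`, `Prof_tp_cont`) can be used.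
-/

open MeasureTheory FourierTransform Pointwise Set Filter Topology
open scoped RealInnerProductSpace

namespace Pool.Agent.MPbd65ca.Zo

open Pool.Agent.MPbd65ca.Pg

/-- The profile with trigonometric polynomials as coefficients. -/
noncomputable def pTg {J : Type} (F : Finset J) (mo : J → (ℤ → Circle) → Circle) (k : ℕ)
    (g : ℤ → E 2) (c R : ℝ) (s : J → Finset (E 2)) (b : J → E 2 → ℂ)
    (s0 : Finset (E 2)) (b0 : E 2 → ℂ) (z : ℤ → Circle) (u : E 2) : ℝ :=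
  hp k g c R z u + ipg F mo (fun n => tp (s n) (b n) u) z + (tp s0 b0 u).re

/-- The properties of the profile. -/
structure ProfG {J : Type} (F : Finset J) (mo : J → (ℤ → Circle) → Circle) (k : ℕ)
    (g : ℤ → E 2) (c R M S C : ℝ) (Ψ : E 2 → ℝ) (s : J → Finset (E 2))
    (b : J → E 2 → ℂ) (s0 : Finset (E 2)) (b0 : E 2 → ℂ) : Prop where
  hR : 1 ≤ R
  hC : 0 ≤ C
  cont : Continuous Ψ
  nonneg : ∀ u, 0 ≤ Ψ u
  van1 : Vanish (Metric.closedBall 0 1) (fun x => (Ψ x : ℂ))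
  van2 : Vanish (Metric.closedBall 0 1) (fun x => ((Ψ x ^ 2 : ℝ) : ℂ))
  inn : ∀ u z, ‖u‖ ≤ S → Ph k z →
    0 ≤ Ψ (R⁻¹ • u) * pTg F mo k g c R s b s0 b0 z u + M + C * Zt k g z u ^ 2
  out : ∀ u z, S ≤ ‖u‖ → Ph k z → 0 ≤ Ψ (R⁻¹ • u) * pTg F mo k g c R s b s0 b0 z u + M
  neg : ∫ u : E 2, (Ψ (R⁻¹ • u) ^ 2 * (tp s0 b0 u).re + M * Ψ (R⁻¹ • u)) < 0

variable {J : Type} {F : Finset J} {mo : J → (ℤ → Circle) → Circle} {k : ℕ} {g : ℤ → E 2}

theorem continuous_pTg (hmo : ∀ n, Continuous (mo n)) (k : ℕ) (g : ℤ → E 2) (c R : ℝ)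
    (s : J → Finset (E 2)) (b : J → E 2 → ℂ) (s0 : Finset (E 2)) (b0 : E 2 → ℂ) :
    Continuous fun p : (ℤ → Circle) × E 2 => pTg F mo k g c R s b s0 b0 p.1 p.2 := by
  have h1 : Continuous fun p : (ℤ → Circle) × E 2 =>
      ipg F mo (fun n => tp (s n) (b n) p.2) p.1 := by
    have h2 : Continuous fun p : (ℤ → Circle) × E 2 =>
        (p.1, (fun n => tp (s n) (b n) p.2 : J → ℂ)) :=
      continuous_fst.prodMk (continuous_pi fun n => (Prof_tp_cont (s n) (b n)).comp continuous_snd)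
    exact (continuous_ipg hmo).comp h2
  unfold pTg
  exact ((continuous_hp k g c R).add h1).add
    (Complex.continuous_re.comp ((Prof_tp_cont s0 b0).comp continuous_snd))

theorem exists_profg (hmo : ∀ n, Continuous (mo n)) (h : Zon k g) (c : ℝ)
    (hpc : ∃ CE c2 : ℝ, 0 < CE ∧ 0 < c2 ∧ ∀ R : ℝ, 1 ≤ R → ∀ u : E 2, ∃ a : J → ℂ,
      ∀ z, Ph k z → Zt k g z u = 0 → 0 < hp k g c R z u + ipg F mo a z + ez k g R CE c2 u) :
    ∃ (R M S C : ℝ) (Ψ : E 2 → ℝ)
    (s : J → Finset (E 2)) (b : J → E 2 → ℂ) (s0 : Finset (E 2)) (b0 : E 2 → ℂ),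
    ProfG F mo k g c R M S C Ψ s b s0 b0 := by
  classical
  obtain ⟨Ψ, hΨc, hΨ0, hΨi, hΨz, hdec, hΨt, hv1, hv2⟩ := exists_bump2 2 (one_pos)
  obtain ⟨CE, c2, hCE, hc2, hpc⟩ := hpc
  obtain ⟨R, hR, hint⟩ := h.int_neg hΨc hΨ0 hΨz hdec hCE hc2
  have hR0 : 0 < R := lt_of_lt_of_le one_pos hR
  have hRi : R⁻¹ ≠ 0 := inv_ne_zero hR0.ne'
  -- the function Φ
  set Φ : E 2 → ℝ := fun u => Ψ (R⁻¹ • u) with hΦ
  have hΦc : Continuous Φ := hΨc.comp (continuous_const_smul R⁻¹)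
  have hΦ0 : ∀ u, 0 ≤ Φ u := fun u => hΨ0 _
  have hΦt : Tendsto Φ (cocompact (E 2)) (𝓝 0) :=
    hΨt.comp (Homeomorph.smulOfNeZero R⁻¹ hRi).isClosedEmbedding.tendsto_cocompact
  have hΦi : Integrable Φ := hΨi.comp_smul hRi
  obtain ⟨B0, hB0⟩ : ∃ B0, ∀ u, Φ u ≤ B0 := by
    obtain ⟨C, hC⟩ := hdec
    refine ⟨C, fun u => le_trans ?_ (hC (R⁻¹ • u))⟩
    have h1 : (1 : ℝ) ≤ (1 + ‖R⁻¹ • u‖) ^ 4 := one_le_pow₀ (by linarith [norm_nonneg (R⁻¹ • u)])
    exact le_mul_of_one_le_right (hΨ0 _) h1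
  have hB00 : 0 ≤ B0 := (hΦ0 0).trans (hB0 0)
  have hΦ2i : Integrable fun u => Φ u ^ 2 := by
    have h1 : Integrable fun u => Φ u * Φ u := hΦi.bdd_mul hΦc.aestronglyMeasurable
      (c := B0) (Eventually.of_forall fun u => by
        rw [Real.norm_eq_abs, abs_of_nonneg (hΦ0 u)]; exact hB0 u)
    exact h1.congr (Eventually.of_forall fun u => (sq (Φ u)).symm)
  have hI1 : 0 ≤ ∫ u, Φ u := integral_nonneg hΦ0
  have hI2 : 0 ≤ ∫ u, Φ u ^ 2 := integral_nonneg fun u => sq_nonneg _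
  set γ : ℝ := -∫ u, Φ u ^ 2 * ez k g R CE c2 u with hγ
  have hγ0 : 0 < γ := by rw [hγ]; exact neg_pos.2 hint
  set M : ℝ := γ / (4 * ((∫ u, Φ u) + 1)) with hM
  have hM0 : 0 < M := by rw [hM]; positivity
  obtain ⟨a, hac, ⟨S1, hS1⟩, hapos⟩ := exists_selg hmo k g hR0 (hpc R hR) hΦc hΦ0 hΦt hM0
  -- bounds
  obtain ⟨Bh, hBh⟩ := abs_hp_le k g c R
  obtain ⟨Be, hBe⟩ := abs_ez_le k g hR0 CE c2
  have hBh0 : 0 ≤ Bh := (abs_nonneg _).trans (hBh 1 0)
  have hBe0 : 0 ≤ Be := (abs_nonneg _).trans (hBe 0)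
  have hBa : ∀ n : J, ∃ B : ℝ, 0 ≤ B ∧ ∀ u, ‖a u n‖ ≤ B := fun n =>
    Prof_cpt_bound ((continuous_apply n).comp hac) (S := S1) fun u hu => by
      simp only [hS1 u hu, Pi.zero_apply]
  choose Ba hBa0 hBa using hBa
  set B1 : ℝ := Bh + ∑ n ∈ F, (2 * Ba n + 1) + 2 * Be + 1 with hB1
  have hB1p : 0 < B1 := by
    have h1 : 0 ≤ ∑ n ∈ F, (2 * Ba n + 1) :=
      Finset.sum_nonneg fun n _ => by have := hBa0 n; linarith
    rw [hB1]; linarith
  -- the radius S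
  have hδ : 0 < γ / (8 * (3 * Be + 1)) := by positivity
  obtain ⟨n0, hn1, hn2⟩ := ((Prof_far hΦt (div_pos hM0 hB1p)).and
    (Prof_tail hΦ2i (fun u => sq_nonneg _) hδ)).exists
  set S : ℝ := (n0 : ℝ) with hS
  obtain ⟨C, e3, hC0, he3, hcpt⟩ := exists_cptg hmo k g hR0 hΦc hac hapos S
  set N : ℝ := (F.card : ℝ) with hN
  have hN0 : 0 ≤ N := by rw [hN]; positivity
  set ε : ℝ := min 1 (min (e3 / ((N + 1) * (B0 + 1))) (γ / (8 * ((∫ u, Φ u ^ 2) + 1)))) with hε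
  have hε0 : 0 < ε := by
    rw [hε]
    refine lt_min one_pos (lt_min ?_ ?_) <;> positivity
  have hε1 : ε ≤ 1 := min_le_left _ _
  have hε2 : ε ≤ e3 / ((N + 1) * (B0 + 1)) := (min_le_right _ _).trans (min_le_left _ _)
  have hε3 : ε ≤ γ / (8 * ((∫ u, Φ u ^ 2) + 1)) := (min_le_right _ _).trans (min_le_right _ _)
  have htr : ∀ n : J, ∃ (s : Finset (E 2)) (b : E 2 → ℂ),
      (∀ u, ‖u‖ ≤ S → ‖tp s b u - a u n‖ ≤ ε) ∧ ∀ u, ‖tp s b u‖ ≤ 2 * Ba n + ε := fun n =>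
    exists_trig (f := fun u => a u n) ((continuous_apply n).comp hac) (hBa n) S hε0
  choose s b hs1 hs2 using htr
  obtain ⟨s0, b0, hs01, hs02⟩ := exists_trig (f := fun u => ((ez k g R CE c2 u : ℝ) : ℂ))
    (Complex.continuous_ofReal.comp (continuous_ez k g hR0 CE c2)) (B := Be)
    (fun u => by rw [Complex.norm_real]; exact hBe u) S hε0
  refine ⟨R, M, S, C, Ψ, s, b, s0, b0, ?_⟩
  -- pointwise bounds
  have hre : ∀ u, ‖u‖ ≤ S → |(tp s0 b0 u).re - ez k g R CE c2 u| ≤ ε := by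
    intro u hu
    have h1 := (Complex.abs_re_le_norm (tp s0 b0 u - ((ez k g R CE c2 u : ℝ) : ℂ))).trans
      (hs01 u hu)
    rwa [Complex.sub_re, Complex.ofReal_re] at h1
  have hre2 : ∀ u, |(tp s0 b0 u).re| ≤ 2 * Be + ε := fun u =>
    (Complex.abs_re_le_norm _).trans (hs02 u)
  have hpT : ∀ u z, |pTg F mo k g c R s b s0 b0 z u| ≤ B1 := by
    intro u z
    unfold pTg
    have h1 := abs_ipg_le (F := F) (mo := mo) z (fun n => tp (s n) (b n) u)
    have h2 : ∑ n ∈ F, ‖tp (s n) (b n) u‖ ≤ ∑ n ∈ F, (2 * Ba n + 1) :=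
      Finset.sum_le_sum fun n _ => (hs2 n u).trans (by linarith)
    have h3 := hre2 u
    have h4 := hBh z u
    refine (abs_add_le _ _).trans ?_
    have h5 := abs_add_le (hp k g c R z u) (ipg F mo (fun n => tp (s n) (b n) u) z)
    rw [hB1]
    linarith
  refine ⟨hR, hC0, hΨc, hΨ0, hv1, hv2, ?_, ?_, ?_⟩
  · intro u z hu hz
    have h1 := hcpt u z hu hz
    have h2 := hre u hu
    have h3 : |ipg F mo (fun n => tp (s n) (b n) u) z - ipg F mo (a u) z| ≤ N * ε := by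
      refine (abs_ipg_sub_le z _ _).trans ?_
      calc ∑ n ∈ F, ‖tp (s n) (b n) u - a u n‖ ≤ ∑ _n ∈ F, ε :=
            Finset.sum_le_sum fun n _ => hs1 n u hu
        _ = N * ε := by rw [Finset.sum_const, nsmul_eq_mul]
    have h4 : Φ u * ((hp k g c R z u + ipg F mo (a u) z + ez k g R CE c2 u) -
        pTg F mo k g c R s b s0 b0 z u) ≤ B0 * ((N + 1) * ε) := by
      have h5 : (hp k g c R z u + ipg F mo (a u) z + ez k g R CE c2 u) -
          pTg F mo k g c R s b s0 b0 z u ≤ (N + 1) * ε := by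
        unfold pTg
        have h6 := (abs_le.1 h3).1
        have h7 := (abs_le.1 h2).1
        linarith
      calc Φ u * _ ≤ Φ u * ((N + 1) * ε) := mul_le_mul_of_nonneg_left h5 (hΦ0 u)
        _ ≤ B0 * ((N + 1) * ε) := mul_le_mul_of_nonneg_right (hB0 u) (by positivity)
    have h8 : B0 * ((N + 1) * ε) ≤ e3 := by
      have h9 : 0 < (N + 1) * (B0 + 1) := by positivity
      have h10 := (le_div_iff₀ h9).1 hε2
      have h11 : B0 * ((N + 1) * ε) ≤ ε * ((N + 1) * (B0 + 1)) := by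
        have : 0 ≤ (N + 1) * ε := by positivity
        nlinarith
      exact h11.trans h10
    change 0 ≤ Φ u * pTg F mo k g c R s b s0 b0 z u + M + C * Zt k g z u ^ 2
    rw [mul_sub] at h4
    linarith
  · intro u z hu _
    change 0 ≤ Φ u * pTg F mo k g c R s b s0 b0 z u + M
    have h1 : Φ u < M / B1 := hn1 u hu
    have h2 : Φ u * B1 ≤ M := by
      rw [lt_div_iff₀ hB1p] at h1
      exact h1.le
    have h3 := (abs_le.1 (hpT u z)).1
    have h4 : Φ u * (-B1) ≤ Φ u * pTg F mo k g c R s b s0 b0 z u :=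
      mul_le_mul_of_nonneg_left h3 (hΦ0 u)
    linarith
  · -- the integral
    set Fi : E 2 → ℝ := {u : E 2 | (n0 : ℝ) < ‖u‖}.indicator (fun u => Φ u ^ 2) with hF
    have hms : MeasurableSet {u : E 2 | (n0 : ℝ) < ‖u‖} :=
      measurableSet_lt measurable_const measurable_norm
    have hFi : Integrable Fi := hΦ2i.indicator hms
    have hezi : Integrable fun u => Φ u ^ 2 * ez k g R CE c2 u := by
      have h1 : Integrable fun u => ez k g R CE c2 u * Φ u ^ 2 :=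
        hΦ2i.bdd_mul (continuous_ez k g hR0 CE c2).aestronglyMeasurable (c := Be)
          (Eventually.of_forall fun u => hBe u)
      exact h1.congr (Eventually.of_forall fun u => mul_comm _ _)
    have htpi : Integrable fun u => Φ u ^ 2 * (tp s0 b0 u).re := by
      have h1 : Integrable fun u => (tp s0 b0 u).re * Φ u ^ 2 :=
        hΦ2i.bdd_mul (Complex.continuous_re.comp (Prof_tp_cont s0 b0)).aestronglyMeasurable
          (c := 2 * Be + ε) (Eventually.of_forall fun u => hre2 u)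
      exact h1.congr (Eventually.of_forall fun u => mul_comm _ _)
    have hMi : Integrable fun u => M * Φ u := hΦi.const_mul M
    have hle : (fun u => Φ u ^ 2 * (tp s0 b0 u).re + M * Φ u) ≤
        fun u => Φ u ^ 2 * ez k g R CE c2 u + ε * Φ u ^ 2 + (3 * Be + 1) * Fi u + M * Φ u := by
      intro u
      have hsq := sq_nonneg (Φ u)
      change Φ u ^ 2 * (tp s0 b0 u).re + M * Φ u ≤
        Φ u ^ 2 * ez k g R CE c2 u + ε * Φ u ^ 2 + (3 * Be + 1) * Fi u + M * Φ u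
      by_cases hu : ‖u‖ ≤ S
      · have h1 : Fi u = 0 := indicator_of_notMem (by simpa using hu) _
        have h2 := (abs_le.1 (hre u hu)).2
        rw [h1]
        nlinarith
      · have h0 : u ∈ {u : E 2 | (n0 : ℝ) < ‖u‖} := not_le.1 hu
        have h1 : Fi u = Φ u ^ 2 := indicator_of_mem h0 _
        have h2 := (abs_le.1 (hre2 u)).2
        have h3 := (abs_le.1 (hBe u)).1
        rw [h1]
        have h4 : (tp s0 b0 u).re ≤ ez k g R CE c2 u + (3 * Be + 1) := by linarith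
        have h5 : Φ u ^ 2 * (tp s0 b0 u).re ≤ Φ u ^ 2 * (ez k g R CE c2 u + (3 * Be + 1)) :=
          mul_le_mul_of_nonneg_left h4 hsq
        have h6 : 0 ≤ ε * Φ u ^ 2 := by positivity
        linarith
    have hmono := integral_mono (htpi.add hMi)
      (((hezi.add (hΦ2i.const_mul ε)).add (hFi.const_mul (3 * Be + 1))).add hMi) hle
    refine lt_of_le_of_lt hmono ?_
    have e1 : ∫ u, ((((fun u => Φ u ^ 2 * ez k g R CE c2 u) + fun u => ε * Φ u ^ 2) +
        fun u => (3 * Be + 1) * Fi u) + fun u => M * Φ u) u =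
        (∫ u, Φ u ^ 2 * ez k g R CE c2 u) + ε * (∫ u, Φ u ^ 2) + (3 * Be + 1) * (∫ u, Fi u) +
        M * ∫ u, Φ u := by
      rw [integral_add' ((hezi.add (hΦ2i.const_mul ε)).add (hFi.const_mul (3 * Be + 1))) hMi,
        integral_add' (hezi.add (hΦ2i.const_mul ε)) (hFi.const_mul (3 * Be + 1)),
        integral_add' hezi (hΦ2i.const_mul ε), integral_const_mul, integral_const_mul,
        integral_const_mul]
    rw [e1]
    have hFt : ∫ u, Fi u ≤ γ / (8 * (3 * Be + 1)) := hn2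
    have f1 : ε * (∫ u, Φ u ^ 2) ≤ γ / 8 := by
      have h1 : 0 < 8 * ((∫ u, Φ u ^ 2) + 1) := by positivity
      have h2 := (le_div_iff₀ h1).1 hε3
      nlinarith
    have f2 : (3 * Be + 1) * (∫ u, Fi u) ≤ γ / 8 := by
      have h1 : 0 < 8 * (3 * Be + 1) := by positivity
      have h2 := (le_div_iff₀ h1).1 hFt
      linarith
    have f3 : M * (∫ u, Φ u) ≤ γ / 4 := by
      have h1 : 0 < 4 * ((∫ u, Φ u) + 1) := by positivity
      have h2 : M * (4 * ((∫ u, Φ u) + 1)) = γ := by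
        rw [hM, div_mul_cancel₀ _ h1.ne']
      nlinarith
    have f4 : ∫ u, Φ u ^ 2 * ez k g R CE c2 u = -γ := by rw [hγ, neg_neg]
    rw [f4]
    linarith

end Pool.Agent.MPbd65ca.Zo
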