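import Pool.Agent.Lib.MP_bd65ca_an_Z.Gam
import Pool.Agent.Lib.MP_bd65ca_an_Z.ProfG
import Pool.Agent.Lib.MP_bd65ca_an.Pg.GTv
import Pool.Agent.Lib.MP_bd65ca_an.Pg.GTc

/-!
# The Turán problem for zonotopes: the main part

PROOF. `zt_mul`, `zt_mono`: as `GTv_zc`, `GTv_mono` in Pg/GTv.lean.  `zt_xz`:
`xz l (zt t) = 𝐞 ⟪t, vt 0 + vt (l+1) - vt l⟫ = 𝐞 ⟪t, vt 0 + gt l⟫` (`vt_succ`), and the square is
`𝐞` of twice the argument.  `continuous_G0`: `continuous_Gm`, `continuous_pTg`, continuity of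
`t ↦ zt k cl g t` (`continuous_pi`), of `fstE`, `sndE` (`fst_mp`, `snd_mp`) and of `Ψ` (`pr.cont`).
-/

open MeasureTheory FourierTransform Pointwise Set Filter Topology
open scoped RealInnerProductSpace

namespace Pool.Agent.MPbd65ca.Zo

open Pool.Agent.MPbd65ca.Pg Pool.Agent.MPbd65ca.ProdAux

variable {k m p q : ℕ} {gh : ℤ → E 2} {cl : Fin p → ℕ} {rho : Fin p → ℝ}
  {g : Fin (p + q) → E (2 + m)}

/-- The main part of the perturbation. -/
noncomputable def G0 {J : Type} (F : Finset J) (mo : J → (ℤ → Circle) → Circle) (k : ℕ)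
    (cl : Fin p → ℕ) (g : Fin (p + q) → E (2 + m)) (gh : ℤ → E 2) (c R M : ℝ) (Ψ : E 2 → ℝ)
    (s : J → Finset (E 2)) (b : J → E 2 → ℂ) (s0 : Finset (E 2)) (b0 : E 2 → ℂ) (θ T : ℝ)
    (t : E (2 + m)) : ℝ :=
  Gm g θ (sndE t) * (Ψ (R⁻¹ • T⁻¹ • fstE t) ^ 2 *
    pTg F mo k gh c R s b s0 b0 (zt k cl g t) (T⁻¹ • fstE t) + M * Ψ (R⁻¹ • T⁻¹ • fstE t))

theorem zt_mul (k : ℕ) (cl : Fin p → ℕ) (g : Fin (p + q) → E (2 + m)) (t : E (2 + m)) (i j : ℤ) :
    (zt k cl g t i : ℂ) * (zt k cl g t j : ℂ) =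
      (Real.fourierChar ⟪t, vt k cl g i + vt k cl g j⟫ : ℂ) := by
  rw [← Circle.coe_mul, inner_add_right, AddChar.map_add_eq_mul]
  rfl

theorem zt_mono (k : ℕ) (cl : Fin p → ℕ) (g : Fin (p + q) → E (2 + m)) (t : E (2 + m))
    (n : Pg.Ix) : mono n (zt k cl g t) =
      Real.fourierChar ⟪t, (n.2.2.1 : ℝ) • vt k cl g n.1 + (n.2.2.2 : ℝ) • vt k cl g n.2.1⟫ := by
  have h1 : ∀ (α : ℤ) (j : ℤ), zt k cl g t j ^ α =
      Real.fourierChar ⟪t, (α : ℝ) • vt k cl g j⟫ := by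
    intro α j
    rw [inner_smul_right, zt, ← AddChar.map_zsmul_eq_zpow, zsmul_eq_mul]
  rw [mono, h1, h1, inner_add_right, AddChar.map_add_eq_mul]

theorem zt_xz (hk : 0 < k) (cl : Fin p → ℕ) (g : Fin (p + q) → E (2 + m)) (t : E (2 + m))
    (l : ℤ) : xz l (zt k cl g t) ^ 2 =
      Real.fourierChar ⟪t, (vt k cl g 0 + gt k cl g l) + (vt k cl g 0 + gt k cl g l)⟫ := by
  have e : gt k cl g l = vt k cl g (l + 1) - vt k cl g l := by
    rw [vt_succ hk]
    abel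
  have e1 : xz l (zt k cl g t) = Real.fourierChar ⟪t, vt k cl g 0 + gt k cl g l⟫ := by
    rw [e, inner_add_right, inner_sub_right, sub_eq_add_neg, AddChar.map_add_eq_mul,
      AddChar.map_add_eq_mul, AddChar.map_neg_eq_inv, ← mul_assoc]
    rfl
  rw [e1, inner_add_right t (vt k cl g 0 + gt k cl g l) (vt k cl g 0 + gt k cl g l),
    AddChar.map_add_eq_mul, sq]

theorem continuous_zt (k : ℕ) (cl : Fin p → ℕ) (g : Fin (p + q) → E (2 + m)) :
    Continuous (zt k cl g) := by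
  refine continuous_pi fun j => ?_
  unfold zt
  exact Real.continuous_fourierChar.comp (continuous_id.inner continuous_const)

theorem continuous_G0 (l : ℤ) {c R M S C : ℝ} {Ψ : E 2 → ℝ} {s : Jx → Finset (E 2)}
    {b : Jx → E 2 → ℂ} {s0 : Finset (E 2)} {b0 : E 2 → ℂ}
    (pr : ProfG (FZ k gh) (moz l) k gh c R M S C Ψ s b s0 b0) (cl : Fin p → ℕ)
    (g : Fin (p + q) → E (2 + m)) (θ T : ℝ) :
    Continuous (G0 (FZ k gh) (moz l) k cl g gh c R M Ψ s b s0 b0 θ T) := by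
  have hz := continuous_zt k cl g
  have hT : Continuous fun t : E (2 + m) => T⁻¹ • fstE t := fst_mp.const_smul T⁻¹
  have hΨ : Continuous fun t : E (2 + m) => Ψ (R⁻¹ • T⁻¹ • fstE t) :=
    pr.cont.comp (hT.const_smul R⁻¹)
  have h4 : Continuous fun t : E (2 + m) =>
      pTg (FZ k gh) (moz l) k gh c R s b s0 b0 (zt k cl g t) (T⁻¹ • fstE t) := by
    have h := (continuous_pTg (F := FZ k gh) (continuous_moz l) k gh c R s b s0 b0).comp
      (hz.prodMk hT)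
    simp only [Function.comp_def] at h
    exact h
  have h5 : Continuous fun t : E (2 + m) => Gm g θ (sndE t) :=
    (continuous_Gm g θ).comp snd_mp
  unfold G0
  exact h5.mul (((hΨ.pow 2).mul h4).add (continuous_const.mul hΨ))

end Pool.Agent.MPbd65ca.Zo
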