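import Pool.Agent.Lib.MP_bd65ca_an_Z.HbZ
import Pool.Agent.Lib.MP_bd65ca_an_Z.MainD

/-!
# The Turán problem for zonotopes: the terms of the middles of the sides

PROOF. `c` from `vanish_hbz D.zon`, `T₁` its threshold (for `R`, `Φ`), `τ₀` from `D.room`,
`T₀ = T₁ + T₁ / τ₀`.  Let `X = vt j + vt (j + 1)`, `N = fstE X = vx j + vx (j + 1)` (`D.fst_vt`,
`fst_add`).  By `zt_mul` the function is
`Gm g θ (sndE t) * ((Φ * hb) (T⁻¹ • fstE t) * 𝐞 ⟪t, X⟫)`; `van_gam` with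
`F s = Φ (T⁻¹ • s) * hb gh c R j (T⁻¹ • s)` and `A` = the set in `vanish_hbz` gives the spectrum
`{ξ | fstE ξ ∈ A, sndE ξ ∈ Tw g θ (sndE X)}`.  It is contained in `K \ {0}`, `K = zono g + zono g`:
`ξ ≠ 0` since `fstE ξ ≠ 0`; `Two g X` by `two_add` and `D.vt_mem`; with `τ = T₁ / T ≤ τ₀` and
`x = (T/T₁) • (fstE ξ - N) + N ∈ zg + zg` we have `fstE ξ = (1-τ) • N + τ • x`; `D.room`.
-/

open MeasureTheory FourierTransform Pointwise Set Filter Topology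
open scoped RealInnerProductSpace

namespace Pool.Agent.MPbd65ca.Zo

open Pool.Agent.MPbd65ca.Pg Pool.Agent.MPbd65ca.ProdAux

variable {k m p q : ℕ} {gh : ℤ → E 2} {cl : Fin p → ℕ} {rho : Fin p → ℝ}
  {g : Fin (p + q) → E (2 + m)}

theorem ZD.van_hbt (D : ZD k m p q gh cl rho g) : ∃ c : ℝ, ∀ R : ℝ, 1 ≤ R → ∀ Φ : E 2 → ℂ,
    Vanish (Metric.closedBall 0 (1 / R)) Φ → ∀ θ : ℝ, 0 < θ → θ < 1 → ∃ T₀ : ℝ, 0 < T₀ ∧
    ∀ T : ℝ, T₀ ≤ T → ∀ j : ℕ, j < k → Vanish ((zono g + zono g) \ {0})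
      (fun t => (Gm g θ (sndE t) : ℂ) * (Φ (T⁻¹ • fstE t) * hb gh c R j (T⁻¹ • fstE t) *
        ((zt k cl g t j : ℂ) * (zt k cl g t (j + 1) : ℂ)))) := by
  obtain ⟨c, hc⟩ := vanish_hbz D.zon
  refine ⟨c, fun R hR Φ hΦ θ hθ hθ1 => ?_⟩
  obtain ⟨T₁, hT₁, h1⟩ := hc R hR Φ hΦ
  obtain ⟨τ₀, hτ, hτ1, hroom⟩ := D.room hθ hθ1
  refine ⟨T₁ + T₁ / τ₀, by positivity, fun T hT j hj => ?_⟩
  have hq : 0 < T₁ / τ₀ := by positivity
  have hT1 : T₁ ≤ T := by linarith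
  have hT0 : 0 < T := by linarith
  have hτT : T₁ / T ≤ τ₀ := by
    rw [div_le_iff₀ hT0]
    have h2 : T₁ / τ₀ ≤ T := by linarith
    rw [div_le_iff₀ hτ] at h2
    linarith
  have h2 := h1 T hT1 j hj
  have hX : fstE (vt k cl g j + vt k cl g (j + 1)) = vx k gh j + vx k gh (j + 1) := by
    rw [fst_add, D.fst_vt, D.fst_vt]
  have h3 := van_gam (g := g) hθ (vt k cl g j + vt k cl g (j + 1))
    (F := fun s => Φ (T⁻¹ • s) * hb gh c R j (T⁻¹ • s)) (by rw [hX]; exact h2)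
  refine (h3.mono ?_).congr (fun t => by rw [zt_mul])
  rintro ξ ⟨⟨hξ0, hξ1⟩, hξ2⟩
  refine ⟨?_, ?_⟩
  · refine hroom (vt k cl g j + vt k cl g (j + 1)) (two_add (fun y hy => D.vt_mem j hy)
      (fun y hy => D.vt_mem (j + 1) hy)) _ hξ1 (T₁ / T) (by positivity) hτT ξ ?_ hξ2
    rw [hX]
    set N := vx k gh j + vx k gh (j + 1) with hN
    have h4 : (T₁ / T) • (T / T₁) • (fstE ξ - N) = fstE ξ - N := by
      rw [smul_smul, div_mul_div_comm, mul_comm T₁ T, div_self (by positivity), one_smul]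
    rw [smul_add (T₁ / T) _ N, h4, sub_smul, one_smul]
    abel
  · intro h0
    rw [Set.mem_singleton_iff] at h0
    rw [h0] at hξ0
    exact hξ0 fst_zero

end Pool.Agent.MPbd65ca.Zo
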