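import Mathlib

/-!
# The Turán problem for zonotopes: an inequality for the function `sinc`

PROOF. Let `Q x = sinc (π x) ^ 2 + sinc (π (x + 1/2)) ^ 2`.  Lower bound: `Q x ≥ 1 / (π² (|x| + 1/2)²)`
for all `x`: for `x ≠ 0, -1/2` it is `sin² (π x) / (π x)² + cos² (π x) / (π (x + 1/2))²` with both
`|x|, |x + 1/2| ≤ |x| + 1/2`; for `x = 0` the first term is `1 ≥ 4/π²`, for `x = -1/2` the second
term is `1`.  `Q_pos` follows.  `sinc_sq_le`: for `|y| ≤ 1`: the left side is `≤ 1`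
(`Real.abs_sinc_le_one`) and, with `δ ≤ 1/2`, `Q (δ y) ≥ 1/(π² (1/2 + 1/2)²) = 1/π² ≥ 1/10`.  For
`|y| ≥ 1`: the left side is `≤ 1/(π θ y)² ≤ 4 / (π y)²`, and `δ |y| + 1/2 ≤ |y|`, so
`Q (δ y) ≥ 1 / (π |y|)²`; so the left side is `≤ 4 Q (δ y)`.
-/

namespace Pool.Agent.MPbd65ca.Zo

/-- A positive function of one variable with small spectrum. -/
noncomputable def QQ (x : ℝ) : ℝ :=
  Real.sinc (Real.pi * x) ^ 2 + Real.sinc (Real.pi * (x + 1 / 2)) ^ 2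

private theorem QQ_lower (x : ℝ) : 1 / (Real.pi ^ 2 * (|x| + 1 / 2) ^ 2) ≤ QQ x := by
  have hpi : (0 : ℝ) < Real.pi := Real.pi_pos
  have hpi3 : (3 : ℝ) < Real.pi := Real.pi_gt_three
  have hpi2 : (9 : ℝ) < Real.pi ^ 2 := by nlinarith
  have hax : 0 ≤ |x| := abs_nonneg x
  have hD : 0 < Real.pi ^ 2 * (|x| + 1 / 2) ^ 2 := by positivity
  by_cases h0 : x = 0
  · subst h0
    have h1 : 1 / (Real.pi ^ 2 * (|(0 : ℝ)| + 1 / 2) ^ 2) ≤ 1 := by
      rw [div_le_one hD]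
      rw [abs_zero]
      nlinarith
    have h2 : (1 : ℝ) ≤ QQ 0 := by
      unfold QQ
      rw [mul_zero, Real.sinc_zero]
      nlinarith [sq_nonneg (Real.sinc (Real.pi * (0 + 1 / 2)))]
    linarith
  by_cases h1 : x + 1 / 2 = 0
  · have hx : x = -(1 / 2) := by linarith
    have h1' : 1 / (Real.pi ^ 2 * (|x| + 1 / 2) ^ 2) ≤ 1 := by
      rw [div_le_one hD]
      rw [hx, abs_neg, abs_of_pos (by norm_num : (0 : ℝ) < 1 / 2)]
      nlinarith
    have h2 : (1 : ℝ) ≤ QQ x := by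
      unfold QQ
      rw [h1, mul_zero, Real.sinc_zero]
      nlinarith [sq_nonneg (Real.sinc (Real.pi * x))]
    linarith
  have hx1 : x ^ 2 ≤ (|x| + 1 / 2) ^ 2 := by
    rw [← sq_abs x]
    nlinarith
  have hx2 : (x + 1 / 2) ^ 2 ≤ (|x| + 1 / 2) ^ 2 := by
    have := le_abs_self x
    rw [add_sq, add_sq, sq_abs]
    nlinarith
  have hpx : Real.pi * x ≠ 0 := mul_ne_zero hpi.ne' h0
  have hpx1 : Real.pi * (x + 1 / 2) ≠ 0 := mul_ne_zero hpi.ne' h1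
  have hs : Real.sin (Real.pi * (x + 1 / 2)) = Real.cos (Real.pi * x) := by
    rw [mul_add, show Real.pi * (1 / 2) = Real.pi / 2 by ring, Real.sin_add_pi_div_two]
  have hQ : QQ x = Real.sin (Real.pi * x) ^ 2 / (Real.pi ^ 2 * x ^ 2) +
      Real.cos (Real.pi * x) ^ 2 / (Real.pi ^ 2 * (x + 1 / 2) ^ 2) := by
    unfold QQ
    rw [Real.sinc_of_ne_zero hpx, Real.sinc_of_ne_zero hpx1, hs, div_pow, div_pow, mul_pow,
      mul_pow]
  rw [hQ]
  have hxx : 0 < x ^ 2 := by positivity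
  have hxx1 : 0 < (x + 1 / 2) ^ 2 := by positivity
  have hA : Real.sin (Real.pi * x) ^ 2 / (Real.pi ^ 2 * (|x| + 1 / 2) ^ 2) ≤
      Real.sin (Real.pi * x) ^ 2 / (Real.pi ^ 2 * x ^ 2) := by
    apply div_le_div_of_nonneg_left (sq_nonneg _) (by positivity)
    exact mul_le_mul_of_nonneg_left hx1 (by positivity)
  have hB : Real.cos (Real.pi * x) ^ 2 / (Real.pi ^ 2 * (|x| + 1 / 2) ^ 2) ≤
      Real.cos (Real.pi * x) ^ 2 / (Real.pi ^ 2 * (x + 1 / 2) ^ 2) := by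
    apply div_le_div_of_nonneg_left (sq_nonneg _) (by positivity)
    exact mul_le_mul_of_nonneg_left hx2 (by positivity)
  have hsum : 1 / (Real.pi ^ 2 * (|x| + 1 / 2) ^ 2) =
      Real.sin (Real.pi * x) ^ 2 / (Real.pi ^ 2 * (|x| + 1 / 2) ^ 2) +
      Real.cos (Real.pi * x) ^ 2 / (Real.pi ^ 2 * (|x| + 1 / 2) ^ 2) := by
    rw [← add_div, Real.sin_sq_add_cos_sq]
  linarith

theorem QQ_pos (x : ℝ) : 0 < QQ x := by
  have hpi : (0 : ℝ) < Real.pi := Real.pi_pos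
  have hax : 0 ≤ |x| := abs_nonneg x
  refine lt_of_lt_of_le ?_ (QQ_lower x)
  positivity

theorem sinc_sq_le {δ θ : ℝ} (hδ : 0 < δ) (hδ1 : δ ≤ 1 / 2) (hθ : 1 / 2 ≤ θ) (hθ1 : θ ≤ 1)
    (y : ℝ) : Real.sinc (Real.pi * (θ * y)) ^ 2 ≤ 10 * QQ (δ * y) := by
  have hpi : (0 : ℝ) < Real.pi := Real.pi_pos
  have hpi3 : (3 : ℝ) < Real.pi := Real.pi_gt_three
  have hpi315 : Real.pi < 3.15 := Real.pi_lt_d2
  have hay : 0 ≤ |y| := abs_nonneg y
  have hQ := QQ_lower (δ * y)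
  have hab : |δ * y| = δ * |y| := by rw [abs_mul, abs_of_pos hδ]
  rw [hab] at hQ
  rcases le_total |y| 1 with hy | hy
  · have h1 : Real.sinc (Real.pi * (θ * y)) ^ 2 ≤ 1 := by
      rw [← sq_abs]
      have h := Real.abs_sinc_le_one (Real.pi * (θ * y))
      have h' := abs_nonneg (Real.sinc (Real.pi * (θ * y)))
      nlinarith
    have hle : δ * |y| + 1 / 2 ≤ 1 := by nlinarith
    have hpos : 0 < δ * |y| + 1 / 2 := by positivity
    have h2 : 1 / 10 ≤ 1 / (Real.pi ^ 2 * (δ * |y| + 1 / 2) ^ 2) := by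
      apply one_div_le_one_div_of_le (by positivity)
      have h3 : (δ * |y| + 1 / 2) ^ 2 ≤ 1 := by nlinarith
      have h4 : Real.pi ^ 2 ≤ 10 := by nlinarith
      have h5 : 0 ≤ Real.pi ^ 2 := by positivity
      have h6 : 0 ≤ (δ * |y| + 1 / 2) ^ 2 := by positivity
      nlinarith
    linarith
  · have hypos : 0 < |y| := lt_of_lt_of_le one_pos hy
    have hy0 : y ≠ 0 := abs_pos.mp hypos
    have hθ0 : 0 < θ := by linarith
    have hne : Real.pi * (θ * y) ≠ 0 := mul_ne_zero hpi.ne' (mul_ne_zero hθ0.ne' hy0)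
    have hyy : 0 < y ^ 2 := by positivity
    have h1 : Real.sinc (Real.pi * (θ * y)) ^ 2 ≤ 4 / (Real.pi ^ 2 * y ^ 2) := by
      rw [Real.sinc_of_ne_zero hne, div_pow, mul_pow, mul_pow]
      rw [div_le_div_iff₀ (by positivity) (by positivity)]
      have hs : Real.sin (Real.pi * (θ * y)) ^ 2 ≤ 1 := Real.sin_sq_le_one _
      have hs0 : 0 ≤ Real.sin (Real.pi * (θ * y)) ^ 2 := sq_nonneg _
      have hθ4 : 1 ≤ 4 * θ ^ 2 := by nlinarith
      have hP : 0 ≤ Real.pi ^ 2 * y ^ 2 := by positivity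
      calc Real.sin (Real.pi * (θ * y)) ^ 2 * (Real.pi ^ 2 * y ^ 2)
          ≤ 1 * (Real.pi ^ 2 * y ^ 2) := mul_le_mul_of_nonneg_right hs hP
        _ ≤ (4 * θ ^ 2) * (Real.pi ^ 2 * y ^ 2) := mul_le_mul_of_nonneg_right hθ4 hP
        _ = 4 * (Real.pi ^ 2 * (θ ^ 2 * y ^ 2)) := by ring
    have hle : δ * |y| + 1 / 2 ≤ |y| := by nlinarith
    have hpos : 0 < δ * |y| + 1 / 2 := by positivity
    have h2 : 1 / (Real.pi ^ 2 * y ^ 2) ≤ 1 / (Real.pi ^ 2 * (δ * |y| + 1 / 2) ^ 2) := by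
      apply one_div_le_one_div_of_le (by positivity)
      have h3 : (δ * |y| + 1 / 2) ^ 2 ≤ y ^ 2 := by
        rw [← sq_abs y]
        nlinarith
      exact mul_le_mul_of_nonneg_left h3 (by positivity)
    have h3 : 4 / (Real.pi ^ 2 * y ^ 2) = 4 * (1 / (Real.pi ^ 2 * y ^ 2)) := by ring
    have h4 : 0 < 1 / (Real.pi ^ 2 * y ^ 2) := by positivity
    rw [h3] at h1
    linarith

end Pool.Agent.MPbd65ca.Zo
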