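import Pool.Agent.Lib.MP_bd65ca_an_Z.Trans
import Pool.Agent.Lib.MP_bd65ca_an_Z.MajA
import Pool.Agent.Lib.MP_bd65ca_an.Perturb
import Pool.Agent.Lib.MP_bd65ca_an.CosT
import Pool.Agent.Lib.MP_bd65ca_an.Gen.Basic

/-!
# The Turán problem for zonotopes: products of squares of `sinc`

PROOF. `cosT_par`: for linearly independent `w : Fin m → E m` apply `cosT_zono` with the heights `0`
(`Gp w 0` holds because no set of generators is dependent).  `bas w = {id}` (a strictly monotone map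
`Fin m → Fin m` is the identity: `StrictMono.id_le`/`Fin` argument or `Subsingleton`/`orderIso`), and
`cen = 0` because every index is in the range.  So `cosT (zono w) y = vdet w * ∏ sinc (π ⟪y, w j⟫)`.
`QQ_prod`: `∏_j (a j + b j) = ∑_{S} ∏_{j ∈ S} a j * ∏_{j ∉ S} b j` (`Finset.prod_add`) with
`a j = sinc (π δ ⟪y, w j⟫)^2`, `b j = sinc (π (δ ⟪y, w j⟫ + 1/2))^2`.  Let `a_S ∈ E m` be the vector
with `⟪a_S, w j⟫ = 0` for `j ∈ S`, `= 1/(2δ)` for `j ∉ S` (it exists: `w` is a basis; see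
`zeta_spec` in Vert.lean).  The term of `S` is `∏_j sinc (π ⟪y + a_S, δ • w j⟫)^2 =
(cosT (zono (δ • w)) (y + a_S) / vdet (δ • w))^2`.  By `cosT_props` the function `cosT^2` is
continuous,
integrable, with spectrum in `Z + Z`, `Z = zono (δ • w)`, `Z + Z ⊆ closedBall 0 (δ ∑ ‖w j‖)`;
translations preserve this (`Vanish.translate`).  Sum over `S` (`Vanish.sum`).
-/

open MeasureTheory FourierTransform Pointwise Set
open scoped RealInnerProductSpace

namespace Pool.Agent.MPbd65ca.Zo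

private theorem MajB_gp {m : ℕ} {w : Fin m → E m} (hw : LinearIndependent ℝ w) (c : Fin m → ℝ) :
    Gp w c := fun S hS => absurd (hw.comp (fun i : S => (i : Fin m)) Subtype.val_injective) hS

private theorem MajB_bas {m : ℕ} {w : Fin m → E m} (hw : LinearIndependent ℝ w) :
    bas w = {id} := by
  ext b
  rw [mem_bas, Finset.mem_singleton]
  constructor
  · rintro ⟨hb, -⟩
    refine (hb.range_inj strictMono_id).1 ?_
    have h1 : Function.Surjective b := Finite.surjective_of_injective hb.injective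
    rw [h1.range_eq, range_id]
  · rintro rfl
    exact ⟨strictMono_id, hw⟩

theorem cosT_par {m : ℕ} {w : Fin m → E m} (hw : LinearIndependent ℝ w) (y : E m) :
    cosT (zono w) y = vdet w * ∏ j, Real.sinc (Real.pi * ⟪y, w j⟫) := by
  have h := cosT_zono (MajB_gp hw 0) y
  have hcen : cen w 0 id = 0 := by
    unfold cen
    refine Finset.sum_eq_zero fun i _ => ?_
    have h1 : sg w 0 id i = 0 := sg_basis (g := w) (c := 0) (b := id) i
    rw [h1, zero_smul]
  rw [MajB_bas hw, Finset.sum_singleton, hcen, inner_zero_right, neg_zero] at h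
  simp only [id_eq, AddChar.map_zero_eq_one, Circle.coe_one, mul_one] at h
  exact_mod_cast h

private theorem MajB_ex {m : ℕ} {w : Fin m → E m} (hw : LinearIndependent ℝ w) (c : Fin m → ℝ) :
    ∃ z : E m, ∀ j, ⟪z, w j⟫ = c j := by
  refine ⟨zeta w c id, fun j => ?_⟩
  rw [real_inner_comm]
  exact zeta_spec (g := w) (c := c) (b := id) hw j

private theorem MajB_li {m : ℕ} {w : Fin m → E m} (hw : LinearIndependent ℝ w) {δ : ℝ}
    (hδ : 0 < δ) : LinearIndependent ℝ (fun j => δ • w j) :=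
  hw.units_smul (fun _ => Units.mk0 δ hδ.ne')

private theorem MajB_ball {m : ℕ} (w : Fin m → E m) {δ : ℝ} (hδ : 0 < δ) :
    zono (fun j => δ • w j) + zono (fun j => δ • w j) ⊆
      Metric.closedBall 0 (δ * ∑ j, ‖w j‖) := by
  have h1 : ∀ x ∈ zono (fun j => δ • w j), ‖x‖ ≤ 1 / 2 * (δ * ∑ j, ‖w j‖) := by
    rintro x ⟨lam, hl, rfl⟩
    refine (norm_sum_le _ _).trans ?_
    rw [Finset.mul_sum, Finset.mul_sum]
    refine Finset.sum_le_sum fun i _ => ?_
    rw [norm_smul, norm_smul, Real.norm_eq_abs, Real.norm_eq_abs, abs_of_pos hδ]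
    exact mul_le_mul_of_nonneg_right (hl i) (by positivity)
  rintro x ⟨a, ha, b, hb, rfl⟩
  rw [mem_closedBall_zero_iff]
  have := norm_add_le a b
  have := h1 a ha
  have := h1 b hb
  simp only
  linarith

private theorem MajB_term {m : ℕ} {w : Fin m → E m} (hw : LinearIndependent ℝ w) {δ : ℝ}
    (hδ : 0 < δ) (S : Finset (Fin m)) :
    ∃ z : E m, ∀ y : E m,
      (∏ j ∈ S, Real.sinc (Real.pi * (δ * ⟪y, w j⟫)) ^ 2) *
        (∏ j ∈ Finset.univ \ S, Real.sinc (Real.pi * (δ * ⟪y, w j⟫ + 1 / 2)) ^ 2) =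
      ((vdet fun j => δ • w j) ^ 2)⁻¹ * cosT (zono fun j => δ • w j) (y - z) ^ 2 := by
  classical
  obtain ⟨z, hz⟩ := MajB_ex hw (fun j => if j ∈ S then 0 else -(1 / (2 * δ)))
  refine ⟨z, fun y => ?_⟩
  have hli := MajB_li hw hδ
  have hv := vdet_pos hli
  rw [cosT_par hli, mul_pow, ← mul_assoc, inv_mul_cancel₀ (by positivity), one_mul,
    ← Finset.prod_pow]
  have h1 : ∀ j, ⟪y - z, δ • w j⟫ = if j ∈ S then δ * ⟪y, w j⟫ else δ * ⟪y, w j⟫ + 1 / 2 := by
    intro j
    rw [real_inner_smul_right, inner_sub_left, hz j]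
    split_ifs with h
    · ring
    · field_simp
      ring
  rw [← Finset.prod_sdiff (Finset.subset_univ S), mul_comm]
  congr 1
  · refine Finset.prod_congr rfl fun j hj => ?_
    rw [h1 j, if_neg (Finset.mem_sdiff.1 hj).2]
  · refine Finset.prod_congr rfl fun j hj => ?_
    rw [h1 j, if_pos hj]

theorem QQ_prod {m : ℕ} {w : Fin m → E m} (hw : LinearIndependent ℝ w) {δ : ℝ} (hδ : 0 < δ) :
    Continuous (fun y : E m => ∏ j, QQ (δ * ⟪y, w j⟫)) ∧
    Integrable (fun y : E m => ∏ j, QQ (δ * ⟪y, w j⟫)) ∧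
    Vanish (Metric.closedBall 0 (δ * ∑ j, ‖w j‖))
      (fun y : E m => ((∏ j, QQ (δ * ⟪y, w j⟫) : ℝ) : ℂ)) := by
  classical
  choose z hz using MajB_term hw hδ
  have hfun : ∀ y : E m, ∏ j, QQ (δ * ⟪y, w j⟫) = ∑ S ∈ (Finset.univ : Finset (Fin m)).powerset,
      ((vdet fun j => δ • w j) ^ 2)⁻¹ * cosT (zono fun j => δ • w j) (y - z S) ^ 2 := by
    intro y
    unfold QQ
    rw [Finset.prod_add]
    exact Finset.sum_congr rfl fun S _ => hz S y
  obtain ⟨hc, -, hi, -, hva⟩ := cosT_props (isCompact_zono fun j => δ • w j)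
    (neg_mem_zono fun j => δ • w j)
  have hfe : (fun y : E m => ∏ j, QQ (δ * ⟪y, w j⟫)) = fun y =>
      ∑ S ∈ (Finset.univ : Finset (Fin m)).powerset,
      ((vdet fun j => δ • w j) ^ 2)⁻¹ * cosT (zono fun j => δ • w j) (y - z S) ^ 2 :=
    funext hfun
  refine ⟨?_, ?_, ?_⟩
  · rw [hfe]
    refine continuous_finsetSum _ fun S _ => continuous_const.mul ((hc.comp ?_).pow 2)
    exact continuous_id.sub continuous_const
  · rw [hfe]
    exact integrable_finsetSum _ fun S _ => (hi.comp_sub_right (z S)).const_mul _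
  · have h1 := Vanish.sum (K := Metric.closedBall (0 : E m) (δ * ∑ j, ‖w j‖))
      (Finset.univ : Finset (Fin m)).powerset
      (fun S y => ((((vdet fun j => δ • w j) ^ 2)⁻¹ : ℝ) : ℂ) *
        ((cosT (zono fun j => δ • w j) (y - z S) ^ 2 : ℝ) : ℂ))
      (fun S _ => ((hva.mono (MajB_ball w hδ)).translate (z S)).const_mul _)
    refine h1.congr fun y => ?_
    rw [hfun y]
    push_cast
    rfl

end Pool.Agent.MPbd65ca.Zo
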