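import Pool.Agent.Lib.MP_bd65ca_an_Z.Asy
import Pool.Agent.Lib.MP_bd65ca_an_Z.Gam
import Pool.Agent.Lib.MP_bd65ca_an.Pg.GTn
import Pool.Agent.Lib.MP_bd65ca_an_Z.Lift
import Pool.Agent.Lib.MP_bd65ca_an.Pg.SelA

/-!
# The Turán problem for zonotopes: the sum over the vertices is controlled by the transform

PROOF. `s = fstE t`, `v = sndE t`, `u = T⁻¹ • s`, `z = zt t`, `‖u‖ ≤ S`, so `‖s‖ ≤ T |S|`.
`Zm ≥ 0` an upper bound of `Zt k gh z u ^ 2` on the compact set `{Ph} × closedBall 0 |S|`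
(`isCompact_Ph`, `continuous_Zt`; `Ph k (zt ..)` by `ph_zt`).  `θ₀` from `gam_unif` with `V` and
`ε' = η / (2 (Cc Zm + 1))`.  `Ca, A₀` from `D.asy V`; `A` so large that also
`Cc * 8 π⁴ (Ca/A)² |S|^(2(k-2)) ≤ η / 2`.  By `D.asy`
`|cosT W t * P + (1/(2π²)) cosT G v * Zt z s| ≤ (Ca/A) ‖s‖^(k-2) ≤ (Ca/A) (T |S|)^(k-2)`,
`P = ∏ Y l(s)`, `P² ≤ (L T |S|)^(2k)` (`GTn_prod_le`), `Zt z s = T^(k-2) * Zt z u`
(`GTn_Zt_smul` with `r = T⁻¹`).  From `b² ≤ 2 (a + b)² + 2 a²`: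
`(cosT G v)² * Zt z u ² ≤ CT * cosT W t ² + 8 π⁴ (Ca/A)² |S|^(2(k-2))` with
`CT = 8 π⁴ T^(-2(k-2)) (L T |S|)^(2k)`.  So
`Cc * Gm * Zt² ≤ Cc * ((cosT G v)² + ε') * Zt² ≤ Cc CT cosT W² + η/2 + η/2`, `C' = Cc CT`.
-/

open MeasureTheory FourierTransform Pointwise Set Filter Topology
open scoped RealInnerProductSpace

namespace Pool.Agent.MPbd65ca.Zo

open Pool.Agent.MPbd65ca.Pg Pool.Agent.MPbd65ca.ProdAux

variable {k m p q : ℕ} {gh : ℤ → E 2} {cl : Fin p → ℕ} {rho : Fin p → ℝ}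
  {g : Fin (p + q) → E (2 + m)}

private theorem NonA_bd (k : ℕ) (gh : ℤ → E 2) (S : ℝ) : ∃ Zm : ℝ, 0 ≤ Zm ∧
    ∀ (z : ℤ → Circle) (u : E 2), Ph k z → ‖u‖ ≤ |S| → Zt k gh z u ^ 2 ≤ Zm := by
  have hK : IsCompact ({z : ℤ → Circle | Ph k z} ×ˢ Metric.closedBall (0 : E 2) |S|) :=
    (isCompact_Ph k).prod (isCompact_closedBall 0 |S|)
  obtain ⟨B, hB⟩ := hK.exists_bound_of_continuousOn ((continuous_Zt k gh).pow 2).continuousOn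
  refine ⟨|B|, abs_nonneg B, fun z u hz hu => ?_⟩
  have h1 := hB (z, u) ⟨hz, mem_closedBall_zero_iff.2 hu⟩
  exact ((le_abs_self _).trans h1).trans (le_abs_self B)

private theorem NonA_alg {w P c Z Zu r a Ca A S1 Q : ℝ} (hZu : Zu = r * Z)
    (ha : |w * P + 1 / (2 * Real.pi ^ 2) * c * Z| ≤ a) (har : r * a = Ca / A * S1)
    (hP : P ^ 2 ≤ Q) :
    (c * Zu) ^ 2 ≤ 8 * Real.pi ^ 4 * S1 ^ 2 * (Ca / A) ^ 2 +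
      8 * Real.pi ^ 4 * r ^ 2 * Q * w ^ 2 := by
  have hpi : Real.pi ≠ 0 := Real.pi_ne_zero
  obtain ⟨b, hb⟩ : ∃ b, b = w * P + 1 / (2 * Real.pi ^ 2) * c * Z := ⟨_, rfl⟩
  rw [← hb] at ha
  have h1 : c * Zu = r * (2 * Real.pi ^ 2) * (b - w * P) := by
    rw [hZu, hb]
    field_simp
    ring
  have h2 : b ^ 2 ≤ a ^ 2 := by
    rw [← sq_abs b]
    exact pow_le_pow_left₀ (abs_nonneg b) ha 2
  have h3 : (r * b) ^ 2 ≤ (Ca / A * S1) ^ 2 := by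
    rw [← har, mul_pow, mul_pow]
    exact mul_le_mul_of_nonneg_left h2 (sq_nonneg r)
  have h4 : (w * P) ^ 2 ≤ Q * w ^ 2 := by
    rw [mul_pow, mul_comm]
    exact mul_le_mul_of_nonneg_right hP (sq_nonneg w)
  have h5 : (c * Zu) ^ 2 = 4 * Real.pi ^ 4 * (r * b - r * (w * P)) ^ 2 := by
    rw [h1]
    ring
  have h6 : (r * b - r * (w * P)) ^ 2 ≤ 2 * (r * b) ^ 2 + 2 * (r ^ 2 * (w * P) ^ 2) := by
    nlinarith [sq_nonneg (r * b + r * (w * P))]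
  have h7 : 0 ≤ 4 * Real.pi ^ 4 := by positivity
  have h8 : r ^ 2 * (w * P) ^ 2 ≤ r ^ 2 * (Q * w ^ 2) :=
    mul_le_mul_of_nonneg_left h4 (sq_nonneg r)
  rw [h5]
  calc 4 * Real.pi ^ 4 * (r * b - r * (w * P)) ^ 2
      ≤ 4 * Real.pi ^ 4 * (2 * (Ca / A * S1) ^ 2 + 2 * (r ^ 2 * (Q * w ^ 2))) :=
        mul_le_mul_of_nonneg_left (by linarith) h7
    _ = _ := by ring

theorem ZD.zt_small (D : ZD k m p q gh cl rho g) (V S : ℝ) {Cc η : ℝ} (hCc : 0 ≤ Cc)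
    (hη : 0 < η) : ∃ θ₀ : ℝ, 1 / 2 ≤ θ₀ ∧ θ₀ < 1 ∧ ∀ θ : ℝ, θ₀ ≤ θ → θ < 1 →
    ∃ A₀ : ℝ, 0 < A₀ ∧ ∀ A : ℝ, A₀ ≤ A → ∀ T : ℝ, 0 < T → ∃ C' : ℝ, 0 ≤ C' ∧
      ∀ t : E (2 + m), ‖sndE t‖ ≤ V → ‖T⁻¹ • fstE t‖ ≤ S →
        (∀ l, l < k → A ≤ |Yf gh (l : ℕ) (fstE t)|) →
        Cc * Gm g θ (sndE t) * Zt k gh (zt k cl g t) (T⁻¹ • fstE t) ^ 2 ≤
          η + C' * cosT (zono g) t ^ 2 := by
  have hk := D.zon.hk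
  obtain ⟨L, hL0, -, hL⟩ := D.zon.norm_le
  obtain ⟨Zm, hZm0, hZm⟩ := NonA_bd k gh S
  have hCZ : 0 < 2 * (Cc * Zm + 1) := by positivity
  obtain ⟨θ₀, h12, hθ1, hθ⟩ := gam_unif g V (ε := η / (2 * (Cc * Zm + 1))) (by positivity)
  refine ⟨θ₀, h12, hθ1, fun θ hθ0 hθlt => ?_⟩
  obtain ⟨Ca, A₀, hCa, hA₀, hasy⟩ := D.asy V
  obtain ⟨K₁, hK₁⟩ : ∃ K₁, K₁ = Cc * (8 * Real.pi ^ 4 * (|S| ^ (k - 2)) ^ 2) := ⟨_, rfl⟩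
  have hK₁0 : 0 ≤ K₁ := by rw [hK₁]; positivity
  refine ⟨max A₀ (max 1 (2 * (K₁ * Ca ^ 2) / η)), lt_max_of_lt_left hA₀, fun A hA T hT => ?_⟩
  have hA1 : A₀ ≤ A := (le_max_left _ _).trans hA
  have hA2 : 1 ≤ A := ((le_max_left _ _).trans (le_max_right _ _)).trans hA
  have hA3 : 2 * (K₁ * Ca ^ 2) / η ≤ A := ((le_max_right _ _).trans (le_max_right _ _)).trans hA
  have hA0 : 0 < A := by linarith
  have hsm : K₁ * (Ca / A) ^ 2 ≤ η / 2 := by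
    rw [div_le_iff₀ hη] at hA3
    rw [div_pow, ← mul_div_assoc, div_le_iff₀ (by positivity)]
    have h1 : A ≤ A ^ 2 := by nlinarith
    have h2 : A * η ≤ A ^ 2 * η := mul_le_mul_of_nonneg_right h1 hη.le
    linarith
  refine ⟨Cc * (8 * Real.pi ^ 4 * (T⁻¹ ^ (k - 2)) ^ 2 * ((L * (T * |S|)) ^ k) ^ 2), by positivity,
    fun t hV hS hY => ?_⟩
  have hS' : ‖T⁻¹ • fstE t‖ ≤ |S| := hS.trans (le_abs_self S)
  have hs : ‖fstE t‖ ≤ T * |S| := by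
    rw [norm_smul, Real.norm_eq_abs, abs_of_pos (inv_pos.2 hT), inv_mul_le_iff₀ hT] at hS'
    exact hS'
  have hZ2 := hZm (zt k cl g t) (T⁻¹ • fstE t) (ph_zt (by omega) cl g t) hS'
  have hGm := hθ θ hθ0 hθlt.le (sndE t) hV
  have ha := hasy A hA1 t hV hY
  have ha' : |cosT (zono g) t * ∏ l ∈ Finset.range k, Yf gh l (fstE t) +
      1 / (2 * Real.pi ^ 2) * cosT (zono (gI g)) (sndE t) * Zt k gh (zt k cl g t) (fstE t)| ≤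
      Ca / A * (T * |S|) ^ (k - 2) :=
    ha.trans (mul_le_mul_of_nonneg_left (pow_le_pow_left₀ (norm_nonneg _) hs _) (by positivity))
  have har : T⁻¹ ^ (k - 2) * (Ca / A * (T * |S|) ^ (k - 2)) = Ca / A * |S| ^ (k - 2) := by
    rw [mul_pow, inv_pow]
    have h1 : T ^ (k - 2) ≠ 0 := pow_ne_zero _ hT.ne'
    field_simp
  have hP := GTn_prod_le (k := k) hL0 hL hs
  have key := NonA_alg (GTn_Zt_smul k gh (zt k cl g t) T⁻¹ (fstE t)) ha' har hP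
  obtain ⟨w, hw⟩ : ∃ w, w = cosT (zono g) t := ⟨_, rfl⟩
  obtain ⟨c, hc⟩ : ∃ c, c = cosT (zono (gI g)) (sndE t) := ⟨_, rfl⟩
  obtain ⟨Zu, hZu⟩ : ∃ Zu, Zu = Zt k gh (zt k cl g t) (T⁻¹ • fstE t) := ⟨_, rfl⟩
  obtain ⟨G, hG⟩ : ∃ G, G = Gm g θ (sndE t) := ⟨_, rfl⟩
  rw [← hw, ← hc, ← hZu] at key
  rw [← hc, ← hG] at hGm
  rw [← hZu] at hZ2
  rw [← hw, ← hZu, ← hG]
  have e1 : G ≤ c ^ 2 + η / (2 * (Cc * Zm + 1)) := by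
    have := (abs_le.1 hGm).2
    linarith
  have e2 : Cc * G * Zu ^ 2 ≤ Cc * (c ^ 2 + η / (2 * (Cc * Zm + 1))) * Zu ^ 2 :=
    mul_le_mul_of_nonneg_right (mul_le_mul_of_nonneg_left e1 hCc) (sq_nonneg _)
  have e3 : Cc * (η / (2 * (Cc * Zm + 1))) * Zu ^ 2 ≤ η / 2 := by
    have f1 : Cc * (η / (2 * (Cc * Zm + 1))) * Zu ^ 2 ≤
        Cc * (η / (2 * (Cc * Zm + 1))) * Zm :=
      mul_le_mul_of_nonneg_left hZ2 (by positivity)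
    refine f1.trans ?_
    rw [mul_assoc, div_mul_eq_mul_div, ← mul_div_assoc, div_le_iff₀ hCZ]
    nlinarith
  have e4 : Cc * (c * Zu) ^ 2 ≤ Cc * (8 * Real.pi ^ 4 * (|S| ^ (k - 2)) ^ 2 * (Ca / A) ^ 2 +
      8 * Real.pi ^ 4 * (T⁻¹ ^ (k - 2)) ^ 2 * ((L * (T * |S|)) ^ k) ^ 2 * w ^ 2) :=
    mul_le_mul_of_nonneg_left key hCc
  have e5 : Cc * (8 * Real.pi ^ 4 * (|S| ^ (k - 2)) ^ 2 * (Ca / A) ^ 2 +
      8 * Real.pi ^ 4 * (T⁻¹ ^ (k - 2)) ^ 2 * ((L * (T * |S|)) ^ k) ^ 2 * w ^ 2) =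
      K₁ * (Ca / A) ^ 2 + Cc * (8 * Real.pi ^ 4 * (T⁻¹ ^ (k - 2)) ^ 2 *
        ((L * (T * |S|)) ^ k) ^ 2) * w ^ 2 := by
    rw [hK₁]
    ring
  have e6 : Cc * (c ^ 2 + η / (2 * (Cc * Zm + 1))) * Zu ^ 2 =
      Cc * (c * Zu) ^ 2 + Cc * (η / (2 * (Cc * Zm + 1))) * Zu ^ 2 := by ring
  rw [e5] at e4
  rw [e6] at e2
  linarith

end Pool.Agent.MPbd65ca.Zo
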