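import Pool.Agent.Lib.MP_bd65ca_an_Z.NonA
import Pool.Agent.Lib.MP_bd65ca_an_Z.MainD
import Pool.Agent.Lib.MP_bd65ca_an_Z.Extra

/-!
# The Turán problem for zonotopes: the perturbed function is nonnegative

PROOF. `s = fstE t`, `v = sndE t`, `u = T⁻¹ • s`, `z = zt t` (`Ph k z` by `ph_zt`), `Γ = Gm g θ v`,
`0 ≤ Γ ≤ B v` (`hBm`), `Q = Ψ (R⁻¹ • u)^2 * pTg z u + M * Ψ (R⁻¹ • u) =
Ψ (R⁻¹ u) * (Ψ (R⁻¹ u) * pTg + M)`, so that `G0 = Γ Q`.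
`exists_B2`: for `‖u‖ ≤ S`, `z ∈ Ph` the continuous function `Q` is bounded (compactness of
`{Ph} × closedBall`, `isCompact_Ph`, `continuous_pTg`, `continuous_moz`); for `‖u‖ ≥ S` it is `≥ 0`
(`pr.out`, `pr.nonneg`).
`nonneg_z`: `V = m * A'`, `b0 > 0` the minimum of `B` on `closedBall 0 V` (or `b0 = B 0` if
`V < 0`; here `V ≥ 0`), `BΦ ≥ 0` a bound of `Ψ (R⁻¹ • u)` for `‖u‖ ≤ |S|`, `C` from `pr`.
`θ₀` from `D.zt_small` with `V`, `S`, `Cc = BΦ C`, `η = ε b0`.  Let `θ`, `A`, `T` be as there and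
`C'` from it.  Let `t` be arbitrary.  (1) `‖u‖ ≥ S`: `G0 ≥ 0` and `EX ≥ 0` (`psi_le_one`).
(2) `‖u‖ ≤ S` and `|v i| ≥ A'/2` for some `i`: `1 - sinc^2 ≥ 1/2` (`psi_le`), so
`EX ≥ Φ u * B v * (2 B2) * (1/2) ≥ B v * B2 ≥ -G0`, as `Φ u ≥ 1`.
(3) `‖u‖ ≤ S` and `|Y i(s)| < A` for some `i < k`: `|Y i / (2A)| ≤ 1/2`, `psi_ge`,
`EX ≥ Φ u * B v * (3 B2) * (1/3)`.  (4) Otherwise `‖v‖ ≤ ∑ |v i| ≤ m A'/2 ≤ V` and all
`|Y i(s)| ≥ A`; by `pr.inn` `G0 = Γ Ψ (Ψ pTg + M) ≥ -Γ Ψ C Zt^2 ≥ -BΦ C Γ Zt^2 ≥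
-ε b0 - C' cosT W^2` (`D.zt_small`), and `EX ≥ Φ u * B v * ε ≥ b0 ε`.
-/

open MeasureTheory FourierTransform Pointwise Set Filter Topology
open scoped RealInnerProductSpace

namespace Pool.Agent.MPbd65ca.Zo

open Pool.Agent.MPbd65ca.Pg Pool.Agent.MPbd65ca.ProdAux

variable {k m p q : ℕ} {gh : ℤ → E 2} {cl : Fin p → ℕ} {rho : Fin p → ℝ}
  {g : Fin (p + q) → E (2 + m)}

theorem exists_B2 (l : ℤ) {c R M S C : ℝ} {Ψ : E 2 → ℝ} {s : Jx → Finset (E 2)}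
    {b : Jx → E 2 → ℂ} {s0 : Finset (E 2)} {b0 : E 2 → ℂ}
    (pr : ProfG (FZ k gh) (moz l) k gh c R M S C Ψ s b s0 b0) : ∃ B2 : ℝ, 0 ≤ B2 ∧
      (∀ u z, ‖u‖ ≤ S → Ph k z → -B2 ≤ Ψ (R⁻¹ • u) ^ 2 *
        pTg (FZ k gh) (moz l) k gh c R s b s0 b0 z u + M * Ψ (R⁻¹ • u)) ∧
      (∀ u z, S ≤ ‖u‖ → Ph k z → 0 ≤ Ψ (R⁻¹ • u) ^ 2 *
        pTg (FZ k gh) (moz l) k gh c R s b s0 b0 z u + M * Ψ (R⁻¹ • u)) := by
  have hΨ : Continuous fun x : (ℤ → Circle) × E 2 => Ψ (R⁻¹ • x.2) :=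
    pr.cont.comp (continuous_snd.const_smul R⁻¹)
  have hp := continuous_pTg (F := FZ k gh) (continuous_moz l) k gh c R s b s0 b0
  have hc : Continuous fun x : (ℤ → Circle) × E 2 => Ψ (R⁻¹ • x.2) ^ 2 *
      pTg (FZ k gh) (moz l) k gh c R s b s0 b0 x.1 x.2 + M * Ψ (R⁻¹ • x.2) :=
    ((hΨ.pow 2).mul hp).add (continuous_const.mul hΨ)
  obtain ⟨B, hB⟩ := ((isCompact_Ph k).prod
    (isCompact_closedBall (0 : E 2) S)).exists_bound_of_continuousOn hc.continuousOn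
  refine ⟨|B|, abs_nonneg B, fun u z hu hz => ?_, fun u z hu hz => ?_⟩
  · have h1 := hB (z, u) ⟨hz, mem_closedBall_zero_iff.2 hu⟩
    rw [Real.norm_eq_abs] at h1
    exact (abs_le.1 (h1.trans (le_abs_self B))).1
  · have h1 := mul_nonneg (pr.nonneg (R⁻¹ • u)) (pr.out u z hu hz)
    refine h1.trans (le_of_eq ?_)
    ring

private theorem NonZ_ex_nonneg {m : ℕ} (k : ℕ) (gh : ℤ → E 2) {A A' B2 : ℝ} (hB20 : 0 ≤ B2)
    (s : E 2) (v : E m) :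
    0 ≤ 3 * B2 * ∑ i ∈ Finset.range k, Real.sinc (Real.pi * (Yf gh i s / (2 * A))) ^ 2 ∧
    0 ≤ 2 * B2 * ∑ i : Fin m, (1 - Real.sinc (Real.pi * (v i / A')) ^ 2) := by
  refine ⟨mul_nonneg (by linarith) (Finset.sum_nonneg fun i _ => sq_nonneg _),
    mul_nonneg (by linarith) (Finset.sum_nonneg fun i _ => ?_)⟩
  have := psi_le_one (v i / A')
  linarith

private theorem NonZ_norm_le {m : ℕ} (v : E m) : ‖v‖ ≤ ∑ i, |v i| := by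
  have h0 : 0 ≤ ∑ i, |v i| := Finset.sum_nonneg fun i _ => abs_nonneg _
  rw [EuclideanSpace.norm_eq]
  refine Real.sqrt_le_iff.2 ⟨h0, ?_⟩
  have h1 : ∑ i, ‖v i‖ ^ 2 = ∑ i, |v i| * |v i| := Finset.sum_congr rfl fun i _ => by
    rw [Real.norm_eq_abs, sq]
  rw [h1, sq, Finset.sum_mul]
  refine Finset.sum_le_sum fun i _ => mul_le_mul_of_nonneg_left ?_ (abs_nonneg _)
  exact Finset.single_le_sum (f := fun i => |v i|) (fun j _ => abs_nonneg _) (Finset.mem_univ i)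

theorem ZD.nonneg_z (D : ZD k m p q gh cl rho g) (l : ℤ) {c R M S C : ℝ} {Ψ : E 2 → ℝ}
    {s : Jx → Finset (E 2)} {b : Jx → E 2 → ℂ} {s0 : Finset (E 2)} {b0 : E 2 → ℂ}
    (pr : ProfG (FZ k gh) (moz l) k gh c R M S C Ψ s b s0 b0) {B2 : ℝ} (hB20 : 0 ≤ B2)
    (hB2 : ∀ u z, ‖u‖ ≤ S → Ph k z → -B2 ≤ Ψ (R⁻¹ • u) ^ 2 *
        pTg (FZ k gh) (moz l) k gh c R s b s0 b0 z u + M * Ψ (R⁻¹ • u))
    (hB2' : ∀ u z, S ≤ ‖u‖ → Ph k z → 0 ≤ Ψ (R⁻¹ • u) ^ 2 *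
        pTg (FZ k gh) (moz l) k gh c R s b s0 b0 z u + M * Ψ (R⁻¹ • u))
    {Φ : E 2 → ℝ} (hΦ0 : ∀ u, 0 ≤ Φ u) (hΦ1 : ∀ u, ‖u‖ ≤ S → 1 ≤ Φ u)
    {B : E m → ℝ} (hBc : Continuous B) (hB0 : ∀ y, 0 < B y)
    (hBm : ∀ θ : ℝ, 1 / 2 ≤ θ → θ ≤ 1 → ∀ y, cosT (zono (gI g)) (θ • y) ^ 2 ≤ B y)
    {A' ε : ℝ} (hA' : 0 < A') (hε : 0 < ε) :
    ∃ θ₀ : ℝ, 1 / 2 ≤ θ₀ ∧ θ₀ < 1 ∧ ∀ θ : ℝ, θ₀ ≤ θ → θ < 1 →
    ∃ A₀ : ℝ, 0 < A₀ ∧ ∀ A : ℝ, A₀ ≤ A → ∀ T : ℝ, 0 < T → ∃ C' : ℝ, 0 ≤ C' ∧ ∀ t,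
      0 ≤ (G0 (FZ k gh) (moz l) k cl g gh c R M Ψ s b s0 b0 θ T t +
        EX k gh Φ B (3 * B2) (2 * B2) ε A A' T t) + C' * cosT (zono g) t ^ 2 := by
  have hk : 0 < k := by
    have := D.zon.hk
    omega
  -- the constants
  set V : ℝ := m * A' with hV
  have hV0 : 0 ≤ V := by positivity
  obtain ⟨y₀, -, hy₀⟩ := (isCompact_closedBall (0 : E m) V).exists_isMinOn
    ⟨0, Metric.mem_closedBall_self hV0⟩ hBc.continuousOn
  set β : ℝ := B y₀ with hβ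
  have hβ0 : 0 < β := hB0 y₀
  have hβ1 : ∀ v : E m, ‖v‖ ≤ V → β ≤ B v := fun v hv => hy₀ (mem_closedBall_zero_iff.2 hv)
  have hcont : Continuous fun u : E 2 => Ψ (R⁻¹ • u) :=
    pr.cont.comp (continuous_const_smul R⁻¹)
  obtain ⟨K, hK⟩ := (isCompact_closedBall (0 : E 2) S).exists_bound_of_continuousOn
    hcont.continuousOn
  have hK' : ∀ u : E 2, ‖u‖ ≤ S → Ψ (R⁻¹ • u) ≤ |K| := by
    intro u hu
    have h1 := hK u (mem_closedBall_zero_iff.2 hu)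
    rw [Real.norm_eq_abs] at h1
    exact ((le_abs_self _).trans h1).trans (le_abs_self K)
  have hCc : 0 ≤ |K| * C := mul_nonneg (abs_nonneg K) pr.hC
  obtain ⟨θ₀, h1, h2, hθ₀⟩ := D.zt_small V S hCc (mul_pos hε hβ0)
  refine ⟨θ₀, h1, h2, fun θ hθ hθ1 => ?_⟩
  obtain ⟨A₀, hA₀, hA₀'⟩ := hθ₀ θ hθ hθ1
  refine ⟨A₀, hA₀, fun A hA T hT => ?_⟩
  obtain ⟨C', hC', hz⟩ := hA₀' A hA T hT
  have hA0 : 0 < A := hA₀.trans_le hA
  refine ⟨C', hC', fun t => ?_⟩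
  set u : E 2 := T⁻¹ • fstE t with hu
  set v : E m := sndE t with hv
  set z := zt k cl g t with hz0
  set Γ : ℝ := Gm g θ v with hΓ
  have hPh : Ph k z := ph_zt hk cl g t
  have hΓ0 : 0 ≤ Γ := by
    rw [hΓ]
    exact sq_nonneg _
  have hΓB : Γ ≤ B v := hBm θ (h1.trans hθ) hθ1.le v
  have hcos : 0 ≤ C' * cosT (zono g) t ^ 2 := mul_nonneg hC' (sq_nonneg _)
  obtain ⟨hX1, hX2⟩ := NonZ_ex_nonneg k gh (A := A) (A' := A') hB20 (fstE t) v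
  set X1 : ℝ := 3 * B2 * ∑ i ∈ Finset.range k,
    Real.sinc (Real.pi * (Yf gh i (fstE t) / (2 * A))) ^ 2 with hX1d
  set X2 : ℝ := 2 * B2 * ∑ i : Fin m, (1 - Real.sinc (Real.pi * (v i / A')) ^ 2) with hX2d
  have hEX : EX k gh Φ B (3 * B2) (2 * B2) ε A A' T t = Φ u * B v * (X1 + X2 + ε) := rfl
  have hG0 : G0 (FZ k gh) (moz l) k cl g gh c R M Ψ s b s0 b0 θ T t =
      Γ * (Ψ (R⁻¹ • u) ^ 2 * pTg (FZ k gh) (moz l) k gh c R s b s0 b0 z u +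
        M * Ψ (R⁻¹ • u)) := rfl
  have hBv := hB0 v
  rw [hEX, hG0]
  rcases le_total S ‖u‖ with hS | hS
  · -- far away
    have h3 := mul_nonneg hΓ0 (hB2' u z hS hPh)
    have h4 : 0 ≤ Φ u * B v * (X1 + X2 + ε) :=
      mul_nonneg (mul_nonneg (hΦ0 u) hBv.le) (by linarith)
    linarith
  have hΦu := hΦ1 u hS
  -- the correction is at least `B v` times a lower bound of the last factor
  have hlow : ∀ w : ℝ, 0 ≤ w → w ≤ X1 + X2 + ε → B v * w ≤ Φ u * B v * (X1 + X2 + ε) := by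
    intro w hw hw1
    calc B v * w ≤ B v * (X1 + X2 + ε) := mul_le_mul_of_nonneg_left hw1 hBv.le
      _ = 1 * (B v * (X1 + X2 + ε)) := (one_mul _).symm
      _ ≤ Φ u * (B v * (X1 + X2 + ε)) :=
        mul_le_mul_of_nonneg_right hΦu (mul_nonneg hBv.le (by linarith))
      _ = Φ u * B v * (X1 + X2 + ε) := by ring
  -- a crude bound of the main part
  have hGlow : -(B v * B2) ≤ Γ * (Ψ (R⁻¹ • u) ^ 2 *
      pTg (FZ k gh) (moz l) k gh c R s b s0 b0 z u + M * Ψ (R⁻¹ • u)) := by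
    have h3 := mul_le_mul_of_nonneg_left (hB2 u z hS hPh) hΓ0
    have h4 := mul_le_mul_of_nonneg_right hΓB hB20
    linarith
  by_cases hc1 : ∃ i : Fin m, A' / 2 ≤ |v i|
  · obtain ⟨i, hi⟩ := hc1
    have hy : 1 / 2 ≤ |v i / A'| := by
      rw [abs_div, abs_of_pos hA', le_div_iff₀ hA']
      linarith
    have h3 : 1 / 2 ≤ ∑ i : Fin m, (1 - Real.sinc (Real.pi * (v i / A')) ^ 2) := by
      have h4 := psi_le hy
      have h5 := Finset.single_le_sum (f := fun i : Fin m =>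
        1 - Real.sinc (Real.pi * (v i / A')) ^ 2) (fun j _ => by
          have := psi_le_one (v j / A')
          simp only
          linarith) (Finset.mem_univ i)
      simp only at h5
      linarith
    have h4 : B2 ≤ X2 := by
      have := mul_le_mul_of_nonneg_left h3 (by linarith : 0 ≤ 2 * B2)
      rw [hX2d]
      linarith
    have h5 := hlow B2 hB20 (by linarith)
    linarith
  by_cases hc2 : ∃ i : ℕ, i < k ∧ |Yf gh (i : ℕ) (fstE t)| ≤ A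
  · obtain ⟨i, hi, hiA⟩ := hc2
    have hy : |Yf gh (i : ℕ) (fstE t) / (2 * A)| ≤ 1 / 2 := by
      rw [abs_div, abs_of_pos (by positivity : 0 < 2 * A), div_le_iff₀ (by positivity)]
      linarith
    have h3 : 1 / 3 ≤ ∑ i ∈ Finset.range k,
        Real.sinc (Real.pi * (Yf gh i (fstE t) / (2 * A))) ^ 2 := by
      have h4 := psi_ge hy
      have h5 := Finset.single_le_sum (f := fun i : ℕ =>
        Real.sinc (Real.pi * (Yf gh i (fstE t) / (2 * A))) ^ 2)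
        (fun j _ => sq_nonneg _) (Finset.mem_range.2 hi)
      exact h4.trans h5
    have h4 : B2 ≤ X1 := by
      have := mul_le_mul_of_nonneg_left h3 (by linarith : 0 ≤ 3 * B2)
      rw [hX1d]
      linarith
    have h5 := hlow B2 hB20 (by linarith)
    linarith
  -- the remaining case
  push Not at hc1 hc2
  have hvV : ‖v‖ ≤ V := by
    refine (NonZ_norm_le v).trans ?_
    have h3 : ∑ i, |v i| ≤ ∑ _i : Fin m, A' := Finset.sum_le_sum fun i _ => by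
      have := hc1 i
      linarith
    rw [Finset.sum_const, Finset.card_univ, Fintype.card_fin, nsmul_eq_mul] at h3
    exact h3
  have h3 := hz t hvV hS fun l hl => (hc2 l hl).le
  have h4 := hlow ε hε.le (by linarith)
  have h5 : ε * β ≤ B v * ε := by
    rw [mul_comm]
    exact mul_le_mul_of_nonneg_right (hβ1 v hvV) hε.le
  have hΨ0 := pr.nonneg (R⁻¹ • u)
  have h6 : 0 ≤ Γ * (Ψ (R⁻¹ • u) * (Ψ (R⁻¹ • u) *
      pTg (FZ k gh) (moz l) k gh c R s b s0 b0 z u + M + C * Zt k gh z u ^ 2)) :=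
    mul_nonneg hΓ0 (mul_nonneg hΨ0 (pr.inn u z hS hPh))
  have h7 : Γ * (Ψ (R⁻¹ • u) * (C * Zt k gh z u ^ 2)) ≤
      |K| * C * Γ * Zt k gh z u ^ 2 := by
    have h8 : 0 ≤ C * Zt k gh z u ^ 2 := mul_nonneg pr.hC (sq_nonneg _)
    have h9 := mul_le_mul_of_nonneg_left (mul_le_mul_of_nonneg_right (hK' u hS) h8) hΓ0
    refine h9.trans (le_of_eq ?_)
    ring
  have h10 : Γ * (Ψ (R⁻¹ • u) ^ 2 * pTg (FZ k gh) (moz l) k gh c R s b s0 b0 z u +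
      M * Ψ (R⁻¹ • u)) = Γ * (Ψ (R⁻¹ • u) * (Ψ (R⁻¹ • u) *
      pTg (FZ k gh) (moz l) k gh c R s b s0 b0 z u + M + C * Zt k gh z u ^ 2)) -
      Γ * (Ψ (R⁻¹ • u) * (C * Zt k gh z u ^ 2)) := by ring
  rw [h10]
  linarith

end Pool.Agent.MPbd65ca.Zo
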