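import Pool.Agent.Lib.MP_bd65ca_an.Prod

/-!
# The Turán problem for zonotopes: coordinates

PROOF. The subspace `L₀ = {x | fstE x = 0}` of `E (2 + m)` (the kernel of the surjective linear map
`fstE`) has the dimension `m` (rank-nullity; the dimension of `E (2 + m)` is `2 + m`).  Two subspaces
of the same dimension are mapped to each other by a linear automorphism: choose complements `L'`,
`L₀'` (`Submodule.exists_isCompl`), of the same dimension `2`, linear equivalences `L ≃ L₀`, `L' ≃ L₀'`
(`LinearEquiv.ofFinrankEq`) and add them (`Submodule.prodEquivOfIsCompl`).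
Continuity: `LinearEquiv.toContinuousLinearEquiv`.
-/

open MeasureTheory FourierTransform Pointwise Set Filter Topology
open scoped RealInnerProductSpace

namespace Pool.Agent.MPbd65ca.Zo

/-- The linear map `fstE`. -/
private def fstL (m : ℕ) : E (2 + m) →ₗ[ℝ] E 2 where
  toFun := fstE
  map_add' x y := by
    ext i
    simp [fstE]
  map_smul' c x := by
    ext i
    simp [fstE]

private theorem fstL_apply {m : ℕ} (x : E (2 + m)) : fstL m x = fstE x := rfl

private theorem finrank_ker (m : ℕ) : Module.finrank ℝ (LinearMap.ker (fstL m)) = m := by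
  have h1 := LinearMap.finrank_range_add_finrank_ker (fstL m)
  have h2 : LinearMap.range (fstL m) = ⊤ := by
    rw [LinearMap.range_eq_top]
    intro y
    exact ⟨ProdAux.pairE (y, 0), ProdAux.fst_pair _⟩
  rw [h2, finrank_top, finrank_euclideanSpace_fin, finrank_euclideanSpace_fin] at h1
  omega

theorem exists_coord {m : ℕ} (L : Submodule ℝ (E (2 + m))) (hL : Module.finrank ℝ L = m) :
    ∃ A : E (2 + m) ≃L[ℝ] E (2 + m), ∀ x, x ∈ L ↔ fstE (A x) = 0 := by
  have e : L ≃ₗ[ℝ] LinearMap.ker (fstL m) := LinearEquiv.ofFinrankEq _ _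
    (hL.trans (finrank_ker m).symm)
  obtain ⟨L', hL'⟩ := Submodule.exists_isCompl L
  obtain ⟨K', hK'⟩ := Submodule.exists_isCompl (LinearMap.ker (fstL m))
  have h1 := Submodule.finrank_add_eq_of_isCompl hL'
  have h2 := Submodule.finrank_add_eq_of_isCompl hK'
  have h3 := finrank_ker m
  have e' : L' ≃ₗ[ℝ] K' := LinearEquiv.ofFinrankEq _ _ (by omega)
  let A : E (2 + m) ≃ₗ[ℝ] E (2 + m) := (Submodule.prodEquivOfIsCompl L L' hL').symm.trans
    ((e.prodCongr e').trans (Submodule.prodEquivOfIsCompl _ K' hK'))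
  refine ⟨A.toContinuousLinearEquiv, fun x => ?_⟩
  obtain ⟨⟨u, v⟩, rfl⟩ := (Submodule.prodEquivOfIsCompl L L' hL').surjective x
  have h4 : A.toContinuousLinearEquiv (Submodule.prodEquivOfIsCompl L L' hL' (u, v))
      = (e u : E (2 + m)) + (e' v : E (2 + m)) := by
    simp [A]
  rw [h4, ← fstL_apply, map_add, LinearMap.mem_ker.1 (e u).2, zero_add]
  have h5 : Submodule.prodEquivOfIsCompl L L' hL' (u, v) = (u : E (2 + m)) + v := by simp
  rw [h5]
  constructor
  · intro h
    have h6 : (v : E (2 + m)) ∈ L := by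
      have := L.sub_mem h u.2
      simpa using this
    have h7 : v = 0 := by
      have h8 := Submodule.disjoint_def.1 hL'.disjoint _ h6 v.2
      exact Subtype.ext h8
    rw [h7, map_zero]
    simp
  · intro h
    have h6 : (e' v : E (2 + m)) = 0 :=
      Submodule.disjoint_def.1 hK'.disjoint _ (LinearMap.mem_ker.2 h) (e' v).2
    have h7 : e' v = 0 := Subtype.ext h6
    have h8 : v = 0 := by simpa using h7
    rw [h8]
    simp

end Pool.Agent.MPbd65ca.Zo
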