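import Pool.Agent.Lib.MP_bd65ca_an_Z.Defs

/-!
# Zonotopes which tile: definitions

Coordinates with respect to the bases consisting of generators, and the exchange of one element.
-/

open MeasureTheory FourierTransform Pointwise Set
open scoped RealInnerProductSpace

namespace Pool.Agent.MPbd65ca.Zo

variable {d n : ℕ}

/-- There is no belt with at least eight facets: for every subspace of codimension two which is
spanned by generators, there are no four generators which are pairwise independent modulo this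
subspace. -/
def NB (g : Fin n → E d) : Prop :=
  ∀ L : Submodule ℝ (E d), Module.finrank ℝ L + 2 = d → L = Submodule.span ℝ (range g ∩ L) →
    ∀ i : Fin 4 → Fin n, ¬ ∀ a b, a ≠ b → L ⊔ Submodule.span ℝ {g (i a), g (i b)} = ⊤

/-- `K` tiles the space by translations. -/
def Tiles (K : Set (E d)) : Prop :=
  ∃ T : Set (E d), (∀ x, ∃ t ∈ T, x - t ∈ K) ∧
    ∀ s ∈ T, ∀ t ∈ T, s ≠ t → ∀ x, ¬ (x - s ∈ interior K ∧ x - t ∈ interior K)

/-- The exchange of the basis element `i0` by the vector `j0` in a matrix of coordinates. -/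
noncomputable def piv (A : Fin d → Fin n → ℝ) (i0 : Fin d) (j0 : Fin n) (i : Fin d) (j : Fin n) :
    ℝ :=
  if i = i0 then A i0 j / A i0 j0 else A i j - A i j0 * A i0 j / A i0 j0

/-- The coordinate matrices of the generators. -/
def Cc (g : Fin n → E d) : Set (Fin d → Fin n → ℝ) :=
  {A | ∃ b : Fin d → Fin n, LinearIndependent ℝ (fun i => g (b i)) ∧
    ∀ j, g j = ∑ i, A i j • g (b i)}

/-- Sets of matrices closed under exchanges, such that minors of order two without zero entries
vanish. -/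
def PCl (S : Set (Fin d → Fin n → ℝ)) : Prop :=
  (∀ A ∈ S, ∀ i j, A i j ≠ 0 → piv A i j ∈ S) ∧
  ∀ A ∈ S, ∀ i i' j j', i ≠ i' → A i j ≠ 0 → A i' j ≠ 0 → A i j' ≠ 0 → A i' j' ≠ 0 →
    A i j * A i' j' = A i j' * A i' j

/-- The absolute values of the nonzero entries in the columns `J` are products `x i * y j`. -/
def Pot (A : Fin d → Fin n → ℝ) (J : Finset (Fin n)) (x : Fin d → ℝ) (y : Fin n → ℝ) : Prop :=
  (∀ i, 0 < x i) ∧ (∀ j, 0 < y j) ∧ ∀ i, ∀ j ∈ J, A i j = 0 ∨ |A i j| = x i * y j

/-- Walks of length `t` between rows: consecutive rows have nonzero entries in a common column of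
`J`. -/
def Wk (A : Fin d → Fin n → ℝ) (J : Finset (Fin n)) (t : ℕ) (r s : Fin d) : Prop :=
  ∃ (ρ : ℕ → Fin d) (γ : ℕ → Fin n), ρ 0 = r ∧ ρ t = s ∧
    ∀ i < t, γ i ∈ J ∧ A (ρ i) (γ i) ≠ 0 ∧ A (ρ (i + 1)) (γ i) ≠ 0

end Pool.Agent.MPbd65ca.Zo
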