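import Pool.Agent.Lib.MP_bd65ca_an_Z.Piv

/-!
# Zonotopes which tile: exchanges preserve the product form

PROOF. `A' = piv A i0 j0`, `x' = Function.update x i0 (y j0)⁻¹`.  Row `i0`: `|A i0 j0| = x i0 * y
j0`
(nonzero), so if `A i0 j ≠ 0` then `|A' i0 j| = x i0 y j / (x i0 y j0) = (y j0)⁻¹ * y j`.  Row
`i ≠ i0`: if `A i j0 = 0` or `A i0 j = 0` then `A' i j = A i j`.  Otherwise, if `A i j = 0` then
`|A' i j| = x i y j0 x i0 y j / (x i0 y j0) = x i y j`; if `A i j ≠ 0` then all four entries are
nonzero,
and the minor of the rows `i0`, `i` and the columns `j0`, `j` vanishes, so `A' i j = 0`.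
-/

open MeasureTheory FourierTransform Pointwise Set
open scoped RealInnerProductSpace

namespace Pool.Agent.MPbd65ca.Zo

variable {d n : ℕ} {S : Set (Fin d → Fin n → ℝ)}

theorem pot_piv (h : PCl S) {A : Fin d → Fin n → ℝ} (hA : A ∈ S) {J : Finset (Fin n)}
    {x : Fin d → ℝ} {y : Fin n → ℝ} (hp : Pot A J x y) {i0 : Fin d} {j0 : Fin n} (hj0 : j0 ∈ J)
    (h0 : A i0 j0 ≠ 0) : Pot (piv A i0 j0) J (Function.update x i0 (y j0)⁻¹) y := by
  obtain ⟨hx, hy, hA'⟩ := hp
  have hx0 : x i0 ≠ 0 := (hx i0).ne'
  have hy0 : y j0 ≠ 0 := (hy j0).ne'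
  have e0 : |A i0 j0| = x i0 * y j0 := (hA' i0 j0 hj0).resolve_left h0
  refine ⟨fun i => ?_, hy, fun i j hj => ?_⟩
  · by_cases hi : i = i0
    · subst hi
      rw [Function.update_self]
      exact inv_pos.2 (hy j0)
    · rw [Function.update_of_ne hi]
      exact hx i
  · by_cases hi : i = i0
    · subst hi
      rw [Function.update_self]
      simp only [piv, if_true]
      by_cases hz : A i j = 0
      · left
        rw [hz, zero_div]
      · right
        rw [abs_div, (hA' i j hj).resolve_left hz, e0]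
        field_simp
    · rw [Function.update_of_ne hi]
      simp only [piv, if_neg hi]
      by_cases h1 : A i j0 = 0
      · simpa [h1] using hA' i j hj
      by_cases h2 : A i0 j = 0
      · simpa [h2] using hA' i j hj
      by_cases h3 : A i j = 0
      · right
        rw [h3, zero_sub, abs_neg, abs_div, abs_mul, (hA' i j0 hj0).resolve_left h1,
          (hA' i0 j hj).resolve_left h2, e0]
        field_simp
      · left
        have h4 := h.2 A hA i i0 j j0 hi h3 h2 h1 h0
        rw [sub_eq_zero, eq_div_iff h0]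
        exact h4

end Pool.Agent.MPbd65ca.Zo
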