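import Pool.Agent.Lib.MP_bd65ca_an_Z.PivA

/-!
# Zonotopes which tile: walks

PROOF. Strong induction on `t`, for all `A`, `x` (with fixed `y`, `J`, `e`).  `t = 0`: `r = s`. 
We may assume `r ≠ s`.  `t = 1`: with `j = γ 0`: `A r j, A s j, A r e, A s e` are nonzero, so
`A r j * A s e = A r e * A s j`; take absolute values, `|A r j| = x r y j`, `|A s j| = x s y j`,
cancel `y j`.  `t ≥ 2`, walk `ρ, γ`:
(1) If `A (ρ i) (γ 0) ≠ 0` for some `2 ≤ i ≤ t`: the walk `ρ 0, γ 0, ρ i, γ i, ρ (i+1), ...` has the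
length `t - i + 1 < t` (new `ρ' 0 = ρ 0`, `ρ' (a+1) = ρ (i+a)`, `γ' 0 = γ 0`, `γ' (a+1) = γ (i+a)`).
(2) If `A (ρ 0) (γ i) ≠ 0` for some `1 ≤ i < t`: the walk `ρ 0, γ i, ρ (i+1), γ (i+1), ...` has the
length `t - i < t` (`ρ' 0 = ρ 0`, `ρ' (a+1) = ρ (i+a+1)`, `γ' a = γ (i+a)`).
(3) If `A (ρ 1) e ≠ 0`: the walks `ρ 0, γ 0, ρ 1` (length 1) and `ρ 1, ..., ρ t` (length `t - 1`)
give `|A r e| x (ρ 1) = |A (ρ 1) e| x r` and `|A (ρ 1) e| x s = |A s e| x (ρ 1)`; multiply and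
cancel `|A (ρ 1) e| > 0` and `x (ρ 1) > 0`.
(4) Otherwise let `A' = piv A (ρ 1) (γ 0)` and `x' = Function.update x (ρ 1) (y (γ 0))⁻¹`
(`pot_piv`, `A' ∈ S`).  `A (ρ 1) e = 0`, so `ρ 1 ≠ r, s`, `A' r e = A r e`, `A' s e = A s e`, `x'
r = x r`, `x' s = x s`.  The walk `ρ 0, γ 1, ρ 2, γ 2, ..., ρ t` is a walk for `A'` (length `t -
1`): `A' (ρ 0) (γ 1) = 0 - A (ρ 0) (γ 0) * A (ρ 1) (γ 1) / A (ρ 1) (γ 0) ≠ 0` (by (2) `A (ρ 0) (γ
1) = 0`), and for `i ≥ 2` the row `ρ i` is different from `ρ 1` and `A (ρ i) (γ 0) = 0` (by (1)),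
so the entries of the row `ρ i` do not change.
-/

open MeasureTheory FourierTransform Pointwise Set
open scoped RealInnerProductSpace

namespace Pool.Agent.MPbd65ca.Zo

variable {d n : ℕ} {S : Set (Fin d → Fin n → ℝ)}

/-- a sequence with a new first element -/
private def PBs {α : Type*} (u : α) (f : ℕ → α) : ℕ → α
  | 0 => u
  | a + 1 => f a

/-- the walk with the steps `1, ..., i - 1` omitted, first case -/
private theorem PB_short1 {A : Fin d → Fin n → ℝ} {J : Finset (Fin n)} {t : ℕ} {ρ : ℕ → Fin d}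
    {γ : ℕ → Fin n} (hw : ∀ i < t, γ i ∈ J ∧ A (ρ i) (γ i) ≠ 0 ∧ A (ρ (i + 1)) (γ i) ≠ 0)
    {i : ℕ} (h2 : 2 ≤ i) (hi : i ≤ t) (h0 : A (ρ i) (γ 0) ≠ 0) :
    Wk A J (t - i + 1) (ρ 0) (ρ t) := by
  refine ⟨PBs (ρ 0) fun a => ρ (i + a), PBs (γ 0) fun a => γ (i + a), rfl, ?_, ?_⟩
  · change ρ (i + (t - i)) = ρ t
    rw [show i + (t - i) = t by omega]
  · intro a ha
    rcases a with _ | a
    · have h1 := hw 0 (by omega)
      exact ⟨h1.1, h1.2.1, h0⟩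
    · exact hw (i + a) (by omega)

/-- the walk with the steps `1, ..., i - 1` omitted, second case -/
private theorem PB_short2 {A : Fin d → Fin n → ℝ} {J : Finset (Fin n)} {t : ℕ} {ρ : ℕ → Fin d}
    {γ : ℕ → Fin n} (hw : ∀ i < t, γ i ∈ J ∧ A (ρ i) (γ i) ≠ 0 ∧ A (ρ (i + 1)) (γ i) ≠ 0)
    {i : ℕ} (hi : i < t) (h0 : A (ρ 0) (γ i) ≠ 0) : Wk A J (t - i) (ρ 0) (ρ t) := by
  refine ⟨PBs (ρ 0) fun a => ρ (i + a + 1), fun a => γ (i + a), rfl, ?_, ?_⟩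
  · obtain ⟨c, hc⟩ : ∃ c, t - i = c + 1 := ⟨t - i - 1, by omega⟩
    rw [hc]
    change ρ (i + c + 1) = ρ t
    rw [show i + c + 1 = t by omega]
  · intro a ha
    rcases a with _ | a
    · have h1 := hw i hi
      exact ⟨h1.1, h0, h1.2.2⟩
    · exact hw (i + a + 1) (by omega)

/-- an exchange does not change the rows with the entry `0` -/
private theorem PB_piv {A : Fin d → Fin n → ℝ} {i0 : Fin d} {j0 : Fin n} {i : Fin d}
    (hi : i ≠ i0) (j : Fin n) (h0 : A i j0 = 0 ∨ A i0 j = 0) : piv A i0 j0 i j = A i j := by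
  unfold piv
  rw [if_neg hi]
  rcases h0 with h0 | h0 <;> rw [h0] <;> ring

theorem walk_eq (h : PCl S) {J : Finset (Fin n)} (e : Fin n) (y : Fin n → ℝ) (t : ℕ) :
    ∀ A ∈ S, ∀ x : Fin d → ℝ, Pot A J x y → ∀ r s : Fin d, Wk A J t r s → A r e ≠ 0 →
      A s e ≠ 0 → |A r e| * x s = |A s e| * x r := by
  induction t using Nat.strong_induction_on with
  | _ t ih =>
  intro A hA x hp r s hw hr hs
  obtain ⟨ρ, γ, h0, ht, hw⟩ := hw
  by_cases hrs : r = s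
  · rw [hrs]
  have ht0 : t ≠ 0 := by
    rintro rfl
    exact hrs (h0.symm.trans ht)
  obtain ⟨hx, hy, hxy⟩ := id hp
  by_cases ht1 : t = 1
  · subst ht1
    obtain ⟨hj, h1, h2⟩ := hw 0 one_pos
    rw [h0] at h1
    rw [zero_add, ht] at h2
    have h3 := h.2 A hA r s (γ 0) e hrs h1 h2 hr hs
    have h4 : |A r (γ 0)| = x r * y (γ 0) := (hxy r _ hj).resolve_left h1
    have h5 : |A s (γ 0)| = x s * y (γ 0) := (hxy s _ hj).resolve_left h2
    have h6 : |A r (γ 0)| * |A s e| = |A r e| * |A s (γ 0)| := by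
      rw [← abs_mul, ← abs_mul, h3]
    rw [h4, h5] at h6
    exact mul_right_cancel₀ (hy (γ 0)).ne' (by linarith)
  have ht2 : 2 ≤ t := by omega
  subst h0
  subst ht
  by_cases c1 : ∃ i, 2 ≤ i ∧ i ≤ t ∧ A (ρ i) (γ 0) ≠ 0
  · obtain ⟨i, hi2, hit, hi0⟩ := c1
    exact ih _ (by omega) A hA x hp _ _ (PB_short1 hw hi2 hit hi0) hr hs
  by_cases c2 : ∃ i, 1 ≤ i ∧ i < t ∧ A (ρ 0) (γ i) ≠ 0
  · obtain ⟨i, hi1, hit, hi0⟩ := c2
    exact ih _ (by omega) A hA x hp _ _ (PB_short2 hw hit hi0) hr hs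
  push Not at c1 c2
  by_cases c3 : A (ρ 1) e = 0
  · obtain ⟨hj0, h00, h10⟩ := hw 0 (by omega)
    rw [zero_add] at h10
    have hS := h.1 A hA (ρ 1) (γ 0) h10
    have hP := pot_piv h hA hp hj0 h10
    have hr1 : ρ 0 ≠ ρ 1 := fun hh => hr (by rw [hh, c3])
    have hs1 : ρ t ≠ ρ 1 := fun hh => hs (by rw [hh, c3])
    have hrow : ∀ i, 2 ≤ i → i ≤ t → ∀ j, piv A (ρ 1) (γ 0) (ρ i) j = A (ρ i) j := by
      intro i hi hit j
      have h1 := c1 i hi hit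
      exact PB_piv (fun hh => h10 (by rw [← hh, h1])) j (Or.inl h1)
    have hW : Wk (piv A (ρ 1) (γ 0)) J (t - 1) (ρ 0) (ρ t) := by
      refine ⟨PBs (ρ 0) fun a => ρ (a + 2), fun a => γ (a + 1), rfl, ?_, ?_⟩
      · obtain ⟨c, hc⟩ : ∃ c, t = c + 2 := ⟨t - 2, by omega⟩
        rw [hc]
        rfl
      · intro a ha
        rcases a with _ | a
        · obtain ⟨hj1, h11, h21⟩ := hw 1 (by omega)
          refine ⟨hj1, ?_, ?_⟩
          · change piv A (ρ 1) (γ 0) (ρ 0) (γ 1) ≠ 0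
            unfold piv
            rw [if_neg hr1, c2 1 le_rfl (by omega), zero_sub]
            exact neg_ne_zero.2 (div_ne_zero (mul_ne_zero h00 h11) h10)
          · change piv A (ρ 1) (γ 0) (ρ 2) (γ 1) ≠ 0
            rw [hrow 2 le_rfl ht2]
            exact h21
        · obtain ⟨hj1, h11, h21⟩ := hw (a + 2) (by omega)
          refine ⟨hj1, ?_, ?_⟩
          · change piv A (ρ 1) (γ 0) (ρ (a + 2)) (γ (a + 2)) ≠ 0
            rw [hrow (a + 2) (by omega) (by omega)]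
            exact h11
          · change piv A (ρ 1) (γ 0) (ρ (a + 1 + 2)) (γ (a + 2)) ≠ 0
            rw [hrow (a + 1 + 2) (by omega) (by omega)]
            exact h21
    have h1 : piv A (ρ 1) (γ 0) (ρ 0) e = A (ρ 0) e := PB_piv hr1 e (Or.inr c3)
    have h2 : piv A (ρ 1) (γ 0) (ρ t) e = A (ρ t) e := PB_piv hs1 e (Or.inr c3)
    have h3 := ih (t - 1) (by omega) _ hS _ hP _ _ hW (by rw [h1]; exact hr)
      (by rw [h2]; exact hs)
    rw [h1, h2, Function.update_of_ne hs1, Function.update_of_ne hr1] at h3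
    exact h3
  · have hw1 : Wk A J 1 (ρ 0) (ρ 1) :=
      ⟨ρ, γ, rfl, rfl, fun i hi => hw i (by omega)⟩
    have hw2 : Wk A J (t - 1) (ρ 1) (ρ t) := by
      refine ⟨fun a => ρ (a + 1), fun a => γ (a + 1), rfl, ?_, fun i hi => hw (i + 1) (by omega)⟩
      change ρ (t - 1 + 1) = ρ t
      rw [show t - 1 + 1 = t by omega]
    have e1 := ih 1 (by omega) A hA x hp _ _ hw1 hr c3
    have e2 := ih (t - 1) (by omega) A hA x hp _ _ hw2 c3 hs
    have hP : |A (ρ 1) e| * x (ρ 1) ≠ 0 := mul_ne_zero (abs_ne_zero.2 c3) (hx _).ne'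
    refine mul_right_cancel₀ hP ?_
    linear_combination (|A (ρ 1) e| * x (ρ t)) * e1 + (|A (ρ 1) e| * x (ρ 0)) * e2

end Pool.Agent.MPbd65ca.Zo
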