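import Pool.Agent.Lib.MP_bd65ca_an_Z.PivB

/-!
# Zonotopes which tile: the product form for all columns

PROOF. Induction on `J` (`Finset.induction_on`), for all `A ∈ S`.  Empty: `x = 1`, `y = 1`.  Step: `J`,
`e ∉ J`, `A ∈ S`, `Pot A J x y`.  Rows `r`, `s` are called connected if `Wk A J t r s` for some `t`; this
is an equivalence relation (reverse and concatenate walks).  For a row `r` let `κ r = |A s e| / x s` for
a chosen row `s` connected with `r` such that `A s e ≠ 0`, and `κ r = 1` if there is none.  By `walk_eq`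
`κ r` depends only on the class of `r`, and `κ r * x r = |A r e|` if `A r e ≠ 0`.  New
`x' r = κ r * x r`, `y' e = 1`, and for `j ≠ e`: `y' j = y j / κ r` where `r` is any row with `A r j ≠ 0` if
there is one and `j ∈ J` (two such rows are connected by a walk of length 1), otherwise `y' j = y j`
(or `1`).  Then for `j ∈ J` with `A r j ≠ 0`: `|A r j| = x r * y j = x' r * y' j`; for `j = e`:
`|A r e| = κ r x r = x' r * y' e`.
-/

open MeasureTheory FourierTransform Pointwise Set
open scoped RealInnerProductSpace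

namespace Pool.Agent.MPbd65ca.Zo

variable {d n : ℕ} {S : Set (Fin d → Fin n → ℝ)}

/-- two rows with nonzero entries in a common column -/
private def PivC_st (A : Fin d → Fin n → ℝ) (J : Finset (Fin n)) (r s : Fin d) : Prop :=
  ∃ j ∈ J, A r j ≠ 0 ∧ A s j ≠ 0

private theorem PivC_symm (A : Fin d → Fin n → ℝ) (J : Finset (Fin n)) {r s : Fin d}
    (h : Relation.ReflTransGen (PivC_st A J) r s) : Relation.ReflTransGen (PivC_st A J) s r := by
  induction h with
  | refl => exact Relation.ReflTransGen.refl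
  | tail _ hst ih =>
    obtain ⟨j, hj, h1, h2⟩ := hst
    exact Relation.ReflTransGen.head ⟨j, hj, h2, h1⟩ ih

private theorem PivC_wk (A : Fin d → Fin n → ℝ) (J : Finset (Fin n)) (e : Fin n) {r s : Fin d}
    (h : Relation.ReflTransGen (PivC_st A J) r s) : ∃ t, Wk A J t r s := by
  induction h with
  | refl => exact ⟨0, fun _ => r, fun _ => e, rfl, rfl, fun i hi => absurd hi (Nat.not_lt_zero i)⟩
  | @tail b c _ hst ih =>
    obtain ⟨t, ρ, γ, h0, ht, hw⟩ := ih
    obtain ⟨j, hj, h1, h2⟩ := hst
    refine ⟨t + 1, Function.update ρ (t + 1) c, Function.update γ t j, ?_, ?_, ?_⟩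
    · rw [Function.update_of_ne (by omega), h0]
    · rw [Function.update_self]
    · intro i hi
      rcases Nat.lt_succ_iff_lt_or_eq.mp hi with hlt | heq
      · rw [Function.update_of_ne (by omega), Function.update_of_ne (by omega),
          Function.update_of_ne (by omega)]
        exact hw i hlt
      · subst heq
        rw [Function.update_self, Function.update_self, Function.update_of_ne (by omega), ht]
        exact ⟨hj, h1, h2⟩

/-- the factor of a row -/
private noncomputable def PivC_k (A : Fin d → Fin n → ℝ) (J : Finset (Fin n)) (e : Fin n)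
    (x : Fin d → ℝ) (r : Fin d) : ℝ :=
  open Classical in
  if h : ∃ s, Relation.ReflTransGen (PivC_st A J) r s ∧ A s e ≠ 0 then
    |A h.choose e| / x h.choose else 1

private theorem PivC_k_eq (hS : PCl S) {A : Fin d → Fin n → ℝ} (hA : A ∈ S)
    {J : Finset (Fin n)} (e : Fin n) {x : Fin d → ℝ} {y : Fin n → ℝ} (hp : Pot A J x y)
    {r s : Fin d} (hrs : Relation.ReflTransGen (PivC_st A J) r s) (hs : A s e ≠ 0) :
    PivC_k A J e x r = |A s e| / x s := by
  have h : ∃ s, Relation.ReflTransGen (PivC_st A J) r s ∧ A s e ≠ 0 := ⟨s, hrs, hs⟩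
  unfold PivC_k
  rw [dif_pos h]
  obtain ⟨h1, h2⟩ := h.choose_spec
  obtain ⟨t, ht⟩ := PivC_wk A J e ((PivC_symm A J h1).trans hrs)
  have h3 := walk_eq hS e y t A hA x hp _ _ ht h2 hs
  rw [div_eq_div_iff (hp.1 _).ne' (hp.1 _).ne', h3]

private theorem PivC_k_pos {A : Fin d → Fin n → ℝ} {J : Finset (Fin n)} (e : Fin n)
    {x : Fin d → ℝ} {y : Fin n → ℝ} (hp : Pot A J x y) (r : Fin d) : 0 < PivC_k A J e x r := by
  unfold PivC_k
  split_ifs with h
  · exact div_pos (abs_pos.mpr h.choose_spec.2) (hp.1 _)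
  · exact one_pos

private theorem PivC_k_congr (hS : PCl S) {A : Fin d → Fin n → ℝ} (hA : A ∈ S)
    {J : Finset (Fin n)} (e : Fin n) {x : Fin d → ℝ} {y : Fin n → ℝ} (hp : Pot A J x y)
    {r r' : Fin d} (hrr : Relation.ReflTransGen (PivC_st A J) r r') :
    PivC_k A J e x r = PivC_k A J e x r' := by
  by_cases h : ∃ s, Relation.ReflTransGen (PivC_st A J) r s ∧ A s e ≠ 0
  · obtain ⟨s, h1, h2⟩ := h
    rw [PivC_k_eq hS hA e hp h1 h2, PivC_k_eq hS hA e hp ((PivC_symm A J hrr).trans h1) h2]
  · have h' : ¬ ∃ s, Relation.ReflTransGen (PivC_st A J) r' s ∧ A s e ≠ 0 := by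
      rintro ⟨s, h1, h2⟩
      exact h ⟨s, hrr.trans h1, h2⟩
    unfold PivC_k
    rw [dif_neg h, dif_neg h']

/-- the new factor of a column -/
private noncomputable def PivC_y (A : Fin d → Fin n → ℝ) (J : Finset (Fin n)) (e : Fin n)
    (x : Fin d → ℝ) (y : Fin n → ℝ) (j : Fin n) : ℝ :=
  open Classical in
  if j = e then 1 else if h : ∃ r, A r j ≠ 0 then y j / PivC_k A J e x h.choose else y j

private theorem PivC_step (hS : PCl S) {A : Fin d → Fin n → ℝ} (hA : A ∈ S)
    {J : Finset (Fin n)} (e : Fin n) (he : e ∉ J) {x : Fin d → ℝ} {y : Fin n → ℝ}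
    (hp : Pot A J x y) :
    Pot A (insert e J) (fun r => PivC_k A J e x r * x r) (PivC_y A J e x y) := by
  refine ⟨fun i => mul_pos (PivC_k_pos e hp i) (hp.1 i), fun j => ?_, fun i j hj => ?_⟩
  · unfold PivC_y
    split_ifs with h1 h2
    · exact one_pos
    · exact div_pos (hp.2.1 j) (PivC_k_pos e hp _)
    · exact hp.2.1 j
  · by_cases h0 : A i j = 0
    · exact Or.inl h0
    · refine Or.inr ?_
      rcases Finset.mem_insert.mp hj with rfl | hj
      · unfold PivC_y
        rw [if_pos rfl, mul_one]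
        change |A i j| = PivC_k A J j x i * x i
        rw [PivC_k_eq hS hA j hp Relation.ReflTransGen.refl h0,
          div_mul_cancel₀ _ (hp.1 i).ne']
      · have hne : j ≠ e := fun h => he (h ▸ hj)
        have hex : ∃ r, A r j ≠ 0 := ⟨i, h0⟩
        unfold PivC_y
        rw [if_neg hne, dif_pos hex]
        have hst : Relation.ReflTransGen (PivC_st A J) hex.choose i :=
          Relation.ReflTransGen.single ⟨j, hj, hex.choose_spec, h0⟩
        rw [PivC_k_congr hS hA e hp hst]
        have hk := (PivC_k_pos e hp i).ne'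
        rcases hp.2.2 i j hj with h | h
        · exact absurd h h0
        · rw [h]
          field_simp

theorem exists_pot (h : PCl S) (J : Finset (Fin n)) : ∀ A ∈ S, ∃ (x : Fin d → ℝ) (y : Fin n → ℝ),
    Pot A J x y := by
  classical
  induction J using Finset.induction_on with
  | empty =>
    intro A _
    exact ⟨fun _ => 1, fun _ => 1, fun _ => one_pos, fun _ => one_pos, fun i j hj => by simp at hj⟩
  | insert e J he ih =>
    intro A hA
    obtain ⟨x, y, hp⟩ := ih A hA
    exact ⟨_, _, PivC_step h hA e he hp⟩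

end Pool.Agent.MPbd65ca.Zo
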