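import Pool.Agent.Lib.MP_bd65ca_an_Z.Idx
import Pool.Agent.Lib.MP_bd65ca_an.Pg.PoffA

/-!
# The Turán problem for zonotopes: the identity away from the singular lines

PROOF. Copies of `Zon.Phj_int` and `Zon.poff_id` in Pg/PoffA.lean, with `intz_far`, `intz_near` in
place of `intF_far`, `intF_near`.  In `poff_id` the part `D` (`intF_side`, `D2`, `D3`) is replaced by
`q * (-(Re (xz^2)) + 12 c_0 c_2 + 12 c_l c_{l+2} + 12 c_{l+1} c_{l+3}) = q * (1 - Wz z l)`:
`intz_sp`, and `intz_far` with `m = 2` and `p = 0`, `p = l`, `p = l + 1`.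
-/

open MeasureTheory FourierTransform Pointwise Set
open scoped RealInnerProductSpace

namespace Pool.Agent.MPbd65ca.Zo

open Pool.Agent.MPbd65ca.Pg

variable {k : ℕ} {g : ℤ → E 2}

theorem Phj_intz (h : Zon k g) (l : ℤ) (u : E 2) {j : ℕ} (hj : j < k) (w : ℂ) :
    IntG (FZ k g) (moz l)
      (fun z => (w * Phj g z u j).re - (w * ((z j : ℂ) * (z (j + 1) : ℂ))).re) := by
  have hk := h.hk
  by_cases hc : |Yf g (j - 1) u| ≤ |Yf g (j + 1) u|
  · have a1 := (intz_near h l (p := (j : ℤ)) (by omega) (by omega) w).2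
    have a2 := intz_far h l (p := (j : ℤ) - 1) (m := 2) (by omega) (by omega) (by omega)
      (by push_cast; omega) w
    refine ((a1.sub a2.1).sub a2.2.2.1).congr fun z => ?_
    have e1 : (j : ℤ) - 1 + ((2 : ℕ) : ℤ) = j + 1 := by push_cast; ring
    simp only [Phj, if_pos hc, e1]
    rw [← Complex.sub_re, ← Complex.sub_re, ← Complex.sub_re]
    congr 1
    have b1 := PoffA_two_cr z j
    have b2 := PoffA_two_cr z (j - 1)
    push_cast at b1 b2 ⊢
    linear_combination (-(w * (z (j + 1) : ℂ))) * b1 + (w * (z (j + 1) : ℂ)) * b2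
  · have a1 := (intz_near h l (p := (j : ℤ)) (by omega) (by omega) w).1
    have a2 := intz_far h l (p := (j : ℤ)) (m := 2) (by omega) (by omega) (by omega)
      (by push_cast; omega) w
    refine ((a1.sub a2.1).sub a2.2.1).congr fun z => ?_
    have e1 : (j : ℤ) + ((2 : ℕ) : ℤ) = j + 2 := by push_cast; ring
    simp only [Phj, if_neg hc, e1]
    rw [← Complex.sub_re, ← Complex.sub_re, ← Complex.sub_re]
    congr 1
    have b1 := PoffA_two_cr z (j + 1)
    have b2 := PoffA_two_cr z (j + 2)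
    push_cast at b1 b2 ⊢
    linear_combination (-(w * (z j : ℂ))) * b1 + (w * (z j : ℂ)) * b2

theorem poffz_id (h : Zon k g) {l : ℕ} (hl1 : 1 ≤ l) (hl2 : l ≤ 2)
    (c R : ℝ) {u : E 2} (hu : ∀ j, Yf g j u ≠ 0) (q : ℝ) :
    ∃ a : Jx → ℂ, ∀ z, Ph k z → Zt k g z u = 0 →
      hp k g c R z u + ipg (FZ k g) (moz l) a z =
      ∑ j ∈ Finset.range k, ((hb g c R j u +
        ((1 / 2 * (bq g j / (Yf g (j - 1) u * Yf g (j + 1) u)) : ℝ) : ℂ)) * Phj g z u j).re +
      ∑ j ∈ Finset.range k, Sk g z u j ^ 2 + q * (1 - Wz z l) := by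
  have hk := h.hk
  set Q : ℤ → ℝ := fun j => bq g j / (Yf g (j - 1) u * Yf g (j + 1) u) with hQ
  set w : ℤ → ℂ := fun j => hb g c R j u + ((1 / 2 * Q j : ℝ) : ℂ) with hw
  set kap : ℤ → ℝ := fun j => tau g j / (Yf g (j - 1) u * Yf g j u) with hkap
  have A : IntG (FZ k g) (moz l) (fun z => ∑ j ∈ Finset.range k,
      ((w j * Phj g z u j).re - (w j * ((z j : ℂ) * (z (j + 1) : ℂ))).re)) :=
    IntG.sum _ (fun (j : ℕ) z =>
      ((w j * Phj g z u j).re - (w j * ((z j : ℂ) * (z (j + 1) : ℂ))).re)) fun j hj =>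
      Phj_intz h l u (Finset.mem_range.mp hj) (w j)
  have B : IntG (FZ k g) (moz l) (fun z => ∑ j ∈ Finset.range k,
      (((1 / 2 * Q j : ℝ) : ℂ) * ((z j : ℂ) * ((z (j + 1))⁻¹ : Circle))).re) :=
    IntG.sum _ (fun (j : ℕ) z =>
      (((1 / 2 * Q j : ℝ) : ℂ) * ((z j : ℂ) * ((z (j + 1))⁻¹ : Circle))).re) fun j hj => by
      have hj' := Finset.mem_range.mp hj
      exact (intz_near h l (p := (j : ℤ)) (by omega) (by omega) _).1
  have C : IntG (FZ k g) (moz l) (fun z => ∑ i ∈ Finset.range k, ∑ m ∈ Finset.Ico 2 (k - 1),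
      (Nk g u i * kap i * kap (i + m)) * (cr z i * cr z (i + m))) := by
    refine IntG.sum _ (fun (i : ℕ) z => ∑ m ∈ Finset.Ico 2 (k - 1),
      (Nk g u i * kap i * kap (i + m)) * (cr z i * cr z (i + m))) fun i hi => ?_
    refine IntG.sum _ (fun (m : ℕ) z =>
      (Nk g u i * kap i * kap (i + m)) * (cr z i * cr z (i + m))) fun m hm => ?_
    have hi' := Finset.mem_range.mp hi
    have hm' := Finset.mem_Ico.mp hm
    exact (intz_far h l (p := (i : ℤ)) (m := m) hm'.1 (by omega) (by omega) (by omega)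
      0).2.2.2.const_mul _
  have D1 := (intz_sp k g l).const_mul (-1)
  have D2 := (intz_far h l (p := (0 : ℤ)) (m := 2) le_rfl (by omega) (by omega)
    (by push_cast; omega) 0).2.2.2
  have D3 := (intz_far h l (p := (l : ℤ)) (m := 2) le_rfl (by omega) (by omega)
    (by push_cast; omega) 0).2.2.2
  have D4 := (intz_far h l (p := (l : ℤ) + 1) (m := 2) le_rfl (by omega) (by omega)
    (by push_cast; omega) 0).2.2.2
  have D := (((D1.add (D2.const_mul 12)).add (D3.const_mul 12)).add (D4.const_mul 12)).const_mul q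
  obtain ⟨a, ha⟩ := ((A.sub B).sub C).add D
  refine ⟨a, fun z hz h0 => ?_⟩
  rw [← ha z]
  have key := h.sum_Sk_sq hz hu h0
  have e0 : (0 : ℤ) + ((2 : ℕ) : ℤ) = 2 := by push_cast
  have e1 : (l : ℤ) + 1 + ((2 : ℕ) : ℤ) = l + 3 := by push_cast; ring
  have e2 : (l : ℤ) + ((2 : ℕ) : ℤ) = l + 2 := by push_cast; ring
  have f1 : hp k g c R z u = ∑ j ∈ Finset.range k,
      ((w j * ((z j : ℂ) * (z (j + 1) : ℂ))).re -
        1 / 2 * Q j * ((z j : ℂ) * (z (j + 1) : ℂ)).re) := by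
    rw [hp]
    refine Finset.sum_congr rfl fun j _ => ?_
    rw [hw]
    simp only [add_mul, Complex.add_re, PoffA_re_mul]
    ring
  have f2 : ∑ j ∈ Finset.range k, Q j * (cr z j * cr z (j + 1)) = ∑ j ∈ Finset.range k,
      (1 / 2 * Q j * ((z j : ℂ) * (z (j + 1) : ℂ)).re +
      (((1 / 2 * Q j : ℝ) : ℂ) * ((z j : ℂ) * ((z (j + 1))⁻¹ : Circle))).re) := by
    refine Finset.sum_congr rfl fun j _ => ?_
    rw [PoffA_re_mul, PoffA_cr_mul]
    ring
  have f3 : ∑ i ∈ Finset.range k, ∑ m ∈ Finset.Ico 2 (k - 1),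
        Nk g u i * (xk g z u i * xk g z u (i + m)) =
      ∑ i ∈ Finset.range k, ∑ m ∈ Finset.Ico 2 (k - 1),
      (Nk g u i * kap i * kap (i + m)) * (cr z i * cr z (i + m)) := by
    refine Finset.sum_congr rfl fun i _ => Finset.sum_congr rfl fun m _ => ?_
    simp only [xk, hkap]
    ring
  rw [f3] at key
  have f4 : ∑ j ∈ Finset.range k, bq g j / (Yf g (j - 1) u * Yf g (j + 1) u) *
        (cr z j * cr z (j + 1)) = ∑ j ∈ Finset.range k, Q j * (cr z j * cr z (j + 1)) := rfl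
  rw [f4, f2, Finset.sum_add_distrib] at key
  rw [f1, key]
  simp only [e0, e1, e2, Wz, Finset.sum_sub_distrib]
  ring

end Pool.Agent.MPbd65ca.Zo
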