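import Pool.Agent.Lib.MP_bd65ca_an_Z.Lift
import Pool.Agent.Lib.MP_bd65ca_an_Z.Spec
import Pool.Agent.Lib.MP_bd65ca_an.Pg.Half
import Pool.Agent.Lib.MP_bd65ca_an.Pg.GTv

/-!
# The Turán problem for zonotopes: room for the spectra

`K = zono g + zono g`, `G = zono (gI g)`.  `Two X` says that `X + 2 G ⊆ K`.

PROOF. `two_add`: `X + Y + 2 y = (X + y) + (Y + y)` with `pairE (0, 2 • y) = pairE (0, y) + pairE (0, y)`.
`room`: `K` is compact, so `‖x‖ ≤ C` on `K`; `0` is in the interior of `G` (`isBody_zono`,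
`IsBody.zero_mem`), so `closedBall 0 ρ ⊆ G` for some `ρ > 0`.  Let `X` with `Two g X` (then `X ∈ K`,
take `y = 0`), `x ∈ zg + zg` planar; by `exists_lift` (twice) there is `Q ∈ K` with `fstE Q = x`.
For `0 ≤ τ < 1` and `w ∈ G` the point `(1-τ) • (X + pairE (0, 2 • w)) + τ • Q` is in `K` (convex: the
sum of two convex sets), it has the planar part `(1-τ) • fstE X + τ • x` and the other part
`sndE X + (1-τ) • 2 • w + τ • (sndE Q - sndE X)`.  We want this to be `sndE X + (2θ) • y` with a given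
`y ∈ G`: `w = (1-τ)⁻¹ • (θ • y - (τ/2) • (sndE Q - sndE X))`.  `w ∈ G` because, with
`z = -(τ/2) • (sndE Q - sndE X)`, `‖z‖ ≤ τ C`, and if `τ C ≤ ρ (1 - τ - θ)` then
`w = (θ/(1-τ)) • y + ((1-τ-θ)/(1-τ)) • (z / (1-τ-θ))` is a convex combination of `y ∈ G` and a point of
`closedBall 0 ρ ⊆ G`.  So `τ₀ = (1-θ) ρ / (C + ρ + 1)/2`-like works for all `0 ≤ τ ≤ τ₀`
(need `τ₀ < 1 - θ` and `τ₀ C ≤ ρ (1 - θ - τ₀)`).
`room_ball`: `fstE X = N` with `(1/2) • N` in the interior of `zg`, `N ≠ 0`: there is `r > 0` with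
`closedBall N r ⊆ (zg + zg) \ {0}` (`GTv_ball` in Pg/GTv.lean, or directly).  With `r' = min (τ₀ r) r`:
for `a ∈ closedBall N r'` put `x = N + τ₀⁻¹ • (a - N) ∈ closedBall N r`; then
`a = (1-τ₀) • N + τ₀ • x`; apply `room`.  `ξ = pairE (fstE ξ, sndE ξ)` (`pair_eta`).
`room_zero`: the same with `N = 0`, `X = 0` (`Two g 0` by `zero_mem`), without the exclusion of `0`.
-/

open MeasureTheory FourierTransform Pointwise Set Filter Topology
open scoped RealInnerProductSpace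

namespace Pool.Agent.MPbd65ca.Zo

open Pool.Agent.MPbd65ca.Pg Pool.Agent.MPbd65ca.ProdAux

variable {k m p q : ℕ} {gh : ℤ → E 2} {cl : Fin p → ℕ} {rho : Fin p → ℝ}
  {g : Fin (p + q) → E (2 + m)}

/-- `X + 2 G` is contained in the body `zono g + zono g`. -/
def Two (g : Fin (p + q) → E (2 + m)) (X : E (2 + m)) : Prop :=
  ∀ y ∈ zono (gI g), X + pairE (0, (2 : ℝ) • y) ∈ zono g + zono g

/-- The set `θ (G + G)` around `x`. -/
def Tw (g : Fin (p + q) → E (2 + m)) (θ : ℝ) (x : E m) : Set (E m) :=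
  {y | ∃ w ∈ zono (gI g), y - x = (2 * θ) • w}

private lemma pair_two (y : E m) :
    (pairE (0, (2 : ℝ) • y) : E (2 + m)) = pairE (0, y) + pairE (0, y) := by
  ext i
  refine Fin.addCases (fun j => ?_) (fun j => ?_) i
  · simp [pairE]
  · simp [pairE]
    ring

private lemma pair_zero : (pairE (0, 0) : E (2 + m)) = 0 := by
  ext i
  refine Fin.addCases (fun j => ?_) (fun j => ?_) i
  · simp [pairE]
  · simp [pairE]

private lemma norm_snd_le (x : E (2 + m)) : ‖sndE x‖ ≤ ‖x‖ := by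
  have h := inner_split x x
  rw [real_inner_self_eq_norm_sq, real_inner_self_eq_norm_sq, real_inner_self_eq_norm_sq] at h
  refine abs_le_of_sq_le_sq' ?_ (norm_nonneg _) |>.2
  nlinarith [sq_nonneg ‖fstE x‖]

private lemma ext_pair {x y : E (2 + m)} (h1 : fstE x = fstE y) (h2 : sndE x = sndE y) :
    x = y := by
  rw [← pair_eta x, ← pair_eta y, h1, h2]

theorem two_add {X Y : E (2 + m)} (hX : ∀ y ∈ zono (gI g), X + pairE (0, y) ∈ zono g)
    (hY : ∀ y ∈ zono (gI g), Y + pairE (0, y) ∈ zono g) : Two g (X + Y) := by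
  intro y hy
  refine ⟨X + pairE (0, y), hX y hy, Y + pairE (0, y), hY y hy, ?_⟩
  show X + pairE (0, y) + (Y + pairE (0, y)) = X + Y + pairE (0, (2 : ℝ) • y)
  rw [pair_two]
  abel

theorem ZD.room (D : ZD k m p q gh cl rho g) {θ : ℝ} (hθ : 0 < θ) (hθ1 : θ < 1) :
    ∃ τ₀ : ℝ, 0 < τ₀ ∧ τ₀ < 1 ∧ ∀ X : E (2 + m), Two g X → ∀ x ∈ zg k gh + zg k gh, ∀ τ : ℝ,
      0 ≤ τ → τ ≤ τ₀ → ∀ ξ : E (2 + m), fstE ξ = (1 - τ) • fstE X + τ • x →
        sndE ξ ∈ Tw g θ (sndE X) → ξ ∈ zono g + zono g := by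
  have hK : IsCompact (zono g + zono g) := (isCompact_zono g).add (isCompact_zono g)
  have hKc : Convex ℝ (zono g + zono g) := (convex_zono g).add (convex_zono g)
  obtain ⟨C, hC0, hC⟩ : ∃ C : ℝ, 0 ≤ C ∧ ∀ x ∈ zono g + zono g, ‖x‖ ≤ C := by
    obtain ⟨C, hC⟩ := hK.isBounded.exists_norm_le
    exact ⟨max C 0, le_max_right _ _, fun x hx => (hC x hx).trans (le_max_left _ _)⟩
  have hG : IsBody (zono (gI g)) := isBody_zono D.span
  obtain ⟨ρ, hρ, hρb⟩ : ∃ ρ : ℝ, 0 < ρ ∧ Metric.closedBall (0 : E m) ρ ⊆ zono (gI g) := by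
    obtain ⟨ε, hε, hb⟩ := Metric.isOpen_iff.1 isOpen_interior _ hG.zero_mem
    refine ⟨ε / 2, by linarith, fun y hy => interior_subset (hb ?_)⟩
    rw [mem_closedBall_zero_iff] at hy
    rw [mem_ball_zero_iff]
    linarith
  have hD0 : 0 < 2 * (C + ρ + 1) := by linarith
  refine ⟨(1 - θ) * ρ / (2 * (C + ρ + 1)), by have := sub_pos.2 hθ1; positivity, ?_, ?_⟩
  · rw [div_lt_one hD0]
    nlinarith
  intro X hX x hx τ hτ0 hτ ξ hξ1 hξ2
  have hτ1 : τ * (2 * (C + ρ + 1)) ≤ (1 - θ) * ρ := (le_div_iff₀ hD0).1 hτ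
  have hs : 0 < 1 - θ := by linarith
  have hτ2 : τ * (C + ρ) ≤ ρ * (1 - θ) := by nlinarith
  have hτ3 : τ < 1 - θ := by
    by_contra hcon
    push Not at hcon
    have h1 : (1 - θ) * (2 * (C + ρ + 1)) ≤ (1 - θ) * ρ :=
      (mul_le_mul_of_nonneg_right hcon hD0.le).trans hτ1
    nlinarith
  have ha : 0 < 1 - τ := by linarith
  have hb : 0 < 1 - τ - θ := by linarith
  obtain ⟨y, hy, hyξ⟩ := hξ2
  obtain ⟨x1, hx1, x2, hx2, hx12⟩ := hx
  obtain ⟨Q1, hQ1, hQ1x⟩ := D.exists_lift hx1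
  obtain ⟨Q2, hQ2, hQ2x⟩ := D.exists_lift hx2
  have hQ : Q1 + Q2 ∈ zono g + zono g := ⟨Q1, hQ1, Q2, hQ2, rfl⟩
  have hQx : fstE (Q1 + Q2) = x := by rw [fst_add, hQ1x, hQ2x]; exact hx12
  set Q := Q1 + Q2 with hQdef
  have h0 : (0 : E m) ∈ zono (gI g) := interior_subset hG.zero_mem
  have hXK : X ∈ zono g + zono g := by
    have := hX 0 h0
    rwa [smul_zero, pair_zero, add_zero] at this
  set z : E m := -((τ / 2) • (sndE Q - sndE X)) with hz
  have hzn : ‖z‖ ≤ τ * C := by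
    rw [hz, norm_neg, norm_smul, Real.norm_of_nonneg (by positivity)]
    have h1 : ‖sndE Q - sndE X‖ ≤ C + C :=
      (norm_sub_le _ _).trans (add_le_add ((norm_snd_le Q).trans (hC _ hQ))
        ((norm_snd_le X).trans (hC _ hXK)))
    nlinarith
  have hzb : (1 - τ - θ)⁻¹ • z ∈ zono (gI g) := by
    refine hρb ?_
    rw [mem_closedBall_zero_iff, norm_smul, norm_inv, Real.norm_of_nonneg hb.le,
      inv_mul_le_iff₀ hb]
    nlinarith
  have hw : (1 - τ)⁻¹ • (θ • y + z) ∈ zono (gI g) := by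
    have h1 := hG.convex hy hzb (a := θ / (1 - τ)) (b := (1 - τ - θ) / (1 - τ)) (by positivity)
      (by positivity) (by field_simp; ring)
    have h2 : (θ / (1 - τ)) • y + ((1 - τ - θ) / (1 - τ)) • (1 - τ - θ)⁻¹ • z =
        (1 - τ)⁻¹ • (θ • y + z) := by
      rw [smul_add, smul_smul, smul_smul]
      congr 1
      · rw [div_eq_inv_mul]
      · congr 1
        field_simp
    rwa [h2] at h1
  have hmem := hKc (hX _ hw) hQ ha.le hτ0 (by ring)
  have heq : (1 - τ) • (X + pairE (0, (2 : ℝ) • (1 - τ)⁻¹ • (θ • y + z))) + τ • Q = ξ := by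
    refine ext_pair ?_ ?_
    · rw [fst_add, fst_smul, fst_smul, fst_add, fst_pair, hQx, hξ1, add_zero]
    · have h3 : sndE ξ = sndE X + (2 * θ) • y := by rw [← hyξ]; abel
      rw [snd_add, snd_smul, snd_smul, snd_add, snd_pair, h3, smul_add, smul_smul, smul_smul,
        hz]
      have h4 : (1 - τ) * 2 * (1 - τ)⁻¹ = 2 := by field_simp
      rw [h4]
      module
  rwa [heq] at hmem

theorem ZD.room_ball (D : ZD k m p q gh cl rho g) {θ : ℝ} (hθ : 0 < θ) (hθ1 : θ < 1)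
    {X : E (2 + m)} (hX : Two g X) (hN : (1 / 2 : ℝ) • fstE X ∈ interior (zg k gh))
    (hN0 : fstE X ≠ 0) : ∃ r : ℝ, 0 < r ∧ {ξ : E (2 + m) | fstE ξ ∈ Metric.closedBall (fstE X) r ∧
      sndE ξ ∈ Tw g θ (sndE X)} ⊆ (zono g + zono g) \ {0} := by
  obtain ⟨τ₀, hτ, hτ1, h⟩ := D.room hθ hθ1
  obtain ⟨r, hr, hrb⟩ := GTv_ball hN hN0
  refine ⟨min (τ₀ * r) r, lt_min (mul_pos hτ hr) hr, ?_⟩
  rintro ξ ⟨h1, h2⟩
  rw [mem_closedBall_iff_norm] at h1
  refine ⟨?_, ?_⟩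
  · refine h X hX (fstE X + τ₀⁻¹ • (fstE ξ - fstE X)) (hrb ?_).1 τ₀ hτ.le le_rfl ξ ?_ h2
    · rw [mem_closedBall_iff_norm, add_sub_cancel_left, norm_smul, norm_inv,
        Real.norm_of_nonneg hτ.le, inv_mul_le_iff₀ hτ]
      exact h1.trans (min_le_left _ _)
    · rw [smul_add, smul_smul, mul_inv_cancel₀ hτ.ne', one_smul]
      module
  · rintro (h3 : ξ = 0)
    have h4 : fstE ξ ∈ Metric.closedBall (fstE X) r := by
      rw [mem_closedBall_iff_norm]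
      exact h1.trans (min_le_right _ _)
    exact (hrb h4).2 (by rw [h3, fst_zero]; rfl)

theorem ZD.room_zero (D : ZD k m p q gh cl rho g) {θ : ℝ} (hθ : 0 < θ) (hθ1 : θ < 1) :
    ∃ r : ℝ, 0 < r ∧ {ξ : E (2 + m) | fstE ξ ∈ Metric.closedBall 0 r ∧
      sndE ξ ∈ Tw g θ 0} ⊆ zono g + zono g := by
  obtain ⟨τ₀, hτ, hτ1, h⟩ := D.room hθ hθ1
  have h0 : Two g (0 : E (2 + m)) := by
    have h1 := two_add (g := g) (X := 0) (Y := 0)
      (fun y hy => by rw [zero_add]; exact D.zero_mem hy)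
      (fun y hy => by rw [zero_add]; exact D.zero_mem hy)
    rwa [add_zero] at h1
  obtain ⟨ε, hε, hb⟩ := Metric.isOpen_iff.1 isOpen_interior _ (GTv_zero_int D.zon.isBody)
  refine ⟨τ₀ * (ε / 2), by positivity, ?_⟩
  rintro ξ ⟨h1, h2⟩
  rw [mem_closedBall_zero_iff] at h1
  refine h 0 h0 (τ₀⁻¹ • fstE ξ) ?_ τ₀ hτ.le le_rfl ξ ?_ (by rw [snd_zero]; exact h2)
  · refine ⟨τ₀⁻¹ • fstE ξ, interior_subset (hb ?_), 0, Half_zero_mem k gh, add_zero _⟩
    rw [mem_ball_zero_iff, norm_smul, norm_inv, Real.norm_of_nonneg hτ.le, inv_mul_lt_iff₀ hτ]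
    nlinarith
  · rw [fst_zero, smul_zero, zero_add, smul_smul, mul_inv_cancel₀ hτ.ne', one_smul]

end Pool.Agent.MPbd65ca.Zo
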