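import Pool.Agent.Lib.MP_bd65ca_an_Z.Idx
import Pool.Agent.Lib.MP_bd65ca_an.Pg.Sel
import Pool.Agent.Lib.MP_bd65ca_an.Pg.Cpt

/-!
# The Turán problem for zonotopes: continuous choice of the coefficients

PROOF. Copies of `exists_sel` (Pg/Sel.lean, with its private lemmas) and of `exists_cpt`
(Pg/Cpt.lean; `compact_add` can be used), with `ipg F mo` in place of `ip k g`
(`continuous_ipg`, `ipg_zero`, `ipg_combo`).
-/

open MeasureTheory FourierTransform Pointwise Set Filter Topology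
open scoped RealInnerProductSpace

namespace Pool.Agent.MPbd65ca.Zo

open Pool.Agent.MPbd65ca.Pg

variable {J : Type} {F : Finset J} {mo : J → (ℤ → Circle) → Circle}

private theorem SelG_bound (k : ℕ) (g : ℤ → E 2) {c R CE c2 : ℝ} (hR : 0 < R)
    {Φ : E 2 → ℝ} (hΦ0 : ∀ u, 0 ≤ Φ u)
    (hΦt : Tendsto Φ (cocompact (E 2)) (𝓝 0)) {M : ℝ} (hM : 0 < M) :
    ∃ S : ℝ, ∀ u z, S < ‖u‖ → 0 < Φ u * (hp k g c R z u + ipg F mo 0 z + ez k g R CE c2 u) + M := by
  obtain ⟨Bh, hBh⟩ := abs_hp_le k g c R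
  obtain ⟨Be, hBe⟩ := abs_ez_le k g hR CE c2
  have hBh0 : 0 ≤ Bh := (abs_nonneg _).trans (hBh (fun _ => 1) 0)
  have hBe0 : 0 ≤ Be := (abs_nonneg _).trans (hBe 0)
  have hB : 0 < Bh + Be + 1 := by positivity
  have h1 : ∀ᶠ u in cocompact (E 2), Φ u < M / (Bh + Be + 1) :=
    hΦt.eventually (gt_mem_nhds (by positivity))
  rw [← Metric.cobounded_eq_cocompact, hasBasis_cobounded_norm.eventually_iff] at h1
  obtain ⟨S, -, hS⟩ := h1
  refine ⟨S, fun u z hu => ?_⟩
  have h2 : Φ u < M / (Bh + Be + 1) := hS hu.le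
  rw [lt_div_iff₀ hB] at h2
  have h3 := abs_le.1 (hBh z u)
  have h4 := abs_le.1 (hBe u)
  have h5 := hΦ0 u
  rw [ipg_zero, add_zero]
  nlinarith [mul_nonneg h5 (show 0 ≤ hp k g c R z u + ez k g R CE c2 u + (Bh + Be) by linarith)]

private theorem SelG_swap {X Y Z : Type*} [TopologicalSpace X] [TopologicalSpace Y]
    [TopologicalSpace Z] {f : Y → X → Z} (hf : Continuous fun p : Y × X => f p.1 p.2) :
    Continuous fun p : X × Y => f p.2 p.1 :=
  hf.comp (continuous_snd.prodMk continuous_fst)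

private theorem SelG_snd {X Y W Z : Type*} [TopologicalSpace X] [TopologicalSpace Y]
    [TopologicalSpace W] [TopologicalSpace Z] {f : Y → W → Z}
    (hf : Continuous fun p : Y × W => f p.1 p.2) (w : W) :
    Continuous fun p : X × Y => f p.2 w :=
  hf.comp (continuous_snd.prodMk continuous_const)

private theorem SelG_loc {X Y : Type*} [TopologicalSpace X] [TopologicalSpace Y] {K : Set Y}
    (hK : IsCompact K) {Z W : X × Y → ℝ} (hZ : Continuous Z) (hW : Continuous W) {x₀ : X}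
    (h : ∀ y ∈ K, Z (x₀, y) = 0 → 0 < W (x₀, y)) :
    ∀ᶠ x in 𝓝 x₀, ∀ y ∈ K, Z (x, y) = 0 → 0 < W (x, y) := by
  refine hK.eventually_forall_of_forall_eventually (P := fun x y => Z (x, y) = 0 → 0 < W (x, y)) ?_
  intro y hy
  by_cases hy0 : Z (x₀, y) = 0
  · filter_upwards [hW.continuousAt.eventually_const_lt (h y hy hy0)] with p hp _ using hp
  · filter_upwards [hZ.continuousAt.eventually_ne hy0] with p hp hp0
    exact absurd hp0 hp

theorem exists_selg (hmo : ∀ n, Continuous (mo n)) (k : ℕ) (g : ℤ → E 2) {c R CE c2 : ℝ}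
    (hR : 0 < R) (hPC : ∀ u : E 2, ∃ a : J → ℂ, ∀ z, Ph k z → Zt k g z u = 0 →
      0 < hp k g c R z u + ipg F mo a z + ez k g R CE c2 u)
    {Φ : E 2 → ℝ} (hΦ : Continuous Φ) (hΦ0 : ∀ u, 0 ≤ Φ u)
    (hΦt : Tendsto Φ (cocompact (E 2)) (𝓝 0)) {M : ℝ} (hM : 0 < M) :
    ∃ a : E 2 → J → ℂ, Continuous a ∧ (∃ S : ℝ, ∀ u, S ≤ ‖u‖ → a u = 0) ∧
      ∀ u z, Ph k z → Zt k g z u = 0 →
        0 < Φ u * (hp k g c R z u + ipg F mo (a u) z + ez k g R CE c2 u) + M := by
  obtain ⟨S, hS⟩ := SelG_bound k g (c := c) (CE := CE) (c2 := c2) hR hΦ0 hΦt hM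
  obtain ⟨t, ht⟩ : ∃ t : E 2 → Set (J → ℂ), t = fun u => {a | (S + 1 ≤ ‖u‖ → a = 0) ∧
      ∀ z, Ph k z → Zt k g z u = 0 →
        0 < Φ u * (hp k g c R z u + ipg F mo a z + ez k g R CE c2 u) + M} := ⟨_, rfl⟩
  have hconv : ∀ u, Convex ℝ (t u) := by
    intro u
    rw [ht]
    rintro a₁ ⟨h1, h2⟩ a₂ ⟨h3, h4⟩ r₁ r₂ hr₁ hr₂ hr
    refine ⟨fun hu => ?_, fun z hz hz0 => ?_⟩
    · rw [h1 hu, h3 hu, smul_zero, smul_zero, add_zero]
    · have h5 := (convex_Ioi (0 : ℝ)) (h2 z hz hz0) (h4 z hz hz0) hr₁ hr₂ hr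
      rw [mem_Ioi, smul_eq_mul, smul_eq_mul] at h5
      rw [ipg_combo]
      refine h5.trans_eq ?_
      have h6 : r₂ = 1 - r₁ := by linarith
      rw [h6]
      ring
  have hloc : ∀ u₀ : E 2, ∃ a : J → ℂ, ∀ᶠ u in 𝓝 u₀, a ∈ t u := by
    intro u₀
    by_cases hu₀ : S < ‖u₀‖
    · refine ⟨0, ?_⟩
      filter_upwards [continuous_norm.continuousAt.eventually_const_lt hu₀] with u hu
      rw [ht]
      exact ⟨fun _ => rfl, fun z _ _ => hS u z hu⟩
    · push Not at hu₀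
      obtain ⟨a, ha⟩ := hPC u₀
      refine ⟨a, ?_⟩
      have hexp : Continuous fun p : E 2 × (ℤ → Circle) =>
          Φ p.1 * (hp k g c R p.2 p.1 + ipg F mo a p.2 + ez k g R CE c2 p.1) + M := by
        have h1 : Continuous fun p : E 2 × (ℤ → Circle) => hp k g c R p.2 p.1 :=
          SelG_swap (f := hp k g c R) (continuous_hp k g c R)
        have h2 : Continuous fun p : E 2 × (ℤ → Circle) => ipg F mo a p.2 :=
          SelG_snd (f := fun z b => ipg F mo b z) (continuous_ipg hmo) a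
        have h3 : Continuous fun p : E 2 × (ℤ → Circle) => ez k g R CE c2 p.1 :=
          (continuous_ez k g hR CE c2).comp continuous_fst
        exact ((hΦ.comp continuous_fst).mul ((h1.add h2).add h3)).add continuous_const
      have hZ : Continuous fun p : E 2 × (ℤ → Circle) => Zt k g p.2 p.1 :=
        SelG_swap (f := Zt k g) (continuous_Zt k g)
      have hcpt := SelG_loc (isCompact_Ph k) hZ hexp (x₀ := u₀) (fun z hz hz0 => by
        have h2 := ha z hz hz0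
        have h3 := mul_nonneg (hΦ0 u₀) h2.le
        exact add_pos_of_nonneg_of_pos h3 hM)
      have hlt : ‖u₀‖ < S + 1 := by linarith
      filter_upwards [hcpt, continuous_norm.continuousAt.eventually_lt_const hlt] with u h1 h2
      rw [ht]
      exact ⟨fun h3 => absurd h3 (not_le.2 h2), fun z hz hz0 => h1 z hz hz0⟩
  obtain ⟨f, hf⟩ := exists_continuous_forall_mem_convex_of_local_const hconv hloc
  rw [ht] at hf
  exact ⟨f, f.continuous, ⟨S + 1, fun u hu => (hf u).1 hu⟩, fun u z hz hz0 => (hf u).2 z hz hz0⟩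

theorem exists_cptg (hmo : ∀ n, Continuous (mo n)) (k : ℕ) (g : ℤ → E 2) {c R CE c2 : ℝ}
    (hR : 0 < R) {Φ : E 2 → ℝ}
    (hΦ : Continuous Φ) {M : ℝ} {a : E 2 → J → ℂ} (ha : Continuous a)
    (hpos : ∀ u z, Ph k z → Zt k g z u = 0 →
        0 < Φ u * (hp k g c R z u + ipg F mo (a u) z + ez k g R CE c2 u) + M) (S : ℝ) :
    ∃ C ε : ℝ, 0 ≤ C ∧ 0 < ε ∧ ∀ u z, ‖u‖ ≤ S → Ph k z →
      ε ≤ Φ u * (hp k g c R z u + ipg F mo (a u) z + ez k g R CE c2 u) + M +
        C * Zt k g z u ^ 2 := by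
  have hK : IsCompact ({z : ℤ → Circle | Ph k z} ×ˢ Metric.closedBall (0 : E 2) S) :=
    (isCompact_Ph k).prod (isCompact_closedBall 0 S)
  have hf : Continuous fun p : (ℤ → Circle) × E 2 =>
      Φ p.2 * (hp k g c R p.1 p.2 + ipg F mo (a p.2) p.1 + ez k g R CE c2 p.2) + M := by
    have h1 : Continuous fun p : (ℤ → Circle) × E 2 => ipg F mo (a p.2) p.1 :=
      (continuous_ipg hmo).comp (continuous_fst.prodMk (ha.comp continuous_snd))
    exact ((hΦ.comp continuous_snd).mul (((continuous_hp k g c R).add h1).add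
      ((continuous_ez k g hR CE c2).comp continuous_snd))).add continuous_const
  obtain ⟨C, ε, hC, hε, h⟩ := compact_add hK hf (continuous_Zt k g)
    (fun p hp h0 => hpos p.2 p.1 hp.1 h0)
  refine ⟨C, ε, hC, hε, fun u z hu hz => ?_⟩
  exact h (z, u) ⟨hz, by simpa using hu⟩

end Pool.Agent.MPbd65ca.Zo
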