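import Pool.Agent.Lib.MP_bd65ca_an_Z.Vert
import Pool.Agent.Lib.MP_bd65ca_an.Gen.Spx

/-!
# The Turán problem for zonotopes: the integral over a tile

PROOF. `sinc_int`: for `y ≠ 0` the integral of `exp (-2 π i μ y)` over `(-1/2, 1/2)` is
`(exp (-π i y) - exp (π i y)) / (-2 π i y) = sin (π y) / (π y) = Real.sinc (π y)`; for `y = 0` both
sides are `1`.
`tile_int`: let `A = lin (fun j => g (b j))` (file Gen/Spx.lean: the continuous linear map
`e ↦ ∑ j, e j • g (b j)` of `E d`, injective by `lin_inj`, `|det A| = vdet` by `det_lin`).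
The tile is the image of the open cube `{e | ∀ j, |e j| < 1/2}` under `e ↦ cen + A e`, an injective map
with derivative `A`; use `integral_image_eq_integral_abs_det_fderiv_smul` (see `integral_spx` in
Gen/Spx.lean for the same argument).  The integrand becomes
`𝐞 (-⟪t, cen⟫) * ∏ j, 𝐞 (-(e j * ⟪t, g (b j)⟫))`, and the integral over the cube of the product is the
product of the one-dimensional integrals: pass from `E d` to `Fin d → ℝ` by
`EuclideanSpace.volume_preserving_symm_measurableEquiv_toLp` and use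
`MeasureTheory.integral_fintype_prod_eq_prod` for the product of the functions
`x ↦ indicator (Ioo (-1/2) (1/2)) ...` (the indicator of the cube is the product of the indicators).
`measurableSet_tile`: the tile is open (image of an open set under a homeomorphism) or use
`MeasurableSet.image` of an injective continuous map.  `tile_int` also gives integrability: bounded
function on a bounded set.
-/

open MeasureTheory FourierTransform Pointwise Set
open scoped RealInnerProductSpace

namespace Pool.Agent.MPbd65ca.Zo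

variable {d n : ℕ} {g : Fin n → E d} {c : Fin n → ℝ} {b : Fin d → Fin n}

theorem sinc_int (y : ℝ) : ∫ μ in Ioo (-(1 / 2) : ℝ) (1 / 2), (Real.fourierChar (-(μ * y)) : ℂ) =
    ((Real.sinc (Real.pi * y) : ℝ) : ℂ) := by
  rw [← integral_Ioc_eq_integral_Ioo, ← intervalIntegral.integral_of_le (by norm_num)]
  rcases eq_or_ne y 0 with rfl | hy
  · simp only [intervalIntegral.integral_const, mul_zero, Real.sinc_zero]
    norm_num
  · have hpi : (Real.pi : ℂ) ≠ 0 := Complex.ofReal_ne_zero.2 Real.pi_ne_zero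
    have hyc : (y : ℂ) ≠ 0 := Complex.ofReal_ne_zero.2 hy
    have hc : (-(2 * Real.pi * y) * Complex.I : ℂ) ≠ 0 :=
      mul_ne_zero (neg_ne_zero.2 (mul_ne_zero (mul_ne_zero two_ne_zero hpi) hyc)) Complex.I_ne_zero
    have h1 : ∀ μ : ℝ, (Real.fourierChar (-(μ * y)) : ℂ) =
        Complex.exp ((-(2 * Real.pi * y) * Complex.I) * μ) := by
      intro μ
      rw [Real.fourierChar_apply]
      congr 1
      push_cast
      ring
    simp only [h1]
    rw [integral_exp_mul_complex hc, Real.sinc_of_ne_zero (mul_ne_zero Real.pi_ne_zero hy)]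
    have h2 : (-(2 * Real.pi * y) * Complex.I : ℂ) * ((1 / 2 : ℝ) : ℂ) =
        -(Real.pi * y) * Complex.I := by
      push_cast
      ring
    have h3 : (-(2 * Real.pi * y) * Complex.I : ℂ) * ((-(1 / 2) : ℝ) : ℂ) =
        (Real.pi * y) * Complex.I := by
      push_cast
      ring
    rw [h2, h3]
    have h4 : Complex.sin (Real.pi * y) = (Complex.exp (-(Real.pi * y) * Complex.I) -
        Complex.exp ((Real.pi * y) * Complex.I)) * Complex.I / 2 := rfl
    have h5 : Complex.exp (-(Real.pi * y) * Complex.I) - Complex.exp ((Real.pi * y) * Complex.I) =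
        -2 * Complex.I * Complex.sin (Real.pi * y) := by
      rw [h4]
      linear_combination (Complex.exp (-(Real.pi * y) * Complex.I) -
        Complex.exp ((Real.pi * y) * Complex.I)) * Complex.I_mul_I
    rw [h5]
    push_cast
    field_simp

/-- the open cube -/
private def tiCube (d : ℕ) : Set (E d) :=
  (fun e : E d => (fun k => e k : Fin d → ℝ)) ⁻¹' (Set.pi univ fun _ => Ioo (-(1 / 2)) (1 / 2))

private theorem tiCube_meas (d : ℕ) : MeasurableSet (tiCube d) := by
  have hS : MeasurableSet (Set.pi univ fun _ : Fin d => Ioo (-(1 / 2) : ℝ) (1 / 2)) :=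
    MeasurableSet.univ_pi fun _ => measurableSet_Ioo
  exact (PiLp.volume_preserving_ofLp (Fin d)).measurable hS

private theorem ti_img : tile g c b =
    (fun e => cen g c b + SpxAux.lin (fun j => g (b j)) e) '' tiCube d := by
  ext y
  constructor
  · rintro ⟨μ, hμ, rfl⟩
    exact ⟨WithLp.toLp 2 μ, fun j _ => abs_lt.1 (hμ j), rfl⟩
  · rintro ⟨e, he, rfl⟩
    exact ⟨fun k => e k, fun j => abs_lt.2 (he j (mem_univ j)), rfl⟩

theorem measurableSet_tile (hb : LinearIndependent ℝ (fun j => g (b j))) :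
    MeasurableSet (tile g c b) := by
  rw [ti_img]
  refine (tiCube_meas d).image_of_continuousOn_injOn ?_ ?_
  · exact (continuous_const.add (SpxAux.lin (fun j => g (b j))).continuous).continuousOn
  · intro x _ y _ h
    exact SpxAux.lin_inj hb (add_left_cancel h)

private theorem ti_char (t p : E d) (u : Fin d → E d) (x : Fin d → ℝ) :
    (Real.fourierChar (-⟪t, p + ∑ k, x k • u k⟫) : ℂ) =
      (∏ j, (Real.fourierChar (-(x j * ⟪t, u j⟫)) : ℂ)) * (Real.fourierChar (-⟪t, p⟫) : ℂ) := by
  have h1 : -⟪t, p + ∑ k, x k • u k⟫ = (∑ j, -(x j * ⟪t, u j⟫)) + -⟪t, p⟫ := by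
    rw [inner_add_right, inner_sum, Finset.sum_neg_distrib]
    simp only [inner_smul_right]
    ring
  have h2 : ∀ s : Finset (Fin d), (Real.fourierChar (∑ j ∈ s, -(x j * ⟪t, u j⟫)) : ℂ) =
      ∏ j ∈ s, (Real.fourierChar (-(x j * ⟪t, u j⟫)) : ℂ) := by
    intro s
    induction s using Finset.cons_induction with
    | empty => rw [Finset.sum_empty, Finset.prod_empty, AddChar.map_zero_eq_one, Circle.coe_one]
    | cons a s ha ih =>
      rw [Finset.sum_cons, Finset.prod_cons, AddChar.map_add_eq_mul, Circle.coe_mul, ih]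
  rw [h1, AddChar.map_add_eq_mul, Circle.coe_mul, h2]

theorem tile_int (hb : LinearIndependent ℝ (fun j => g (b j))) (t : E d) :
    ∫ x in tile g c b, (Real.fourierChar (-⟪t, x⟫) : ℂ) =
      ((vdet (fun j => g (b j)) * ∏ j, Real.sinc (Real.pi * ⟪t, g (b j)⟫) : ℝ) : ℂ) *
        (Real.fourierChar (-⟪t, cen g c b⟫) : ℂ) := by
  have hmp := PiLp.volume_preserving_ofLp (Fin d)
  have hinj : InjOn (fun e => cen g c b + SpxAux.lin (fun j => g (b j)) e) (tiCube d) := by
    intro x _ y _ h
    exact SpxAux.lin_inj hb (add_left_cancel h)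
  have hder : ∀ x ∈ tiCube d, HasFDerivWithinAt
      (fun e => cen g c b + SpxAux.lin (fun j => g (b j)) e)
      (SpxAux.lin (fun j => g (b j))) (tiCube d) x := by
    intro x _
    exact ((SpxAux.lin (fun j => g (b j))).hasFDerivAt.const_add _).hasFDerivWithinAt
  rw [ti_img, integral_image_eq_integral_abs_det_fderiv_smul volume (tiCube_meas d) hder hinj]
  rw [SpxAux.det_lin, integral_smul]
  have h2 : ∫ x in tiCube d, (Real.fourierChar (-⟪t, cen g c b +
        SpxAux.lin (fun j => g (b j)) x⟫) : ℂ) =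
      ∫ x in Set.pi univ fun _ : Fin d => Ioo (-(1 / 2) : ℝ) (1 / 2),
        (Real.fourierChar (-⟪t, cen g c b + ∑ k, x k • g (b k)⟫) : ℂ) := by
    have he : MeasurableEmbedding (@WithLp.ofLp 2 (Fin d → ℝ)) :=
      (MeasurableEquiv.toLp 2 (Fin d → ℝ)).symm.measurableEmbedding
    exact hmp.setIntegral_preimage_emb he
      (fun x => (Real.fourierChar (-⟪t, cen g c b + ∑ k, x k • g (b k)⟫) : ℂ)) _
  rw [h2]
  have h3 : ∀ x : Fin d → ℝ, (Real.fourierChar (-⟪t, cen g c b + ∑ k, x k • g (b k)⟫) : ℂ) =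
      (∏ j, (Real.fourierChar (-(x j * ⟪t, g (b j)⟫)) : ℂ)) *
        (Real.fourierChar (-⟪t, cen g c b⟫) : ℂ) := fun x => ti_char t _ _ x
  simp only [h3]
  rw [integral_mul_const, volume_pi, Measure.restrict_pi_pi,
    integral_fintype_prod_eq_prod (fun (j : Fin d) (μ : ℝ) =>
      (Real.fourierChar (-(μ * ⟪t, g (b j)⟫)) : ℂ))]
  simp only [sinc_int]
  push_cast
  rw [Complex.real_smul]
  ring

end Pool.Agent.MPbd65ca.Zo
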