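import Pool.Agent.Lib.MP_bd65ca_an_Z.TransA
import Pool.Agent.Lib.MP_bd65ca_an_Z.Disj
import Pool.Agent.Lib.MP_bd65ca_an_Z.Cover
import Pool.Agent.Lib.MP_bd65ca_an_Z.TileInt

/-!
# The Turán problem for zonotopes: the Fourier transform

PROOF. By `tile_subset`, `cover` and `tile_disj` the set `zono g` is, up to a null set, the disjoint
union of the tiles of the bases `b ∈ bas g`.  So the integral over `zono g` (`cosT_exp`,
`isCompact_zono`) is the sum of the integrals over the tiles: `integral_biUnion_finset`-type lemma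
(`MeasureTheory.integral_biUnion_finset` or `setIntegral_congr_set`), integrability on each tile: the
integrand is continuous and bounded by `1`, the tile is a subset of the compact set `zono g`.  Insert
`tile_int`.  `abs_cosT_zono_le`: triangle inequality, `‖fourierChar‖ = 1`.
`vol_zono`: `t = 0`: `cosT W 0 = volume.real W` (`cosT_props`), `sinc 0 = 1`.
-/

open MeasureTheory FourierTransform Pointwise Set
open scoped RealInnerProductSpace

namespace Pool.Agent.MPbd65ca.Zo

variable {d n : ℕ} {g : Fin n → E d} {c : Fin n → ℝ}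

private theorem bas_li {b : Fin d → Fin n} (hb : b ∈ bas g) :
    LinearIndependent ℝ (fun j => g (b j)) := by
  classical
  unfold bas at hb
  exact (Finset.mem_filter.1 hb).2.2

theorem cosT_zono (hc : Gp g c) (t : E d) : (cosT (zono g) t : ℂ) =
    ∑ b ∈ bas g, ((vdet (fun j => g (b j)) *
      ∏ j, Real.sinc (Real.pi * ⟪t, g (b j)⟫) : ℝ) : ℂ) *
        (Real.fourierChar (-⟪t, cen g c b⟫) : ℂ) := by
  rw [cosT_exp (isCompact_zono g) (neg_mem_zono g) t]
  have hae : (zono g : Set (E d)) =ᵐ[volume] ⋃ b ∈ bas g, tile g c b := by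
    filter_upwards [cover hc] with x hx
    apply propext
    constructor
    · intro h
      obtain ⟨b, hb, hxb⟩ := hx h
      exact mem_iUnion₂.2 ⟨b, hb, hxb⟩
    · intro h
      obtain ⟨b, hb, hxb⟩ := mem_iUnion₂.1 h
      exact tile_subset (bas_li hb) hxb
  rw [setIntegral_congr_set hae, integral_biUnion_finset]
  · refine Finset.sum_congr rfl fun b hb => ?_
    exact tile_int (bas_li hb) t
  · intro b hb
    exact measurableSet_tile (bas_li hb)
  · intro b hb b' hb' hne
    refine Set.disjoint_left.2 fun x hx hx' => hne ?_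
    exact tile_disj hc hb hb' hx hx'
  · intro b hb
    have hcon : Continuous fun x : E d => (Real.fourierChar (-⟪t, x⟫) : ℂ) := by
      fun_prop
    exact (hcon.continuousOn.integrableOn_compact (isCompact_zono g)).mono_set
      (tile_subset (bas_li hb))

theorem abs_cosT_zono_le (hc : Gp g c) (t : E d) : |cosT (zono g) t| ≤
    ∑ b ∈ bas g, vdet (fun j => g (b j)) * ∏ j, |Real.sinc (Real.pi * ⟪t, g (b j)⟫)| := by
  have h1 : |cosT (zono g) t| = ‖(cosT (zono g) t : ℂ)‖ := by
    rw [Complex.norm_real, Real.norm_eq_abs]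
  rw [h1, cosT_zono hc t]
  refine (norm_sum_le _ _).trans (Finset.sum_le_sum fun b hb => ?_)
  rw [norm_mul, Complex.norm_real, Circle.norm_coe, mul_one, Real.norm_eq_abs, abs_mul,
    Finset.abs_prod, abs_of_nonneg (vdet_nonneg _)]

theorem vol_zono (hc : Gp g c) :
    volume.real (zono g) = ∑ b ∈ bas g, vdet (fun j => g (b j)) := by
  have h1 := (cosT_props (isCompact_zono g) (neg_mem_zono g)).2.1
  have h2 := cosT_zono hc (0 : E d)
  rw [h1] at h2
  have h3 : (volume.real (zono g) : ℂ) = ((∑ b ∈ bas g, vdet (fun j => g (b j)) : ℝ) : ℂ) := by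
    rw [h2, Complex.ofReal_sum]
    refine Finset.sum_congr rfl fun b hb => ?_
    simp
  exact_mod_cast h3

end Pool.Agent.MPbd65ca.Zo
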