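import Pool.Agent.Lib.MP_bd65ca_an_Z.Defs

/-!
# The Turán problem for zonotopes: the vertices of the arrangement

PROOF. `zeta_spec`: the linear map `ζ ↦ (j ↦ ⟪g (b j), ζ⟫)` from `E d` to `Fin d → ℝ` is injective
(`d` linearly independent vectors span `E d`, and a vector orthogonal to all of them is `0`), hence
surjective (equal finite dimensions), so `zeta` is given by `Exists.choose`.  `zeta_unique`: the same
injectivity.  `sum_rr`: if `∑ α i • g i = 0` then
`∑ α i * c i = ∑ α i * (c i - ⟪g i, ζ⟫) = ∑ α i * rr i` and `rr (b j) = 0`.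
`rr_ne`: take `S = {b 0, ..., b (d-1), i}`; it has `d + 1` elements, so it is dependent and `Gp`
gives `α` with support in `S`; `0 ≠ ∑ α c = α i * rr i` by `sum_rr`.  `rr_sg`: definition of `sg`.
-/

open MeasureTheory FourierTransform Pointwise Set
open scoped RealInnerProductSpace

namespace Pool.Agent.MPbd65ca.Zo

variable {d n : ℕ} {g : Fin n → E d} {c : Fin n → ℝ} {b : Fin d → Fin n}

theorem mem_bas : b ∈ bas g ↔ StrictMono b ∧ LinearIndependent ℝ (fun j => g (b j)) := by
  simp [bas]

/-- the coordinates with respect to linearly independent vectors -/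
private noncomputable def cmap (v : Fin d → E d) : E d →ₗ[ℝ] (Fin d → ℝ) :=
  LinearMap.pi fun j => (innerSL ℝ (v j)).toLinearMap

private theorem cmap_apply (v : Fin d → E d) (z : E d) (j : Fin d) : cmap v z j = ⟪v j, z⟫ := rfl

private theorem span_top {v : Fin d → E d} (hv : LinearIndependent ℝ v) :
    Submodule.span ℝ (range v) = ⊤ := by
  apply LinearIndependent.span_eq_top_of_card_eq_finrank' hv
  simp

private theorem cmap_inj {v : Fin d → E d} (hv : LinearIndependent ℝ v) :
    Function.Injective (cmap v) := by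
  rw [← LinearMap.ker_eq_bot, LinearMap.ker_eq_bot']
  intro z hz
  have h1 : ∀ j, ⟪v j, z⟫ = 0 := fun j => by rw [← cmap_apply, hz]; rfl
  have h2 : ∀ w ∈ Submodule.span ℝ (range v), ⟪w, z⟫ = 0 := by
    intro w hw
    induction hw using Submodule.span_induction with
    | mem x hx => obtain ⟨j, rfl⟩ := hx; exact h1 j
    | zero => exact inner_zero_left _
    | add x y _ _ hx hy => rw [inner_add_left, hx, hy, add_zero]
    | smul a x _ hx => rw [real_inner_smul_left, hx, mul_zero]
  have h3 := h2 z (by rw [span_top hv]; trivial)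
  exact inner_self_eq_zero.1 h3

private theorem cmap_surj {v : Fin d → E d} (hv : LinearIndependent ℝ v) :
    Function.Surjective (cmap v) := by
  refine (LinearMap.injective_iff_surjective_of_finrank_eq_finrank ?_).1 (cmap_inj hv)
  simp

private theorem ex_zeta (hb : LinearIndependent ℝ (fun j => g (b j))) :
    ∃ ζ : E d, ∀ j, ⟪g (b j), ζ⟫ = c (b j) := by
  obtain ⟨z, hz⟩ := cmap_surj hb (fun j => c (b j))
  exact ⟨z, fun j => congrFun hz j⟩

theorem zeta_spec (hb : LinearIndependent ℝ (fun j => g (b j))) (j : Fin d) :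
    ⟪g (b j), zeta g c b⟫ = c (b j) := by
  have h : ∃ ζ : E d, ∀ j, ⟪g (b j), ζ⟫ = c (b j) := ex_zeta hb
  rw [zeta, dif_pos h]
  exact h.choose_spec j

theorem zeta_unique (hb : LinearIndependent ℝ (fun j => g (b j))) {ζ : E d}
    (h : ∀ j, ⟪g (b j), ζ⟫ = c (b j)) : ζ = zeta g c b := by
  apply cmap_inj hb
  funext j
  rw [cmap_apply, cmap_apply, h j, zeta_spec hb j]

theorem rr_basis (hb : LinearIndependent ℝ (fun j => g (b j))) (j : Fin d) :
    rr g c b (b j) = 0 := by
  rw [rr, zeta_spec hb j, sub_self]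

theorem sum_rr (hb : LinearIndependent ℝ (fun j => g (b j))) {α : Fin n → ℝ}
    (h0 : ∑ i, α i • g i = 0) : ∑ i, α i * c i = ∑ i, α i * rr g c b i := by
  have h1 : ∑ i, α i * ⟪g i, zeta g c b⟫ = 0 := by
    have h2 : ⟪∑ i, α i • g i, zeta g c b⟫ = 0 := by rw [h0, inner_zero_left]
    rw [sum_inner] at h2
    simpa only [real_inner_smul_left] using h2
  simp only [rr, mul_sub, Finset.sum_sub_distrib, h1, sub_zero]

theorem rr_ne (hc : Gp g c) (hb : LinearIndependent ℝ (fun j => g (b j))) {i : Fin n}
    (hi : i ∉ range b) : rr g c b i ≠ 0 := by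
  classical
  have hinj : Function.Injective b := by
    intro j k hjk
    have h1 : (fun j => g (b j)) j = (fun j => g (b j)) k := by simp only [hjk]
    exact hb.injective h1
  set S : Finset (Fin n) := insert i (Finset.univ.image b) with hS
  have hiS : i ∉ Finset.univ.image b := by
    intro h
    obtain ⟨j, -, hj⟩ := Finset.mem_image.1 h
    exact hi ⟨j, hj⟩
  have hcard : S.card = d + 1 := by
    rw [hS, Finset.card_insert_of_notMem hiS, Finset.card_image_of_injective _ hinj]
    simp
  have hdep : ¬ LinearIndependent ℝ (fun i : S => g i) := by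
    intro h
    have h1 := h.fintype_card_le_finrank
    simp [hcard] at h1
  obtain ⟨α, hα, h0, h1⟩ := hc S hdep
  rw [sum_rr hb h0] at h1
  intro h2
  apply h1
  refine Finset.sum_eq_zero fun k _ => ?_
  by_cases hk : k ∈ S
  · rw [hS, Finset.mem_insert] at hk
    rcases hk with rfl | hk
    · rw [h2, mul_zero]
    · obtain ⟨j, -, rfl⟩ := Finset.mem_image.1 hk
      rw [rr_basis hb j, mul_zero]
  · rw [hα k hk, zero_mul]

theorem sg_basis (j : Fin d) : sg g c b (b j) = 0 := by
  rw [sg, if_pos (mem_range_self j)]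

theorem abs_sg {i : Fin n} (hi : i ∉ range b) : |sg g c b i| = 1 / 2 := by
  rw [sg, if_neg hi]
  split_ifs
  · exact abs_of_pos (by norm_num)
  · rw [abs_neg]; exact abs_of_pos (by norm_num)

theorem abs_sg_le (i : Fin n) : |sg g c b i| ≤ 1 / 2 := by
  by_cases hi : i ∈ range b
  · obtain ⟨j, rfl⟩ := hi
    rw [sg_basis]
    norm_num
  · exact (abs_sg hi).le

theorem rr_mul_sg (hc : Gp g c) (hb : LinearIndependent ℝ (fun j => g (b j))) (i : Fin n) :
    rr g c b i * sg g c b i = |rr g c b i| / 2 := by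
  by_cases hi : i ∈ range b
  · obtain ⟨j, rfl⟩ := hi
    rw [sg_basis, rr_basis hb]
    simp
  · rw [sg, if_neg hi]
    split_ifs with h
    · rw [abs_of_pos h]; ring
    · rw [abs_of_nonpos (not_lt.1 h)]; ring

end Pool.Agent.MPbd65ca.Zo
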