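import Pool.Agent.Lib.MP_bd65ca_an.Pg.Basic

/-!
# The Turán problem for zonotopes: the function with positive mean

PROOF. Let `x = xz l z` (absolute value `1`).  `Re (x ^ 2) = 2 (Re x)^2 - 1`, and for unit complex
numbers `|Re (a b c)| ≤ |Re a| + |Re b| + |Re c|` (`Re (a w) = Re a Re w - Im a Im w`,
`|Im (b c)| ≤ |Re b| + |Re c|`; `Re z⁻¹ = Re z`), so
`1 + Re (x^2) ≤ 6 (c_0^2 + c_l^2 + c_{l+1}^2)`, `c_j = cr z j`.  Since
`c_i^2 - 2 c_i c_{i+2} ≤ (c_i - c_{i+2})^2 ≤ 2 (c_i - c_{i+1})^2 + 2 (c_{i+1} - c_{i+2})^2` and each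
of the last two squares is a term of the sum over a window of length `k` (`sum_window`, see the proof
of `Wn_le` in Pg/Win.lean), `Wz ≤ 6 * 3 * 2 * ∑ = 36 * ∑`.
-/

open MeasureTheory FourierTransform Pointwise Set
open scoped RealInnerProductSpace

namespace Pool.Agent.MPbd65ca.Zo

open Pool.Agent.MPbd65ca.Pg

variable {k : ℕ} {g : ℤ → E 2}

/-- The phase of half of the special frequency `2 (V_0 + g_l)`. -/
noncomputable def xz (l : ℤ) (z : ℤ → Circle) : Circle := z 0 * z (l + 1) * (z l)⁻¹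

/-- The function with the mean `1`. -/
noncomputable def Wz (z : ℤ → Circle) (l : ℤ) : ℝ :=
  1 + ((xz l z : ℂ) ^ 2).re - 12 * (cr z 0 * cr z 2) - 12 * (cr z l * cr z (l + 2)) -
    12 * (cr z (l + 1) * cr z (l + 3))

private theorem WinZ_sq (z : Circle) : (z : ℂ).re ^ 2 + (z : ℂ).im ^ 2 = 1 := by
  have h := Circle.normSq_coe z
  rw [Complex.normSq_apply] at h
  linarith

private theorem WinZ_re (a b c : Circle) :
    1 + (((a * b * c⁻¹ : Circle) : ℂ) ^ 2).re ≤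
      6 * ((a : ℂ).re ^ 2 + (b : ℂ).re ^ 2 + (c : ℂ).re ^ 2) := by
  have ha := WinZ_sq a
  have hb := WinZ_sq b
  have hc := WinZ_sq c
  have hx := WinZ_sq (a * b * c⁻¹)
  have h0 : (((a * b * c⁻¹ : Circle) : ℂ) ^ 2).re
      = 2 * ((a * b * c⁻¹ : Circle) : ℂ).re ^ 2 - 1 := by
    rw [pow_two, Complex.mul_re]
    nlinarith
  rw [h0]
  have h1 : ((a * b * c⁻¹ : Circle) : ℂ).re
      = (a : ℂ).re * ((b : ℂ).re * (c : ℂ).re + (b : ℂ).im * (c : ℂ).im)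
        - (a : ℂ).im * ((b : ℂ).im * (c : ℂ).re - (b : ℂ).re * (c : ℂ).im) := by
    rw [Circle.coe_mul, Circle.coe_mul, Circle.coe_inv_eq_conj]
    simp only [Complex.mul_re, Complex.mul_im, Complex.conj_re, Complex.conj_im]
    ring
  rw [h1]
  obtain ⟨p, hp⟩ : ∃ p, p = (a : ℂ).re := ⟨_, rfl⟩
  obtain ⟨P, hP⟩ : ∃ P, P = (a : ℂ).im := ⟨_, rfl⟩
  obtain ⟨q, hq⟩ : ∃ q, q = (b : ℂ).re := ⟨_, rfl⟩
  obtain ⟨Q, hQ⟩ : ∃ Q, Q = (b : ℂ).im := ⟨_, rfl⟩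
  obtain ⟨r, hr⟩ : ∃ r, r = (c : ℂ).re := ⟨_, rfl⟩
  obtain ⟨R, hR⟩ : ∃ R, R = (c : ℂ).im := ⟨_, rfl⟩
  rw [← hp, ← hP] at ha
  rw [← hq, ← hQ] at hb
  rw [← hr, ← hR] at hc
  rw [← hp, ← hP, ← hq, ← hQ, ← hr, ← hR]
  have u1 : (p * (q * r + Q * R)) ^ 2 ≤ p ^ 2 := by
    have e : (q * r + Q * R) ^ 2 + (Q * r - q * R) ^ 2 = 1 := by
      have : (q * r + Q * R) ^ 2 + (Q * r - q * R) ^ 2 = (q ^ 2 + Q ^ 2) * (r ^ 2 + R ^ 2) := by
        ring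
      rw [this, hb, hc, one_mul]
    have e2 : (q * r + Q * R) ^ 2 ≤ 1 := by nlinarith [sq_nonneg (Q * r - q * R)]
    calc (p * (q * r + Q * R)) ^ 2 = p ^ 2 * (q * r + Q * R) ^ 2 := by ring
      _ ≤ p ^ 2 * 1 := mul_le_mul_of_nonneg_left e2 (sq_nonneg p)
      _ = p ^ 2 := mul_one _
  have u2 : (P * Q * r) ^ 2 ≤ r ^ 2 := by
    have e1 : P ^ 2 ≤ 1 := by nlinarith [sq_nonneg p]
    have e2 : Q ^ 2 ≤ 1 := by nlinarith [sq_nonneg q]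
    have e3 : P ^ 2 * Q ^ 2 ≤ 1 := mul_le_one₀ e1 (sq_nonneg Q) e2
    calc (P * Q * r) ^ 2 = P ^ 2 * Q ^ 2 * r ^ 2 := by ring
      _ ≤ 1 * r ^ 2 := mul_le_mul_of_nonneg_right e3 (sq_nonneg r)
      _ = r ^ 2 := one_mul _
  have u3 : (P * q * R) ^ 2 ≤ q ^ 2 := by
    have e1 : P ^ 2 ≤ 1 := by nlinarith [sq_nonneg p]
    have e2 : R ^ 2 ≤ 1 := by nlinarith [sq_nonneg r]
    have e3 : P ^ 2 * R ^ 2 ≤ 1 := mul_le_one₀ e1 (sq_nonneg R) e2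
    calc (P * q * R) ^ 2 = P ^ 2 * R ^ 2 * q ^ 2 := by ring
      _ ≤ 1 * q ^ 2 := mul_le_mul_of_nonneg_right e3 (sq_nonneg q)
      _ = q ^ 2 := one_mul _
  have e : p * (q * r + Q * R) - P * (Q * r - q * R)
      = p * (q * r + Q * R) - P * Q * r + P * q * R := by ring
  rw [e]
  have v : ∀ X Y Z : ℝ, (X - Y + Z) ^ 2 ≤ 3 * (X ^ 2 + Y ^ 2 + Z ^ 2) := fun X Y Z => by
    nlinarith [sq_nonneg (X + Y), sq_nonneg (X - Z), sq_nonneg (Y + Z)]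
  have w := v (p * (q * r + Q * R)) (P * Q * r) (P * q * R)
  linarith

private theorem WinZ_term (hk : 4 ≤ k) {z : ℤ → Circle} (hz : Ph k z) (i : ℤ) :
    cr z i ^ 2 - 2 * (cr z i * cr z (i + 2)) ≤
      2 * ∑ j ∈ Finset.range k, (cr z j - cr z (j + 1)) ^ 2 := by
  have h3 := sum_window k (fun j : ℤ => (cr z j - cr z (j + 1)) ^ 2) (fun j => by
    have e : j + k + 1 = j + 1 + k := by ring
    rw [e, cr_per hz, cr_per hz]) i
  have h4 : ∑ m ∈ Finset.range 2, (cr z (i + m) - cr z (i + m + 1)) ^ 2 ≤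
      ∑ m ∈ Finset.range k, (cr z (i + m) - cr z (i + m + 1)) ^ 2 :=
    Finset.sum_le_sum_of_subset_of_nonneg (Finset.range_subset_range.2 (by omega))
      fun _ _ _ => sq_nonneg _
  have h5 : ∑ m ∈ Finset.range 2, (cr z (i + m) - cr z (i + m + 1)) ^ 2 =
      (cr z i - cr z (i + 1)) ^ 2 + (cr z (i + 1) - cr z (i + 2)) ^ 2 := by
    rw [Finset.sum_range_succ, Finset.sum_range_one]
    have e0 : i + ((0 : ℕ) : ℤ) = i := by simp
    have e1 : i + ((1 : ℕ) : ℤ) = i + 1 := by simp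
    have e2 : i + 1 + 1 = i + 2 := by ring
    rw [e0, e1, e2]
  have h6 : (cr z i - cr z (i + 2)) ^ 2 ≤
      2 * ((cr z i - cr z (i + 1)) ^ 2 + (cr z (i + 1) - cr z (i + 2)) ^ 2) := by
    nlinarith [sq_nonneg (cr z i - cr z (i + 1) - (cr z (i + 1) - cr z (i + 2)))]
  have h7 : cr z i ^ 2 - 2 * (cr z i * cr z (i + 2)) ≤ (cr z i - cr z (i + 2)) ^ 2 := by
    nlinarith [sq_nonneg (cr z (i + 2))]
  linarith

theorem Wz_le (hk : 4 ≤ k) {z : ℤ → Circle} (hz : Ph k z) (l : ℤ) :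
    Wz z l ≤ 36 * ∑ j ∈ Finset.range k, (cr z j - cr z (j + 1)) ^ 2 := by
  have h1 := WinZ_re (z 0) (z (l + 1)) (z l)
  have h2 : 1 + ((xz l z : ℂ) ^ 2).re ≤
      6 * (cr z 0 ^ 2 + cr z (l + 1) ^ 2 + cr z l ^ 2) := h1
  have t0 := WinZ_term hk hz 0
  have t1 := WinZ_term hk hz l
  have t2 := WinZ_term hk hz (l + 1)
  have e0 : (0 : ℤ) + 2 = 2 := by norm_num
  have e3 : l + 1 + 2 = l + 3 := by ring
  rw [e0] at t0
  rw [e3] at t2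
  simp only [Wz]
  linarith

end Pool.Agent.MPbd65ca.Zo
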